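import Pool.Agent.Lib.LTL.Form

/-!
# Module LTL.FormDiff: differences of twisted cubic forms (MP_61e83e_lc)

PROOFS. `triv_cub`: `2 * ∑ c3 i j k σ(z i) z j z k = ∑ (c3 i j k + c3 i k j) σ(z i) z j z k = 0` (in one of the
two copies exchange the names of `j` and `k`, `Finset.sum_comm`), `2 ≠ 0`.
`diff1`: expand `σ (z i + h i) (z j + h j)` (`map_add`); the terms `σ(z i) z j` cancel.
`diff2`: for the cubic part let `B x y w = ∑ c3 i j k σ(x i) y j w k` (additive in each argument). The second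
difference of `B z z z` with steps `h, h'` is the sum of `B` over all triples of elements of `{z, h, h'}`
which contain both `h` and `h'`: the six permutations of `(z, h, h')` and the six triples with only `h, h'`
(`con`). The six permutations give `∑ c3 i j k (σ(z i) (h j h' k + h' j h k) + σ(h i) (z j h' k + h' j z k)
+ σ(h' i) (z j h k + h j z k))`, and exchanging the names `j, k` in the second terms this is
`∑ (c3 i j k + c3 i k j) (σ(z i) h j h' k + σ(h i) z j h' k + σ(h' i) z j h k)`. The quadratic part gives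
`∑ c2 i j (σ(h i) h' j + σ(h' i) h j)` (into `con`), the linear part gives `0`. (For a fixed triple
`(i, j, k)` all this is a polynomial identity after `map_add`: `ring` under the sums.)
`regroup`: `T (σ (z i) * A) = T (z i * τ A)` because `σ (z i) * A = σ (z i * τ A)`; collect the coefficient of
each `z i` (`Finset.sum_comm`, `Finset.mul_sum`).
-/

set_option autoImplicit false
set_option linter.unusedVariables false
open Classical

namespace LTL

variable {K ι : Type} [Field K] [Fintype ι]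

theorem triv_cub (h2 : (2 : K) ≠ 0) (σ : K ≃+* K) (P : CForm K ι)
    (h : ∀ i j k, P.c3 i j k + P.c3 i k j = 0) (z : ι → K) :
    ∑ i, ∑ j, ∑ k, P.c3 i j k * σ (z i) * z j * z k = 0 := by
  have e : ∑ i, ∑ j, ∑ k, P.c3 i j k * σ (z i) * z j * z k =
      ∑ i, ∑ j, ∑ k, P.c3 i k j * σ (z i) * z k * z j := by
    refine Finset.sum_congr rfl fun i _ => ?_
    exact Finset.sum_comm
  have e2 : (∑ i, ∑ j, ∑ k, P.c3 i j k * σ (z i) * z j * z k) +
      (∑ i, ∑ j, ∑ k, P.c3 i j k * σ (z i) * z j * z k) = 0 := by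
    nth_rewrite 2 [e]
    simp only [← Finset.sum_add_distrib]
    refine Finset.sum_eq_zero fun i _ => Finset.sum_eq_zero fun j _ =>
      Finset.sum_eq_zero fun k _ => ?_
    linear_combination (σ (z i) * z j * z k) * h i j k
  have e3 : (2 : K) * (∑ i, ∑ j, ∑ k, P.c3 i j k * σ (z i) * z j * z k) = 0 := by
    rw [two_mul]; exact e2
  exact (mul_eq_zero.mp e3).resolve_left h2

/-- first difference, without cubic part -/
theorem diff1 (σ : K ≃+* K) (P : CForm K ι)
    (h : ∀ z : ι → K, ∑ i, ∑ j, ∑ k, P.c3 i j k * σ (z i) * z j * z k = 0) (z h : ι → K) :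
    P.val σ (z + h) - P.val σ z =
      (∑ i, ∑ j, P.c2 i j * (σ (z i) * h j + σ (h i) * z j)) + P.val σ h := by
  rename_i h0
  have q : (∑ i, ∑ j, P.c2 i j * σ ((z + h) i) * (z + h) j) =
      (∑ i, ∑ j, P.c2 i j * σ (z i) * z j) +
        (∑ i, ∑ j, P.c2 i j * (σ (z i) * h j + σ (h i) * z j)) +
        (∑ i, ∑ j, P.c2 i j * σ (h i) * h j) := by
    simp only [← Finset.sum_add_distrib]
    refine Finset.sum_congr rfl fun i _ => Finset.sum_congr rfl fun j _ => ?_
    rw [Pi.add_apply, Pi.add_apply, map_add]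
    ring
  have l : (∑ i, P.c1 i * (z + h) i) = (∑ i, P.c1 i * z i) + ∑ i, P.c1 i * h i := by
    simp only [← Finset.sum_add_distrib]
    refine Finset.sum_congr rfl fun i _ => ?_
    rw [Pi.add_apply]
    ring
  unfold CForm.val
  rw [h0, h0, h0, q, l]
  ring

/-- second difference -/
theorem diff2 (σ : K ≃+* K) (P : CForm K ι) : ∃ con : (ι → K) → (ι → K) → K, ∀ z h h' : ι → K,
    (P.val σ (z + h' + h) - P.val σ (z + h')) - (P.val σ (z + h) - P.val σ z) =
      (∑ i, ∑ j, ∑ k, (P.c3 i j k + P.c3 i k j) * (σ (z i) * h j * h' k + σ (h i) * z j * h' k +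
        σ (h' i) * z j * h k)) + con h h' := by
  refine ⟨fun h h' => (∑ i, ∑ j, ∑ k, P.c3 i j k * (σ (h i) * h j * h' k + σ (h i) * h' j * h k +
    σ (h' i) * h j * h k + σ (h i) * h' j * h' k + σ (h' i) * h j * h' k +
    σ (h' i) * h' j * h k)) + ∑ i, ∑ j, P.c2 i j * (σ (h i) * h' j + σ (h' i) * h j), ?_⟩
  intro z h h'
  have c : ((∑ i, ∑ j, ∑ k, P.c3 i j k * σ ((z + h' + h) i) * (z + h' + h) j * (z + h' + h) k) -
      (∑ i, ∑ j, ∑ k, P.c3 i j k * σ ((z + h') i) * (z + h') j * (z + h') k)) -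
      ((∑ i, ∑ j, ∑ k, P.c3 i j k * σ ((z + h) i) * (z + h) j * (z + h) k) -
        (∑ i, ∑ j, ∑ k, P.c3 i j k * σ (z i) * z j * z k)) =
      (∑ i, ∑ j, ∑ k, P.c3 i j k * (σ (z i) * h j * h' k + σ (h i) * z j * h' k +
        σ (h' i) * z j * h k)) +
      (∑ i, ∑ j, ∑ k, P.c3 i j k * (σ (z i) * h k * h' j + σ (h i) * z k * h' j +
        σ (h' i) * z k * h j)) +
      (∑ i, ∑ j, ∑ k, P.c3 i j k * (σ (h i) * h j * h' k + σ (h i) * h' j * h k +
        σ (h' i) * h j * h k + σ (h i) * h' j * h' k + σ (h' i) * h j * h' k +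
        σ (h' i) * h' j * h k)) := by
    simp only [← Finset.sum_add_distrib, ← Finset.sum_sub_distrib]
    refine Finset.sum_congr rfl fun i _ => Finset.sum_congr rfl fun j _ =>
      Finset.sum_congr rfl fun k _ => ?_
    simp only [Pi.add_apply, map_add]
    ring
  have c' : (∑ i, ∑ j, ∑ k, P.c3 i j k * (σ (z i) * h k * h' j + σ (h i) * z k * h' j +
        σ (h' i) * z k * h j)) = ∑ i, ∑ j, ∑ k, P.c3 i k j * (σ (z i) * h j * h' k +
        σ (h i) * z j * h' k + σ (h' i) * z j * h k) := by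
    refine Finset.sum_congr rfl fun i _ => ?_
    exact Finset.sum_comm
  have c'' : (∑ i, ∑ j, ∑ k, (P.c3 i j k + P.c3 i k j) * (σ (z i) * h j * h' k +
        σ (h i) * z j * h' k + σ (h' i) * z j * h k)) =
      (∑ i, ∑ j, ∑ k, P.c3 i j k * (σ (z i) * h j * h' k +
        σ (h i) * z j * h' k + σ (h' i) * z j * h k)) +
      ∑ i, ∑ j, ∑ k, P.c3 i k j * (σ (z i) * h j * h' k +
        σ (h i) * z j * h' k + σ (h' i) * z j * h k) := by
    simp only [← Finset.sum_add_distrib, add_mul]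
  have q : ((∑ i, ∑ j, P.c2 i j * σ ((z + h' + h) i) * (z + h' + h) j) -
      (∑ i, ∑ j, P.c2 i j * σ ((z + h') i) * (z + h') j)) -
      ((∑ i, ∑ j, P.c2 i j * σ ((z + h) i) * (z + h) j) -
        (∑ i, ∑ j, P.c2 i j * σ (z i) * z j)) =
      ∑ i, ∑ j, P.c2 i j * (σ (h i) * h' j + σ (h' i) * h j) := by
    simp only [← Finset.sum_sub_distrib]
    refine Finset.sum_congr rfl fun i _ => Finset.sum_congr rfl fun j _ => ?_
    simp only [Pi.add_apply, map_add]
    ring
  have l : ((∑ i, P.c1 i * (z + h' + h) i) - (∑ i, P.c1 i * (z + h') i)) -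
      ((∑ i, P.c1 i * (z + h) i) - (∑ i, P.c1 i * z i)) = 0 := by
    simp only [← Finset.sum_sub_distrib]
    refine Finset.sum_eq_zero fun i _ => ?_
    simp only [Pi.add_apply]
    ring
  rw [c''] 
  unfold CForm.val
  linear_combination c + c' + q + l

theorem regroup1 {A : Type} [CommMonoid A] (σ : K ≃+* K) (ψ : AddChar K A)
    (hψ : ∀ x, ψ (σ x) = ψ x) (c2 : ι → ι → K) (z h : ι → K) :
    ψ (∑ i, ∑ j, c2 i j * (σ (z i) * h j + σ (h i) * z j)) =
      ψ (∑ i, z i * (σ.symm (∑ j, c2 i j * h j) + ∑ j, c2 j i * σ (h j))) := by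
  have e1 : (∑ i, ∑ j, c2 i j * (σ (z i) * h j + σ (h i) * z j)) =
      σ (∑ i, z i * σ.symm (∑ j, c2 i j * h j)) + ∑ i, z i * ∑ j, c2 j i * σ (h j) := by
    have a : σ (∑ i, z i * σ.symm (∑ j, c2 i j * h j)) = ∑ i, ∑ j, c2 i j * (σ (z i) * h j) := by
      rw [map_sum]
      refine Finset.sum_congr rfl fun i _ => ?_
      rw [map_mul, RingEquiv.apply_symm_apply, Finset.mul_sum]
      refine Finset.sum_congr rfl fun j _ => ?_
      ring
    have b : (∑ i, z i * ∑ j, c2 j i * σ (h j)) = ∑ i, ∑ j, c2 i j * (σ (h i) * z j) := by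
      rw [Finset.sum_comm]
      refine Finset.sum_congr rfl fun i _ => ?_
      rw [Finset.mul_sum]
      refine Finset.sum_congr rfl fun j _ => ?_
      ring
    rw [a, b]
    simp only [← Finset.sum_add_distrib]
    refine Finset.sum_congr rfl fun i _ => Finset.sum_congr rfl fun j _ => ?_
    ring
  have e2 : (∑ i, z i * (σ.symm (∑ j, c2 i j * h j) + ∑ j, c2 j i * σ (h j))) =
      (∑ i, z i * σ.symm (∑ j, c2 i j * h j)) + ∑ i, z i * ∑ j, c2 j i * σ (h j) := by
    simp only [mul_add, Finset.sum_add_distrib]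
  rw [e1, e2, AddChar.map_add_eq_mul, AddChar.map_add_eq_mul, hψ]

theorem regroup2 {A : Type} [CommMonoid A] (σ : K ≃+* K) (ψ : AddChar K A)
    (hψ : ∀ x, ψ (σ x) = ψ x) (s : ι → ι → ι → K) (hs : ∀ i j k, s i j k = s i k j)
    (z h h' : ι → K) :
    ψ (∑ i, ∑ j, ∑ k, s i j k * (σ (z i) * h j * h' k + σ (h i) * z j * h' k +
        σ (h' i) * z j * h k)) =
      ψ (∑ i, z i * (σ.symm (∑ j, ∑ k, s i j k * h j * h' k) +
        (∑ a, ∑ k, s a i k * σ (h a) * h' k) + ∑ a, ∑ k, s a i k * σ (h' a) * h k)) := by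
  have a : σ (∑ i, z i * σ.symm (∑ j, ∑ k, s i j k * h j * h' k)) =
      ∑ i, ∑ j, ∑ k, s i j k * (σ (z i) * h j * h' k) := by
    rw [map_sum]
    refine Finset.sum_congr rfl fun i _ => ?_
    rw [map_mul, RingEquiv.apply_symm_apply, Finset.mul_sum]
    refine Finset.sum_congr rfl fun j _ => ?_
    rw [Finset.mul_sum]
    refine Finset.sum_congr rfl fun k _ => ?_
    ring
  have b : ∀ u v : ι → K, (∑ i, z i * ∑ a, ∑ k, s a i k * σ (u a) * v k) =
      ∑ i, ∑ j, ∑ k, s i j k * (σ (u i) * z j * v k) := by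
    intro u v
    rw [Finset.sum_comm]
    refine Finset.sum_congr rfl fun i _ => ?_
    rw [Finset.mul_sum]
    refine Finset.sum_congr rfl fun j _ => ?_
    rw [Finset.mul_sum]
    refine Finset.sum_congr rfl fun k _ => ?_
    ring
  have e1 : (∑ i, ∑ j, ∑ k, s i j k * (σ (z i) * h j * h' k + σ (h i) * z j * h' k +
        σ (h' i) * z j * h k)) =
      σ (∑ i, z i * σ.symm (∑ j, ∑ k, s i j k * h j * h' k)) +
        ((∑ i, z i * ∑ a, ∑ k, s a i k * σ (h a) * h' k) +
          ∑ i, z i * ∑ a, ∑ k, s a i k * σ (h' a) * h k) := by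
    rw [a, b, b]
    simp only [← Finset.sum_add_distrib]
    refine Finset.sum_congr rfl fun i _ => Finset.sum_congr rfl fun j _ =>
      Finset.sum_congr rfl fun k _ => ?_
    ring
  have e2 : (∑ i, z i * (σ.symm (∑ j, ∑ k, s i j k * h j * h' k) +
        (∑ a, ∑ k, s a i k * σ (h a) * h' k) + ∑ a, ∑ k, s a i k * σ (h' a) * h k)) =
      (∑ i, z i * σ.symm (∑ j, ∑ k, s i j k * h j * h' k)) +
        ((∑ i, z i * ∑ a, ∑ k, s a i k * σ (h a) * h' k) +
          ∑ i, z i * ∑ a, ∑ k, s a i k * σ (h' a) * h k) := by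
    simp only [mul_add, Finset.sum_add_distrib, add_assoc]
  rw [e1, e2, AddChar.map_add_eq_mul ψ (σ _), AddChar.map_add_eq_mul ψ (∑ i, z i * σ.symm _), hψ]

end LTL
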