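import Mathlib

/-!
# Module LTL.Vdc: differencing of exponential sums on a finite abelian group (MP_61e83e_lc)

`G` is a finite abelian group, `ψ` a character of an abelian group `A` with values in `ℂ` (`A` finite),
`f : G → A`. PROOFS. `|∑ z, ψ (f z)| ^ 2 = ∑ z, ∑ y, ψ (f y) * conj ψ (f z)
= ∑ z, ∑ h, ψ (f (z + h) - f z)` (`AddChar.map_neg_eq_conj`, `ψ` has absolute value 1:
`AddChar.norm_apply`). `vdc1`: this sum (a real number, so equal to its norm) is at most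
`∑ h, ‖∑ z, ψ (f (z + h) - f z)‖`. `vdc2`: by `vdc1` and Cauchy-Schwarz,
`|∑ z, ψ (f z)| ^ 4 ≤ (∑ h, ‖∑ z, ψ (f (z + h) - f z)‖) ^ 2 ≤ |G| ∑ h, ‖∑ z, ψ (f (z + h) - f z)‖ ^ 2`
and `vdc1` for the functions `z ↦ f (z + h) - f z`.
`lin_sum`: let `g z = ℓ z + c` with `ℓ` additive. If some `ψ (ℓ z₀) ≠ 1` then `∑ z, ψ (g z) = 0`
(`ψ ∘ ℓ` is a nontrivial character of `G`, `AddChar.sum_eq_zero_of_ne_one`); always
`‖∑ z, ψ (g z)‖ ≤ |G|`.
-/

set_option autoImplicit false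
open Classical

namespace LTL

theorem vdc1 {G A : Type} [AddCommGroup G] [Fintype G] [AddCommGroup A] [Finite A]
    (ψ : AddChar A ℂ) (f : G → A) :
    ‖∑ z, ψ (f z)‖ ^ 2 ≤ ∑ h, ‖∑ z, ψ (f (z + h) - f z)‖ := by
  have h1 : ((‖∑ z, ψ (f z)‖ ^ 2 : ℝ) : ℂ) = ∑ h, ∑ z, ψ (f (z + h) - f z) := by
    have e1 : ((‖∑ z, ψ (f z)‖ ^ 2 : ℝ) : ℂ) =
        (starRingEnd ℂ) (∑ z, ψ (f z)) * ∑ y, ψ (f y) := by
      rw [mul_comm, Complex.mul_conj, Complex.normSq_eq_norm_sq]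
    rw [e1, map_sum, Finset.sum_mul, Finset.sum_comm]
    apply Finset.sum_congr rfl
    intro z _
    rw [Finset.mul_sum, ← Equiv.sum_comp (Equiv.addLeft z)]
    apply Finset.sum_congr rfl
    intro h _
    rw [Equiv.coe_addLeft, sub_eq_add_neg, AddChar.map_add_eq_mul, AddChar.map_neg_eq_conj, mul_comm]
  have h2 : ‖∑ z, ψ (f z)‖ ^ 2 = ‖∑ h, ∑ z, ψ (f (z + h) - f z)‖ := by
    rw [← h1, Complex.norm_real, Real.norm_of_nonneg (by positivity)]
  rw [h2]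
  exact norm_sum_le _ _

theorem vdc2 {G A : Type} [AddCommGroup G] [Fintype G] [AddCommGroup A] [Finite A]
    (ψ : AddChar A ℂ) (f : G → A) :
    ‖∑ z, ψ (f z)‖ ^ 4 ≤ Fintype.card G *
      ∑ h, ∑ h', ‖∑ z, ψ ((f (z + h' + h) - f (z + h')) - (f (z + h) - f z))‖ := by
  have h1 := vdc1 ψ f
  have h2 : ‖∑ z, ψ (f z)‖ ^ 4 = (‖∑ z, ψ (f z)‖ ^ 2) ^ 2 := by ring
  rw [h2]
  calc (‖∑ z, ψ (f z)‖ ^ 2) ^ 2 ≤ (∑ h, ‖∑ z, ψ (f (z + h) - f z)‖) ^ 2 := by
        apply pow_le_pow_left₀ (by positivity) h1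
    _ ≤ (Finset.univ : Finset G).card * ∑ h, ‖∑ z, ψ (f (z + h) - f z)‖ ^ 2 :=
        sq_sum_le_card_mul_sum_sq
    _ = Fintype.card G * ∑ h, ‖∑ z, ψ (f (z + h) - f z)‖ ^ 2 := by
        rw [Finset.card_univ]
    _ ≤ _ := by
        apply mul_le_mul_of_nonneg_left _ (by positivity)
        apply Finset.sum_le_sum
        intro h _
        exact vdc1 ψ (fun z => f (z + h) - f z)

theorem lin_sum {G A : Type} [AddCommGroup G] [Fintype G] [AddCommGroup A] [Finite A]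
    (ψ : AddChar A ℂ) (l : G →+ A) (c : A) (g : G → A) (hg : ∀ z, g z = l z + c) :
    ‖∑ z, ψ (g z)‖ ≤ if ∀ z, ψ (l z) = 1 then (Fintype.card G : ℝ) else 0 := by
  split_ifs with h
  · calc ‖∑ z, ψ (g z)‖ ≤ ∑ z, ‖ψ (g z)‖ := norm_sum_le _ _
      _ = ∑ z : G, (1 : ℝ) := by
          apply Finset.sum_congr rfl
          intro z _
          exact AddChar.norm_apply ψ _
      _ = Fintype.card G := by simp
  · have e : ∑ z, ψ (g z) = (∑ z, (ψ.compAddMonoidHom l) z) * ψ c := by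
      rw [Finset.sum_mul]
      apply Finset.sum_congr rfl
      intro z _
      rw [hg z, AddChar.map_add_eq_mul, AddChar.compAddMonoidHom_apply]
    have hne : ψ.compAddMonoidHom l ≠ 1 := by
      intro h0
      apply h
      intro z
      have := DFunLike.congr_fun h0 z
      rwa [AddChar.compAddMonoidHom_apply, AddChar.one_apply] at this
    rw [e, AddChar.sum_eq_zero_of_ne_one hne]
    simp

end LTL
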