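import Pool.Agent.Lib.LTL.BiasCnt
import Pool.Agent.Lib.LTL.FormDiff
import Pool.Agent.Lib.LTL.Vdc

/-!
# Module LTL.Bias: exponential sums of twisted cubic forms (MP_61e83e_lc)

Notation: `Q = |K|`, `τ = σ⁻¹`, `G = ι → K`, `S = ∑ z, ψ (P.val σ z)`, `s i j k = c3 i j k + c3 i k j`.
`ψ` is nontrivial and `ψ (σ x) = ψ x` (for instance `ψ x = exp (2 π i Tr x / p)` with the absolute trace;
the general case follows by scaling the coefficients, see `LTL.Equi`). If `ψ (a x) = 1` for all `x` then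
`a = 0`; so `∀ z, ψ (∑ i, z i * C i) = 1` implies all `C i = 0` (take `z = Pi.single i x`).

PROOF. Case 1: all `s i j k = 0` and all `c2 i j = 0`: some `c1 i ≠ 0`. If `p ≠ 2`, the cubic part of
`P.val` vanishes identically (`triv_cub`); if `p = 2`, `c3 = 0` by `h3`. So `P.val z = ∑ c1 i z i` is
additive and `S = 0` (`lin_sum`).
Case 2: all `s i j k = 0` (so, as before, no cubic part) and some `c2 i j ≠ 0`. By `vdc1`,
`|S| ^ 2 ≤ ∑ h, ‖∑ z, ψ (P (z + h) - P z)‖`; by `diff1`, `regroup1` and `lin_sum` (the map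
`z ↦ ∑ i j, c2 i j (σ(z i) h j + σ(h i) z j)` is additive) the norm of the inner sum is at most `|G|` if all the
coefficients `τ (∑ j, c2 i j h j) + ∑ j, c2 j i σ(h j)` vanish, otherwise it is `0`. By `cnt1`:
`|S| ^ 2 Q ≤ p ^ 2 |G| ^ 2`; with the trivial bound `|S| ≤ |G|`: `|S| ^ 4 Q ≤ p ^ 2 |G| ^ 4`.
Case 3: some `s i j k ≠ 0`. By `vdc2`, `diff2`, `regroup2`, `lin_sum` and `cnt2`:
`|S| ^ 4 ≤ |G| * |G| * #{(h, h') : all C i = 0}`, `|S| ^ 4 Q ≤ |G| ^ 2 * 2 p ^ 2 |G| ^ 2`.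
-/

set_option autoImplicit false
open Classical

namespace LTL

namespace BiasAux

variable {K ι : Type} [Field K] [Fintype ι]

/-- the additive map `z ↦ ∑ z i * C i` -/
noncomputable def L (C : ι → K) : (ι → K) →+ K where
  toFun z := ∑ i, z i * C i
  map_zero' := by simp
  map_add' z w := by
    simp only [Pi.add_apply, add_mul, Finset.sum_add_distrib]

theorem coef (ψ : AddChar K ℂ) (hψ : ψ ≠ 1) (C : ι → K) (h : ∀ z, ψ (L C z) = 1) :
    ∀ i, C i = 0 := by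
  intro i
  by_contra hC
  obtain ⟨x, hx⟩ := AddChar.ne_one_iff.1 hψ
  apply hx
  have h1 := h (Pi.single i (x / C i))
  have h2 : L C (Pi.single i (x / C i)) = x := by
    show ∑ j, (Pi.single i (x / C i) : ι → K) j * C j = x
    rw [Finset.sum_eq_single i]
    · rw [Pi.single_eq_same, div_mul_cancel₀ _ hC]
    · intro j _ hj
      rw [Pi.single_eq_of_ne hj, zero_mul]
    · intro hi
      exact absurd (Finset.mem_univ _) hi
  rwa [h2] at h1

theorem lin_bd [Fintype K] (ψ : AddChar K ℂ) (hψ : ψ ≠ 1) (C : ι → K) (c : K) (g : (ι → K) → K)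
    (hg : ∀ z, ψ (g z) = ψ ((∑ i, z i * C i) + c)) :
    ‖∑ z, ψ (g z)‖ ≤ if ∀ i, C i = 0 then (Fintype.card (ι → K) : ℝ) else 0 := by
  rw [Finset.sum_congr rfl fun z _ => hg z]
  refine (lin_sum ψ (L C) c (fun z => (∑ i, z i * C i) + c) (fun z => rfl)).trans ?_
  by_cases h : ∀ i, C i = 0
  · rw [if_pos h]
    split_ifs
    · exact le_refl _
    · exact Nat.cast_nonneg _
  · rw [if_neg h, if_neg fun hh => h (coef ψ hψ C hh)]

theorem triv_bd [Fintype K] (ψ : AddChar K ℂ) (g : (ι → K) → K) :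
    ‖∑ z, ψ (g z)‖ ≤ (Fintype.card (ι → K) : ℝ) := by
  refine (norm_sum_le _ _).trans ?_
  simp only [AddChar.norm_apply, Finset.sum_const, Finset.card_univ, nsmul_eq_mul, mul_one]
  exact le_refl _

theorem cub_zero (p : ℕ) [Fact p.Prime] [CharP K p] (σ : K ≃+* K) (P : CForm K ι)
    (h3 : p = 2 → ∀ i j k, P.c3 i j k = 0) (hs : ∀ i j k, P.c3 i j k + P.c3 i k j = 0)
    (z : ι → K) : ∑ i, ∑ j, ∑ k, P.c3 i j k * σ (z i) * z j * z k = 0 := by
  by_cases hp : p = 2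
  · simp [h3 hp]
  · refine triv_cub ?_ σ P hs z
    intro h2
    have h4 : ((2 : ℕ) : K) = 0 := by exact_mod_cast h2
    rw [CharP.cast_eq_zero_iff K p 2] at h4
    exact hp ((Nat.prime_dvd_prime_iff_eq Fact.out Nat.prime_two).1 h4)

end BiasAux

theorem bias {K ι : Type} [Field K] [Fintype K] [Fintype ι] (p : ℕ) [Fact p.Prime] [CharP K p]
    (σ : K ≃+* K) (hσ : ∀ x, σ (σ x) = x ^ p) (ψ : AddChar K ℂ) (hψ : ψ ≠ 1)
    (hψσ : ∀ x, ψ (σ x) = ψ x) (P : CForm K ι) (h3 : p = 2 → ∀ i j k, P.c3 i j k = 0)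
    (hP : ¬ P.Triv) :
    ‖∑ z : ι → K, ψ (P.val σ z)‖ ^ 4 * Fintype.card K ≤
      2 * (p : ℝ) ^ 2 * (Fintype.card (ι → K) : ℝ) ^ 4 := by
  have hp2 : 2 ≤ p := (Fact.out : p.Prime).two_le
  have hG0 : (0 : ℝ) ≤ (Fintype.card (ι → K) : ℝ) := Nat.cast_nonneg _
  have htriv := BiasAux.triv_bd ψ (fun z : ι → K => P.val σ z)
  by_cases hs : ∀ i j k, P.c3 i j k + P.c3 i k j = 0
  · have hcub := BiasAux.cub_zero p σ P h3 hs
    by_cases hc2 : ∀ i j, P.c2 i j = 0
    · have hc1 : ¬ ∀ i, P.c1 i = 0 := fun h => hP ⟨hs, hc2, h⟩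
      have h1 := BiasAux.lin_bd ψ hψ P.c1 0 (fun z : ι → K => P.val σ z) (by
        intro z
        show ψ (P.val σ z) = _
        rw [CForm.val, hcub z]
        simp [hc2, mul_comm])
      rw [if_neg hc1] at h1
      have h2 : ‖∑ z : ι → K, ψ (P.val σ z)‖ = 0 := le_antisymm h1 (norm_nonneg _)
      rw [h2, zero_pow (by norm_num), zero_mul]
      positivity
    · push Not at hc2
      have hcnt := cnt1 (ι := ι) p hp2 σ hσ P.c2 hc2
      have h1 := vdc1 ψ (fun z : ι → K => P.val σ z)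
      have h2 : ∀ h : ι → K, ‖∑ z : ι → K, ψ (P.val σ (z + h) - P.val σ z)‖ ≤
          if ∀ i, σ.symm (∑ j, P.c2 i j * h j) + ∑ j, P.c2 j i * σ (h j) = 0
          then (Fintype.card (ι → K) : ℝ) else 0 := by
        intro h
        refine BiasAux.lin_bd ψ hψ
          (fun i => σ.symm (∑ j, P.c2 i j * h j) + ∑ j, P.c2 j i * σ (h j)) (P.val σ h)
          (fun z => P.val σ (z + h) - P.val σ z) ?_
        intro z
        show ψ (P.val σ (z + h) - P.val σ z) = _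
        rw [diff1 σ P hcub z h, AddChar.map_add_eq_mul, regroup1 σ ψ hψσ P.c2 z h,
          ← AddChar.map_add_eq_mul]
      have h3' : ‖∑ z : ι → K, ψ (P.val σ z)‖ ^ 2 ≤
          ((Finset.univ.filter fun h : ι → K =>
            ∀ i, σ.symm (∑ j, P.c2 i j * h j) + ∑ j, P.c2 j i * σ (h j) = 0).card : ℝ)
            * (Fintype.card (ι → K) : ℝ) := by
        refine h1.trans ((Finset.sum_le_sum fun h _ => h2 h).trans (le_of_eq ?_))
        rw [← Finset.sum_filter, Finset.sum_const, nsmul_eq_mul]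
      have hcnt' : ((Finset.univ.filter fun h : ι → K =>
            ∀ i, σ.symm (∑ j, P.c2 i j * h j) + ∑ j, P.c2 j i * σ (h j) = 0).card : ℝ)
            * (Fintype.card K : ℝ) ≤ (p : ℝ) ^ 2 * (Fintype.card (ι → K) : ℝ) := by
        exact_mod_cast hcnt
      have hQ0 : (0 : ℝ) ≤ (Fintype.card K : ℝ) := Nat.cast_nonneg _
      have h5 : ‖∑ z : ι → K, ψ (P.val σ z)‖ ^ 2 * (Fintype.card K : ℝ) ≤
          (p : ℝ) ^ 2 * (Fintype.card (ι → K) : ℝ) ^ 2 := by
        refine (mul_le_mul_of_nonneg_right h3' hQ0).trans ?_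
        have h6 := mul_le_mul_of_nonneg_right hcnt' hG0
        refine le_trans (le_of_eq ?_) (h6.trans (le_of_eq ?_))
        · ring
        · ring
      have h7 : ‖∑ z : ι → K, ψ (P.val σ z)‖ ^ 2 ≤ (Fintype.card (ι → K) : ℝ) ^ 2 :=
        pow_le_pow_left₀ (norm_nonneg _) htriv 2
      have h8 : ‖∑ z : ι → K, ψ (P.val σ z)‖ ^ 4 * (Fintype.card K : ℝ) ≤
          (Fintype.card (ι → K) : ℝ) ^ 2 * ((p : ℝ) ^ 2 * (Fintype.card (ι → K) : ℝ) ^ 2) := by
        have h9 := mul_le_mul h7 h5 (by positivity) (by positivity)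
        refine le_trans (le_of_eq ?_) h9
        ring
      refine h8.trans ?_
      have h10 : (0 : ℝ) ≤ (p : ℝ) ^ 2 * (Fintype.card (ι → K) : ℝ) ^ 4 := by positivity
      nlinarith [h10]
  · push Not at hs
    obtain ⟨con, hcon⟩ := diff2 σ P
    have hcnt := cnt2 (ι := ι) p hp2 σ hσ (fun i j k => P.c3 i j k + P.c3 i k j) hs
    have h1 := vdc2 ψ (fun z : ι → K => P.val σ z)
    have h2 : ∀ h h' : ι → K, ‖∑ z : ι → K,
        ψ ((P.val σ (z + h' + h) - P.val σ (z + h')) - (P.val σ (z + h) - P.val σ z))‖ ≤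
        if ∀ i, σ.symm (∑ j, ∑ k, (P.c3 i j k + P.c3 i k j) * h j * h' k) +
          (∑ a, ∑ k, (P.c3 a i k + P.c3 a k i) * σ (h a) * h' k) +
          ∑ a, ∑ k, (P.c3 a i k + P.c3 a k i) * σ (h' a) * h k = 0
        then (Fintype.card (ι → K) : ℝ) else 0 := by
      intro h h'
      refine BiasAux.lin_bd ψ hψ
        (fun i => σ.symm (∑ j, ∑ k, (P.c3 i j k + P.c3 i k j) * h j * h' k) +
          (∑ a, ∑ k, (P.c3 a i k + P.c3 a k i) * σ (h a) * h' k) +
          ∑ a, ∑ k, (P.c3 a i k + P.c3 a k i) * σ (h' a) * h k) (con h h')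
        (fun z => (P.val σ (z + h' + h) - P.val σ (z + h')) - (P.val σ (z + h) - P.val σ z)) ?_
      intro z
      show ψ ((P.val σ (z + h' + h) - P.val σ (z + h')) - (P.val σ (z + h) - P.val σ z)) = _
      rw [hcon z h h', AddChar.map_add_eq_mul,
        regroup2 σ ψ hψσ (fun i j k => P.c3 i j k + P.c3 i k j)
          (fun i j k => add_comm _ _) z h h', ← AddChar.map_add_eq_mul]
    have h3' : ‖∑ z : ι → K, ψ (P.val σ z)‖ ^ 4 ≤ (Fintype.card (ι → K) : ℝ) *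
        (((Finset.univ.filter fun h : (ι → K) × (ι → K) =>
          ∀ i, σ.symm (∑ j, ∑ k, (P.c3 i j k + P.c3 i k j) * h.1 j * h.2 k) +
            (∑ a, ∑ k, (P.c3 a i k + P.c3 a k i) * σ (h.1 a) * h.2 k) +
            ∑ a, ∑ k, (P.c3 a i k + P.c3 a k i) * σ (h.2 a) * h.1 k = 0).card : ℝ)
          * (Fintype.card (ι → K) : ℝ)) := by
      refine h1.trans (mul_le_mul_of_nonneg_left ?_ hG0)
      refine (Finset.sum_le_sum fun h _ => Finset.sum_le_sum fun h' _ => h2 h h').trans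
        (le_of_eq ?_)
      rw [← Fintype.sum_prod_type' (fun h h' : ι → K =>
        if ∀ i, σ.symm (∑ j, ∑ k, (P.c3 i j k + P.c3 i k j) * h j * h' k) +
          (∑ a, ∑ k, (P.c3 a i k + P.c3 a k i) * σ (h a) * h' k) +
          ∑ a, ∑ k, (P.c3 a i k + P.c3 a k i) * σ (h' a) * h k = 0
        then (Fintype.card (ι → K) : ℝ) else 0)]
      rw [← Finset.sum_filter, Finset.sum_const, nsmul_eq_mul]
    have hcnt' : ((Finset.univ.filter fun h : (ι → K) × (ι → K) =>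
          ∀ i, σ.symm (∑ j, ∑ k, (P.c3 i j k + P.c3 i k j) * h.1 j * h.2 k) +
            (∑ a, ∑ k, (P.c3 a i k + P.c3 a k i) * σ (h.1 a) * h.2 k) +
            ∑ a, ∑ k, (P.c3 a i k + P.c3 a k i) * σ (h.2 a) * h.1 k = 0).card : ℝ)
          * (Fintype.card K : ℝ) ≤ 2 * (p : ℝ) ^ 2 * (Fintype.card (ι → K) : ℝ) ^ 2 := by
      exact_mod_cast hcnt
    have hQ0 : (0 : ℝ) ≤ (Fintype.card K : ℝ) := Nat.cast_nonneg _
    refine (mul_le_mul_of_nonneg_right h3' hQ0).trans ?_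
    have h6 := mul_le_mul_of_nonneg_right hcnt' (mul_nonneg hG0 hG0)
    refine le_trans (le_of_eq ?_) (h6.trans (le_of_eq ?_))
    · ring
    · ring

end LTL
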