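import Pool.Agent.Lib.LTL.Zeros

/-!
# Module LTL.BiasCnt: counting the degenerate directions (MP_61e83e_lc)

`Q = |K|`, `G = ι → K`, `τ = σ⁻¹`. PROOFS. `cnt1`: let `c2 i j ≠ 0`. For fixed `h m`, `m ≠ j`, the condition for
`i`, `τ (∑ j', c2 i j' h j') + ∑ j', c2 j' i σ (h j') = 0`, reads
`τ (c2 i j) τ (h j) + 0 * h j + c2 j i σ (h j) = const`: at most `p ^ 2` values of `h j` by `affine_le`. Sum over
the other coordinates (`Q ^ (|ι| - 1)` choices): formally, the set `{h : ...}` injects into
`(values of the other coordinates) × ...`, or use `Function.update h j x`: double count the pairs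
`(h, x)` with `update h j x` in the set: `|set| * Q = #{(h, x) : update h j x ∈ set} ≤ |G| p ^ 2`.
`cnt2`: let `s i j k ≠ 0`. For `h'` with `a = ∑ k', s i j k' h' k' ≠ 0` and fixed `h m`, `m ≠ j`, the condition
for `i` is, as an equation for `x = h j`, `τ a τ x + b x + c σ x = const` with
`b = ∑ a', s a' i j σ (h' a')` (from the third sum, `s a' i k` at `k = j`) and `c = ∑ k', s j i k' h' k'`: at
most `p ^ 2` solutions. So for such `h'` the number of `h` times `Q` is at most `|G| p ^ 2` (as in `cnt1`).
The number of `h'` with `a = 0`, times `Q`, is at most `|G|` (nonzero linear equation: for fixed other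
coordinates at most one value `h' k`, `s i j k ≠ 0`), and for them the number of `h` is at most `|G|`.
Total times `Q`: at most `|G| |G| p ^ 2 + |G| |G| ≤ 2 p ^ 2 |G| ^ 2`.
-/

set_option autoImplicit false
open Classical

namespace LTL

namespace BiasCntAux

open Finset

variable {K ι : Type} [Field K] [Fintype K] [Fintype ι]

theorem fib (j : ι) (P : (ι → K) → Prop) [DecidablePred P] (N : ℕ)
    (hN : ∀ h, (univ.filter fun x : K => P (Function.update h j x)).card ≤ N) :
    (univ.filter P).card * Fintype.card K ≤ N * Fintype.card (ι → K) := by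
  have h1 : (univ.filter fun y : (ι → K) × K => P (Function.update y.1 j y.2)).card =
      (univ.filter fun y : (ι → K) × K => P y.1).card := by
    refine Finset.card_bij' (fun y _ => (Function.update y.1 j y.2, y.1 j))
      (fun y _ => (Function.update y.1 j y.2, y.1 j)) ?_ ?_ ?_ ?_
    · intro y hy
      simpa using hy
    · intro y hy
      simpa using hy
    · intro y _
      simp
    · intro y _
      simp
  have h2 : (univ.filter fun y : (ι → K) × K => P y.1).card =
      (univ.filter P).card * Fintype.card K := by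
    have : (univ.filter fun y : (ι → K) × K => P y.1) = (univ.filter P) ×ˢ (univ : Finset K) := by
      ext y
      simp
    rw [this, Finset.card_product, Finset.card_univ]
  have h3 : (univ.filter fun y : (ι → K) × K => P (Function.update y.1 j y.2)).card =
      ∑ h : ι → K, (univ.filter fun x : K => P (Function.update h j x)).card := by
    rw [Finset.card_filter, Fintype.sum_prod_type]
    refine sum_congr rfl fun h _ => ?_
    rw [Finset.card_filter]
  rw [← h2, ← h1, h3]
  calc ∑ h : ι → K, (univ.filter fun x : K => P (Function.update h j x)).card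
      ≤ ∑ _h : ι → K, N := sum_le_sum fun h _ => hN h
    _ = N * Fintype.card (ι → K) := by
      rw [sum_const, Finset.card_univ, smul_eq_mul, mul_comm]

theorem split_upd (h : ι → K) (j : ι) (x : K) (f : ι → K → K) :
    ∑ k, f k (Function.update h j x k) = f j x + ∑ k ∈ univ.erase j, f k (h k) := by
  rw [← Finset.add_sum_erase univ _ (mem_univ j), Function.update_self]
  congr 1
  refine sum_congr rfl fun k hk => ?_
  rw [Function.update_of_ne (Finset.ne_of_mem_erase hk)]

end BiasCntAux

variable {K ι : Type} [Field K] [Fintype K] [Fintype ι]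

theorem cnt1 (p : ℕ) (hp : 2 ≤ p) (σ : K ≃+* K) (hσ : ∀ x, σ (σ x) = x ^ p) (c2 : ι → ι → K)
    (h0 : ∃ i j, c2 i j ≠ 0) :
    (Finset.univ.filter fun h : ι → K =>
      ∀ i, σ.symm (∑ j, c2 i j * h j) + ∑ j, c2 j i * σ (h j) = 0).card * Fintype.card K ≤
      p ^ 2 * Fintype.card (ι → K) := by
  obtain ⟨i, j, hij⟩ := h0
  refine BiasCntAux.fib j (fun h : ι → K => ∀ i, σ.symm (∑ j, c2 i j * h j) +
    ∑ j, c2 j i * σ (h j) = 0) _ fun h => ?_
  have ha : σ.symm (c2 i j) ≠ 0 := by
    intro h1
    exact hij ((map_eq_zero σ.symm).1 h1)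
  refine le_trans (Finset.card_le_card ?_) (affine_le p hp σ hσ (σ.symm (c2 i j)) 0 (c2 j i)
    (-(σ.symm (∑ k ∈ Finset.univ.erase j, c2 i k * h k) +
      ∑ k ∈ Finset.univ.erase j, c2 k i * σ (h k))) fun h1 => ha h1.1)
  intro x hx
  rw [Finset.mem_filter] at hx ⊢
  refine ⟨Finset.mem_univ _, ?_⟩
  have h1 := hx.2 i
  rw [BiasCntAux.split_upd h j x (fun k y => c2 i k * y),
    BiasCntAux.split_upd h j x (fun k y => c2 k i * σ y), map_add, map_mul] at h1
  linear_combination h1

theorem cnt2 (p : ℕ) (hp : 2 ≤ p) (σ : K ≃+* K) (hσ : ∀ x, σ (σ x) = x ^ p)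
    (s : ι → ι → ι → K) (h0 : ∃ i j k, s i j k ≠ 0) :
    (Finset.univ.filter fun h : (ι → K) × (ι → K) =>
      ∀ i, σ.symm (∑ j, ∑ k, s i j k * h.1 j * h.2 k) +
        (∑ a, ∑ k, s a i k * σ (h.1 a) * h.2 k) +
        ∑ a, ∑ k, s a i k * σ (h.2 a) * h.1 k = 0).card * Fintype.card K ≤
      2 * p ^ 2 * Fintype.card (ι → K) ^ 2 := by
  obtain ⟨i, j, k, hs⟩ := h0
  set G := Fintype.card (ι → K) with hG
  set Q := Fintype.card K with hQ
  set P : (ι → K) → (ι → K) → Prop := fun h h' => ∀ i, σ.symm (∑ j, ∑ k, s i j k * h j * h' k) +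
        (∑ a, ∑ k, s a i k * σ (h a) * h' k) +
        ∑ a, ∑ k, s a i k * σ (h' a) * h k = 0 with hP
  have h1 : (Finset.univ.filter fun h : (ι → K) × (ι → K) => P h.1 h.2).card =
      ∑ h' : ι → K, (Finset.univ.filter fun h : ι → K => P h h').card := by
    rw [Finset.card_filter, Fintype.sum_prod_type_right]
    refine Finset.sum_congr rfl fun h _ => ?_
    rw [Finset.card_filter]
  -- the linear form
  set a : (ι → K) → K := fun h' => ∑ k', s i j k' * h' k' with ha
  have h2 : (Finset.univ.filter fun h' : ι → K => a h' = 0).card * Q ≤ 1 * G := by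
    refine BiasCntAux.fib k (fun h' : ι → K => a h' = 0) _ fun h => ?_
    rw [Finset.card_le_one]
    intro x hx y hy
    rw [Finset.mem_filter] at hx hy
    have h3 := hx.2
    have h4 := hy.2
    simp only [ha] at h3 h4
    rw [BiasCntAux.split_upd h k x (fun k' y => s i j k' * y)] at h3
    rw [BiasCntAux.split_upd h k y (fun k' y => s i j k' * y)] at h4
    have h5 : s i j k * (x - y) = 0 := by linear_combination h3 - h4
    exact sub_eq_zero.1 ((mul_eq_zero.1 h5).resolve_left hs)
  have h3 : ∀ h' : ι → K, a h' ≠ 0 →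
      (Finset.univ.filter fun h : ι → K => P h h').card * Q ≤ p ^ 2 * G := by
    intro h' h'0
    refine BiasCntAux.fib j (fun h : ι → K => P h h') _ fun h => ?_
    have ha : σ.symm (a h') ≠ 0 := by
      intro h1
      exact h'0 ((map_eq_zero σ.symm).1 h1)
    refine le_trans (Finset.card_le_card ?_) (affine_le p hp σ hσ (σ.symm (a h'))
      (∑ b, s b i j * σ (h' b)) (∑ k, s j i k * h' k)
      (-(σ.symm (∑ l ∈ Finset.univ.erase j, ∑ k, s i l k * h l * h' k) +
        (∑ b ∈ Finset.univ.erase j, ∑ k, s b i k * σ (h b) * h' k) +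
        ∑ k ∈ Finset.univ.erase j, ∑ b, s b i k * σ (h' b) * h k)) fun h1 => ha h1.1)
    intro x hx
    rw [Finset.mem_filter] at hx ⊢
    refine ⟨Finset.mem_univ _, ?_⟩
    have h1 := hx.2 i
    rw [Finset.sum_comm (f := fun a k => s a i k * σ (h' a) * Function.update h j x k)] at h1
    rw [BiasCntAux.split_upd h j x (fun l y => ∑ k, s i l k * y * h' k),
      BiasCntAux.split_upd h j x (fun b y => ∑ k, s b i k * σ y * h' k),
      BiasCntAux.split_upd h j x (fun k y => ∑ b, s b i k * σ (h' b) * y), map_add] at h1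
    have e1 : ∑ k, s i j k * x * h' k = a h' * x := by
      simp only [a, Finset.sum_mul]
      exact Finset.sum_congr rfl fun _ _ => by ring
    have e2 : ∑ k, s j i k * σ x * h' k = (∑ k, s j i k * h' k) * σ x := by
      rw [Finset.sum_mul]
      exact Finset.sum_congr rfl fun _ _ => by ring
    have e3 : ∑ b, s b i j * σ (h' b) * x = (∑ b, s b i j * σ (h' b)) * x := by
      rw [Finset.sum_mul]
    rw [e1, e2, e3, map_mul] at h1
    linear_combination h1
  have h4 : ∀ h' : ι → K, (Finset.univ.filter fun h : ι → K => P h h').card * Q ≤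
      p ^ 2 * G + (if a h' = 0 then G * Q else 0) := by
    intro h'
    by_cases h5 : a h' = 0
    · rw [if_pos h5]
      have h6 : (Finset.univ.filter fun h : ι → K => P h h').card ≤ G := Finset.card_le_univ _
      have h7 := Nat.mul_le_mul_right Q h6
      omega
    · rw [if_neg h5]
      exact h3 h' h5
  show (Finset.univ.filter fun h : (ι → K) × (ι → K) => P h.1 h.2).card * Q ≤ _
  rw [h1, Finset.sum_mul]
  refine le_trans (Finset.sum_le_sum fun h' _ => h4 h') ?_
  rw [Finset.sum_add_distrib, Finset.sum_const, ← Finset.sum_filter, Finset.sum_const,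
    Finset.card_univ, smul_eq_mul, smul_eq_mul]
  have h5 : (Finset.univ.filter fun h' : ι → K => a h' = 0).card * (G * Q) ≤ G * G := by
    calc _ = (Finset.univ.filter fun h' : ι → K => a h' = 0).card * Q * G := by ring
      _ ≤ 1 * G * G := Nat.mul_le_mul_right _ h2
      _ = G * G := by ring
  have h6 : G * G ≤ p ^ 2 * (G * G) := Nat.le_mul_of_pos_left _ (by positivity)
  calc _ ≤ G * (p ^ 2 * G) + G * G := Nat.add_le_add_left h5 _
    _ ≤ G * (p ^ 2 * G) + p ^ 2 * (G * G) := Nat.add_le_add_left h6 _
    _ = 2 * p ^ 2 * G ^ 2 := by ring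

end LTL
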