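import Pool.Agent.Lib.LTL.Defs

/-!
# Module LTL.Char: characters with values in an algebraically closed field (MP_61e83e_lc)

PROOFS. `char_sep`: for a finite abelian group `A` (written additively) whose order is invertible in
the algebraically closed field `E`, and `a ≠ 0`, there is `χ : AddChar A E` with `χ a ≠ 1`. Mathlib:
`CommGroup.exists_apply_ne_one_of_hasEnoughRootsOfUnity` for `Multiplicative A` (the instance
`HasEnoughRootsOfUnity E n` for separably closed `E` with `(n : E) ≠ 0`; the exponent divides the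
order). `sum_char`: for `a ≠ 0` multiply `∑ χ, χ a` by `χ₀ a ≠ 1` and reindex `χ ↦ χ₀ * χ`.
`card_char`: `|AddChar A E| = |A|`: `≤` by linear independence of the characters; the equality from
`CommGroup.monoidHom_mulEquiv_of_hasEnoughRootsOfUnity` or similar (or: double count
`∑ χ ∑ a, χ a = |A|` in `E` via `sum_char` and `AddChar.sum_eq_ite`: gives `|AddChar A E| = |A|` in
`E`, which is enough for `fourier`: the number of characters is nonzero in `E`).
`fourier`: if `∑ a, χ a * f a = 0` for all `χ` then for every `b`: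
`0 = ∑ χ, (χ b)⁻¹ ∑ a, χ a * f a = ∑ a, f a ∑ χ, χ (a - b) = |AddChar A E| * f b`.
`finite_char`: the values are roots of unity of order dividing `|A|` (a field has finitely many), or
linear independence of characters (`linearIndependent_monoidHom`), which also gives the bound
`|AddChar A E| ≤ |A|`.
`char_all`: a family of characters `χ_j`, `j ∈ J`, pairwise different, with `|A| ≤ |J|`, contains
every character: `|AddChar A E| ≤ |A|` (linear independence of characters, `linearIndependent_monoidHom` for
`Multiplicative A →* E`), so the injective map `j ↦ χ_j` is surjective.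
`char_tr`: if `p • a = 0` for all `a` and `ω` is a primitive `p`-th root of unity, every character is
`a ↦ ω ^ (tr a).val` for an additive `tr : A → ZMod p`: `χ a ^ p = 1`, so `χ a = ω ^ k` with a unique
`k < p` (`IsPrimitiveRoot.eq_pow_of_pow_eq_one`); additivity by injectivity.
`tr_char`: conversely such a formula defines a character (`pow_add`, `ZMod.val_add`, `ω ^ p = 1`).
-/

set_option autoImplicit false
open Classical

namespace LTL

namespace CharAux

theorem lin (A E : Type) [AddCommGroup A] [Field E] :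
    LinearIndependent E (fun χ : AddChar A E => (χ : A → E)) :=
  (linearIndependent_monoidHom (Multiplicative A) E).comp
    (AddChar.toMonoidHomEquiv (A := A) (M := E)) AddChar.toMonoidHomEquiv.injective

theorem fin (A E : Type) [AddCommGroup A] [Finite A] [Field E] : Finite (AddChar A E) := by
  have := Fintype.ofFinite A
  exact (lin A E).finite_of_isNoetherian

theorem card_le (A E : Type) [AddCommGroup A] [Finite A] [Field E] :
    Nat.card (AddChar A E) ≤ Nat.card A := by
  have := Fintype.ofFinite A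
  have := fin A E
  have := Fintype.ofFinite (AddChar A E)
  have h := (lin A E).fintype_card_le_finrank
  rw [Module.finrank_fintype_fun_eq_card] at h
  rwa [Nat.card_eq_fintype_card, Nat.card_eq_fintype_card]

theorem rootsE {A E : Type} [AddCommGroup A] [Finite A] [Field E] [IsAlgClosed E]
    (hA : (Nat.card A : E) ≠ 0) :
    HasEnoughRootsOfUnity E (Monoid.exponent (Multiplicative A)) := by
  have hd : Monoid.exponent (Multiplicative A) ∣ Nat.card (Multiplicative A) :=
    Group.exponent_dvd_nat_card
  have hc : Nat.card (Multiplicative A) = Nat.card A := rfl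
  rw [hc] at hd
  have : NeZero ((Monoid.exponent (Multiplicative A) : ℕ) : E) := by
    refine ⟨fun h => hA ?_⟩
    obtain ⟨k, hk⟩ := hd
    rw [hk, Nat.cast_mul, h, zero_mul]
  infer_instance

/-- homomorphisms of a group to a field and to its units -/
noncomputable def unitsEquiv (G E : Type) [Group G] [Field E] : (G →* Eˣ) ≃ (G →* E) where
  toFun f := (Units.coeHom E).comp f
  invFun f := f.toHomUnits
  left_inv f := by
    ext x
    simp
  right_inv f := by
    ext x
    simp

theorem val_add_pow {E : Type} [Field E] (p : ℕ) [Fact p.Prime] {ω : E}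
    (hω : IsPrimitiveRoot ω p) (s t : ZMod p) : ω ^ (s + t).val = ω ^ s.val * ω ^ t.val := by
  rw [ZMod.val_add, ← pow_add]
  conv_rhs => rw [← Nat.mod_add_div (s.val + t.val) p, pow_add, pow_mul, hω.pow_eq_one, one_pow,
    mul_one]

theorem val_inj {E : Type} [Field E] (p : ℕ) [Fact p.Prime] {ω : E}
    (hω : IsPrimitiveRoot ω p) (s t : ZMod p) (h : ω ^ s.val = ω ^ t.val) : s = t :=
  ZMod.val_injective p (hω.pow_inj (ZMod.val_lt s) (ZMod.val_lt t) h)

end CharAux

instance finite_char (A E : Type) [AddCommGroup A] [Finite A] [Field E] :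
    Finite (AddChar A E) :=
  CharAux.fin A E

noncomputable instance fintype_char (A E : Type) [AddCommGroup A] [Finite A] [Field E] :
    Fintype (AddChar A E) := Fintype.ofFinite _

theorem char_sep {A E : Type} [AddCommGroup A] [Finite A] [Field E] [IsAlgClosed E]
    (hA : (Nat.card A : E) ≠ 0) (a : A) (ha : a ≠ 0) : ∃ χ : AddChar A E, χ a ≠ 1 := by
  have := CharAux.rootsE hA
  have ha' : (Multiplicative.ofAdd a) ≠ (1 : Multiplicative A) := fun h => ha (ofAdd_eq_one.1 h)
  obtain ⟨φ, hφ⟩ := CommGroup.exists_apply_ne_one_of_hasEnoughRootsOfUnity (Multiplicative A) E ha'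
  refine ⟨AddChar.toMonoidHomEquiv.symm ((Units.coeHom E).comp φ), fun h => hφ ?_⟩
  rw [AddChar.toMonoidHomEquiv_symm_apply] at h
  exact Units.ext h

theorem sum_char {A E : Type} [AddCommGroup A] [Finite A] [Field E] [IsAlgClosed E]
    (hA : (Nat.card A : E) ≠ 0) (a : A) (ha : a ≠ 0) : ∑ χ : AddChar A E, χ a = 0 := by
  obtain ⟨χ₀, h0⟩ := char_sep hA a ha
  have h1 : χ₀ a * ∑ χ : AddChar A E, χ a = ∑ χ : AddChar A E, χ a := by
    rw [Finset.mul_sum]
    exact Fintype.sum_equiv (Equiv.mulLeft χ₀) (fun χ => χ₀ a * χ a) (fun χ => χ a)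
      (fun χ => rfl)
  have h2 : (χ₀ a - 1) * ∑ χ : AddChar A E, χ a = 0 := by
    rw [sub_mul, one_mul, h1, sub_self]
  rcases mul_eq_zero.1 h2 with h | h
  · exact absurd (sub_eq_zero.1 h) h0
  · exact h

theorem card_char {A E : Type} [AddCommGroup A] [Finite A] [Field E] [IsAlgClosed E]
    (hA : (Nat.card A : E) ≠ 0) : Fintype.card (AddChar A E) = Nat.card A := by
  have := CharAux.rootsE hA
  rw [← Nat.card_eq_fintype_card]
  have h1 : Nat.card (AddChar A E) = Nat.card (Multiplicative A →* Eˣ) :=
    Nat.card_congr (AddChar.toMonoidHomEquiv.trans (CharAux.unitsEquiv (Multiplicative A) E).symm)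
  rw [h1, CommGroup.card_monoidHom_of_hasEnoughRootsOfUnity (Multiplicative A) E]
  rfl

/-- Fourier inversion, in the form used below -/
theorem fourier {A E : Type} [AddCommGroup A] [Fintype A] [Field E] [IsAlgClosed E]
    (hA : (Nat.card A : E) ≠ 0) (f : A → E) (b : A) (hb : f b ≠ 0) :
    ∃ χ : AddChar A E, ∑ a, χ a * f a ≠ 0 := by
  by_contra hcon
  push Not at hcon
  have h1 : ∑ χ : AddChar A E, χ (-b) * ∑ a, χ a * f a = 0 :=
    Finset.sum_eq_zero (fun χ _ => by rw [hcon χ, mul_zero])
  have h2 : ∑ χ : AddChar A E, χ (-b) * ∑ a, χ a * f a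
      = ∑ a, f a * ∑ χ : AddChar A E, χ (a - b) := by
    calc ∑ χ : AddChar A E, χ (-b) * ∑ a, χ a * f a
        = ∑ χ : AddChar A E, ∑ a, f a * χ (a - b) := by
          refine Finset.sum_congr rfl (fun χ _ => ?_)
          rw [Finset.mul_sum]
          refine Finset.sum_congr rfl (fun a _ => ?_)
          rw [sub_eq_add_neg, AddChar.map_add_eq_mul]
          ring
      _ = ∑ a, ∑ χ : AddChar A E, f a * χ (a - b) := Finset.sum_comm
      _ = ∑ a, f a * ∑ χ : AddChar A E, χ (a - b) := by
          refine Finset.sum_congr rfl (fun a _ => ?_)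
          rw [Finset.mul_sum]
  have h3 : ∑ a, f a * ∑ χ : AddChar A E, χ (a - b) = f b * (Nat.card A : E) := by
    rw [Finset.sum_eq_single b]
    · congr 1
      rw [sub_self]
      have : ∑ χ : AddChar A E, χ (0 : A) = ∑ _χ : AddChar A E, (1 : E) :=
        Finset.sum_congr rfl (fun χ _ => AddChar.map_zero_eq_one χ)
      rw [this, Finset.sum_const, Finset.card_univ, card_char hA, nsmul_eq_mul, mul_one]
    · intro a _ hab
      rw [sum_char hA (a - b) (sub_ne_zero.2 hab), mul_zero]
    · intro h
      exact absurd (Finset.mem_univ b) h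
  rw [h2, h3] at h1
  rcases mul_eq_zero.1 h1 with h | h
  · exact hb h
  · exact hA h

theorem char_all {A E J : Type} [AddCommGroup A] [Finite A] [Field E] [Finite J]
    (χ : J → AddChar A E) (hχ : Function.Injective χ) (hJ : Nat.card A ≤ Nat.card J)
    (ψ : AddChar A E) : ∃ j, χ j = ψ :=
  (hχ.bijective_of_nat_card_le ((CharAux.card_le A E).trans hJ)).2 ψ

theorem char_tr {A E : Type} [AddCommGroup A] [Field E] (p : ℕ) [Fact p.Prime] {ω : E}
    (hω : IsPrimitiveRoot ω p) (hp : ∀ a : A, p • a = 0) (χ : AddChar A E) :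
    ∃ tr : A →+ ZMod p, ∀ a, χ a = ω ^ (tr a).val := by
  have h1 : ∀ a : A, ∃ t : ZMod p, χ a = ω ^ t.val := by
    intro a
    have h : χ a ^ p = 1 := by
      rw [← AddChar.map_nsmul_eq_pow, hp a, AddChar.map_zero_eq_one]
    have : NeZero p := ⟨(Fact.out : p.Prime).ne_zero⟩
    obtain ⟨i, hi, hi'⟩ := hω.eq_pow_of_pow_eq_one h
    exact ⟨(i : ZMod p), by rw [ZMod.val_natCast_of_lt hi, hi']⟩
  choose tr htr using h1
  refine ⟨⟨⟨tr, ?_⟩, ?_⟩, htr⟩
  · refine CharAux.val_inj p hω _ _ ?_
    rw [← htr, AddChar.map_zero_eq_one, ZMod.val_zero, pow_zero]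
  · intro a b
    refine CharAux.val_inj p hω _ _ ?_
    show ω ^ (tr (a + b)).val = ω ^ (tr a + tr b).val
    rw [← htr, CharAux.val_add_pow p hω, ← htr, ← htr, AddChar.map_add_eq_mul]

theorem tr_add {A E : Type} [AddCommGroup A] [Field E] (p : ℕ) [Fact p.Prime] {ω : E}
    (hω : IsPrimitiveRoot ω p) (tr : A →+ ZMod p) (a b : A) :
    ω ^ (tr (a + b)).val = ω ^ (tr a).val * ω ^ (tr b).val := by
  rw [map_add]
  exact CharAux.val_add_pow p hω _ _

theorem tr_eq_one {E : Type} [Field E] (p : ℕ) [Fact p.Prime] {ω : E}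
    (hω : IsPrimitiveRoot ω p) (t : ZMod p) : ω ^ t.val = 1 ↔ t = 0 := by
  constructor
  · intro h
    refine CharAux.val_inj p hω _ _ ?_
    rw [h, ZMod.val_zero, pow_zero]
  · rintro rfl
    rw [ZMod.val_zero, pow_zero]

/-- primitive roots of unity exist -/
theorem exists_root (E : Type) [Field E] [IsAlgClosed E] (p : ℕ) [Fact p.Prime]
    (hp : (p : E) ≠ 0) : ∃ ω : E, IsPrimitiveRoot ω p := by
  have : NeZero (p : E) := ⟨hp⟩
  exact HasEnoughRootsOfUnity.exists_primitiveRoot E p

end LTL
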