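import Pool.Agent.Lib.LTL.Red
import Pool.Agent.Lib.LTL.Char

/-!
# Module LTL.CEig: words with a nontrivial central character (MP_61e83e_lc)

PROOF. By `Good.sep` there is `g ∈ D` with `g (some (act b₀ v₀)) ≠ g (some v₀)`. For a character
`χ : AddChar K E` let `g_χ z = ∑ b, χ (-b) * g (z.map (act b))`; it is in `D` (sum of words of `D`).
`g_χ (z.map (act b')) = χ b' * g_χ z` (reindex `b ↦ b + b'`), and `g_χ none = (∑ b, χ (-b)) * g none`
is `0` for `χ ≠ 1`. `∑ χ, g_χ z = |K| g z` (`sum_char`, `card_char`; `|K|` is a power of `p`, so it is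
invertible in `E`: `hK` and Cauchy / `IsPGroup`, or take `(Nat.card K : E) ≠ 0` from `card_ne_zero`
below). If `g_χ = 0` for all `χ ≠ 1` then `|K| g = g_1` is invariant under `act b₀`: contradiction. So
`c = g_χ ≠ 0` for some `χ ≠ 1`; `χ b = ω ^ (tr b).val` by `char_tr`, `tr ≠ 0`.
`card_ne_zero`: a finite group with `p • x = 0` has order a power of `p` (`IsPGroup.iff_card` for
`Multiplicative K`, or it is a `ZMod p`-module: `AddCommGroup.zmodModule`, `Module.card_eq_pow_finrank`).
-/

set_option autoImplicit false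
open Classical

namespace LTL

open P61e83e Pltc

theorem card_ne_zero {E K : Type} [Field E] [AddCommGroup K] [Finite K] (p : ℕ) [Fact p.Prime]
    (hpE : (p : E) ≠ 0) (hK : ∀ x : K, p • x = 0) : (Nat.card K : E) ≠ 0 := by
  have h : IsPGroup p (Multiplicative K) := fun x =>
    ⟨1, by rw [pow_one]; exact congrArg Multiplicative.ofAdd (hK x.toAdd)⟩
  obtain ⟨n, hn⟩ := IsPGroup.iff_card.1 h
  have h1 : Nat.card K = p ^ n := hn
  rw [h1, Nat.cast_pow]
  exact pow_ne_zero n hpE

theorem exists_eig {E K V : Type} [Field E] [IsAlgClosed E] [AddCommGroup K] [Fintype K]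
    [Fintype V] (p : ℕ) [Fact p.Prime] (hpE : (p : E) ≠ 0) (hK : ∀ x : K, p • x = 0) {ω : E}
    (hω : IsPrimitiveRoot ω p) (D : Submodule E (Option V → E)) {q : ℕ} {δ : ℝ} (hD : Good D q δ)
    (act : K → V → V) (h0 : ∀ v, act 0 v = v) (hadd : ∀ b b' v, act (b + b') v = act b (act b' v))
    (hact : ∀ b, ∀ f ∈ D, (fun z : Option V => f (z.map (act b))) ∈ D) (v₀ : V) (b₀ : K)
    (hv : act b₀ v₀ ≠ v₀) {f : Option V → E} (hf : f ∈ D) {x y : Option V} (hxy : f x ≠ f y) :
    ∃ tr : K →+ ZMod p, tr ≠ 0 ∧ ∃ c ∈ D, c ≠ 0 ∧ c none = 0 ∧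
      ∀ b v, c (some (act b v)) = ω ^ (tr b).val * c (some v) := by
  obtain ⟨g, hg, hgne⟩ := hD.sep hf hxy (some (act b₀ v₀)) (some v₀)
    (fun h => hv (Option.some.inj h))
  have hA : (Nat.card K : E) ≠ 0 := card_ne_zero p hpE hK
  let G : AddChar K E → Option V → E := fun χ z => ∑ b, χ (-b) * g (z.map (act b))
  have hGD : ∀ χ, G χ ∈ D := by
    intro χ
    have h1 : G χ = ∑ b, χ (-b) • (fun z : Option V => g (z.map (act b))) := by
      funext z
      rw [Finset.sum_apply]
      rfl
    rw [h1]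
    exact D.sum_mem fun b _ => D.smul_mem _ (hact b g hg)
  have hGsome : ∀ (χ : AddChar K E) (b' : K) (v : V),
      G χ (some (act b' v)) = χ b' * G χ (some v) := by
    intro χ b' v
    change ∑ b, χ (-b) * g (some (act b (act b' v))) = χ b' * ∑ b, χ (-b) * g (some (act b v))
    rw [Finset.mul_sum]
    refine Fintype.sum_equiv (Equiv.addRight b') _ _ fun b => ?_
    have h1 : χ (-b) = χ b' * χ (-(b + b')) := by
      rw [← AddChar.map_add_eq_mul]
      congr 1
      abel
    rw [Equiv.coe_addRight, hadd, ← mul_assoc, ← h1]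
  have hGnone : ∀ χ : AddChar K E, χ ≠ 0 → G χ none = 0 := by
    intro χ hχ
    change ∑ b, χ (-b) * g none = 0
    rw [← Finset.sum_mul]
    have h1 : ∑ b, χ (-b) = ∑ b, χ b := Fintype.sum_equiv (Equiv.neg K) _ _ fun b => rfl
    rw [h1, AddChar.sum_eq_ite, if_neg hχ, zero_mul]
  have hGsum : ∀ z, ∑ χ, G χ z = (Nat.card K : E) * g z := by
    intro z
    change ∑ χ : AddChar K E, ∑ b, χ (-b) * g (z.map (act b)) = _
    rw [Finset.sum_comm]
    have h1 : ∀ b : K, ∑ χ : AddChar K E, χ (-b) * g (z.map (act b)) =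
        if b = 0 then (Nat.card K : E) * g z else 0 := by
      intro b
      rw [← Finset.sum_mul]
      split_ifs with hb
      · subst hb
        have h2 : ∀ χ : AddChar K E, χ (-(0 : K)) = 1 := by
          intro χ
          rw [neg_zero, AddChar.map_zero_eq_one]
        have h3 : z.map (act 0) = z := by
          cases z with
          | none => rfl
          | some v => rw [Option.map_some, h0]
        rw [Finset.sum_congr rfl fun χ _ => h2 χ, Finset.sum_const, Finset.card_univ,
          card_char hA, nsmul_eq_mul, mul_one, h3]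
      · rw [sum_char hA (-b) (neg_ne_zero.2 hb), zero_mul]
    rw [Finset.sum_congr rfl fun b _ => h1 b, Finset.sum_ite_eq' Finset.univ (0 : K),
      if_pos (Finset.mem_univ _)]
  obtain ⟨χ, hχ, hGχ⟩ : ∃ χ : AddChar K E, χ ≠ 0 ∧ G χ ≠ 0 := by
    by_contra hcon
    push Not at hcon
    have h1 : ∀ z, G 0 z = (Nat.card K : E) * g z := by
      intro z
      rw [← hGsum z]
      refine (Finset.sum_eq_single (f := fun χ : AddChar K E => G χ z)
        (0 : AddChar K E) ?_ ?_).symm
      · intro χ _ hχ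
        rw [hcon χ hχ]
        rfl
      · intro h
        exact absurd (Finset.mem_univ _) h
    have h2 := hGsome 0 b₀ v₀
    rw [h1, h1, AddChar.zero_apply, one_mul] at h2
    exact hgne (mul_left_cancel₀ hA h2)
  obtain ⟨tr, htr⟩ := char_tr p hω hK χ
  refine ⟨tr, ?_, G χ, hGD χ, hGχ, hGnone χ hχ, ?_⟩
  · rintro rfl
    apply hχ
    ext a
    rw [htr, AddChar.zero_apply, AddMonoidHom.zero_apply, ZMod.val_zero, pow_zero]
  · intro b v
    rw [hGsome, htr]

end LTL
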