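import Pool.Agent.Lib.Pltc.Defs

/-!
# The last families of doubly transitive groups: definitions (MP_61e83e_lc)

The automorphism group of a code `C` on `Fin n` contains one of the following groups.
* `DualSL3`: all translations of `K^3 × K^3` and all `(x, y) ↦ (A x, A^{-T} y)`, `det A = 1`
  (for instance `K^6 ⋊ G₂(K)`, `K` of characteristic 2).
* `SuzukiType`: the Borel subgroup of `Sz(K)`, char `K = 2 ≠` char `F`.
* `ReeType`: the Borel subgroup of `Ree(K) = ²G₂(K)`, char `K = 3 ≠` char `F`.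
* `UnitaryType`: `PSU₃(Q)` on the points of the Hermitian unital, char `F` prime to `Q`.
-/

set_option autoImplicit false
open Classical

namespace LTL

open P61e83e Pltc

/-- the law of the Sylow 2-subgroup of `Sz(K)` on `K × K` -/
def suzMul {K : Type*} [Field K] (σ : K ≃+* K) (g z : K × K) : K × K :=
  (g.1 + z.1, g.2 + z.2 + g.1 * σ z.1)

/-- the torus of `Sz(K)` -/
def suzTor {K : Type*} [Field K] (σ : K ≃+* K) (κ : K) (z : K × K) : K × K :=
  (κ * z.1, κ * σ κ * z.2)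

/-- the law of the Sylow 3-subgroup of `Ree(K)` on `K × K × K` -/
def reeMul {K : Type*} [Field K] (σ : K ≃+* K) (g z : K × K × K) : K × K × K :=
  (g.1 + z.1, g.2.1 + z.2.1 + g.1 * σ z.1,
    g.2.2 + z.2.2 + g.1 * z.2.1 - g.2.1 * z.1 - g.1 * (z.1 * σ z.1))

/-- the torus of `Ree(K)` -/
def reeTor {K : Type*} [Field K] (σ : K ≃+* K) (κ : K) (z : K × K × K) : K × K × K :=
  (κ * z.1, κ * σ κ * z.2.1, κ * κ * σ κ * z.2.2)

/-- the law of the Sylow subgroup of `PSU₃(Q)` on the pairs `(x, y)` with `y + y^Q = x^(Q+1)` -/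
def uniMul {L : Type*} [Field L] (Q : ℕ) (g z : L × L) : L × L :=
  (g.1 + z.1, g.2 + z.2 + g.1 ^ Q * z.1)

/-- the affine points of the Hermitian unital -/
def OnU {L : Type*} [Field L] (Q : ℕ) (z : L × L) : Prop := z.2 + z.2 ^ Q = z.1 * z.1 ^ Q

section families

variable {F : Type} [Field F] {n : ℕ}

/-- `C` is invariant under all translations of `K^3 × K^3` and all `(x, y) ↦ (A x, A^{-T} y)` with
`det A = 1`, in the characteristic of `F` -/
def DualSL3 (C : Submodule F (Fin n → F)) : Prop :=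
  ∃ (K : Type) (_ : Field K) (e : Fin n ≃ (Fin 3 → K) × (Fin 3 → K)), ringChar K = ringChar F ∧
    ∀ (A : Matrix (Fin 3) (Fin 3) K) (b : (Fin 3 → K) × (Fin 3 → K)), A.det = 1 →
      ∃ π : Equiv.Perm (Fin n), Pres C π ∧
        ∀ k, e (π k) = (A.mulVec (e k).1, A⁻¹.transpose.mulVec (e k).2) + b

/-- `C` is invariant under the stabiliser of a point in the Suzuki group `Sz(K)` -/
def SuzukiType (C : Submodule F (Fin n → F)) : Prop :=
  ∃ (K : Type) (_ : Field K) (σ : K ≃+* K) (e : Fin n ≃ Option (K × K)),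
    ringChar K = 2 ∧ ringChar F ≠ 2 ∧ (∀ x, σ (σ x) = x ^ 2) ∧
    (∀ g, ∃ π : Equiv.Perm (Fin n), Pres C π ∧ ∀ k, e (π k) = (e k).map (suzMul σ g)) ∧
    ∀ κ : K, κ ≠ 0 → ∃ π : Equiv.Perm (Fin n), Pres C π ∧ ∀ k, e (π k) = (e k).map (suzTor σ κ)

/-- `C` is invariant under the stabiliser of a point in the Ree group `Ree(K)` -/
def ReeType (C : Submodule F (Fin n → F)) : Prop :=
  ∃ (K : Type) (_ : Field K) (σ : K ≃+* K) (e : Fin n ≃ Option (K × K × K)),
    ringChar K = 3 ∧ ringChar F ≠ 3 ∧ (∀ x, σ (σ x) = x ^ 3) ∧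
    (∀ g, ∃ π : Equiv.Perm (Fin n), Pres C π ∧ ∀ k, e (π k) = (e k).map (reeMul σ g)) ∧
    ∀ κ : K, κ ≠ 0 → ∃ π : Equiv.Perm (Fin n), Pres C π ∧ ∀ k, e (π k) = (e k).map (reeTor σ κ)

/-- `C` is invariant under `PSU₃(Q)` on the `Q³ + 1` points of the Hermitian unital: the points are
`∞` and the `(x, y) ∈ L²` with `y + y^Q = x^(Q+1)`, `|L| = Q²`; the group is generated by the left
multiplications, the maps `(x, y) ↦ (κ x, κ^(Q+1) y)` with `κ = ρ^Q / ρ²`, and
`(x, y) ↦ (x / y, 1 / y)` -/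
def UnitaryType (C : Submodule F (Fin n → F)) : Prop :=
  ∃ (L : Type) (_ : Field L) (Q : ℕ) (e : Fin n ≃ Option {z : L × L // OnU Q z}),
    Nat.card L = Q ^ 2 ∧ (Q : F) ≠ 0 ∧
    (∀ g : L × L, OnU Q g → ∃ π : Equiv.Perm (Fin n), Pres C π ∧
      ∀ k, (e (π k)).map Subtype.val = ((e k).map Subtype.val).map (uniMul Q g)) ∧
    (∀ ρ : L, ρ ≠ 0 → ∃ π : Equiv.Perm (Fin n), Pres C π ∧
      ∀ k, (e (π k)).map Subtype.val = ((e k).map Subtype.val).map
        fun z => (ρ ^ Q / ρ ^ 2 * z.1, (ρ ^ Q / ρ ^ 2) ^ (Q + 1) * z.2)) ∧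
    ∃ π : Equiv.Perm (Fin n), Pres C π ∧ ∀ k,
      (e (π k)).map Subtype.val = ((e k).map Subtype.val).elim (some (0, 0))
        fun z => if z = (0, 0) then none else some (z.1 / z.2, 1 / z.2)

/-- the automorphism group of `C` contains one of the groups above -/
def LastCovered (C : Submodule F (Fin n → F)) : Prop :=
  DualSL3 C ∨ SuzukiType C ∨ ReeType C ∨ UnitaryType C

end families

/-- codes over `E` on a finite set: doubly transitive, of distance at least `δ |X|`, with a dual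
word of weight at most `q` -/
structure Good {E X : Type} [Field E] [Fintype X] (D : Submodule E (X → E)) (q : ℕ) (δ : ℝ) :
    Prop where
  two : DoublyTrans D
  dist : ∀ f ∈ D, f ≠ 0 → δ * Fintype.card X ≤ (wt f : ℝ)
  dual : ∃ u : X → E, u ≠ 0 ∧ wt u ≤ q ∧ Dual D u

end LTL
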