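import Mathlib

/-!
# Module LTL.Eig: an endomorphism with commutative centraliser (MP_61e83e_lc)
-/

set_option autoImplicit false

namespace LTL

namespace EigAux

variable {E V : Type*} [Field E] [AddCommGroup V] [Module E V]

/-- the endomorphism `x ↦ ∑ i ≤ j, ξ (N ^ i x) N ^ (j - i) y` -/
noncomputable def FF (N : Module.End E V) (ξ : V →ₗ[E] E) (j : ℕ) (y : V) : Module.End E V :=
  ∑ i ∈ Finset.range (j + 1), (ξ.comp (N ^ i)).smulRight ((N ^ (j - i)) y)

theorem FF_apply (N : Module.End E V) (ξ : V →ₗ[E] E) (j : ℕ) (y x : V) :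
    FF N ξ j y x = ∑ i ∈ Finset.range (j + 1), ξ ((N ^ i) x) • (N ^ (j - i)) y := by
  rw [FF, LinearMap.sum_apply]
  rfl

theorem FF_comm (N : Module.End E V) (ξ : V →ₗ[E] E) (j : ℕ) (y : V)
    (hξ : ∀ x, ξ ((N ^ (j + 1)) x) = 0) (hy : (N ^ (j + 1)) y = 0) :
    FF N ξ j y * N = N * FF N ξ j y := by
  refine LinearMap.ext fun x => ?_
  rw [Module.End.mul_apply, Module.End.mul_apply, FF_apply, FF_apply, map_sum]
  have h1 : ∀ i, (N ^ i) (N x) = (N ^ (i + 1)) x := by
    intro i
    rw [pow_succ, Module.End.mul_apply]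
  have h2 : ∀ i, N ((N ^ i) y) = (N ^ (i + 1)) y := by
    intro i
    rw [pow_succ', Module.End.mul_apply]
  rw [Finset.sum_range_succ, Finset.sum_range_succ' (fun i => N (ξ ((N ^ i) x) • (N ^ (j - i)) y))]
  have h3 : ξ ((N ^ j) (N x)) = 0 := by rw [h1]; exact hξ x
  have h4 : N ((N ^ (j - 0)) y) = 0 := by rw [h2, Nat.sub_zero]; exact hy
  rw [h3, zero_smul, add_zero, map_smul, h4, smul_zero, add_zero]
  refine Finset.sum_congr rfl fun i hi => ?_
  rw [map_smul, h1, h2]
  have hij : j - (i + 1) + 1 = j - i := by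
    have := Finset.mem_range.1 hi
    omega
  rw [hij]

theorem FF_ker (N : Module.End E V) (ξ : V →ₗ[E] E) (j : ℕ) (y x : V) (hx : N x = 0) :
    FF N ξ j y x = ξ x • (N ^ j) y := by
  rw [FF_apply, Finset.sum_range_succ']
  have h1 : ∀ i, (N ^ (i + 1)) x = 0 := by
    intro i
    rw [pow_succ, Module.End.mul_apply, hx, map_zero]
  rw [Finset.sum_eq_zero (fun i _ => by rw [h1, map_zero, zero_smul]), zero_add, pow_zero]
  rfl

end EigAux

open EigAux

theorem eig_le {E V : Type*} [Field E] [AddCommGroup V] [Module E V] [FiniteDimensional E V]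
    (w : Module.End E V)
    (h : ∀ f g : Module.End E V, f * w = w * f → g * w = w * g → f * g = g * f) :
    Module.finrank E (LinearMap.ker (w - 1)) ≤ 1 := by
  classical
  obtain ⟨N, hN⟩ : ∃ N : Module.End E V, N = w - 1 := ⟨_, rfl⟩
  have hcomm : ∀ f : Module.End E V, f * N = N * f → f * w = w * f := by
    intro f hf
    rw [hN, mul_sub, sub_mul, mul_one, one_mul] at hf
    exact sub_left_injective hf
  rw [← hN]
  by_contra hcon
  push Not at hcon
  have hker : LinearMap.ker N ≠ ⊥ := by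
    intro h0
    rw [h0, finrank_bot] at hcon
    omega
  -- the index `j`
  have hex : ∃ i, ¬ LinearMap.ker N ≤ LinearMap.range (N ^ i) := by
    by_contra hall
    push Not at hall
    obtain ⟨n, hn⟩ := Filter.eventually_atTop.1 (Module.End.eventually_disjoint_ker_pow_range_pow N)
    have h1 := hn (n + 1) (by omega)
    have h2 : LinearMap.ker N ≤ LinearMap.ker (N ^ (n + 1)) := by
      intro x hx
      rw [LinearMap.mem_ker] at hx ⊢
      rw [pow_succ, Module.End.mul_apply, hx, map_zero]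
    have h3 : LinearMap.ker N ≤ LinearMap.ker (N ^ (n + 1)) ⊓ LinearMap.range (N ^ (n + 1)) :=
      le_inf h2 (hall (n + 1))
    rw [h1.eq_bot] at h3
    exact hker (le_bot_iff.1 h3)
  have hfind := Nat.find_spec hex
  have hmin : ∀ m, m < Nat.find hex → LinearMap.ker N ≤ LinearMap.range (N ^ m) := by
    intro m hm
    have := Nat.find_min hex hm
    push Not at this
    exact this
  obtain ⟨j, hj⟩ : ∃ j, Nat.find hex = j + 1 := by
    refine Nat.exists_eq_succ_of_ne_zero ?_
    intro h0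
    rw [h0, pow_zero] at hfind
    apply hfind
    intro x _
    exact ⟨x, rfl⟩
  rw [hj] at hfind
  have hjle : LinearMap.ker N ≤ LinearMap.range (N ^ j) := hmin j (by omega)
  obtain ⟨v, hv, hvr⟩ := Set.not_subset.1 hfind
  have hvN : N v = 0 := hv
  obtain ⟨ξ₀, hξ₀v, hξ₀r⟩ := Submodule.exists_le_ker_of_notMem hvr
  obtain ⟨ξ, hξv, hξr⟩ : ∃ ξ : V →ₗ[E] E, ξ v = 1 ∧ ∀ x, ξ ((N ^ (j + 1)) x) = 0 := by
    refine ⟨(ξ₀ v)⁻¹ • ξ₀, ?_, ?_⟩
    · rw [LinearMap.smul_apply, smul_eq_mul, inv_mul_cancel₀ hξ₀v]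
    · intro x
      rw [LinearMap.smul_apply, show ξ₀ ((N ^ (j + 1)) x) = 0 from hξ₀r ⟨x, rfl⟩, smul_zero]
  -- another vector of the kernel
  obtain ⟨v', hv', hvv'⟩ : ∃ v' : V, N v' = 0 ∧ ∀ c : E, v' ≠ c • v := by
    by_contra hno
    push Not at hno
    have : LinearMap.ker N ≤ Submodule.span E {v} := by
      intro x hx
      obtain ⟨c, hc⟩ := hno x hx
      rw [hc]
      exact Submodule.smul_mem _ _ (Submodule.mem_span_singleton_self v)
    have h1 := Submodule.finrank_mono this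
    have h2 : Module.finrank E (Submodule.span E {v}) ≤ 1 := by
      have := finrank_span_le_card (R := E) ({v} : Set V)
      simpa using this
    omega
  obtain ⟨y, hy⟩ := hjle hv
  obtain ⟨y', hy'⟩ := hjle (show v' ∈ LinearMap.ker N from hv')
  have hy1 : (N ^ (j + 1)) y = 0 := by
    rw [pow_succ', Module.End.mul_apply, hy, hvN]
  have hy1' : (N ^ (j + 1)) y' = 0 := by
    rw [pow_succ', Module.End.mul_apply, hy', hv']
  have hfg := h (FF N ξ j y') (FF N ξ j y) (hcomm _ (FF_comm N ξ j y' hξr hy1'))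
    (hcomm _ (FF_comm N ξ j y hξr hy1))
  have h1 := congrArg (fun F : Module.End E V => F v) hfg
  simp only [Module.End.mul_apply] at h1
  rw [FF_ker N ξ j y v hvN, FF_ker N ξ j y' v hvN, hξv, one_smul, one_smul, hy, hy',
    FF_ker N ξ j y' v hvN, FF_ker N ξ j y v' hv', hξv, one_smul, hy, hy'] at h1
  exact hvv' (ξ v') h1

end LTL
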