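import Pool.Agent.Lib.LTL.Bias

/-!
# Module LTL.Equi: systems of twisted cubic equations (MP_61e83e_lc)

`exists_trace`: the trace of `K` over `ZMod p`. `equi`: if the system has no solution then the sum over all
`x : I → ZMod p` of the exponential sums `∑ z, e (∑ a, x a * (tr ((P a).val σ z) - v a))` is `0`. The sum for `x` is
`|G|`, `G = ι → K`, if the form with the coefficients `η * ∑ a, x a * (P a).c3 i j k` etc. is trivial (for instance for
`x = 0`), and otherwise its norm is less than `|G| / p ^ |I|` by `bias`; so the sum of the real parts is positive.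
-/

set_option autoImplicit false
open Classical

namespace LTL

theorem exists_trace (K : Type) [Field K] [Fintype K] (p : ℕ) [Fact p.Prime] [CharP K p] :
    ∃ T : K →+ ZMod p, (∀ (σ : K ≃+* K) (x : K), T (σ x) = T x) ∧ T ≠ 0 ∧
      ∀ tr : K →+ ZMod p, ∃ η : K, ∀ x, tr x = T (η * x) := by
  let _ : Algebra (ZMod p) K := ZMod.algebra K p
  have hnd := traceForm_nondegenerate (ZMod p) K
  refine ⟨(Algebra.trace (ZMod p) K).toAddMonoidHom, fun σ x => ?_, fun h => ?_, fun tr => ?_⟩
  · have hσ : ∀ r : ZMod p, σ (algebraMap (ZMod p) K r) = algebraMap (ZMod p) K r := fun r =>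
      RingHom.congr_fun (Subsingleton.elim ((σ : K →+* K).comp (algebraMap (ZMod p) K))
        (algebraMap (ZMod p) K)) r
    exact Algebra.trace_eq_of_algEquiv (AlgEquiv.ofRingEquiv (f := σ) hσ) x
  · have h1 := hnd.1 1
    refine one_ne_zero (h1 fun b => ?_)
    rw [Algebra.traceForm_apply, one_mul]
    exact DFunLike.congr_fun h b
  · refine ⟨((Algebra.traceForm (ZMod p) K).toDual hnd).symm (tr.toZModLinearMap p), fun x => ?_⟩
    have h1 := LinearMap.BilinForm.apply_toDual_symm_apply (hB := hnd) (tr.toZModLinearMap p) x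
    rw [Algebra.traceForm_apply] at h1
    exact h1.symm

namespace EquiAux

/-- linear combinations of forms -/
noncomputable def comb {K ι I : Type} [Field K] [Fintype I] (m : I → K) (P : I → CForm K ι) :
    CForm K ι where
  c3 i j k := ∑ a, m a * (P a).c3 i j k
  c2 i j := ∑ a, m a * (P a).c2 i j
  c1 i := ∑ a, m a * (P a).c1 i

theorem comb_val {K ι I : Type} [Field K] [Fintype ι] [Fintype I] (σ : K ≃+* K) (m : I → K)
    (P : I → CForm K ι) (z : ι → K) :
    (comb m P).val σ z = ∑ a, m a * (P a).val σ z := by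
  have h1 : ∀ f : ι → I → K, ∑ i, ∑ a, f i a = ∑ a, ∑ i, f i a := fun f => Finset.sum_comm
  unfold CForm.val comb
  simp only [Finset.sum_mul, Finset.mul_sum, mul_add, Finset.sum_add_distrib, h1, mul_assoc]

theorem sum_char {I : Type} [Fintype I] (p : ℕ) [Fact p.Prime] (w : I → ZMod p) (hw : w ≠ 0) :
    ∑ x : I → ZMod p, (ZMod.stdAddChar (N := p)) (∑ a, x a * w a) = 0 := by
  have h1 : ∀ x : I → ZMod p, (ZMod.stdAddChar (N := p)) (∑ a, x a * w a) =
      ∏ a, (ZMod.stdAddChar (N := p)) (x a * w a) := by
    intro x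
    induction (Finset.univ : Finset I) using Finset.induction_on with
    | empty => simp
    | insert a s ha ih =>
      rw [Finset.sum_insert ha, Finset.prod_insert ha, AddChar.map_add_eq_mul, ih]
  simp only [h1]
  have h2 := Finset.prod_univ_sum (fun _ : I => (Finset.univ : Finset (ZMod p)))
    (fun a y => (ZMod.stdAddChar (N := p)) (y * w a))
  rw [Fintype.piFinset_univ] at h2
  rw [← h2]
  obtain ⟨a, ha⟩ : ∃ a, w a ≠ 0 := by
    by_contra hc
    push Not at hc
    exact hw (funext hc)
  refine Finset.prod_eq_zero (Finset.mem_univ a) ?_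
  rw [AddChar.sum_mulShift (w a) (ZMod.isPrimitive_stdAddChar p), if_neg ha]
  simp

end EquiAux

theorem equi {K ι I : Type} [Field K] [Fintype K] [Fintype ι] [Fintype I] (p : ℕ) [Fact p.Prime]
    [CharP K p] (σ : K ≃+* K) (hσ : ∀ x, σ (σ x) = x ^ p) (tr : K →+ ZMod p) (htr : tr ≠ 0)
    (P : I → CForm K ι) (v : I → ZMod p) (h3 : p = 2 → ∀ a i j k, (P a).c3 i j k = 0)
    (hQ : 2 * p ^ (2 + 4 * Fintype.card I) < Fintype.card K)
    (H : ∀ n : I → ℕ,
      (∀ i j k, ∑ a, (n a : K) * ((P a).c3 i j k + (P a).c3 i k j) = 0) →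
      (∀ i j, ∑ a, (n a : K) * (P a).c2 i j = 0) →
      (∀ i, ∑ a, (n a : K) * (P a).c1 i = 0) → ∑ a, (n a : ZMod p) * v a = 0) :
    ∃ z : ι → K, ∀ a, tr ((P a).val σ z) = v a := by
  obtain ⟨T, hTσ, hT0, hTη⟩ := exists_trace K p
  obtain ⟨η, hη⟩ := hTη tr
  have hη0 : η ≠ 0 := by
    rintro rfl
    refine htr (AddMonoidHom.ext fun x => ?_)
    rw [hη x, zero_mul, map_zero, AddMonoidHom.zero_apply]
  by_contra hno
  push Not at hno
  set e : AddChar (ZMod p) ℂ := ZMod.stdAddChar (N := p) with he
  have he1 : ∀ t, ‖e t‖ = 1 := fun t => by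
    rw [he]
    exact AddChar.norm_apply _ _
  -- the character of `K`
  let ψ : AddChar K ℂ := e.compAddMonoidHom T
  have hψ : ∀ x, ψ x = e (T x) := fun x => rfl
  have hψ1 : ψ ≠ 1 := by
    intro h
    refine hT0 (AddMonoidHom.ext fun x => ?_)
    have h1 : e (T x) = 1 := by rw [← hψ, h]; rfl
    rw [← AddChar.map_zero_eq_one e] at h1
    exact ZMod.injective_stdAddChar h1
  have hψσ : ∀ x, ψ (σ x) = ψ x := fun x => by rw [hψ, hψ, hTσ]
  let w : (ι → K) → I → ZMod p := fun z a => tr ((P a).val σ z) - v a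
  have hw : ∀ z, w z ≠ 0 := by
    intro z hz
    obtain ⟨a, ha⟩ := hno z
    exact ha (sub_eq_zero.1 (congrFun hz a))
  let S : (I → ZMod p) → ℂ := fun x => ∑ z : ι → K, e (∑ a, x a * w z a)
  have hS : ∑ x, S x = 0 := by
    change ∑ x : I → ZMod p, ∑ z : ι → K, e (∑ a, x a * w z a) = 0
    rw [Finset.sum_comm]
    exact Finset.sum_eq_zero fun z _ => EquiAux.sum_char p (w z) (hw z)
  set G : ℝ := (Fintype.card (ι → K) : ℝ) with hG
  have hGpos : 0 < G := by
    rw [hG]
    exact_mod_cast Fintype.card_pos
  -- the sum for `x`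
  have hSx : ∀ x : I → ZMod p, S x = e (-∑ a, x a * v a) *
      ∑ z : ι → K, ψ ((EquiAux.comb (fun a => ((x a).val : K) * η) P).val σ z) := by
    intro x
    rw [Finset.mul_sum]
    refine Finset.sum_congr rfl fun z _ => ?_
    rw [hψ, EquiAux.comb_val, ← AddChar.map_add_eq_mul]
    have h1 : ∑ a, x a * w z a =
        -∑ a, x a * v a + T (∑ a, ((x a).val : K) * η * (P a).val σ z) := by
      rw [map_sum, neg_add_eq_sub, ← Finset.sum_sub_distrib]
      refine Finset.sum_congr rfl fun a _ => ?_
      change x a * (tr ((P a).val σ z) - v a) = _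
      rw [mul_sub, hη, mul_assoc, ← nsmul_eq_mul, map_nsmul, nsmul_eq_mul, ZMod.natCast_zmod_val]
    rw [h1]
  have hkey : ∀ x : I → ZMod p, S x = (G : ℂ) ∨
      ‖S x‖ ^ 4 * Fintype.card K ≤ 2 * (p : ℝ) ^ 2 * G ^ 4 := by
    intro x
    by_cases htriv : (EquiAux.comb (fun a => ((x a).val : K) * η) P).Triv
    · left
      have hz : ∀ f : I → K, ∑ a, ((x a).val : K) * η * f a = 0 → ∑ a, ((x a).val : K) * f a = 0 := by
        intro f hf
        have h1 : ∑ a, ((x a).val : K) * η * f a = η * ∑ a, ((x a).val : K) * f a := by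
          rw [Finset.mul_sum]
          exact Finset.sum_congr rfl fun a _ => by ring
        rw [h1] at hf
        exact (mul_eq_zero.1 hf).resolve_left hη0
      have hv : ∑ a, x a * v a = 0 := by
        have h1 := H (fun a => (x a).val)
          (fun i j k => hz _ (by
            have h2 := htriv.1 i j k
            simp only [EquiAux.comb] at h2
            rw [← h2, ← Finset.sum_add_distrib]
            exact Finset.sum_congr rfl fun a _ => by ring))
          (fun i j => hz _ (htriv.2.1 i j)) (fun i => hz _ (htriv.2.2 i))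
        simpa only [ZMod.natCast_zmod_val] using h1
      have hval : ∀ z, (EquiAux.comb (fun a => ((x a).val : K) * η) P).val σ z = 0 := by
        intro z
        have hcub : ∑ i, ∑ j, ∑ k, (EquiAux.comb (fun a => ((x a).val : K) * η) P).c3 i j k *
            σ (z i) * z j * z k = 0 := by
          by_cases h2 : (2 : K) = 0
          · have hp2 : p = 2 := by
              have h4 : ((2 : ℕ) : K) = 0 := by exact_mod_cast h2
              rw [CharP.cast_eq_zero_iff K p] at h4
              exact (Nat.prime_dvd_prime_iff_eq (Fact.out : p.Prime) Nat.prime_two).1 h4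
            refine Finset.sum_eq_zero fun i _ => Finset.sum_eq_zero fun j _ =>
              Finset.sum_eq_zero fun k _ => ?_
            have h5 : (EquiAux.comb (fun a => ((x a).val : K) * η) P).c3 i j k = 0 := by
              change ∑ a, ((x a).val : K) * η * (P a).c3 i j k = 0
              exact Finset.sum_eq_zero fun a _ => by rw [h3 hp2 a i j k, mul_zero]
            rw [h5]
            ring
          · exact triv_cub h2 σ _ htriv.1 z
        unfold CForm.val
        rw [hcub]
        simp only [htriv.2.1, htriv.2.2, zero_mul, Finset.sum_const_zero, add_zero]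
      rw [hSx x, hv]
      simp only [hval, neg_zero, AddChar.map_zero_eq_one, one_mul, Finset.sum_const,
        Finset.card_univ, nsmul_eq_mul, mul_one]
      rw [hG]
      norm_cast
    · right
      have h1 := bias p σ hσ ψ hψ1 hψσ (EquiAux.comb (fun a => ((x a).val : K) * η) P)
        (fun h i j k => Finset.sum_eq_zero fun a _ => by rw [h3 h a i j k, mul_zero]) htriv
      have h2 : ‖S x‖ = ‖∑ z : ι → K,
          ψ ((EquiAux.comb (fun a => ((x a).val : K) * η) P).val σ z)‖ := by
        rw [hSx x, norm_mul, he1, one_mul]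
      rw [h2]
      exact h1
  -- the norms are small
  set N : ℝ := (p : ℝ) ^ Fintype.card I with hN
  have hp0 : (0 : ℝ) < p := by exact_mod_cast (Fact.out : p.Prime).pos
  have hNpos : 0 < N := by positivity
  have hre : ∀ x : I → ZMod p, 0 ≤ (S x).re + G / N := by
    intro x
    rcases hkey x with h | h
    · rw [h, Complex.ofReal_re]
      positivity
    · have h1 : (‖S x‖ * N) ^ 4 ≤ G ^ 4 := by
        have h2 : (2 * (p : ℝ) ^ (2 + 4 * Fintype.card I)) < Fintype.card K := by
          exact_mod_cast hQ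
        have h3' : (p : ℝ) ^ (2 + 4 * Fintype.card I) = (p : ℝ) ^ 2 * N ^ 4 := by
          rw [hN, ← pow_mul, pow_add, mul_comm 4]
        have hK : (0 : ℝ) < Fintype.card K := by exact_mod_cast Fintype.card_pos
        have h4 : (‖S x‖ * N) ^ 4 * Fintype.card K ≤ G ^ 4 * Fintype.card K := by
          calc (‖S x‖ * N) ^ 4 * Fintype.card K
              = N ^ 4 * (‖S x‖ ^ 4 * Fintype.card K) := by ring
            _ ≤ N ^ 4 * (2 * (p : ℝ) ^ 2 * G ^ 4) :=
                mul_le_mul_of_nonneg_left h (by positivity)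
            _ = G ^ 4 * (2 * ((p : ℝ) ^ 2 * N ^ 4)) := by ring
            _ ≤ G ^ 4 * Fintype.card K := by
                refine mul_le_mul_of_nonneg_left ?_ (by positivity)
                rw [← h3']
                exact h2.le
        exact le_of_mul_le_mul_right h4 hK
      have h5 : ‖S x‖ * N ≤ G := le_of_pow_le_pow_left₀ (by norm_num) hGpos.le h1
      have h6 : ‖S x‖ ≤ G / N := (le_div_iff₀ hNpos).2 h5
      have h7 := Complex.abs_re_le_norm (S x)
      have h8 := neg_abs_le (S x).re
      linarith
  have hsum : ∑ x : I → ZMod p, ((S x).re + G / N) = G := by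
    rw [Finset.sum_add_distrib, ← Complex.re_sum, hS, Complex.zero_re, zero_add,
      Finset.sum_const, Finset.card_univ, nsmul_eq_mul, Fintype.card_fun, ZMod.card]
    push_cast
    rw [← hN]
    field_simp
  have hle := Finset.single_le_sum (f := fun x : I → ZMod p => (S x).re + G / N)
    (fun x _ => hre x) (Finset.mem_univ (0 : I → ZMod p))
  rw [hsum] at hle
  have hS0 : S 0 = (G : ℂ) := by
    change ∑ z : ι → K, e (∑ a, (0 : I → ZMod p) a * w z a) = _
    simp only [Pi.zero_apply, zero_mul, Finset.sum_const_zero, AddChar.map_zero_eq_one,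
      Finset.sum_const, Finset.card_univ, nsmul_eq_mul, mul_one]
    rw [hG]
    norm_cast
  have h9 : (S 0).re = G := by rw [hS0, Complex.ofReal_re]
  have h10 : 0 < G / N := div_pos hGpos hNpos
  simp only [h9] at hle
  linarith

end LTL
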