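import Mathlib

/-!
# Module LTL.Eta: the local parametrisation of the Hermitian curve (MP_61e83e_lc)

PROOF. `L` is a field of characteristic `p`, `Q = p ^ f`, `f ≥ 1`. Let
`η = ∑ k, (-1) ^ k T ^ ((Q + 1) Q ^ k)`: coefficient `(-1) ^ k` at `n = (Q + 1) Q ^ k` (`k` is unique) and
`0` elsewhere (`PowerSeries.mk`). Let `S_k` be the polynomial `∑ i < k, (-1) ^ i T ^ ((Q + 1) Q ^ i)`. By the
Frobenius map `S_k ^ Q = ∑ i < k, ((-1) ^ i) ^ Q T ^ ((Q + 1) Q ^ (i + 1))` and `(-1) ^ Q = -1` in
characteristic `p` (`neg_one_pow_char_pow`), so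
`S_k ^ Q + S_k = T ^ (Q + 1) - (-1) ^ k T ^ ((Q + 1) Q ^ k)`. As `η - S_k` is divisible by
`T ^ ((Q + 1) Q ^ k)`, so is `η ^ Q - S_k ^ Q`; hence the coefficients of `η ^ Q + η - T ^ (Q + 1)` of index
`< (Q + 1) Q ^ k` vanish, for all `k`. The coefficients of `η` below `Q + 1` are `0`, the coefficient
at `Q + 1` is `1` (`k = 0`).
-/

set_option autoImplicit false
open Classical

namespace LTL

namespace EtaAux

open PowerSeries

/-- the coefficients of `η`, cut at `N` -/
noncomputable def cf (L : Type) [Field L] (Q N n : ℕ) : L :=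
  ∑ i ∈ Finset.range N, if n = (Q + 1) * Q ^ i then (-1 : L) ^ i else 0

theorem cf_eq {L : Type} [Field L] {Q N M n : ℕ} (hN : ∀ i, n = (Q + 1) * Q ^ i → i < N)
    (hM : ∀ i, n = (Q + 1) * Q ^ i → i < M) : cf L Q N n = cf L Q M n := by
  have key : ∀ N' : ℕ, (∀ i, n = (Q + 1) * Q ^ i → i < N') →
      cf L Q N' n = cf L Q (max N M + N') n := by
    intro N' h
    unfold cf
    apply Finset.sum_subset
    · intro i hi
      rw [Finset.mem_range] at hi ⊢
      omega
    · intro i _ hi
      rw [if_neg]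
      intro h1
      exact hi (Finset.mem_range.mpr (h i h1))
  have key2 : ∀ N' : ℕ, (∀ i, n = (Q + 1) * Q ^ i → i < N') → ∀ M', N' ≤ M' →
      cf L Q N' n = cf L Q M' n := by
    intro N' h M' hM'
    unfold cf
    apply Finset.sum_subset
    · intro i hi
      rw [Finset.mem_range] at hi ⊢
      omega
    · intro i _ hi
      rw [if_neg]
      intro h1
      exact hi (Finset.mem_range.mpr (h i h1))
  rw [key2 N hN (max N M) (le_max_left _ _), key2 M hM (max N M) (le_max_right _ _)]

end EtaAux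

open EtaAux in
theorem exists_eta (L : Type) [Field L] (p : ℕ) [Fact p.Prime] [CharP L p] (f : ℕ) (hf : f ≠ 0) :
    ∃ η : PowerSeries L, η ^ (p ^ f) + η = PowerSeries.X ^ (p ^ f + 1) ∧
      (∀ n < p ^ f + 1, PowerSeries.coeff n η = 0) ∧ PowerSeries.coeff (p ^ f + 1) η = 1 := by
  have hp : p.Prime := Fact.out
  obtain ⟨Q, hQ⟩ : ∃ Q, Q = p ^ f := ⟨_, rfl⟩
  have hQ2 : 2 ≤ Q := by
    rw [hQ]
    exact hp.two_le.trans (Nat.le_self_pow hf p)
  have hgrow : ∀ i, i < (Q + 1) * Q ^ i := by
    intro i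
    have h1 : i < Q ^ i := Nat.lt_pow_self (by omega)
    nlinarith [Nat.zero_le (Q ^ i)]
  have hmono : ∀ i j, (Q + 1) * Q ^ i < (Q + 1) * Q ^ j → i < j := by
    intro i j h
    by_contra hij
    push Not at hij
    have := Nat.pow_le_pow_right (show 0 < Q by omega) hij
    have := Nat.mul_le_mul_left (Q + 1) this
    omega
  set η : PowerSeries L := PowerSeries.mk (fun n => cf L Q (n + 1) n) with hη
  let S : ℕ → PowerSeries L := fun k =>
    ∑ i ∈ Finset.range k, (-1 : PowerSeries L) ^ i * PowerSeries.X ^ ((Q + 1) * Q ^ i)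
  have hScoef : ∀ k n, PowerSeries.coeff n (S k) = cf L Q k n := by
    intro k n
    simp only [S, cf, map_sum]
    apply Finset.sum_congr rfl
    intro i _
    have h1 : ((-1 : PowerSeries L) ^ i) = PowerSeries.C ((-1 : L) ^ i) := by
      rw [map_pow, map_neg, map_one]
    rw [h1, PowerSeries.coeff_C_mul, PowerSeries.coeff_X_pow]
    split_ifs <;> simp
  haveI : CharP (PowerSeries L) p := by
    apply charP_of_injective_ringHom (R := L) (A := PowerSeries L) (f := PowerSeries.C)
    exact PowerSeries.C_injective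
  have hneg : ∀ i : ℕ, ((-1 : PowerSeries L) ^ i) ^ Q = (-1) ^ i := by
    intro i
    rw [← pow_mul, mul_comm, pow_mul, hQ]
    congr 1
    exact neg_one_pow_char_pow (PowerSeries L) p f
  have hSpow : ∀ k, S k ^ Q = - (S (k + 1)) + PowerSeries.X ^ (Q + 1) := by
    intro k
    have h1 : S k ^ Q = ∑ i ∈ Finset.range k,
        ((-1 : PowerSeries L) ^ i * PowerSeries.X ^ ((Q + 1) * Q ^ i)) ^ Q := by
      simp only [S]
      rw [hQ]
      haveI : ExpChar (PowerSeries L) p := ExpChar.prime hp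
      exact sum_pow_char_pow (R := PowerSeries L) p f _ _
    rw [h1]
    simp only [S]
    rw [Finset.sum_range_succ', pow_zero, pow_zero, one_mul, mul_one, neg_add, neg_add_cancel_right,
      ← Finset.sum_neg_distrib]
    apply Finset.sum_congr rfl
    intro i _
    rw [mul_pow, hneg, ← pow_mul, pow_succ (-1 : PowerSeries L) i, pow_succ Q i]
    ring
  have hdvd : ∀ k, (PowerSeries.X : PowerSeries L) ^ ((Q + 1) * Q ^ k) ∣ η - S k := by
    intro k
    rw [PowerSeries.X_pow_dvd_iff]
    intro m hm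
    rw [map_sub, hScoef, hη, PowerSeries.coeff_mk, sub_eq_zero]
    apply cf_eq
    · intro i hi
      have := hgrow i
      omega
    · intro i hi
      apply hmono
      rw [← hi]
      exact hm
  have hdvd2 : ∀ k, (PowerSeries.X : PowerSeries L) ^ ((Q + 1) * Q ^ k) ∣
      (η ^ Q + η - PowerSeries.X ^ (Q + 1)) := by
    intro k
    have h1 : η ^ Q + η - PowerSeries.X ^ (Q + 1) = (η - S k) ^ Q + (η - S (k + 1)) := by
      have h2 : (η - S k) ^ Q = η ^ Q - S k ^ Q := by
        rw [hQ]
        exact sub_pow_char_pow η (S k) f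
      rw [h2, hSpow]
      ring
    rw [h1]
    apply dvd_add
    · exact (hdvd k).trans (dvd_pow_self _ (by omega))
    · refine dvd_trans (pow_dvd_pow _ ?_) (hdvd (k + 1))
      exact Nat.mul_le_mul_left _ (Nat.pow_le_pow_right (by omega) (by omega))
  refine ⟨η, ?_, ?_, ?_⟩
  · rw [← hQ, ← sub_eq_zero]
    ext n
    rw [map_zero]
    exact PowerSeries.X_pow_dvd_iff.mp (hdvd2 n) n (hgrow n)
  · intro n hn
    rw [hη, PowerSeries.coeff_mk]
    unfold cf
    apply Finset.sum_eq_zero
    intro i _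
    rw [if_neg]
    intro h
    have : 1 ≤ Q ^ i := Nat.one_le_pow _ _ (by omega)
    have := Nat.mul_le_mul_left (Q + 1) this
    rw [← hQ] at hn
    omega
  · rw [← hQ, hη, PowerSeries.coeff_mk]
    have h1 : cf L Q (Q + 1 + 1) (Q + 1) = cf L Q 1 (Q + 1) := by
      apply cf_eq
      · intro i hi
        have := hgrow i
        omega
      · intro i hi
        by_contra hcon
        have h2 : Q ^ 1 ≤ Q ^ i := Nat.pow_le_pow_right (by omega) (by omega)
        have h3 := Nat.mul_le_mul_left (Q + 1) h2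
        nlinarith
    rw [h1]
    simp [cf]

end LTL
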