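import Pool.Agent.Lib.LTL.G2Fin

/-!
# Module LTL.FamA: the family `DualSL3` (MP_61e83e_lc)

PROOF. `F` finite, `p = ringChar F` prime, `E = AlgebraicClosure F`. Let `C` be as in the statement, with
`K` (finite, since `Fin n ≃ K^3 × K^3`; `CharP K p`), `|K| = p ^ m` (`FiniteField.card`), `n = |K| ^ 6`.
There is a ring homomorphism `τ : K → E` (`K` is a finite, hence algebraic, extension of `ZMod p` and `E` is
algebraically closed: `IsAlgClosed.lift` for `Algebra (ZMod p) K`, `Algebra (ZMod p) E`; as in
`Pltc.FamAffine`/`SAll`, search there). Let `e' : (Bool × Fin 3 → K) ≃ Fin n` be the composite of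
`z ↦ (fun i => z (false, i), fun i => z (true, i))` and `e.symm`. `reduce` (`δ = 3 ε` or use `δ = 0`) gives `D`
on `Bool × Fin 3 → K` over `E`, `Good D q _`, invariant under `e'.trans (π.trans e'.symm)`.
`SL3Inv D`: translations: `A = 1`. Root elements: for `b = false`: `A = Matrix.transvection i j t`
(`= 1 + t E_ij`, det `1`: `Matrix.det_transvection_of_ne`), `A⁻¹ = transvection i j (-t)`,
`(A⁻¹)ᵀ = transvection j i (-t)`: `x_i += t x_j`, `y_j -= t y_i`. For `b = true`:
`A = transvection j i (-t)`, `(A⁻¹)ᵀ = transvection i j t`: `y_i += t y_j`, `x_j -= t x_i`. Torus: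
`A = diagonal d` with `d i = 1`, `d j = s`, `d k = s⁻¹` for the third index `k` if `b = false`, and
`d j = s⁻¹`, `d k = s` if `b = true`; `(A⁻¹)ᵀ = diagonal (d⁻¹)`.
BOUND. If `q ≤ |K|`: `sl3_bound`: `dim C ≤ dim D ≤ (m p) ^ (6 (q - 1))`. `m ≤ log n / log 2 + 1` etc.:
`m p ≤ 2 p (log n + 1)` (`n ≥ 2 ^ (6 m)`), so the bound is `≤ (2 p) ^ (6 q) (log n + 1) ^ (6 q)`
(`2 p (log n + 1) ≥ 1`). If `|K| < q`: `dim C ≤ n = |K| ^ 6 ≤ q ^ 6`. Take `c = (2 p) ^ (6 q) + q ^ 6`.
-/

set_option autoImplicit false
set_option linter.unusedSimpArgs false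
open Classical

namespace LTL

open P61e83e Pltc

namespace FamAAux

/-- the coordinates `(x, y)` -/
def co (K : Type) : (Bool × Fin 3 → K) ≃ (Fin 3 → K) × (Fin 3 → K) where
  toFun z := (fun i => z (false, i), fun i => z (true, i))
  invFun w := fun bi => bif bi.1 then w.2 bi.2 else w.1 bi.2
  left_inv z := by
    funext ⟨b, i⟩
    cases b <;> rfl
  right_inv w := rfl

theorem transv_mulVec {K : Type} [Field K] (i j : Fin 3) (t : K) (x : Fin 3 → K) (k : Fin 3) :
    (Matrix.transvection i j t).mulVec x k = x k + if k = i then t * x j else 0 := by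
  rw [Matrix.transvection, Matrix.add_mulVec, Matrix.one_mulVec, Pi.add_apply]
  congr 1
  rw [Matrix.single_mulVec]
  simp [Function.update_apply]

theorem transv_inv_transpose {K : Type} [Field K] (i j : Fin 3) (h : i ≠ j) (t : K) :
    (Matrix.transvection i j t)⁻¹.transpose = Matrix.transvection j i (-t) := by
  have h1 : (Matrix.transvection i j t)⁻¹ = Matrix.transvection i j (-t) := by
    apply Matrix.inv_eq_right_inv
    rw [Matrix.transvection_mul_transvection_same i j h]
    simp
  rw [h1]
  simp [Matrix.transvection, Matrix.transpose_single]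

theorem det_diag {K : Type} [Field K] (i j : Fin 3) (h : i ≠ j) (s : K) (hs : s ≠ 0) :
    (Matrix.diagonal fun l : Fin 3 => if l = i then (1 : K) else if l = j then s else s⁻¹).det
      = 1 := by
  rw [Matrix.det_diagonal, Fin.prod_univ_three]
  fin_cases i <;> fin_cases j <;> first | exact absurd rfl h | (simp; field_simp)

theorem diag_inv {K : Type} [Field K] (d : Fin 3 → K) (hd : ∀ l, d l ≠ 0) :
    (Matrix.diagonal d)⁻¹.transpose = Matrix.diagonal fun l => (d l)⁻¹ := by
  have h1 : (Matrix.diagonal d)⁻¹ = Matrix.diagonal fun l => (d l)⁻¹ := by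
    apply Matrix.inv_eq_right_inv
    rw [Matrix.diagonal_mul_diagonal]
    rw [← Matrix.diagonal_one]
    congr 1
    funext l
    exact mul_inv_cancel₀ (hd l)
  rw [h1, Matrix.diagonal_transpose]

theorem inv_of {K E : Type} [Field K] [Field E] (D : Submodule E ((Bool × Fin 3 → K) → E))
    (h : ∀ (A : Matrix (Fin 3) (Fin 3) K) (b : (Fin 3 → K) × (Fin 3 → K)), A.det = 1 →
      ∀ φ ∈ D, (fun z => φ ((co K).symm
        ((A.mulVec (co K z).1, A⁻¹.transpose.mulVec (co K z).2) + b))) ∈ D) : SL3Inv D := by
  refine ⟨?_, ?_, ?_⟩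
  · intro φ hφ b
    have h1 := h 1 (co K b) Matrix.det_one φ hφ
    convert h1 using 1
    funext z
    congr 1
    rw [Equiv.eq_symm_apply, inv_one, Matrix.transpose_one, Matrix.one_mulVec, Matrix.one_mulVec]
    rfl
  · intro φ hφ b i j hij t
    cases b with
    | false =>
      have h1 := h (Matrix.transvection i j t) 0 (Matrix.det_transvection_of_ne i j hij t) φ hφ
      convert h1 using 1
      funext z
      congr 1
      rw [Equiv.eq_symm_apply, transv_inv_transpose i j hij, add_zero]
      refine Prod.ext ?_ ?_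
      · funext k
        change _ = (Matrix.transvection _ _ _).mulVec _ k
        rw [transv_mulVec]
        rcases eq_or_ne k i with rfl | hki
        · simp [co, Function.update_apply, hij]
        · rcases eq_or_ne k j with rfl | hkj
          · simp [co, Function.update_apply, hki, sub_eq_add_neg]
          · simp [co, Function.update_apply, hki, hkj]
      · funext k
        change _ = (Matrix.transvection _ _ _).mulVec _ k
        rw [transv_mulVec]
        rcases eq_or_ne k i with rfl | hki
        · simp [co, Function.update_apply, hij]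
        · rcases eq_or_ne k j with rfl | hkj
          · simp [co, Function.update_apply, hki, sub_eq_add_neg]
          · simp [co, Function.update_apply, hki, hkj]
    | true =>
      have h1 := h (Matrix.transvection j i (-t)) 0
        (Matrix.det_transvection_of_ne j i hij.symm (-t)) φ hφ
      convert h1 using 1
      funext z
      congr 1
      rw [Equiv.eq_symm_apply, transv_inv_transpose j i hij.symm, add_zero, neg_neg]
      refine Prod.ext ?_ ?_
      · funext k
        change _ = (Matrix.transvection _ _ _).mulVec _ k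
        rw [transv_mulVec]
        rcases eq_or_ne k i with rfl | hki
        · simp [co, Function.update_apply, hij]
        · rcases eq_or_ne k j with rfl | hkj
          · simp [co, Function.update_apply, hki, sub_eq_add_neg]
          · simp [co, Function.update_apply, hki, hkj]
      · funext k
        change _ = (Matrix.transvection _ _ _).mulVec _ k
        rw [transv_mulVec]
        rcases eq_or_ne k i with rfl | hki
        · simp [co, Function.update_apply, hij]
        · rcases eq_or_ne k j with rfl | hkj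
          · simp [co, Function.update_apply, hki, sub_eq_add_neg]
          · simp [co, Function.update_apply, hki, hkj]
  · intro b i j hij s hs
    cases b with
    | false =>
      have hd := det_diag i j hij s hs
      have hne : ∀ l : Fin 3, (if l = i then (1 : K) else if l = j then s else s⁻¹) ≠ 0 := by
        intro l
        split_ifs
        · exact one_ne_zero
        · exact hs
        · exact inv_ne_zero hs
      refine ⟨_, ?_, ?_, fun φ hφ => h _ 0 hd φ hφ⟩
      · intro z
        rw [add_zero]
        change (Matrix.diagonal _).mulVec _ j = _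
        rw [Matrix.mulVec_diagonal, if_neg hij.symm, if_pos rfl]
        rfl
      · intro z
        rw [add_zero]
        change (Matrix.diagonal _)⁻¹.transpose.mulVec _ i = _
        rw [diag_inv _ hne, Matrix.mulVec_diagonal, if_pos rfl, inv_one, one_mul]
        rfl
    | true =>
      have hd := det_diag i j hij s⁻¹ (inv_ne_zero hs)
      have hne : ∀ l : Fin 3, (if l = i then (1 : K) else if l = j then s⁻¹ else s⁻¹⁻¹) ≠ 0 := by
        intro l
        split_ifs
        · exact one_ne_zero
        · exact inv_ne_zero hs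
        · exact inv_ne_zero (inv_ne_zero hs)
      refine ⟨_, ?_, ?_, fun φ hφ => h _ 0 hd φ hφ⟩
      · intro z
        rw [add_zero]
        change (Matrix.diagonal _)⁻¹.transpose.mulVec _ j = _
        rw [diag_inv _ hne, Matrix.mulVec_diagonal, if_neg hij.symm, if_pos rfl, inv_inv]
        rfl
      · intro z
        rw [add_zero]
        change (Matrix.diagonal _).mulVec _ i = _
        rw [Matrix.mulVec_diagonal, if_pos rfl, one_mul]
        rfl

theorem six_log_two : (1 : ℝ) ≤ 6 * Real.log 2 := by
  have := Real.log_two_gt_d9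
  linarith

theorem arith (p m q Q n : ℕ) (hp : 2 ≤ p) (hQ : Q = p ^ m) (hn : n = Q ^ 6) (d : ℕ)
    (hd : (q ≤ Q → d ≤ ((m * p) ^ (q - 1)) ^ 6)) (hd' : d ≤ n) :
    (d : ℝ) ≤ ((p : ℝ) ^ (6 * q) + (q : ℝ) ^ 6) * (Real.log n + 1) ^ (6 * q) := by
  have hlog : (0 : ℝ) ≤ Real.log n := Real.log_natCast_nonneg n
  have h1 : (1 : ℝ) ≤ (Real.log n + 1) ^ (6 * q) := one_le_pow₀ (by linarith)
  have hp' : (2 : ℝ) ≤ p := by exact_mod_cast hp
  rcases le_or_gt q Q with hqQ | hqQ
  · have h2 : (m : ℝ) ≤ Real.log n := by
      have e1 : (n : ℝ) = (p : ℝ) ^ (m * 6) := by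
        rw [hn, hQ]
        push_cast
        rw [pow_mul]
      rw [e1, Real.log_pow]
      have e2 : Real.log 2 ≤ Real.log p := Real.log_le_log (by norm_num) hp'
      have e3 := six_log_two
      have e4 : (0 : ℝ) ≤ m := Nat.cast_nonneg m
      push_cast
      nlinarith
    have h3 : ((m * p : ℕ) : ℝ) ≤ p * (Real.log n + 1) := by
      push_cast
      nlinarith
    have h4 : (1 : ℝ) ≤ p * (Real.log n + 1) := by nlinarith
    calc (d : ℝ) ≤ ((((m * p) ^ (q - 1)) ^ 6 : ℕ) : ℝ) := by exact_mod_cast hd hqQ
      _ = ((m * p : ℕ) : ℝ) ^ ((q - 1) * 6) := by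
        push_cast
        rw [← pow_mul]
      _ ≤ (p * (Real.log n + 1)) ^ ((q - 1) * 6) :=
        pow_le_pow_left₀ (Nat.cast_nonneg _) h3 _
      _ ≤ (p * (Real.log n + 1)) ^ (6 * q) := pow_le_pow_right₀ h4 (by omega)
      _ = (p : ℝ) ^ (6 * q) * (Real.log n + 1) ^ (6 * q) := mul_pow _ _ _
      _ ≤ _ := by
        refine mul_le_mul_of_nonneg_right ?_ (by linarith)
        have : (0 : ℝ) ≤ (q : ℝ) ^ 6 := by positivity
        linarith
  · have h2 : (d : ℝ) ≤ (q : ℝ) ^ 6 := by
      have : d ≤ q ^ 6 := by
        refine hd'.trans ?_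
        rw [hn]
        exact Nat.pow_le_pow_left hqQ.le 6
      exact_mod_cast this
    have h3 : (0 : ℝ) ≤ (p : ℝ) ^ (6 * q) := by positivity
    have h4 : (0 : ℝ) ≤ (q : ℝ) ^ 6 := by positivity
    nlinarith

end FamAAux

open FamAAux

theorem famA (F : Type) [Field F] [Fintype F] (q : ℕ) :
    ∃ c : ℝ, 0 ≤ c ∧ ∀ (n : ℕ) (C : Submodule F (Fin n → F)) (u : Fin n → F),
      u ≠ 0 → wt u ≤ q → Dual C u → DoublyTrans C → DualSL3 C →
      (Module.finrank F C : ℝ) ≤ c * (Real.log n + 1) ^ (6 * q) := by
  set p := ringChar F with hpdef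
  have hpF : CharP F p := ringChar.charP F
  have hp : p.Prime := CharP.char_is_prime F p
  have : Fact p.Prime := ⟨hp⟩
  refine ⟨(p : ℝ) ^ (6 * q) + (q : ℝ) ^ 6, by positivity, ?_⟩
  intro n C u hu0 huq hu hG hC
  obtain ⟨K, _, e, hchar, hinv⟩ := hC
  have hKK : Fintype ((Fin 3 → K) × (Fin 3 → K)) := Fintype.ofEquiv _ e
  have hKf : Finite K := by
    refine Finite.of_injective
      (fun c : K => ((fun _ => c, 0) : (Fin 3 → K) × (Fin 3 → K))) fun a b hab => ?_
    exact congrFun (congrArg Prod.fst hab) 0
  let _ : Fintype K := Fintype.ofFinite K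
  have hpK : CharP K p := by
    rw [hpdef, ← hchar]
    exact ringChar.charP K
  obtain ⟨m, -, hm⟩ := FiniteField.card K p
  let E := AlgebraicClosure F
  have : CharP E p := charP_of_injective_algebraMap (algebraMap F E).injective p
  let _ := ZMod.algebra K p
  let _ := ZMod.algebra E p
  have : Module.Finite (ZMod p) K := Module.Finite.of_finite
  let τ : K →+* E := (IsAlgClosed.lift (R := ZMod p) (S := K) (M := E)).toRingHom
  let e' : (Bool × Fin 3 → K) ≃ Fin n := (co K).trans e.symm
  have hn : n = Fintype.card K ^ 6 := by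
    have h1 := Fintype.card_congr e'
    rw [Fintype.card_fin] at h1
    rw [← h1]
    simp
  obtain ⟨D, hD1, hD2, hD3⟩ := reduce C u hu0 q huq hu hG 0
    (fun f _ _ => by rw [zero_mul]; exact Nat.cast_nonneg _) e' E
  have hD : SL3Inv D := by
    refine inv_of D ?_
    intro A b hA φ hφ
    obtain ⟨π, hπ1, hπ2⟩ := hinv A b hA
    have h1 := hD2 π hπ1 φ hφ
    convert h1 using 1
    funext z
    congr 1
    have h2 := hπ2 (e.symm (co K z))
    rw [Equiv.apply_symm_apply] at h2
    change (co K).symm _ = (co K).symm (e (π (e.symm (co K z))))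
    rw [h2]
  refine arith p m q (Fintype.card K) n hp.two_le hm hn _ ?_ ?_
  · intro hq
    exact hD3.trans (sl3_bound p τ m m.pos hm D hD q 0 hD1 hq)
  · refine (Submodule.finrank_le C).trans ?_
    rw [Module.finrank_fin_fun]

end LTL
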