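import Pool.Agent.Lib.LTL.Char

/-!
# Module LTL.LocFour: a local Fourier argument (MP_61e83e_lc)

PROOF. `E` is algebraically closed and `|K|` is invertible in `E` (so are the orders of the subgroups
of `K`: they divide `|K|`, `AddSubgroup.card_addSubgroup_dvd_card`).
By `LTL.fourier` for the finite group `𝓔` and the function `e ↦ G (X₀ + e)` (nonzero at `e = 0`) there is
a character `φ` of `𝓔` with `∑ e ∈ 𝓔, φ e * G (X₀ + e) ≠ 0`.
For every `h` at most one `i : Fin (m + 1)` satisfies: `χ h i k * φ (k * a h) = 1` for all `k ∈ 𝓚`; for two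
such `i ≠ j` we would have `χ h i k = χ h j k` for all `k ∈ 𝓚`, against `hdiff`. By the pigeonhole
principle (`m` values of `h`, `m + 1` values of `i`) there is `i` such that for every `h` the function
`k ↦ χ h i k * φ (k * a h)` on `𝓚` is not identically `1`. Fix this `i`. It is multiplicative in `k`
(`hχ`, and `k ↦ k * a h` is additive `𝓚 → 𝓔`), so
`∑ k ∈ 𝓚, χ h i k * φ (k * a h) = 0` (`*`) (choose `k₀` with value `≠ 1` and translate the sum).
For `k ∈ 𝓚`, `e ∈ 𝓔`: `κ = w i + k ≠ 0` (`w i ∉ 𝓚`), so `heq` for `κ` and `X = X₀ + e` gives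
`u₀ * G (X₀ + e) + ∑ h, u h * Λ h (w i + k) (X₀ + e) * G (X₀ + e - (w i + k) * a h) = 0`.
Multiply by `φ e` and sum over `e ∈ 𝓔` and `k ∈ 𝓚`. First term: `|𝓚| u₀ ∑ e, φ e * G (X₀ + e) ≠ 0`.
Term `h`: substitute `e ↦ e + k * a h` (`k * a h ∈ 𝓔`), it becomes
`u h * ∑ e, φ e * A h i e * G (X₀ + e - w i * a h) * ∑ k, φ (k * a h) * χ h i k = 0` by `hfac` and `(*)`.
Contradiction.
-/

set_option autoImplicit false
open Classical

namespace LTL

namespace LocFourAux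

theorem card_ne {E K : Type} [Field E] [Field K] [Fintype K] (hK : (Fintype.card K : E) ≠ 0)
    (𝓔 : AddSubgroup K) : (Nat.card 𝓔 : E) ≠ 0 := by
  intro h
  apply hK
  obtain ⟨c, hc⟩ : Nat.card 𝓔 ∣ Nat.card K := AddSubgroup.card_addSubgroup_dvd_card 𝓔
  rw [← Nat.card_eq_fintype_card, hc]
  push_cast
  rw [h, zero_mul]

theorem sum_zero {A E : Type} [AddCommGroup A] [Fintype A] [Field E] (ψ : A → E)
    (hψ : ∀ a b, ψ (a + b) = ψ a * ψ b) (a₀ : A) (ha : ψ a₀ ≠ 1) : ∑ a, ψ a = 0 := by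
  have h : ∑ a, ψ a = (∑ a, ψ a) * ψ a₀ := by
    calc ∑ a, ψ a = ∑ a, ψ (a + a₀) := (Equiv.sum_comp (Equiv.addRight a₀) ψ).symm
      _ = ∑ a, ψ a * ψ a₀ := Finset.sum_congr rfl fun a _ => hψ a a₀
      _ = (∑ a, ψ a) * ψ a₀ := (Finset.sum_mul _ _ _).symm
  have h2 : (∑ a, ψ a) * (ψ a₀ - 1) = 0 := by rw [mul_sub, mul_one, ← h, sub_self]
  rcases mul_eq_zero.1 h2 with h1 | h1
  · exact h1
  · exact absurd (sub_eq_zero.1 h1) ha

end LocFourAux

open LocFourAux in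
theorem local_fourier {E K : Type} [Field E] [IsAlgClosed E] [Field K] [Fintype K]
    (hK : (Fintype.card K : E) ≠ 0) (m : ℕ) (a : Fin m → K) (u : Fin m → E) (u₀ : E)
    (hu₀ : u₀ ≠ 0) (G : K → E) (Λ : Fin m → K → K → E)
    (heq : ∀ κ, κ ≠ 0 → ∀ X, u₀ * G X + ∑ h, u h * Λ h κ X * G (X - κ * a h) = 0)
    (𝓚 𝓔 : AddSubgroup K) (hE : ∀ k ∈ 𝓚, ∀ h, k * a h ∈ 𝓔) (w : Fin (m + 1) → K)
    (hw : ∀ i, w i ∉ 𝓚) (X₀ : K) (hG : G X₀ ≠ 0) (A : Fin m → Fin (m + 1) → K → E)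
    (χ : Fin m → Fin (m + 1) → K → E)
    (hχ : ∀ h i, ∀ k ∈ 𝓚, ∀ k' ∈ 𝓚, χ h i (k + k') = χ h i k * χ h i k')
    (hχ0 : ∀ h i k, χ h i k ≠ 0)
    (hfac : ∀ h i, ∀ k ∈ 𝓚, ∀ e ∈ 𝓔, Λ h (w i + k) (X₀ + e + k * a h) = A h i e * χ h i k)
    (hdiff : ∀ h i j, i ≠ j → ∃ k ∈ 𝓚, χ h i k ≠ χ h j k) : False := by
  -- the character `φ`
  obtain ⟨φ, hφ⟩ := fourier (A := 𝓔) (card_ne hK 𝓔) (fun e : 𝓔 => G (X₀ + (e : K))) 0
    (by simpa using hG)
  let kh : 𝓚 → Fin m → 𝓔 := fun k h => ⟨(k : K) * a h, hE k k.2 h⟩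
  have khadd : ∀ (k k' : 𝓚) (h : Fin m), kh (k + k') h = kh k h + kh k' h := by
    intro k k' h
    apply Subtype.ext
    show ((k : K) + (k' : K)) * a h = (k : K) * a h + (k' : K) * a h
    ring
  let ψ : Fin m → Fin (m + 1) → 𝓚 → E := fun h i k => χ h i (k : K) * φ (kh k h)
  have ψadd : ∀ h i (k k' : 𝓚), ψ h i (k + k') = ψ h i k * ψ h i k' := by
    intro h i k k'
    show χ h i ((k : K) + (k' : K)) * φ (kh (k + k') h) =
      χ h i (k : K) * φ (kh k h) * (χ h i (k' : K) * φ (kh k' h))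
    rw [hχ h i k k.2 k' k'.2, khadd, AddChar.map_add_eq_mul]
    ring
  -- the choice of `i`
  obtain ⟨i, hi⟩ : ∃ i, ∀ h, ∃ k : 𝓚, ψ h i k ≠ 1 := by
    by_contra hcon
    push Not at hcon
    choose f hf using hcon
    obtain ⟨i, j, hij, hfij⟩ := Fintype.exists_ne_map_eq_of_card_lt f (by simp)
    obtain ⟨k, hk, hne⟩ := hdiff (f i) i j hij
    apply hne
    have h1 : χ (f i) i k * φ (kh ⟨k, hk⟩ (f i)) = 1 := hf i ⟨k, hk⟩
    have h2 : χ (f i) j k * φ (kh ⟨k, hk⟩ (f i)) = 1 := by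
      have := hf j ⟨k, hk⟩
      rw [← hfij] at this
      exact this
    have h3 : φ (kh ⟨k, hk⟩ (f i)) ≠ 0 := by
      intro h0
      rw [h0, mul_zero] at h1
      exact zero_ne_one h1
    exact mul_right_cancel₀ h3 (h1.trans h2.symm)
  have hstar : ∀ h, ∑ k, ψ h i k = 0 := by
    intro h
    obtain ⟨k₀, hk₀⟩ := hi h
    exact sum_zero (ψ h i) (ψadd h i) k₀ hk₀
  -- the equation
  have hz : ∀ k : 𝓚, w i + (k : K) ≠ 0 := by
    intro k h0
    apply hw i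
    rw [eq_neg_of_add_eq_zero_left h0]
    exact 𝓚.neg_mem k.2
  have hterm : ∀ h, ∑ k : 𝓚, ∑ e : 𝓔, φ e * (u h * Λ h (w i + (k : K)) (X₀ + (e : K)) *
      G (X₀ + (e : K) - (w i + (k : K)) * a h)) = 0 := by
    intro h
    have h1 : ∀ k : 𝓚, ∑ e : 𝓔, φ e * (u h * Λ h (w i + (k : K)) (X₀ + (e : K)) *
        G (X₀ + (e : K) - (w i + (k : K)) * a h)) =
        ∑ e : 𝓔, φ e * (u h * A h i (e : K) * G (X₀ + (e : K) - w i * a h)) * ψ h i k := by
      intro k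
      rw [← Equiv.sum_comp (Equiv.addRight (kh k h))]
      refine Finset.sum_congr rfl fun e _ => ?_
      have e1 : ((Equiv.addRight (kh k h) e : 𝓔) : K) = (e : K) + (k : K) * a h := rfl
      have e2 : φ (Equiv.addRight (kh k h) e) = φ e * φ (kh k h) :=
        AddChar.map_add_eq_mul φ e (kh k h)
      rw [e1, e2]
      have e3 : X₀ + ((e : K) + (k : K) * a h) = X₀ + (e : K) + (k : K) * a h := by ring
      have e4 : X₀ + ((e : K) + (k : K) * a h) - (w i + (k : K)) * a h =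
          X₀ + (e : K) - w i * a h := by ring
      rw [e4, e3, hfac h i k k.2 e e.2]
      show _ = φ e * (u h * A h i (e : K) * G (X₀ + (e : K) - w i * a h)) *
        (χ h i (k : K) * φ (kh k h))
      ring
    rw [Finset.sum_congr rfl fun k _ => h1 k, Finset.sum_comm]
    refine Finset.sum_eq_zero fun e _ => ?_
    rw [← Finset.mul_sum, hstar h, mul_zero]
  have hmain : ∑ k : 𝓚, ∑ e : 𝓔, φ e * (u₀ * G (X₀ + (e : K)) +
      ∑ h, u h * Λ h (w i + (k : K)) (X₀ + (e : K)) *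
        G (X₀ + (e : K) - (w i + (k : K)) * a h)) = 0 := by
    refine Finset.sum_eq_zero fun k _ => Finset.sum_eq_zero fun e _ => ?_
    rw [heq _ (hz k) (X₀ + (e : K)), mul_zero]
  have hsplit : ∑ k : 𝓚, ∑ e : 𝓔, φ e * (u₀ * G (X₀ + (e : K)) +
      ∑ h, u h * Λ h (w i + (k : K)) (X₀ + (e : K)) *
        G (X₀ + (e : K) - (w i + (k : K)) * a h)) =
      (Nat.card 𝓚 : E) * (u₀ * ∑ e : 𝓔, φ e * G (X₀ + (e : K))) +
      ∑ h, ∑ k : 𝓚, ∑ e : 𝓔, φ e * (u h * Λ h (w i + (k : K)) (X₀ + (e : K)) *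
      G (X₀ + (e : K) - (w i + (k : K)) * a h)) := by
    rw [Finset.sum_comm (s := (Finset.univ : Finset (Fin m)))]
    have h2 : (Nat.card 𝓚 : E) * (u₀ * ∑ e : 𝓔, φ e * G (X₀ + (e : K))) =
        ∑ _k : 𝓚, u₀ * ∑ e : 𝓔, φ e * G (X₀ + (e : K)) := by
      rw [Finset.sum_const, Finset.card_univ, Nat.card_eq_fintype_card, nsmul_eq_mul]
    rw [h2, ← Finset.sum_add_distrib]
    refine Finset.sum_congr rfl fun k _ => ?_
    rw [Finset.sum_comm (s := (Finset.univ : Finset (Fin m))), Finset.mul_sum,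
      ← Finset.sum_add_distrib]
    refine Finset.sum_congr rfl fun e _ => ?_
    rw [mul_add, Finset.mul_sum]
    ring
  rw [hsplit, Finset.sum_eq_zero fun h _ => hterm h, add_zero] at hmain
  exact mul_ne_zero (card_ne hK 𝓚) (mul_ne_zero hu₀ hφ) hmain

end LTL
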