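import Pool.Agent.Lib.LTL.ReeSys0

/-!
# Module LTL.ReeFac: the factorisation of the phases for the Ree groups (MP_61e83e_lc)

Notation: `w^σ = σ w`, `κ = w + k`, `X = X₀ + e + k a h`, `a = a h` etc.
PROOF of `ree_fac`. `𝓔` is the additive subgroup generated by the `k * a g` (`k ∈ 𝓚`). By closure induction
the hypotheses give for `k, k' ∈ 𝓚`, `e, e' ∈ 𝓔`: `tr (b w^σ k e) = 0`, `tr (b w k^σ e) = 0`,
`tr (b k^σ k' e) = 0`, `tr (a^σ a w^σ k e) = 0`, `tr (a^σ X₀ k^σ e) = 0`, `tr (a^σ k^σ e e') = 0`.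
Expansion of the three summands of the phase:
`κ² κ^σ γ = γ [w² w^σ + 2 w w^σ k + w² k^σ] + γ w^σ k² + 2 γ w k k^σ + γ k² k^σ`;
`κ κ^σ b X = b w w^σ (X₀ + e) + [b w w^σ k a + b w^σ k X₀ + b w k^σ X₀]
  + b w^σ k (e + k a) + b w k^σ (e + k a) + b k k^σ X₀ + b k k^σ (e + k a)`;
`κ^σ a^σ (X² - s²)` with `X² - s² = [(X₀ + e)² - s²] + 2 X₀ k a + 2 e k a + k² a²`:
`w^σ a^σ [(X₀ + e)² - s²] + [2 X₀ w^σ a^σ a k] + w^σ a^σ (2 e k a + k² a²)
  + [k^σ a^σ (X₀² - s²)] + k^σ a^σ (2 X₀ e + 2 X₀ k a) + k^σ a^σ (e² + 2 e k a + k² a²)`.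
The terms with `w` and `e` only form `pA`, the terms in brackets with `k` form `pX`, all the others have
trace `0` (note `k a ∈ 𝓔`). The whole identity `phase - pA - pX = (sum of the others)` is `ring` after
`map_add`, `map_mul` (checked by computer over `ℤ` with `σ w, σ k, σ a` as independent variables).
`pX_add`: `pX` is additive in `k`. `pX_sub`: `pX` for `w = wi` minus `pX` for `w = wj` is `tar` (`ring`
after `map_sub`).
-/

set_option autoImplicit false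
open Classical

namespace LTL

variable {K : Type} [Field K]

/-- the phase -/
def phase (σ : K ≃+* K) (a b γ s κ X : K) : K :=
  κ * κ * σ κ * γ + κ * σ κ * b * X + σ κ * σ a * (X ^ 2 - s ^ 2)

/-- the part of the phase which depends on `e` -/
def pA (σ : K ≃+* K) (a b γ s X₀ w e : K) : K :=
  w * w * σ w * γ + w * σ w * b * (X₀ + e) + σ w * σ a * ((X₀ + e) ^ 2 - s ^ 2)

/-- the part of the phase which depends on `k` -/
def pX (σ : K ≃+* K) (a b γ s X₀ w k : K) : K :=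
  k * (w * σ w * (2 * γ + a * b) + σ w * X₀ * (b + 2 * (a * σ a))) +
    σ k * (w ^ 2 * γ + w * b * X₀ + σ a * (X₀ ^ 2 - s ^ 2))

theorem pX_add (σ : K ≃+* K) (a b γ s X₀ w k k' : K) :
    pX σ a b γ s X₀ w (k + k') = pX σ a b γ s X₀ w k + pX σ a b γ s X₀ w k' := by
  unfold pX
  rw [map_add]
  ring

theorem pX_sub (σ : K ≃+* K) (a b γ s X₀ wi wj k : K) :
    pX σ a b γ s X₀ wi k - pX σ a b γ s X₀ wj k = tar σ a b γ X₀ wi wj k := by
  unfold pX tar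
  rw [map_sub]
  ring

namespace ReeFacAux

theorem clo (tr : K →+ ZMod 3) (c : K) (S : Set K) (hS : ∀ x ∈ S, tr (c * x) = 0) :
    ∀ e ∈ AddSubgroup.closure S, tr (c * e) = 0 := by
  intro e he
  have h1 : AddSubgroup.closure S ≤ (tr.comp (AddMonoidHom.mulLeft c)).ker := by
    rw [AddSubgroup.closure_le]
    intro x hx
    exact hS x hx
  exact h1 he

theorem expand (σ : K ≃+* K) (A B Γ s X₀ w e k : K) :
    phase σ A B Γ s (w + k) (X₀ + e + k * A) =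
      (pA σ A B Γ s X₀ w e + pX σ A B Γ s X₀ w k) +
      ((Γ * σ w * k * k + (Γ * w * σ k * k + Γ * w * σ k * k) + Γ * σ k * k * k) +
      (B * σ w * k * (e + k * A) + B * w * σ k * (e + k * A) + B * X₀ * σ k * k +
        B * σ k * k * (e + k * A)) +
      (σ A * A * σ w * k * e + σ A * A * σ w * k * (e + k * A) +
        (σ A * X₀ * σ k * (e + k * A) + σ A * X₀ * σ k * (e + k * A)) +
        σ A * σ k * (e + k * A) * (e + k * A))) := by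
  unfold phase pA pX
  rw [map_add]
  ring

end ReeFacAux

theorem ree_fac (σ : K ≃+* K) (tr : K →+ ZMod 3) (m : ℕ) (a b γ : Fin m → K) (X₀ s w : K)
    (𝓚 : AddSubgroup K)
    (t1 : ∀ h, ∀ k ∈ 𝓚, ∀ k' ∈ 𝓚, ∀ k'' ∈ 𝓚, tr (γ h * σ k * k' * k'') = 0)
    (t2 : ∀ h g, ∀ k ∈ 𝓚, ∀ k' ∈ 𝓚, ∀ k'' ∈ 𝓚, tr (b h * a g * σ k * k' * k'') = 0)
    (t3 : ∀ h g g', ∀ k ∈ 𝓚, ∀ k' ∈ 𝓚, ∀ k'' ∈ 𝓚,
      tr (σ (a h) * a g * a g' * σ k * k' * k'') = 0)
    (b1 : ∀ h, ∀ k ∈ 𝓚, ∀ k' ∈ 𝓚, tr (b h * X₀ * σ k * k') = 0)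
    (b2 : ∀ h g, ∀ k ∈ 𝓚, ∀ k' ∈ 𝓚, tr (σ (a h) * a g * X₀ * σ k * k') = 0)
    (g1 : ∀ h, ∀ k ∈ 𝓚, ∀ k' ∈ 𝓚, tr (γ h * σ w * k * k') = 0)
    (g2 : ∀ h g, ∀ k ∈ 𝓚, ∀ k' ∈ 𝓚, tr (b h * a g * σ w * k * k') = 0)
    (g3 : ∀ h g g', ∀ k ∈ 𝓚, ∀ k' ∈ 𝓚, tr (σ (a h) * a g * a g' * σ w * k * k') = 0)
    (g4 : ∀ h, ∀ k ∈ 𝓚, ∀ k' ∈ 𝓚, tr (γ h * w * σ k * k') = 0)
    (g5 : ∀ h g, ∀ k ∈ 𝓚, ∀ k' ∈ 𝓚, tr (b h * a g * w * σ k * k') = 0)
    (h : Fin m) (k : K) (hk : k ∈ 𝓚) (e : K)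
    (he : e ∈ AddSubgroup.closure {x : K | ∃ k ∈ 𝓚, ∃ g, x = k * a g}) :
    tr (phase σ (a h) (b h) (γ h) s (w + k) (X₀ + e + k * a h)) =
      tr (pA σ (a h) (b h) (γ h) s X₀ w e) + tr (pX σ (a h) (b h) (γ h) s X₀ w k) := by
  have hkA : k * a h ∈ AddSubgroup.closure {x : K | ∃ k ∈ 𝓚, ∃ g, x = k * a g} :=
    AddSubgroup.subset_closure ⟨k, hk, h, rfl⟩
  have he1 := AddSubgroup.add_mem _ he hkA
  have L1 : ∀ e ∈ AddSubgroup.closure {x : K | ∃ k ∈ 𝓚, ∃ g, x = k * a g},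
      tr (b h * σ w * k * e) = 0 := by
    refine ReeFacAux.clo tr _ _ ?_
    rintro x ⟨k', hk', g, rfl⟩
    rw [show b h * σ w * k * (k' * a g) = b h * a g * σ w * k * k' by ring]
    exact g2 h g k hk k' hk'
  have L2 : ∀ e ∈ AddSubgroup.closure {x : K | ∃ k ∈ 𝓚, ∃ g, x = k * a g},
      tr (b h * w * σ k * e) = 0 := by
    refine ReeFacAux.clo tr _ _ ?_
    rintro x ⟨k', hk', g, rfl⟩
    rw [show b h * w * σ k * (k' * a g) = b h * a g * w * σ k * k' by ring]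
    exact g5 h g k hk k' hk'
  have L3 : ∀ e ∈ AddSubgroup.closure {x : K | ∃ k ∈ 𝓚, ∃ g, x = k * a g},
      tr (b h * σ k * k * e) = 0 := by
    refine ReeFacAux.clo tr _ _ ?_
    rintro x ⟨k', hk', g, rfl⟩
    rw [show b h * σ k * k * (k' * a g) = b h * a g * σ k * k * k' by ring]
    exact t2 h g k hk k hk k' hk'
  have L4 : ∀ e ∈ AddSubgroup.closure {x : K | ∃ k ∈ 𝓚, ∃ g, x = k * a g},
      tr (σ (a h) * a h * σ w * k * e) = 0 := by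
    refine ReeFacAux.clo tr _ _ ?_
    rintro x ⟨k', hk', g, rfl⟩
    rw [show σ (a h) * a h * σ w * k * (k' * a g) =
      σ (a h) * a h * a g * σ w * k * k' by ring]
    exact g3 h h g k hk k' hk'
  have L5 : ∀ e ∈ AddSubgroup.closure {x : K | ∃ k ∈ 𝓚, ∃ g, x = k * a g},
      tr (σ (a h) * X₀ * σ k * e) = 0 := by
    refine ReeFacAux.clo tr _ _ ?_
    rintro x ⟨k', hk', g, rfl⟩
    rw [show σ (a h) * X₀ * σ k * (k' * a g) = σ (a h) * a g * X₀ * σ k * k' by ring]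
    exact b2 h g k hk k' hk'
  have L6 : ∀ e ∈ AddSubgroup.closure {x : K | ∃ k ∈ 𝓚, ∃ g, x = k * a g},
      ∀ e' ∈ AddSubgroup.closure {x : K | ∃ k ∈ 𝓚, ∃ g, x = k * a g},
      tr (σ (a h) * σ k * e * e') = 0 := by
    intro e he
    refine ReeFacAux.clo tr _ _ ?_
    rintro x ⟨k', hk', g, rfl⟩
    have L7 : ∀ e ∈ AddSubgroup.closure {x : K | ∃ k ∈ 𝓚, ∃ g, x = k * a g},
        tr (σ (a h) * σ k * k' * a g * e) = 0 := by
      refine ReeFacAux.clo tr _ _ ?_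
      rintro x ⟨k'', hk'', g', rfl⟩
      rw [show σ (a h) * σ k * k' * a g * (k'' * a g') =
        σ (a h) * a g * a g' * σ k * k' * k'' by ring]
      exact t3 h g g' k hk k' hk' k'' hk''
    rw [show σ (a h) * σ k * e * (k' * a g) = σ (a h) * σ k * k' * a g * e by ring]
    exact L7 e he
  rw [ReeFacAux.expand, map_add, map_add]
  simp only [map_add tr (_ + _ + _ + _) _, map_add tr (_ + _ + _) _, map_add tr (_ + _) _,
    map_add tr (_ * _) _]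
  rw [g1 h k hk k hk, g4 h k hk k hk, t1 h k hk k hk k hk, b1 h k hk k hk, L1 _ he1, L2 _ he1,
    L3 _ he1, L4 _ he, L4 _ he1, L5 _ he1, L6 _ he1 _ he1]
  simp

end LTL
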