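import Pool.Agent.Lib.LTL.ReeSys0

/-!
# Module LTL.ReeSys: the auxiliary system for the Ree groups (MP_61e83e_lc)

PROOF. Take `w, κ` from `ree_sys0` and let `𝓚` be the additive subgroup generated by the `κ t`
(`AddSubgroup.closure (Set.range κ)`). The conditions are additive in each of `k, k', k''` (`σ` is additive),
so they extend to `𝓚` by `AddSubgroup.closure_induction` in each variable. For `i ≠ j` and `h` use
`t = (h, min i j, max i j)`, `k = κ t`; if `j < i` note `tar σ a b γ X₀ wi wj k = - tar σ a b γ X₀ wj wi k`.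
-/

set_option autoImplicit false
open Classical

namespace LTL

namespace ReeSysAux

theorem cl {K T : Type} [Field K] {κ : T → K} (φ : K →+ ZMod 3) (h : ∀ t, φ (κ t) = 0) :
    ∀ k ∈ AddSubgroup.closure (Set.range κ), φ k = 0 := by
  have h1 : AddSubgroup.closure (Set.range κ) ≤ φ.ker := by
    rw [AddSubgroup.closure_le]
    rintro _ ⟨t, rfl⟩
    exact h t
  exact fun k hk => h1 hk

theorem tar_neg {K : Type} [Field K] (σ : K ≃+* K) (a b γ X₀ wi wj k : K) :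
    tar σ a b γ X₀ wi wj k = -tar σ a b γ X₀ wj wi k := by
  unfold tar
  rw [map_sub, map_sub]
  ring

end ReeSysAux

open ReeSysAux

theorem ree_sys (q N : ℕ) : ∃ Q₀ : ℕ, ∀ (K : Type) [Field K] [Fintype K] [CharP K 3]
    (σ : K ≃+* K), (∀ x, σ (σ x) = x ^ 3) → Q₀ ≤ Fintype.card K →
    ∀ (tr : K →+ ZMod 3), tr ≠ 0 → ∀ (J : Type) [Fintype J], Fintype.card J ≤ N →
    ∀ (cs : J → K) (m : ℕ), m ≤ q → ∀ a b γ : Fin m → K,
    (∀ h, ¬ (a h = 0 ∧ b h = 0 ∧ γ h = 0)) → ∀ X₀ : K, X₀ ≠ 0 →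
    ∃ (w : Fin (m + 1) → K) (𝓚 : AddSubgroup K), (∀ k ∈ 𝓚, tr k = 0) ∧ (∀ i, tr (w i) = 1) ∧
      (∀ l, ∀ k ∈ 𝓚, ∀ k' ∈ 𝓚, ∀ k'' ∈ 𝓚, tr (cs l * σ k * k' * k'') = 0) ∧
      (∀ l, ∀ k ∈ 𝓚, ∀ k' ∈ 𝓚, tr (cs l * σ k * k') = 0) ∧
      (∀ l i, ∀ k ∈ 𝓚, ∀ k' ∈ 𝓚, tr (cs l * σ (w i) * k * k') = 0) ∧
      (∀ l i, ∀ k ∈ 𝓚, ∀ k' ∈ 𝓚, tr (cs l * w i * σ k * k') = 0) ∧
      ∀ h i j, i ≠ j → ∃ k ∈ 𝓚, tr (tar σ (a h) (b h) (γ h) X₀ (w i) (w j) k) ≠ 0 := by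
  obtain ⟨Q₀, hQ₀⟩ := ree_sys0 q N
  refine ⟨Q₀, ?_⟩
  intro K _ _ _ σ hσ hQ tr htr J _ hJ cs m hm a b γ hab X₀ hX
  obtain ⟨w, κ, h1, h2, h3, h4, h5, h6, h7⟩ :=
    hQ₀ K σ hσ hQ tr htr J hJ cs m hm a b γ hab X₀ hX
  have s1 : ∀ x : K, (σ : K ≃+* K).toAddEquiv.toAddMonoidHom x = σ x := fun _ => rfl
  refine ⟨w, AddSubgroup.closure (Set.range κ), cl tr h1, h2, ?_, ?_, ?_, ?_, ?_⟩
  · intro l k hk k' hk' k'' hk''
    have hA : ∀ r s, tr (cs l * σ (κ r) * κ s * k'') = 0 := fun r s =>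
      cl (tr.comp (AddMonoidHom.mulLeft (cs l * σ (κ r) * κ s))) (fun t => h3 l r s t) k'' hk''
    have hB : ∀ r, tr (cs l * σ (κ r) * k' * k'') = 0 := fun r =>
      cl (tr.comp ((AddMonoidHom.mulRight k'').comp (AddMonoidHom.mulLeft (cs l * σ (κ r)))))
        (fun s => hA r s) k' hk'
    exact cl (tr.comp ((AddMonoidHom.mulRight k'').comp ((AddMonoidHom.mulRight k').comp
      ((AddMonoidHom.mulLeft (cs l)).comp (σ : K ≃+* K).toAddEquiv.toAddMonoidHom))))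
        (fun r => hB r) k hk
  · intro l k hk k' hk'
    have hA : ∀ s, tr (cs l * σ (κ s) * k') = 0 := fun s =>
      cl (tr.comp (AddMonoidHom.mulLeft (cs l * σ (κ s)))) (fun t => h4 l s t) k' hk'
    exact cl (tr.comp ((AddMonoidHom.mulRight k').comp
      ((AddMonoidHom.mulLeft (cs l)).comp (σ : K ≃+* K).toAddEquiv.toAddMonoidHom)))
        (fun s => hA s) k hk
  · intro l i k hk k' hk'
    have hA : ∀ s, tr (cs l * σ (w i) * κ s * k') = 0 := fun s =>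
      cl (tr.comp (AddMonoidHom.mulLeft (cs l * σ (w i) * κ s))) (fun t => h5 l i s t) k' hk'
    exact cl (tr.comp ((AddMonoidHom.mulRight k').comp (AddMonoidHom.mulLeft (cs l * σ (w i)))))
      (fun s => hA s) k hk
  · intro l i k hk k' hk'
    have hA : ∀ s, tr (cs l * w i * σ (κ s) * k') = 0 := fun s =>
      cl (tr.comp (AddMonoidHom.mulLeft (cs l * w i * σ (κ s)))) (fun t => h6 l i s t) k' hk'
    exact cl (tr.comp ((AddMonoidHom.mulRight k').comp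
      ((AddMonoidHom.mulLeft (cs l * w i)).comp (σ : K ≃+* K).toAddEquiv.toAddMonoidHom)))
        (fun s => hA s) k hk
  · intro h i j hij
    rcases lt_or_gt_of_ne hij with hlt | hgt
    · refine ⟨κ ⟨(h, i, j), hlt⟩, AddSubgroup.subset_closure ⟨_, rfl⟩, ?_⟩
      have h8 := h7 ⟨(h, i, j), hlt⟩
      intro h9
      have h10 : (0 : ZMod 3) = 1 := h9.symm.trans h8
      exact zero_ne_one h10
    · refine ⟨κ ⟨(h, j, i), hgt⟩, AddSubgroup.subset_closure ⟨_, rfl⟩, ?_⟩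
      have h8 := h7 ⟨(h, j, i), hgt⟩
      intro h9
      rw [tar_neg, map_neg, neg_eq_zero] at h9
      have h10 : (0 : ZMod 3) = 1 := h9.symm.trans h8
      exact zero_ne_one h10

end LTL
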