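import Pool.Agent.Lib.LTL.ReeSupp
import Pool.Agent.Lib.LTL.LocFour
import Pool.Agent.Lib.LTL.ReeSys
import Pool.Agent.Lib.LTL.ReeFac

/-!
# Module LTL.ReeCode: Ree groups in cross characteristic (MP_61e83e_lc)

Notation `x^σ = σ x`, `char K = 3`, `Q = |K|`; `|Option (K × K × K)| = Q ^ 3 + 1`.
PROOF. `Q₀`: larger than `q + 1`, than the constant of `ree_sys q N`, `N = 2 q + 2 q ^ 2 + q ^ 3` (number of
coefficients below) and such that `Q ^ 2 < δ (Q ^ 3 + 1)` for `Q ≥ Q₀` (`Q₀ > 1 / δ`).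
Suppose `f x ≠ f y` for some `f ∈ D`. The centre acts by `act t (x, y, z) = reeMul σ (0, 0, t) (x, y, z) =
(x, y, t + z)`; `exists_eig` (`p = 3`, `ω` from `exists_root`) gives `tr ≠ 0`, `c ∈ D`, `c ≠ 0`,
`c none = 0` with `hlam`. By `Good.dist` and `ree_supp` it is impossible that
`gh (s - X) (2 s - X) = 0` for all `s` and `X ≠ 0`. So there are `s` and `X₀ ≠ 0` with `G X₀ ≠ 0`, where
`G X = gh ω tr c (s - X) (2 s - X)`; fix them. By `Good.move` there is a dual word `u`, `wt u ≤ q`,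
`u none = 0`, `u (some (0, 0, 0)) ≠ 0`. Enumerate its support minus `(0, 0, 0)` by `Fin m`, `m ≤ q`:
`(a h, b h, c' h) ≠ 0`; put `γ h = c' h + a h b h`, so `(a h, b h, γ h) ≠ 0`. `ree_eq` is the hypothesis
`heq` of `local_fourier` with `Λ h κ X = ω ^ (tr (phase σ (a h) (b h) (γ h) s κ X)).val` (at the point
`(0, 0, 0)` the phase is `0`). Coefficients `cs` (index type `J`, a sum of products of `Fin m`): all
`γ h`; `b h * a g`; `σ (a h) * a g * a g'`; `b h * X₀`; `σ (a h) * a g * X₀`. Take `w, 𝓚` from `ree_sys` and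
`𝓔 = AddSubgroup.closure {k * a g}`. `w i ∉ 𝓚` (traces `1` and `0`).
`χ h i k = ω ^ (tr (pX ... (w i) k)).val`, `A h i e = ω ^ (tr (pA ... (w i) e)).val`; `hfac` is `ree_fac`
(with `tr_add`), `hχ` is `pX_add`, `hdiff`: if `χ h i k = χ h j k` for all `k ∈ 𝓚` then by `pX_sub`, `tr_add`,
`tr_eq_one` `tr (tar ...) = 0` for all `k ∈ 𝓚`, against the last property in `ree_sys`.
`(Fintype.card K : E) ≠ 0` by `card_ne_zero`.
-/

set_option autoImplicit false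
open Classical

namespace LTL

open P61e83e Pltc

namespace ReeCodeAux

/-- the combinatorial core: a nonzero value of `G` at `X₀ ≠ 0` is impossible -/
theorem core {E K : Type} [Field E] [IsAlgClosed E] [Field K] [Fintype K] [CharP K 3]
    (σ : K ≃+* K) {ω : E} (hω : IsPrimitiveRoot ω 3) (tr : K →+ ZMod 3)
    (hK : (Fintype.card K : E) ≠ 0) (m : ℕ) (a b γ : Fin m → K) (u : Fin m → E) (u₀ : E)
    (hu₀ : u₀ ≠ 0) (G : K → E) (s X₀ : K) (hG : G X₀ ≠ 0)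
    (heq : ∀ κ, κ ≠ 0 → ∀ X, u₀ * G X + ∑ h, u h *
      ω ^ (tr (phase σ (a h) (b h) (γ h) s κ X)).val * G (X - κ * a h) = 0)
    (w : Fin (m + 1) → K) (𝓚 : AddSubgroup K) (h0 : ∀ k ∈ 𝓚, tr k = 0) (h1 : ∀ i, tr (w i) = 1)
    (t1 : ∀ h, ∀ k ∈ 𝓚, ∀ k' ∈ 𝓚, ∀ k'' ∈ 𝓚, tr (γ h * σ k * k' * k'') = 0)
    (t2 : ∀ h g, ∀ k ∈ 𝓚, ∀ k' ∈ 𝓚, ∀ k'' ∈ 𝓚, tr (b h * a g * σ k * k' * k'') = 0)
    (t3 : ∀ h g g', ∀ k ∈ 𝓚, ∀ k' ∈ 𝓚, ∀ k'' ∈ 𝓚,
      tr (σ (a h) * a g * a g' * σ k * k' * k'') = 0)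
    (b1 : ∀ h, ∀ k ∈ 𝓚, ∀ k' ∈ 𝓚, tr (b h * X₀ * σ k * k') = 0)
    (b2 : ∀ h g, ∀ k ∈ 𝓚, ∀ k' ∈ 𝓚, tr (σ (a h) * a g * X₀ * σ k * k') = 0)
    (g1 : ∀ h i, ∀ k ∈ 𝓚, ∀ k' ∈ 𝓚, tr (γ h * σ (w i) * k * k') = 0)
    (g2 : ∀ h g i, ∀ k ∈ 𝓚, ∀ k' ∈ 𝓚, tr (b h * a g * σ (w i) * k * k') = 0)
    (g3 : ∀ h g g' i, ∀ k ∈ 𝓚, ∀ k' ∈ 𝓚, tr (σ (a h) * a g * a g' * σ (w i) * k * k') = 0)
    (g4 : ∀ h i, ∀ k ∈ 𝓚, ∀ k' ∈ 𝓚, tr (γ h * w i * σ k * k') = 0)
    (g5 : ∀ h g i, ∀ k ∈ 𝓚, ∀ k' ∈ 𝓚, tr (b h * a g * w i * σ k * k') = 0)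
    (htar : ∀ h i j, i ≠ j → ∃ k ∈ 𝓚, tr (tar σ (a h) (b h) (γ h) X₀ (w i) (w j) k) ≠ 0) :
    False := by
  have : Fact (Nat.Prime 3) := ⟨Nat.prime_three⟩
  have hω0 : ω ≠ 0 := hω.ne_zero (by norm_num)
  refine local_fourier hK m a u u₀ hu₀ G
    (fun h κ X => ω ^ (tr (phase σ (a h) (b h) (γ h) s κ X)).val) heq 𝓚
    (AddSubgroup.closure {x : K | ∃ k ∈ 𝓚, ∃ g, x = k * a g})
    (fun k hk h => AddSubgroup.subset_closure ⟨k, hk, h, rfl⟩) w ?_ X₀ hG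
    (fun h i e => ω ^ (tr (pA σ (a h) (b h) (γ h) s X₀ (w i) e)).val)
    (fun h i k => ω ^ (tr (pX σ (a h) (b h) (γ h) s X₀ (w i) k)).val) ?_ ?_ ?_ ?_
  · intro i hi
    have h2 := h0 _ hi
    rw [h1 i] at h2
    exact one_ne_zero h2
  · intro h i k _ k' _
    show ω ^ (tr (pX σ (a h) (b h) (γ h) s X₀ (w i) (k + k'))).val = _
    rw [pX_add, tr_add 3 hω]
  · intro h i k
    exact pow_ne_zero _ hω0
  · intro h i k hk e he
    show ω ^ (tr (phase σ (a h) (b h) (γ h) s (w i + k) (X₀ + e + k * a h))).val = _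
    rw [ree_fac σ tr m a b γ X₀ s (w i) 𝓚 t1 t2 t3 b1 b2 (fun h => g1 h i)
      (fun h g => g2 h g i) (fun h g g' => g3 h g g' i) (fun h => g4 h i)
      (fun h g => g5 h g i) h k hk e he, ← map_add, tr_add 3 hω]
  · intro h i j hij
    obtain ⟨k, hk, hne⟩ := htar h i j hij
    refine ⟨k, hk, fun hχ => hne ?_⟩
    change ω ^ (tr (pX σ (a h) (b h) (γ h) s X₀ (w i) k)).val =
      ω ^ (tr (pX σ (a h) (b h) (γ h) s X₀ (w j) k)).val at hχ
    rw [← pX_sub σ (a h) (b h) (γ h) s X₀ (w i) (w j) k, ← tr_eq_one 3 hω]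
    have h2 := tr_add 3 hω tr (pX σ (a h) (b h) (γ h) s X₀ (w j) k)
      (pX σ (a h) (b h) (γ h) s X₀ (w i) k - pX σ (a h) (b h) (γ h) s X₀ (w j) k)
    rw [add_sub_cancel, hχ] at h2
    have h3 : ω ^ (tr (pX σ (a h) (b h) (γ h) s X₀ (w j) k)).val ≠ 0 := pow_ne_zero _ hω0
    exact mul_left_cancel₀ h3 (by rw [← h2, mul_one])

/-- enumeration of the support of a word, without one point -/
theorem enum {E T : Type} [Field E] [Fintype T] (z : T) (u : Option T → E) (q : ℕ)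
    (hq : wt u ≤ q) : ∃ (m : ℕ) (pt : Fin m → T), m ≤ q ∧ (∀ i, pt i ≠ z) ∧
      ∀ F : T → E, (∀ h, u (some h) = 0 → F h = 0) → ∑ h, F h = F z + ∑ i, F (pt i) := by
  let S : Finset T := Finset.univ.filter fun h => u (some h) ≠ 0 ∧ h ≠ z
  let e : Fin S.card ≃ S := S.equivFin.symm
  refine ⟨S.card, fun i => (e i).1, ?_, fun i => ?_, fun F hF => ?_⟩
  · refine le_trans ?_ hq
    refine Finset.card_le_card_of_injOn some ?_ (Option.some_injective T).injOn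
    intro h hh
    have hh' : u (some h) ≠ 0 ∧ h ≠ z := (Finset.mem_filter.1 hh).2
    exact Finset.mem_coe.2 (Finset.mem_filter.2 ⟨Finset.mem_univ _, hh'.1⟩)
  · exact (Finset.mem_filter.1 (e i).2).2.2
  · have h1 : ∑ i, F (e i).1 = ∑ h ∈ S, F h := by
      rw [← Finset.sum_coe_sort S F]
      exact e.sum_comp fun x : S => F x.1
    rw [h1, ← Finset.add_sum_erase _ F (Finset.mem_univ z)]
    congr 1
    symm
    apply Finset.sum_subset
    · intro h hh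
      exact Finset.mem_erase.2 ⟨(Finset.mem_filter.1 hh).2.2, Finset.mem_univ _⟩
    · intro h hh hh'
      apply hF
      by_contra hne
      exact hh' (Finset.mem_filter.2 ⟨Finset.mem_univ _, hne, (Finset.mem_erase.1 hh).1⟩)

end ReeCodeAux

open ReeCodeAux

theorem ree_const (E : Type) [Field E] [IsAlgClosed E] (h3 : (3 : E) ≠ 0) (q : ℕ) (δ : ℝ)
    (hδ : 0 < δ) :
    ∃ Q₀ : ℕ, ∀ (K : Type) [Field K] [Fintype K] [CharP K 3] (σ : K ≃+* K),
      (∀ x, σ (σ x) = x ^ 3) → Q₀ ≤ Fintype.card K →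
      ∀ D : Submodule E (Option (K × K × K) → E), Good D q δ →
      (∀ g, ∀ f ∈ D, (fun z : Option (K × K × K) => f (z.map (reeMul σ g))) ∈ D) →
      (∀ κ, κ ≠ 0 → ∀ f ∈ D, (fun z : Option (K × K × K) => f (z.map (reeTor σ κ))) ∈ D) →
      ∀ f ∈ D, ∀ x y, f x = f y := by
  obtain ⟨Q₁, hQ₁⟩ := ree_sys q (2 * q + 2 * q ^ 2 + q ^ 3)
  refine ⟨max (max (q + 1) Q₁) (⌈1 / δ⌉₊ + 1), ?_⟩
  intro K _ _ _ σ hσ hcard D hD hmul htor f hf x y
  have hp3 : Fact (Nat.Prime 3) := ⟨Nat.prime_three⟩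
  have hq1 : q + 1 ≤ Fintype.card K := le_trans (le_trans (le_max_left _ _) (le_max_left _ _)) hcard
  have hQ1 : Q₁ ≤ Fintype.card K := le_trans (le_trans (le_max_right _ _) (le_max_left _ _)) hcard
  have hδ1 : ⌈1 / δ⌉₊ + 1 ≤ Fintype.card K := le_trans (le_max_right _ _) hcard
  have hcardO : Fintype.card (Option (K × K × K)) = Fintype.card K ^ 3 + 1 := by
    rw [Fintype.card_option, Fintype.card_prod, Fintype.card_prod]
    ring
  by_contra hxy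
  have h3' : ((3 : ℕ) : E) ≠ 0 := by exact_mod_cast h3
  have hp : ∀ x : K, 3 • x = 0 := by
    intro x
    rw [nsmul_eq_mul, CharP.cast_eq_zero K 3, zero_mul]
  obtain ⟨ω, hω⟩ := exists_root E 3 h3'
  obtain ⟨tr, htr, c, hc, hc0, hcn, hcl⟩ := exists_eig (V := K × K × K) 3 h3' hp hω D hD
    (fun t v => (v.1, v.2.1, t + v.2.2)) (fun v => by simp) (fun b b' v => by simp [add_assoc])
    (fun b f hf => by
      have h1 := hmul (0, 0, b) f hf
      have h2 : (reeMul σ (0, 0, b)) = fun v : K × K × K => (v.1, v.2.1, b + v.2.2) := by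
        funext v
        simp [reeMul]
      rw [h2] at h1
      exact h1) (0, 0, 0) 1 (by simp) hf hxy
  have hlam : ∀ x y z t, c (some (x, y, z + t)) = ω ^ (tr t).val * c (some (x, y, z)) := by
    intro x y z t
    rw [add_comm z t]
    exact hcl t (x, y, z)
  have hKE : (Fintype.card K : E) ≠ 0 := by
    have h1 := card_ne_zero (E := E) (K := K) 3 h3' hp
    rwa [Nat.card_eq_fintype_card] at h1
  -- the function `G` does not vanish outside `0`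
  have hne : ∃ s X₀ : K, X₀ ≠ 0 ∧ gh ω tr c (s - X₀) (2 * s - X₀) ≠ 0 := by
    by_contra hcon
    push Not at hcon
    obtain ⟨W, hW, hW0, hwt⟩ := ree_supp σ hω tr htr hKE D hmul c hc hc0 hcn hlam
      (fun s X hX => hcon s X hX)
    have h1 := hD.dist W hW hW0
    rw [hcardO] at h1
    have h2 : (wt W : ℝ) ≤ (Fintype.card K : ℝ) ^ 2 := by exact_mod_cast hwt
    have h4 : 1 / δ ≤ (Fintype.card K : ℝ) := by
      refine le_trans (Nat.le_ceil _) ?_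
      exact_mod_cast (le_trans (Nat.le_succ _) hδ1)
    have h5 : 1 ≤ δ * (Fintype.card K : ℝ) := by
      rw [div_le_iff₀ hδ] at h4
      linarith
    push_cast at h1
    have h6 : (Fintype.card K : ℝ) ^ 2 * 1 ≤ (Fintype.card K : ℝ) ^ 2 *
        (δ * (Fintype.card K : ℝ)) := mul_le_mul_of_nonneg_left h5 (by positivity)
    nlinarith
  obtain ⟨s, X₀, hX₀, hG⟩ := hne
  have hqc : q < Fintype.card (Option (K × K × K)) := by
    rw [hcardO]
    have h1 : Fintype.card K ≤ Fintype.card K ^ 3 := Nat.le_self_pow (by norm_num) _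
    omega
  obtain ⟨u, hun, hu1, huq, hud⟩ := hD.move hqc none (some (0, 0, 0)) (by simp)
  obtain ⟨m, pt, hm, hpt, hsum⟩ := enum ((0, 0, 0) : K × K × K) u q huq
  -- the data
  let a : Fin m → K := fun h => (pt h).1
  let b : Fin m → K := fun h => (pt h).2.1
  let γ : Fin m → K := fun h => (pt h).2.2 + (pt h).1 * (pt h).2.1
  have hnz : ∀ h, ¬ (a h = 0 ∧ b h = 0 ∧ γ h = 0) := by
    rintro h ⟨ha, hb, hg⟩
    apply hpt h
    have ha' : (pt h).1 = 0 := ha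
    have hb' : (pt h).2.1 = 0 := hb
    have hg' : (pt h).2.2 + (pt h).1 * (pt h).2.1 = 0 := hg
    rw [ha', zero_mul, add_zero] at hg'
    exact Prod.ext ha' (Prod.ext hb' hg')
  let cs : Fin m ⊕ (Fin m × Fin m) ⊕ (Fin m × Fin m × Fin m) ⊕ Fin m ⊕ (Fin m × Fin m) → K :=
    Sum.elim γ (Sum.elim (fun p => b p.1 * a p.2)
      (Sum.elim (fun p => σ (a p.1) * a p.2.1 * a p.2.2)
        (Sum.elim (fun h => b h * X₀) fun p => σ (a p.1) * a p.2 * X₀)))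
  have hJ : Fintype.card (Fin m ⊕ (Fin m × Fin m) ⊕ (Fin m × Fin m × Fin m) ⊕ Fin m ⊕
      (Fin m × Fin m)) ≤ 2 * q + 2 * q ^ 2 + q ^ 3 := by
    simp only [Fintype.card_sum, Fintype.card_prod, Fintype.card_fin]
    have h1 : m * m ≤ q * q := Nat.mul_le_mul hm hm
    have h2 : m * (m * m) ≤ q * (q * q) := Nat.mul_le_mul hm h1
    have h4 : q ^ 2 = q * q := by ring
    have h5 : q ^ 3 = q * (q * q) := by ring
    omega
  obtain ⟨w, 𝓚, h0, h1, s1, s2, s3, s4, s5⟩ := hQ₁ K σ hσ hQ1 tr htr _ hJ cs m hm a b γ hnz X₀ hX₀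
  refine core σ hω tr hKE m a b γ (fun h => u (some (pt h))) (u (some (0, 0, 0))) hu1
    (fun X => gh ω tr c (s - X) (2 * s - X)) s X₀ hG ?_ w 𝓚 h0 h1
    (fun h => s1 (Sum.inl h)) (fun h g => s1 (Sum.inr (Sum.inl (h, g))))
    (fun h g g' => s1 (Sum.inr (Sum.inr (Sum.inl (h, g, g')))))
    (fun h => s2 (Sum.inr (Sum.inr (Sum.inr (Sum.inl h)))))
    (fun h g => s2 (Sum.inr (Sum.inr (Sum.inr (Sum.inr (h, g))))))
    (fun h i => s3 (Sum.inl h) i) (fun h g i => s3 (Sum.inr (Sum.inl (h, g))) i)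
    (fun h g g' i => s3 (Sum.inr (Sum.inr (Sum.inl (h, g, g')))) i)
    (fun h i => s4 (Sum.inl h) i) (fun h g i => s4 (Sum.inr (Sum.inl (h, g))) i) s5
  intro κ hκ X
  have h6 := ree_eq σ hω tr D hmul htor c hc hlam u hud hun s X κ hκ
  rw [hsum _ (fun h hh => by rw [hh, zero_mul, zero_mul])] at h6
  simp only [mul_zero, add_zero, zero_mul, map_zero, ZMod.val_zero, pow_zero, mul_one,
    sub_zero] at h6
  exact h6

end LTL
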