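import Pool.Agent.Lib.LTL.SuzCode
import Pool.Agent.Lib.LTL.ReeCode

/-!
# Module LTL.FamB: the families `SuzukiType` and `ReeType` (MP_61e83e_lc)

PROOF. `E = AlgebraicClosure F`. `ringChar F ≠ 2` gives `(2 : E) ≠ 0`. Let `Q₀` be the constant of
`suz_const E _ q (3 ε)`. For `C` as in the statement with `K, σ, e` (`K` is finite since
`Fin n ≃ Option (K × K)`; `CharP K 2`): if `|K| ≤ Q₀` then `dim C ≤ n = |K| ^ 2 + 1 ≤ Q₀ ^ 2 + 1`.
Otherwise `reduce` for `e.symm : Option (K × K) ≃ Fin n`, `δ = 3 ε`, gives `D`; for `π` with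
`e (π k) = (e k).map (suzMul σ g)` the permutation `e.symm.trans (π.trans e)` is
`z ↦ z.map (suzMul σ g)`, so `D` satisfies the hypotheses of `suz_const`: all words of `D` are constant,
`dim C ≤ dim D ≤ 1` (`finrank_le_one`). The same for `ReeType`, with `n = |K| ^ 3 + 1`.
-/

set_option autoImplicit false
open Classical

namespace LTL

open P61e83e Pltc

namespace FamBAux

theorem inv_of {F E T : Type} [Field F] [Field E] {n : ℕ} {C : Submodule F (Fin n → F)}
    (e : Fin n ≃ Option T) (D : Submodule E (Option T → E))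
    (hD : ∀ π : Equiv.Perm (Fin n), Pres C π → Pres D (e.symm.trans (π.trans e.symm.symm)))
    (φ : T → T) (h : ∃ π : Equiv.Perm (Fin n), Pres C π ∧ ∀ k, e (π k) = (e k).map φ) :
    ∀ f ∈ D, (fun z : Option T => f (z.map φ)) ∈ D := by
  obtain ⟨π, hπ, hk⟩ := h
  intro f hf
  have h1 := hD π hπ f hf
  convert h1 using 1
  funext z
  congr 1
  have h2 := hk (e.symm z)
  rw [Equiv.apply_symm_apply] at h2
  exact h2.symm

theorem prime_ne_zero (F : Type) [Field F] [Fintype F] (p : ℕ) (hp : p.Prime)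
    (h : ringChar F ≠ p) : ((p : ℕ) : AlgebraicClosure F) ≠ 0 := by
  intro h0
  apply h
  have hr : (ringChar F).Prime := CharP.char_is_prime F (ringChar F)
  have h1 : ((p : ℕ) : F) = 0 := by
    apply (algebraMap F (AlgebraicClosure F)).injective
    rw [map_natCast, map_zero]
    exact h0
  have h2 : ringChar F ∣ p := (ringChar.spec F p).1 h1
  exact (Nat.prime_dvd_prime_iff_eq hr hp).1 h2

theorem finrank_le_card {F : Type} [Field F] {n : ℕ} (C : Submodule F (Fin n → F)) :
    Module.finrank F C ≤ n := by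
  refine (Submodule.finrank_le C).trans ?_
  rw [Module.finrank_fin_fun]

end FamBAux

open FamBAux

theorem famSuz (F : Type) [Field F] [Fintype F] (q : ℕ) (ε : ℝ) (hε : 0 < ε) :
    ∃ N : ℕ, ∀ (n : ℕ) (C : Submodule F (Fin n → F)) (u : Fin n → F),
      u ≠ 0 → wt u ≤ q → Dual C u → DoublyTrans C →
      (∀ f ∈ C, f ≠ 0 → 3 * ε * n ≤ (wt f : ℝ)) → SuzukiType C → Module.finrank F C ≤ N := by
  by_cases hF : ringChar F = 2
  · refine ⟨0, ?_⟩
    intro n C u _ _ _ _ _ hS
    obtain ⟨K, _, σ, e, -, h, -⟩ := hS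
    exact absurd hF h
  have h2 : (2 : AlgebraicClosure F) ≠ 0 := by
    have := prime_ne_zero F 2 Nat.prime_two hF
    exact_mod_cast this
  obtain ⟨Q₀, hQ₀⟩ := suz_const (AlgebraicClosure F) h2 q (3 * ε)
  refine ⟨Q₀ ^ 2 + 1 + 1, ?_⟩
  intro n C u hu0 huq hu hG hδ hS
  obtain ⟨K, _, σ, e, hK, -, hσ, hmul, htor⟩ := hS
  have hfin : Finite (Option (K × K)) := Finite.of_equiv _ e
  have hKf : Finite K := by
    refine Finite.of_injective (fun c : K => (some (c, 0) : Option (K × K))) fun a b hab => ?_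
    have := Option.some.inj hab
    exact congrArg Prod.fst this
  let _ : Fintype K := Fintype.ofFinite K
  have hKc : CharP K 2 := by
    rw [← hK]
    exact ringChar.charP K
  have hn : n = Fintype.card K ^ 2 + 1 := by
    have h1 := Fintype.card_congr e
    rw [Fintype.card_fin, Fintype.card_option, Fintype.card_prod] at h1
    rw [h1, sq]
  rcases lt_or_ge (Fintype.card K) Q₀ with hQ | hQ
  · have h3 : Fintype.card K ^ 2 ≤ Q₀ ^ 2 := Nat.pow_le_pow_left hQ.le 2
    have h4 := finrank_le_card C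
    omega
  · obtain ⟨D, hD1, hD2, hD3⟩ := reduce C u hu0 q huq hu hG (3 * ε) hδ e.symm (AlgebraicClosure F)
    have h3 := hQ₀ K σ hσ hQ D hD1 (fun g => inv_of e D hD2 _ (hmul g))
      (fun κ hκ => inv_of e D hD2 _ (htor κ hκ))
    have h4 := finrank_le_one D h3
    omega

theorem famRee (F : Type) [Field F] [Fintype F] (q : ℕ) (ε : ℝ) (hε : 0 < ε) :
    ∃ N : ℕ, ∀ (n : ℕ) (C : Submodule F (Fin n → F)) (u : Fin n → F),
      u ≠ 0 → wt u ≤ q → Dual C u → DoublyTrans C →
      (∀ f ∈ C, f ≠ 0 → 3 * ε * n ≤ (wt f : ℝ)) → ReeType C → Module.finrank F C ≤ N := by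
  by_cases hF : ringChar F = 3
  · refine ⟨0, ?_⟩
    intro n C u _ _ _ _ _ hS
    obtain ⟨K, _, σ, e, -, h, -⟩ := hS
    exact absurd hF h
  have h3 : (3 : AlgebraicClosure F) ≠ 0 := by
    have := prime_ne_zero F 3 Nat.prime_three hF
    exact_mod_cast this
  obtain ⟨Q₀, hQ₀⟩ := ree_const (AlgebraicClosure F) h3 q (3 * ε) (by positivity)
  refine ⟨Q₀ ^ 3 + 1 + 1, ?_⟩
  intro n C u hu0 huq hu hG hδ hS
  obtain ⟨K, _, σ, e, hK, -, hσ, hmul, htor⟩ := hS
  have hfin : Finite (Option (K × K × K)) := Finite.of_equiv _ e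
  have hKf : Finite K := by
    refine Finite.of_injective (fun c : K => (some (c, 0, 0) : Option (K × K × K)))
      fun a b hab => ?_
    have := Option.some.inj hab
    exact congrArg Prod.fst this
  let _ : Fintype K := Fintype.ofFinite K
  have hKc : CharP K 3 := by
    rw [← hK]
    exact ringChar.charP K
  have hn : n = Fintype.card K ^ 3 + 1 := by
    have h1 := Fintype.card_congr e
    rw [Fintype.card_fin, Fintype.card_option, Fintype.card_prod, Fintype.card_prod] at h1
    rw [h1]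
    ring
  rcases lt_or_ge (Fintype.card K) Q₀ with hQ | hQ
  · have h3 : Fintype.card K ^ 3 ≤ Q₀ ^ 3 := Nat.pow_le_pow_left hQ.le 3
    have h4 := finrank_le_card C
    omega
  · obtain ⟨D, hD1, hD2, hD3⟩ := reduce C u hu0 q huq hu hG (3 * ε) hδ e.symm (AlgebraicClosure F)
    have h3 := hQ₀ K σ hσ hQ D hD1 (fun g => inv_of e D hD2 _ (hmul g))
      (fun κ hκ => inv_of e D hD2 _ (htor κ hκ))
    have h4 := finrank_le_one D h3
    omega

end LTL
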