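import Pool.Agent.Lib.LTL.UniFin

/-!
# Module LTL.FamC: the family `UnitaryType` (MP_61e83e_lc)

PROOF. `E = AlgebraicClosure F`, `ringChar E = ringChar F ≠ 0`. Let `Q₀` be the constant of
`uni_const E _ q (3 ε)`. For `C` as in the statement with `L, Q, e`: `L` is finite (`Nat.card L = Q ^ 2 ≠ 0`
since `(Q : F) ≠ 0`). Let `p = char L`; `Q ^ 2 = |L| = p ^ k`, so `Q` is a power of `p`, and `x ↦ x ^ Q` is
additive (`add_pow_char_pow`), multiplicative, with `(x ^ Q) ^ Q = x ^ |L| = x` (`FiniteField.pow_card`). So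
`StarRing L` with `star x = x ^ Q` (`StarRing.ofAddMonoidHom`-like constructor or
`{ star := fun x => x ^ Q, star_involutive, star_mul, star_add }`), and `HermQ L Q`. The type
`{z : L × L // OnU Q z}` is equivalent to `HP L` (`OnU` is `z.2 + z.2 ^ Q = z.1 * z.1 ^ Q`), so
`e` gives `e' : Option (HP L) ≃ Fin n`, `n = Q ^ 3 + 1`. If `Q ≤ Q₀` then `dim C ≤ n ≤ Q₀ ^ 3 + 1`. Otherwise
`reduce` gives `D` on `Option (HP L)` over `E`; the three kinds of permutations give `UInv D`:
`uniMul Q g z = g * z`; `(ρ ^ Q / ρ ^ 2) ^ (Q + 1) = κ * star κ` for `κ = star ρ / ρ ^ 2`; the third kind is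
`swo` (`z = (0, 0)` iff `z.y = 0` on the curve: `z.y = 0` gives `z.x * star z.x = 0`). `uni_const` and
`finrank_le_one` give `dim C ≤ dim D ≤ 1`.
-/

set_option autoImplicit false
open Classical

namespace LTL

open P61e83e Pltc

namespace FamCAux

theorem exists_star (L : Type) [Field L] [Fintype L] (Q : ℕ) (h : Fintype.card L = Q ^ 2) :
    ∃ _ : StarRing L, HermQ L Q := by
  obtain ⟨p, hp⟩ := CharP.exists L
  obtain ⟨n, hpp, hn⟩ := FiniteField.card L p
  haveI := Fact.mk hpp
  have h1 : Q ∣ p ^ (n : ℕ) := by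
    rw [← hn, h]
    exact dvd_pow_self Q (by norm_num)
  obtain ⟨k, _, hk⟩ := (Nat.dvd_prime_pow hpp).1 h1
  have hadd : ∀ x y : L, (x + y) ^ Q = x ^ Q + y ^ Q := by
    intro x y
    rw [hk]
    exact add_pow_char_pow x y p k
  have hinv : ∀ x : L, (x ^ Q) ^ Q = x := by
    intro x
    rw [← pow_mul, ← sq, ← h]
    exact FiniteField.pow_card x
  let hS : StarRing L :=
    { star := fun x => x ^ Q
      star_involutive := hinv
      star_mul := fun x y => by
        change (x * y) ^ Q = y ^ Q * x ^ Q
        rw [mul_pow, mul_comm]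
      star_add := hadd }
  exact ⟨hS, @HermQ.mk L _ _ hS Q h (fun x => rfl)⟩

/-- coordinates -/
def co {L : Type} [Field L] [StarRing L] (z : HP L) : L × L := (z.x, z.y)

theorem co_inj {L : Type} [Field L] [StarRing L] : Function.Injective (co (L := L)) := by
  intro a b h
  have h1 := congrArg Prod.fst h
  have h2 := congrArg Prod.snd h
  exact HP.ext h1 h2

theorem core {F : Type} [Field F] {n : ℕ} (C : Submodule F (Fin n → F)) (E : Type) [Field E]
    (L : Type) [Field L] [Fintype L] [StarRing L] (Q : ℕ) (hH : HermQ L Q)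
    (e : Fin n ≃ Option {z : L × L // OnU Q z})
    (hmul : ∀ g : L × L, OnU Q g → ∃ π : Equiv.Perm (Fin n), Pres C π ∧
      ∀ k, (e (π k)).map Subtype.val = ((e k).map Subtype.val).map (uniMul Q g))
    (htor : ∀ ρ : L, ρ ≠ 0 → ∃ π : Equiv.Perm (Fin n), Pres C π ∧
      ∀ k, (e (π k)).map Subtype.val = ((e k).map Subtype.val).map
        fun z => (ρ ^ Q / ρ ^ 2 * z.1, (ρ ^ Q / ρ ^ 2) ^ (Q + 1) * z.2))
    (hsw : ∃ π : Equiv.Perm (Fin n), Pres C π ∧ ∀ k,
      (e (π k)).map Subtype.val = ((e k).map Subtype.val).elim (some (0, 0))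
        fun z => if z = (0, 0) then none else some (z.1 / z.2, 1 / z.2)) :
    ∃ e' : Option (HP L) ≃ Fin n, ∀ D : Submodule E (Option (HP L) → E),
      (∀ π : Equiv.Perm (Fin n), Pres C π → Pres D (e'.trans (π.trans e'.symm))) → UInv D := by
  let g : HP L ≃ {z : L × L // OnU Q z} :=
    { toFun := fun z => ⟨(z.x, z.y), by
        have h1 := z.h
        rw [hH.star_eq, hH.star_eq] at h1
        exact h1⟩
      invFun := fun z => ⟨z.1.1, z.1.2, by
        have h1 : z.1.2 + z.1.2 ^ Q = z.1.1 * z.1.1 ^ Q := z.2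
        rw [hH.star_eq, hH.star_eq]
        exact h1⟩
      left_inv := fun z => rfl
      right_inv := fun z => rfl }
  let e' : Option (HP L) ≃ Fin n := (Equiv.optionCongr g).trans e.symm
  have he : ∀ z : Option (HP L), (e (e' z)).map Subtype.val = z.map co := by
    intro z
    change (e (e.symm (Equiv.optionCongr g z))).map Subtype.val = z.map co
    rw [Equiv.apply_symm_apply]
    cases z with
    | none => rfl
    | some z => rfl
  have hkey : ∀ (π : Equiv.Perm (Fin n)) (Ψ : Option (HP L) → Option (HP L)),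
      (∀ z, (e (π (e' z))).map Subtype.val = (Ψ z).map co) →
      ∀ z, (e'.trans (π.trans e'.symm)) z = Ψ z := by
    intro π Ψ h z
    have h1 := h z
    have h2 := he ((e'.trans (π.trans e'.symm)) z)
    have h3 : e' ((e'.trans (π.trans e'.symm)) z) = π (e' z) := by
      change e' (e'.symm (π (e' z))) = π (e' z)
      exact Equiv.apply_symm_apply _ _
    rw [h3, h1] at h2
    exact (Option.map_injective co_inj h2).symm
  refine ⟨e', fun D hD => ⟨?_, ?_, ?_⟩⟩
  · intro a f hf
    obtain ⟨π, hπ, hk⟩ := hmul (a.x, a.y) (by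
      have h1 := a.h
      rw [hH.star_eq, hH.star_eq] at h1
      exact h1)
    have h1 := hkey π (fun z => z.map fun z => a * z) (fun z => by
      rw [hk, he]
      cases z with
      | none => rfl
      | some z =>
        simp only [Option.map_some, Option.some.injEq, uniMul, co, mul_x, mul_y, hH.star_eq])
    have h2 := hD π hπ f hf
    have h3 : (fun z : Option (HP L) => f (z.map fun z => a * z)) =
        fun z => f ((e'.trans (π.trans e'.symm)) z) := by
      funext z
      rw [h1]
    rw [h3]
    exact h2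
  · intro ρ hρ f hf
    obtain ⟨π, hπ, hk⟩ := htor ρ hρ
    have h1 := hkey π (fun z => z.map (LTL.tor (star ρ / ρ ^ 2))) (fun z => by
      rw [hk, he]
      cases z with
      | none => rfl
      | some z =>
        simp only [Option.map_some, Option.some.injEq, co, LTL.tor, hH.star_eq, pow_succ]
        rw [mul_comm ((ρ ^ Q / (ρ ^ 0 * ρ * ρ)) ^ Q)])
    have h2 := hD π hπ f hf
    have h3 : (fun z : Option (HP L) => f (z.map (LTL.tor (star ρ / ρ ^ 2)))) =
        fun z => f ((e'.trans (π.trans e'.symm)) z) := by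
      funext z
      rw [h1]
    rw [h3]
    exact h2
  · intro f hf
    obtain ⟨π, hπ, hk⟩ := hsw
    have h1 := hkey π swo (fun z => by
      rw [hk, he]
      cases z with
      | none => rfl
      | some z =>
        have hz : co z = (0, 0) ↔ z.y = 0 := by
          constructor
          · intro h
            exact congrArg Prod.snd h
          · intro h
            have h1 := z.h
            rw [h, star_zero, add_zero] at h1
            have h2 : z.x = 0 := by
              rcases mul_eq_zero.1 h1.symm with h3 | h3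
              · exact h3
              · exact star_eq_zero.1 h3
            exact Prod.ext h2 h
        change (if co z = (0, 0) then none else some ((co z).1 / (co z).2, 1 / (co z).2)) =
          Option.map co (if z.y = 0 then none else some (sw z))
        by_cases h : z.y = 0
        · rw [if_pos (hz.2 h), if_pos h]
          rfl
        · rw [if_neg (fun h' => h (hz.1 h')), if_neg h]
          rfl)
    have h2 := hD π hπ f hf
    have h3 : (fun z : Option (HP L) => f (swo z)) =
        fun z => f ((e'.trans (π.trans e'.symm)) z) := by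
      funext z
      rw [h1]
    rw [h3]
    exact h2

end FamCAux

theorem famUni (F : Type) [Field F] [Fintype F] (q : ℕ) (ε : ℝ) (hε : 0 < ε) :
    ∃ N : ℕ, ∀ (n : ℕ) (C : Submodule F (Fin n → F)) (u : Fin n → F),
      u ≠ 0 → wt u ≤ q → Dual C u → DoublyTrans C →
      (∀ f ∈ C, f ≠ 0 → 3 * ε * n ≤ (wt f : ℝ)) → UnitaryType C →
      Module.finrank F C ≤ N := by
  classical
  obtain ⟨p, hp⟩ := CharP.exists F
  have hpp : p.Prime := CharP.char_is_prime F p
  haveI : CharP (AlgebraicClosure F) p :=
    charP_of_injective_algebraMap (algebraMap F (AlgebraicClosure F)).injective p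
  have hE : ringChar (AlgebraicClosure F) ≠ 0 := by
    rw [ringChar.eq (AlgebraicClosure F) p]
    exact hpp.ne_zero
  obtain ⟨Q₀, hQ₀⟩ := uni_const (AlgebraicClosure F) hE q (3 * ε) (by positivity)
  refine ⟨Q₀ ^ 2 * Q₀ ^ 2 + 1, ?_⟩
  rintro n C u hu0 huq hu hG hδ ⟨L, hL, Q, e, hcard, hQF, hmul, htor, hsw⟩
  have hQ0 : Q ≠ 0 := by
    rintro rfl
    exact hQF Nat.cast_zero
  haveI hfinL : Finite L := by
    apply Nat.finite_of_card_ne_zero
    rw [hcard]
    exact pow_ne_zero _ hQ0
  letI : Fintype L := Fintype.ofFinite L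
  have hcard' : Fintype.card L = Q ^ 2 := by
    rw [← Nat.card_eq_fintype_card, hcard]
  by_cases hQ : Q₀ ≤ Q
  · obtain ⟨hS, hH⟩ := FamCAux.exists_star L Q hcard'
    obtain ⟨e', he'⟩ := FamCAux.core C (AlgebraicClosure F) L Q hH e hmul htor hsw
    obtain ⟨D, hD, hP, hdim⟩ := reduce C u hu0 q huq hu hG (3 * ε) hδ e' (AlgebraicClosure F)
    have hQE : (Q : AlgebraicClosure F) ≠ 0 := by
      intro h
      apply hQF
      apply (algebraMap F (AlgebraicClosure F)).injective
      rw [map_natCast, map_zero, h]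
    have hc := hQ₀ L Q hH hQE hQ D hD (he' D hP)
    have h1 := finrank_le_one D hc
    omega
  · have h1 : Module.finrank F C ≤ n := by
      have := Submodule.finrank_le C
      rwa [Module.finrank_fin_fun] at this
    have h2 : n = Nat.card (Option {z : L × L // OnU Q z}) := by
      rw [← Nat.card_congr e, Nat.card_fin]
    have h3 : Nat.card (Option {z : L × L // OnU Q z}) ≤ Q ^ 2 * Q ^ 2 + 1 := by
      rw [Nat.card_eq_fintype_card, Fintype.card_option]
      have h4 : Fintype.card {z : L × L // OnU Q z} ≤ Fintype.card (L × L) :=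
        Fintype.card_subtype_le _
      rw [Fintype.card_prod, hcard'] at h4
      omega
    have h5 : Q ^ 2 ≤ Q₀ ^ 2 := Nat.pow_le_pow_left (by omega) 2
    have h6 : Q ^ 2 * Q ^ 2 ≤ Q₀ ^ 2 * Q₀ ^ 2 := Nat.mul_le_mul h5 h5
    omega

end LTL
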