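import Mathlib

/-!
# Twisted cubic forms (MP_61e83e_lc): definitions
-/

set_option autoImplicit false
open Classical

namespace LTL

/-- coefficients of a twisted cubic form in the variables `z i`, `i : ι` -/
structure CForm (K ι : Type) where
  /-- coefficient of `σ (z i) * z j * z k` -/
  c3 : ι → ι → ι → K
  /-- coefficient of `σ (z i) * z j` -/
  c2 : ι → ι → K
  /-- coefficient of `z i` -/
  c1 : ι → K

/-- the value of the form at `z` -/
noncomputable def CForm.val {K ι : Type} [Field K] [Fintype ι] (σ : K ≃+* K) (P : CForm K ι)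
    (z : ι → K) : K :=
  (∑ i, ∑ j, ∑ k, P.c3 i j k * σ (z i) * z j * z k) + (∑ i, ∑ j, P.c2 i j * σ (z i) * z j) +
    ∑ i, P.c1 i * z i

/-- the symmetrised coefficients of the form are all `0` -/
def CForm.Triv {K ι : Type} [Field K] (P : CForm K ι) : Prop :=
  (∀ i j k, P.c3 i j k + P.c3 i k j = 0) ∧ (∀ i j, P.c2 i j = 0) ∧ ∀ i, P.c1 i = 0

end LTL
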