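import Pool.Agent.Lib.LTL.Defs
import Pool.Agent.Lib.Pltc.ChartDual
import Pool.Agent.Lib.Pltc.SameCore
import Pool.Agent.Lib.Pltc.FamAffine

/-!
# Module LTL.Red: reduction to codes over an algebraically closed field (MP_61e83e_lc)

PROOFS. `reduce`. Let `ι = algebraMap F E`, `C' = pull e C` (a code on `X`, `Pltc.pull`,
`Pltc.pull_equiv` for the equivalence `e`: equal dimension, `u ∘ e` is a dual word of the same
weight), `D = P61e83e.ext ι C'` (the `E`-span of the words `ι ∘ f`, `f ∈ C'`). Dimension: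
`P61e83e.finrank_le_ext` (needs `K → F` with arbitrary index type; if its variables are too
special, copy its proof). Invariance under a permutation `π` of `Fin n` preserving `C`:
`f ∘ π ∈ C` for `f ∈ C`, so `C'` is preserved by `π' = e.trans (π.trans e.symm)`, and `D` by
`Pltc.ext_comp'`. So `D` is doubly transitive. Dual word: `ι ∘ u ∘ e`, `Pltc.ext_dual'`, `ι` injective.
Distance: let `f ∈ D`, `f x ≠ 0`. There is an `F`-linear `φ : E → F` with `φ (f x) ≠ 0` (extend
`{f x}` to a basis, or `Module.exists_dual_forall_apply_ne_zero`-like lemmas /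
`exists_dual_map_eq_bot_of_notMem`). For all `g ∈ D` we have `φ ∘ g ∈ C'` (span induction: for
`g = ∑ a_i • (ι ∘ f_i)`, `φ (a_i ι (f_i y)) = f_i y • φ a_i`). So `φ ∘ f ∈ C'`, it is not `0`, and its
support is contained in the support of `f`: `δ n ≤ wt (φ ∘ f) ≤ wt f`.

`finrank_le_one`: all words are constant, so `D ≤ span {1}` (for empty `X` everything is `0`).

`move`: if `q < |X|` there is a dual word of weight at most `q`, zero at `x₀` and nonzero at `x₁`
(`x₀ ≠ x₁` given): let `u` be the given one, `u i ≠ 0`, `u j = 0` (exists as `wt u ≤ q < |X|`), `π`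
with `π x₀ = j`, `π x₁ = i`; take `u ∘ π` (as in `Pltc.dual_comp`: `Pres.symm`).
-/

set_option autoImplicit false
open Classical

namespace LTL

open P61e83e Pltc

namespace RedAux

theorem wt_equiv {F X Y : Type*} [Field F] [Fintype X] [Fintype Y] (φ : Y ≃ X) (u : X → F) :
    wt (fun y => u (φ y)) = wt u := by
  unfold wt
  refine Finset.card_equiv φ fun y => ?_
  simp

theorem dual_perm {F X : Type*} [Field F] [Fintype X] (C : Submodule F (X → F))
    (π : Equiv.Perm X) (hπ : Pres C π) (u : X → F) (hu : Dual C u) :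
    Dual C (fun i => u (π i)) := by
  intro f hf
  have h1 := hu _ (hπ.symm f hf)
  rw [← h1, ← Equiv.sum_comp π (fun x => u x * f (π.symm x))]
  refine Finset.sum_congr rfl fun x _ => ?_
  rw [Equiv.symm_apply_apply]

theorem comp_mem {F E X : Type} [Field F] [Field E] [Algebra F E] [Fintype X]
    (C : Submodule F (X → F)) (g : X → E) (hg : g ∈ P61e83e.ext (algebraMap F E) C) :
    ∀ φ : E →ₗ[F] F, (fun y => φ (g y)) ∈ C := by
  unfold P61e83e.ext at hg
  induction hg using Submodule.span_induction with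
  | mem g hg =>
    obtain ⟨f, hf, rfl⟩ := hg
    intro φ
    have h1 : (fun y => φ (algebraMap F E (f y))) = (φ 1) • f := by
      funext y
      rw [Algebra.algebraMap_eq_smul_one, map_smul, Pi.smul_apply, smul_eq_mul, smul_eq_mul,
        mul_comm]
    change (fun y => φ (algebraMap F E (f y))) ∈ C
    rw [h1]
    exact C.smul_mem _ hf
  | zero =>
    intro φ
    have h1 : (fun y : X => φ ((0 : X → E) y)) = 0 := by
      funext y
      simp
    rw [h1]
    exact C.zero_mem
  | add g h _ _ hg hh =>
    intro φ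
    have h1 : (fun y : X => φ ((g + h) y)) = (fun y => φ (g y)) + fun y => φ (h y) := by
      funext y
      simp
    rw [h1]
    exact C.add_mem (hg φ) (hh φ)
  | smul a g _ hg =>
    intro φ
    exact hg (φ ∘ₗ LinearMap.mulLeft F a)

end RedAux

open RedAux

theorem reduce {F : Type} [Field F] {n : ℕ} (C : Submodule F (Fin n → F)) (u : Fin n → F)
    (hu0 : u ≠ 0) (q : ℕ) (huq : wt u ≤ q) (hu : Dual C u) (hG : DoublyTrans C) (δ : ℝ)
    (hδ : ∀ f ∈ C, f ≠ 0 → δ * n ≤ (wt f : ℝ)) {X : Type} [Fintype X] (e : X ≃ Fin n)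
    (E : Type) [Field E] [Algebra F E] :
    ∃ D : Submodule E (X → E), Good D q δ ∧
      (∀ π : Equiv.Perm (Fin n), Pres C π → Pres D (e.trans (π.trans e.symm))) ∧
      Module.finrank F C ≤ Module.finrank E D := by
  have hpull := pull_equiv e C u hu
  have hpres : ∀ π : Equiv.Perm (Fin n), Pres C π →
      Pres (P61e83e.ext (algebraMap F E) (pull e C)) (e.trans (π.trans e.symm)) := by
    intro π hπ φ hφ
    refine ext_comp' (algebraMap F E) (fun x => (e.trans (π.trans e.symm)) x) ?_ hφ
    intro g hg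
    obtain ⟨f, hf, rfl⟩ := (mem_pull _ _ _).mp hg
    refine (mem_pull _ _ _).mpr ⟨fun z => f (π z), hπ f hf, ?_⟩
    funext y
    simp
  have hcard : Fintype.card X = n := by
    rw [Fintype.card_congr e, Fintype.card_fin]
  refine ⟨P61e83e.ext (algebraMap F E) (pull e C), ⟨?_, ?_, ?_⟩, hpres, ?_⟩
  · intro i j i' j' hij hij'
    obtain ⟨π, hπ, h1, h2⟩ := hG (e i) (e j) (e i') (e j') (fun h => hij (e.injective h))
      (fun h => hij' (e.injective h))
    refine ⟨e.trans (π.trans e.symm), hpres π hπ, ?_, ?_⟩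
    · simp [h1]
    · simp [h2]
  · intro f hf hf0
    obtain ⟨x, hx⟩ : ∃ x, f x ≠ 0 := by
      by_contra hcon
      push Not at hcon
      exact hf0 (funext hcon)
    obtain ⟨φ, hφ⟩ : ∃ φ : Module.Dual F E, φ (f x) ≠ 0 := by
      by_contra hcon
      push Not at hcon
      exact hx ((Module.forall_dual_apply_eq_zero_iff F (f x)).mp hcon)
    have h1 := comp_mem (pull e C) f hf φ
    obtain ⟨g, hg, hgf⟩ := (mem_pull _ _ _).mp h1
    have hg0 : g ≠ 0 := by
      rintro rfl
      have h2 := congrFun hgf x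
      exact hφ h2.symm
    have h3 := hδ g hg hg0
    have h4 : wt g ≤ wt f := by
      rw [← wt_equiv e g, hgf]
      unfold wt
      refine Finset.card_le_card fun y hy => ?_
      rw [Finset.mem_filter] at hy ⊢
      refine ⟨hy.1, fun h0 => hy.2 ?_⟩
      change φ (f y) = 0
      rw [h0, map_zero]
    rw [hcard]
    exact h3.trans (by exact_mod_cast h4)
  · refine ⟨fun y => algebraMap F E (u (e y)), ?_, ?_, ?_⟩
    · intro h0
      apply hu0
      funext k
      have h1 := congrFun h0 (e.symm k)
      have h2 : algebraMap F E (u (e (e.symm k))) = 0 := h1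
      rw [Equiv.apply_symm_apply] at h2
      exact (map_eq_zero _).mp h2
    · have h1 : wt (fun y => algebraMap F E (u (e y))) = wt (fun y => u (e y)) := by
        unfold wt
        congr 1
        ext y
        simp
      rw [h1, hpull.2.2]
      exact huq
    · intro φ hφ
      exact ext_dual' (algebraMap F E) (fun y => u (e y)) hpull.2.1 hφ
  · rw [← hpull.1]
    exact finrank_le_ext (algebraMap F E) (pull e C)

theorem finrank_le_one {E X : Type} [Field E] [Fintype X] (D : Submodule E (X → E))
    (h : ∀ f ∈ D, ∀ x y, f x = f y) : Module.finrank E D ≤ 1 := by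
  have h1 : D ≤ Submodule.span E {(1 : X → E)} := by
    intro f hf
    rcases isEmpty_or_nonempty X with hX | ⟨⟨x⟩⟩
    · have : f = 0 := Subsingleton.elim _ _
      rw [this]
      exact Submodule.zero_mem _
    · rw [Submodule.mem_span_singleton]
      refine ⟨f x, ?_⟩
      funext y
      rw [Pi.smul_apply, Pi.one_apply, smul_eq_mul, mul_one]
      exact h f hf x y
  refine (Submodule.finrank_mono h1).trans ?_
  refine (finrank_span_le_card _).trans ?_
  simp

theorem Good.move {E X : Type} [Field E] [Fintype X] {D : Submodule E (X → E)} {q : ℕ} {δ : ℝ}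
    (h : Good D q δ) (hq : q < Fintype.card X) (x₀ x₁ : X) (hx : x₀ ≠ x₁) :
    ∃ u : X → E, u x₀ = 0 ∧ u x₁ ≠ 0 ∧ wt u ≤ q ∧ Dual D u := by
  obtain ⟨u, hu0, huq, hu⟩ := h.dual
  obtain ⟨i, hi⟩ : ∃ i, u i ≠ 0 := by
    by_contra hcon
    push Not at hcon
    exact hu0 (funext hcon)
  obtain ⟨j, hj⟩ : ∃ j, u j = 0 := by
    by_contra hcon
    push Not at hcon
    have h1 : wt u = Fintype.card X := by
      unfold wt
      rw [Finset.filter_true_of_mem fun x _ => hcon x, Finset.card_univ]
    omega
  have hij : j ≠ i := by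
    rintro rfl
    exact hi hj
  obtain ⟨π, hπ, h1, h2⟩ := h.two x₀ x₁ j i hx hij
  refine ⟨fun x => u (π x), ?_, ?_, ?_, dual_perm D π hπ u hu⟩
  · change u (π x₀) = 0
    rw [h1, hj]
  · change u (π x₁) ≠ 0
    rw [h2]
    exact hi
  · rw [wt_equiv π u]
    exact huq

/-- a nonconstant word takes different values at any two given points, after a permutation -/
theorem Good.sep {E X : Type} [Field E] [Fintype X] {D : Submodule E (X → E)} {q : ℕ} {δ : ℝ}
    (h : Good D q δ) {f : X → E} (hf : f ∈ D) {x y : X} (hxy : f x ≠ f y) (x₀ x₁ : X)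
    (hx : x₀ ≠ x₁) : ∃ g ∈ D, g x₀ ≠ g x₁ := by
  have hne : x ≠ y := by
    rintro rfl
    exact hxy rfl
  obtain ⟨π, hπ, h1, h2⟩ := h.two x₀ x₁ x y hx hne
  refine ⟨fun z => f (π z), hπ f hf, ?_⟩
  change f (π x₀) ≠ f (π x₁)
  rw [h1, h2]
  exact hxy

end LTL
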