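import Pool.Agent.Lib.LTL.Defs

/-!
# Module LTL.Sep: separating points by a doubly transitive group (MP_61e83e_lc)

PROOF. Let `n = |X|`, `G` = the finset of the permutations `π` with `Pres D π`, `G₁` = those with
`π z₁ = z₀`. Fix `z ≠ z₀`. For `y ≠ z₁` let `c y` be the number of `π ∈ G₁` with `π y = z`. For
`y, y' ≠ z₁` choose `ρ` with `Pres D ρ`, `ρ z₁ = z₁`, `ρ y' = y` (double transitivity); `π ↦ π * ρ` is
a bijection from `{π ∈ G₁ : π y = z}` onto `{π ∈ G₁ : π y' = z}` (`Pres.mul`, `Pres.symm`), so `c` is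
constant on `y ≠ z₁`, with value `c_z`. Every `π ∈ G₁` has exactly one `y` with `π y = z`, and
`y ≠ z₁`; so `|G₁| = (n - 1) c_z`, and the number of `π ∈ G₁` with `π⁻¹ z ∈ H` is `(|H| - 1) c_z`.
Hence `(n - 1) * #{π ∈ G₁ : ∃ z ∈ S, z ≠ z₀, π⁻¹ z ∈ H} ≤ (|S| - 1) (|H| - 1) |G₁| < (n - 1) |G₁|`
(`|G₁| > 0` by double transitivity: if `n ≥ 2`; `hcard` gives `n ≥ 2`). So some `π ∈ G₁` is outside
this set. See `Pltc.exists_good_perm` in `Pltc/Cover.lean` for a similar count.
-/

set_option autoImplicit false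
open Classical

namespace LTL

open P61e83e Pltc

theorem sep_perm {E X : Type} [Field E] [Fintype X] (D : Submodule E (X → E))
    (hD : DoublyTrans D) (z₁ z₀ : X) (H : Finset X) (hH : z₁ ∈ H) (S : Finset X) (hS : z₀ ∈ S)
    (hcard : (S.card - 1) * (H.card - 1) < Fintype.card X - 1) :
    ∃ π : Equiv.Perm X, Pres D π ∧ π z₁ = z₀ ∧ ∀ z ∈ S, z ≠ z₀ → π.symm z ∉ H := by
  have hn2 : 1 < Fintype.card X := by omega
  obtain ⟨y₀, hy₀⟩ : ∃ y, y ≠ z₁ := by
    have := Fintype.one_lt_card_iff_nontrivial.mp hn2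
    exact exists_ne z₁
  obtain ⟨y₁, hy₁⟩ : ∃ y, y ≠ z₀ := by
    have := Fintype.one_lt_card_iff_nontrivial.mp hn2
    exact exists_ne z₀
  set G : Finset (Equiv.Perm X) := Finset.univ.filter fun π => Pres D π ∧ π z₁ = z₀ with hG
  have memG : ∀ π, π ∈ G ↔ Pres D π ∧ π z₁ = z₀ := by
    intro π
    simp [hG]
  have hGpos : 0 < G.card := by
    obtain ⟨π, h1, h2, -⟩ := hD z₁ y₀ z₀ y₁ hy₀.symm hy₁.symm
    exact Finset.card_pos.mpr ⟨π, (memG π).mpr ⟨h1, h2⟩⟩
  -- the counts
  set N : X → X → ℕ := fun z y => (G.filter fun π => π y = z).card with hN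
  have hNle : ∀ z y y', y ≠ z₁ → y' ≠ z₁ → N z y ≤ N z y' := by
    intro z y y' hy hy'
    obtain ⟨ρ, h1, h2, h3⟩ := hD z₁ y' z₁ y hy'.symm hy.symm
    refine Finset.card_le_card_of_injOn (fun π => π * ρ) ?_ ?_
    · intro π hπ
      have h4 := Finset.mem_filter.mp (Finset.mem_coe.mp hπ)
      have h5 := (memG π).mp h4.1
      refine Finset.mem_coe.mpr (Finset.mem_filter.mpr ⟨(memG _).mpr ⟨h5.1.mul h1, ?_⟩, ?_⟩)
      · rw [Equiv.Perm.mul_apply, h2]
        exact h5.2
      · rw [Equiv.Perm.mul_apply, h3]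
        exact h4.2
    · intro π _ π' _ h
      exact mul_right_cancel h
  have hNeq : ∀ z y, y ≠ z₁ → N z y = N z y₀ := fun z y hy =>
    le_antisymm (hNle z y y₀ hy hy₀) (hNle z y₀ y hy₀ hy)
  -- counting the permutations by the preimage of `z`
  have hcount : ∀ z, z ≠ z₀ → ∀ W : Finset X,
      (G.filter fun π => π.symm z ∈ W).card = (W.erase z₁).card * N z y₀ := by
    intro z hz W
    have h1 : (G.filter fun π => π.symm z ∈ W)
        = (W.erase z₁).biUnion fun y => G.filter fun π => π y = z := by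
      ext π
      simp only [Finset.mem_filter, Finset.mem_biUnion, Finset.mem_erase]
      constructor
      · rintro ⟨h2, h3⟩
        refine ⟨π.symm z, ⟨?_, h3⟩, h2, Equiv.apply_symm_apply π z⟩
        intro h4
        apply hz
        rw [← ((memG π).mp h2).2, ← h4, Equiv.apply_symm_apply]
      · rintro ⟨y, ⟨_, h3⟩, h4, h5⟩
        refine ⟨h4, ?_⟩
        rw [← h5, Equiv.symm_apply_apply]
        exact h3
    rw [h1, Finset.card_biUnion]
    · rw [Finset.sum_congr rfl fun y hy => hNeq z y (Finset.mem_erase.mp hy).1, Finset.sum_const,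
        smul_eq_mul]
    · intro y _ y' _ hyy
      rw [Function.onFun, Finset.disjoint_left]
      intro π h2 h3
      apply hyy
      have h4 := (Finset.mem_filter.mp h2).2
      have h5 := (Finset.mem_filter.mp h3).2
      exact π.injective (h4.trans h5.symm)
  have htot : ∀ z, z ≠ z₀ → G.card = (Fintype.card X - 1) * N z y₀ := by
    intro z hz
    have h1 := hcount z hz Finset.univ
    rw [Finset.card_erase_of_mem (Finset.mem_univ _), Finset.card_univ] at h1
    rw [← h1]
    congr 1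
    ext π
    simp
  by_contra hcon
  push Not at hcon
  have hcov : G ⊆ (S.erase z₀).biUnion fun z => G.filter fun π => π.symm z ∈ H := by
    intro π hπ
    obtain ⟨z, h1, h2, h3⟩ := hcon π ((memG π).mp hπ).1 ((memG π).mp hπ).2
    exact Finset.mem_biUnion.mpr ⟨z, Finset.mem_erase.mpr ⟨h2, h1⟩,
      Finset.mem_filter.mpr ⟨hπ, h3⟩⟩
  have h1 : G.card ≤ ∑ z ∈ S.erase z₀, (H.card - 1) * N z y₀ := by
    refine (Finset.card_le_card hcov).trans (Finset.card_biUnion_le.trans (le_of_eq ?_))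
    refine Finset.sum_congr rfl fun z hz => ?_
    rw [hcount z (Finset.mem_erase.mp hz).1 H, Finset.card_erase_of_mem hH]
  have h2 : (Fintype.card X - 1) * G.card ≤ (S.card - 1) * (H.card - 1) * G.card := by
    calc (Fintype.card X - 1) * G.card
        ≤ (Fintype.card X - 1) * ∑ z ∈ S.erase z₀, (H.card - 1) * N z y₀ :=
          Nat.mul_le_mul_left _ h1
      _ = ∑ z ∈ S.erase z₀, (H.card - 1) * G.card := by
          rw [Finset.mul_sum]
          refine Finset.sum_congr rfl fun z hz => ?_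
          rw [htot z (Finset.mem_erase.mp hz).1]
          ring
      _ = (S.card - 1) * (H.card - 1) * G.card := by
          rw [Finset.sum_const, smul_eq_mul, Finset.card_erase_of_mem hS]
          ring
  have h3 := Nat.mul_lt_mul_of_pos_right hcard hGpos
  omega

end LTL
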