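import Pool.Agent.Lib.LTL.Root
import Pool.Agent.Lib.LTL.Sep
import Pool.Agent.Lib.LTL.Red
import Pool.Agent.Lib.P61e83e.Poly
import Pool.Agent.Lib.P61e83e.Digits

/-!
# Module LTL.G2Fin: translations and `(x, y) ↦ (A x, A^{-T} y)` in equal characteristic
(MP_61e83e_lc)

The coordinates are `Bool × Fin 3` (`x_i = (false, i)`, `y_i = (true, i)`), `Q = |K| = p ^ m`, `V = ι → K`.
`SL3Inv D`: `D` is invariant under translations, under the root elements
`z (b, i) ↦ z (b, i) + t z (b, j)`, `z (!b, j) ↦ z (!b, j) - t z (!b, i)` (`i ≠ j`, both `b`), and under the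
torus elements `z (b, i) ↦ z (b, i)`, `z (b, j) ↦ s z (b, j)`, `z (b, k) ↦ s⁻¹ z (b, k)`,
`z (!b, ·)` inversely, `{i, j, k} = {0, 1, 2}`: a map `T` with `T z (b, j) = s z (b, j)` and
`T z (!b, i) = z (!b, i)`.

PROOF. STEP 1 (few digits). Let `j : ι`, `k < Q` and suppose `z ↦ τ (z j) ^ k` is in `D`. Then
`nz p m k + 2 ≤ q` (number of nonzero base-`p` digits, `P61e83e.nz`). Let `H = {z : z j = 0}`,
`|H| = Q ^ 5`, `z₁ = 0`. Take a dual word `u ≠ 0`, `wt u ≤ q`, `S = supp u`, `z₀ ∈ S`. As `q ≤ Q`: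
`(|S| - 1) (|H| - 1) ≤ (Q - 1) (Q ^ 5 - 1) < Q ^ 6 - 1`, so `sep_perm` gives `π` with `Pres D π`, `π 0 = z₀`
and `π⁻¹ z ∉ H` for the other `z ∈ S`. `u' = u ∘ π` is a dual word (as in `Pltc.dual_comp`), its support is
`π⁻¹ S`, which meets `H` only in `0`. The push-forward `v a = ∑ z with z j = a, u' z` satisfies
`v 0 = u' 0 = u z₀ ≠ 0`, has at most `q` nonzero values and is orthogonal to
`P = {f ∈ E[X] : deg f < Q, z ↦ f (τ (z j)) ∈ D}`, which is translation invariant. Apply
`P61e83e.nz_add_two_le` to `P` and `v`, `X ^ k ∈ P`.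
STEP 2. Let `f ≠ 0` with `evf τ f ∈ D`, all `degreeOf < Q`, and `μ` a monomial of `f` of maximal degree.
Then every `μ w`, `w = (b, i)`, is `< Q` and has at most `q - 1` nonzero digits: `prod_mem` and `root` with
`i = (b, i)`, `j = (b, j)`, `i' = (!b, i)`, `j' = (!b, j)` for some `j ≠ i` give that `z ↦ τ (z (b, j)) ^ k`
is in `D`, `k = e - e % p`, `e = μ w`; by Step 1 `nz p m k + 2 ≤ q`, and `nz p m e ≤ nz p m k + 1`: the
digits of `k` are those of `e` except the lowest (`dg p k 0 = 0`, `dg p k l = dg p e l` for `l ≥ 1`: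
`k / p = e / p`).
STEP 3. Let `S₁` be the finset of the `e < Q` with `nz p m e ≤ q - 1`, `|S₁| ≤ (m p) ^ (q - 1)`
(`P61e83e.card_nz_le`). The linear map from `{f : degreeOf < Q, evf τ f ∈ D}` to
`(ι → S₁) → E`, `f ↦ (coeff μ f)_μ`, is injective by Step 2, and `f ↦ evf τ f` maps this space onto `D`
(`exists_rep`). So `dim D ≤ |S₁| ^ 6`.
-/

set_option autoImplicit false
open Classical

namespace LTL

open P61e83e Pltc

/-- invariance under translations, root elements and torus elements -/
structure SL3Inv {K E : Type} [Field K] [Field E] (D : Submodule E ((Bool × Fin 3 → K) → E)) :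
    Prop where
  trans : ∀ φ ∈ D, ∀ b : Bool × Fin 3 → K, (fun z => φ (z + b)) ∈ D
  root : ∀ φ ∈ D, ∀ (b : Bool) (i j : Fin 3), i ≠ j → ∀ t : K,
    (fun z : Bool × Fin 3 → K => φ (Function.update
      (Function.update z (!b, j) (z (!b, j) - t * z (!b, i))) (b, i)
        (z (b, i) + t * z (b, j)))) ∈ D
  torus : ∀ (b : Bool) (i j : Fin 3), i ≠ j → ∀ s : K, s ≠ 0 →
    ∃ T : (Bool × Fin 3 → K) → (Bool × Fin 3 → K), (∀ z, T z (b, j) = s * z (b, j)) ∧
      (∀ z, T z (!b, i) = z (!b, i)) ∧ ∀ φ ∈ D, (fun z => φ (T z)) ∈ D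

namespace G2FinAux

/-- the points -/
abbrev Pt (K : Type) : Type := Bool × Fin 3 → K

section step1

variable {K E : Type} [Field K] [Fintype K] [Field E]

theorem card_pt : Fintype.card (Pt K) = Fintype.card K ^ 6 := by
  rw [Fintype.card_fun]
  rfl

theorem card_H (j : Bool × Fin 3) :
    (Finset.univ.filter fun z : Pt K => z j = 0).card ≤ Fintype.card K ^ 5 := by
  have h1 : Fintype.card ({i : Bool × Fin 3 // i ≠ j} → K) = Fintype.card K ^ 5 := by
    rw [Fintype.card_fun]
    congr 1
    have h2 : Fintype.card {i : Bool × Fin 3 // i ≠ j} = Fintype.card (Bool × Fin 3) - 1 := by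
      rw [Fintype.card_subtype_compl, Fintype.card_subtype_eq]
    rw [h2]
    rfl
  rw [← h1, ← Finset.card_univ]
  refine Finset.card_le_card_of_injOn (fun z i => z i.1) (fun _ _ => Finset.mem_univ _) ?_
  intro z hz z' hz' h
  have a1 : z j = 0 := by simpa using hz
  have a2 : z' j = 0 := by simpa using hz'
  funext i
  by_cases hi : i = j
  · rw [hi, a1, a2]
  · exact congrFun h ⟨i, hi⟩

/-- the map `f ↦ f (τ (z j))` -/
noncomputable def evj (τ : K →+* E) (j : Bool × Fin 3) : Polynomial E →ₗ[E] (Pt K → E) :=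
  LinearMap.pi fun z => Polynomial.leval (τ (z j))

theorem evj_apply (τ : K →+* E) (j : Bool × Fin 3) (f : Polynomial E) (z : Pt K) :
    evj τ j f z = f.eval (τ (z j)) := rfl

theorem digits (p : ℕ) [Fact p.Prime] [CharP K p] (τ : K →+* E) (m : ℕ)
    (D : Submodule E (Pt K → E))
    (htr : ∀ φ ∈ D, ∀ b : Pt K, (fun z => φ (z + b)) ∈ D) (q : ℕ) (δ : ℝ)
    (hG : Good D q δ) (hq : q ≤ Fintype.card K) (j : Bool × Fin 3) (k : ℕ)
    (hk : k < Fintype.card K) (h : (fun z : Pt K => τ (z j) ^ k) ∈ D) : nz p m k + 2 ≤ q := by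
  have hE : CharP E p := charP_of_injective_ringHom τ.injective p
  obtain ⟨u, hu0, huq, hu⟩ := hG.dual
  obtain ⟨z₀, hz₀⟩ : ∃ z, u z ≠ 0 := by
    by_contra hc
    push Not at hc
    exact hu0 (funext hc)
  have hQ : 2 ≤ Fintype.card K := Fintype.one_lt_card
  set S : Finset (Pt K) := Finset.univ.filter fun z => u z ≠ 0 with hS
  set H : Finset (Pt K) := Finset.univ.filter fun z => z j = 0 with hH
  have hz₀S : z₀ ∈ S := by simp [hS, hz₀]
  have h0H : (0 : Pt K) ∈ H := by simp [hH]
  have hcard : (S.card - 1) * (H.card - 1) < Fintype.card (Pt K) - 1 := by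
    have a1 : S.card ≤ Fintype.card K := huq.trans hq
    have a2 : H.card ≤ Fintype.card K ^ 5 := card_H j
    rw [card_pt]
    set Q := Fintype.card K with hQd
    have a3 : (S.card - 1) * (H.card - 1) ≤ (Q - 1) * (Q ^ 5 - 1) :=
      Nat.mul_le_mul (by omega) (by omega)
    refine lt_of_le_of_lt a3 ?_
    obtain ⟨r, hr⟩ : ∃ r, Q = r + 1 := ⟨Q - 1, by omega⟩
    have a4 : 0 < Q ^ 5 := Nat.pow_pos (by omega)
    obtain ⟨t, ht⟩ : ∃ t, Q ^ 5 = t + 1 := ⟨Q ^ 5 - 1, by omega⟩
    have a5 : Q ^ 6 = (t + 1) * (r + 1) := by rw [pow_succ, ht, hr]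
    have a6 : (t + 1) * (r + 1) - 1 = t * r + t + r := by
      have : (t + 1) * (r + 1) = t * r + t + r + 1 := by ring
      omega
    rw [a5, a6, ht, hr]
    have a7 : (r + 1 - 1) * (t + 1 - 1) = t * r := by
      have b1 : r + 1 - 1 = r := by omega
      have b2 : t + 1 - 1 = t := by omega
      rw [b1, b2, mul_comm]
    rw [a7]
    omega
  obtain ⟨π, hπ, hπ0, hπS⟩ := sep_perm D hG.two 0 z₀ H h0H S hz₀S hcard
  set u' : Pt K → E := fun z => u (π z) with hu'
  have hdual : ∀ f ∈ D, ∑ z, u' z * f z = 0 := by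
    intro f hf
    have h1 := hu _ (hπ.symm f hf)
    rw [← h1, ← Equiv.sum_comp π (fun x => u x * f (π.symm x))]
    refine Finset.sum_congr rfl fun x _ => ?_
    rw [Equiv.symm_apply_apply]
  have hsupp : ∀ z, u' z ≠ 0 → z j = 0 → z = 0 := by
    intro z hz hzj
    have h1 : π z ∈ S := by
      rw [hS, Finset.mem_filter]
      exact ⟨Finset.mem_univ _, hz⟩
    by_contra hne
    have h2 : π z ≠ z₀ := by
      intro h3
      apply hne
      apply π.injective
      rw [h3, hπ0]
    have h4 := hπS _ h1 h2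
    rw [Equiv.symm_apply_apply] at h4
    exact h4 (by simp [hH, hzj])
  let v : K → E := fun a => ∑ z ∈ Finset.univ.filter (fun z : Pt K => z j = a), u' z
  have hv0 : v 0 = u z₀ := by
    have h1 : v 0 = u' 0 := by
      refine Finset.sum_eq_single 0 ?_ ?_
      · intro z hz hz0
        by_contra hne
        exact hz0 (hsupp z hne (by simpa using hz))
      · intro h1
        exact absurd (by simp) h1
    rw [h1, hu']
    simp only
    rw [hπ0]
  have hvne : v ≠ 0 := by
    intro h1
    apply hz₀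
    rw [← hv0, h1]
    rfl
  let P : Submodule E (Polynomial E) :=
    Polynomial.degreeLT E (Fintype.card K) ⊓ D.comap (evj τ j)
  have hPdeg : ∀ f ∈ P, f.natDegree < Fintype.card K := by
    intro f hf
    have h1 := Polynomial.mem_degreeLT.1 hf.1
    by_cases hf0 : f = 0
    · rw [hf0, Polynomial.natDegree_zero]
      omega
    · exact (Polynomial.natDegree_lt_iff_degree_lt hf0).2 h1
  have hPtr : ∀ f ∈ P, ∀ b : K, f.comp (Polynomial.X + Polynomial.C (τ b)) ∈ P := by
    intro f hf b
    refine ⟨?_, ?_⟩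
    · show f.comp (Polynomial.X + Polynomial.C (τ b)) ∈ Polynomial.degreeLT E (Fintype.card K)
      rw [Polynomial.mem_degreeLT]
      refine lt_of_le_of_lt Polynomial.degree_le_natDegree ?_
      rw [Polynomial.natDegree_comp, Polynomial.natDegree_X_add_C, mul_one]
      exact_mod_cast hPdeg f hf
    · have h1 : evj τ j f ∈ D := hf.2
      have h2 := htr _ h1 (Pi.single j b)
      show evj τ j (f.comp (Polynomial.X + Polynomial.C (τ b))) ∈ D
      have h3 : evj τ j (f.comp (Polynomial.X + Polynomial.C (τ b))) =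
          fun z => evj τ j f (z + Pi.single j b) := by
        funext z
        rw [evj_apply, evj_apply, Polynomial.eval_comp]
        congr 1
        simp
      rw [h3]
      exact h2
  have hXk : (Polynomial.X ^ k : Polynomial E) ∈ P := by
    refine ⟨?_, ?_⟩
    · show (Polynomial.X ^ k : Polynomial E) ∈ Polynomial.degreeLT E (Fintype.card K)
      rw [Polynomial.mem_degreeLT, Polynomial.degree_X_pow]
      exact_mod_cast hk
    · show evj τ j (Polynomial.X ^ k) ∈ D
      have h3 : evj τ j (Polynomial.X ^ k) = fun z : Pt K => τ (z j) ^ k := by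
        funext z
        rw [evj_apply, Polynomial.eval_pow, Polynomial.eval_X]
      rw [h3]
      exact h
  have hvP : ∀ f ∈ P, ∑ x, v x * f.eval (τ x) = 0 := by
    intro f hf
    have h1 := hdual _ hf.2
    rw [← h1, ← Finset.sum_fiberwise Finset.univ (fun z : Pt K => z j)
      (fun z => u' z * evj τ j f z)]
    refine Finset.sum_congr rfl fun a _ => ?_
    rw [Finset.sum_mul]
    refine Finset.sum_congr rfl fun z hz => ?_
    rw [evj_apply]
    have : z j = a := by simpa using hz
    rw [this]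
  have h1 := nz_add_two_le τ hPdeg hPtr p v hvP hvne k m hXk
  refine h1.trans (le_trans ?_ huq)
  have h2 : (Finset.univ.filter fun x => v x ≠ 0) ⊆ S.image (fun z => π.symm z j) := by
    intro a ha
    have ha' : v a ≠ 0 := by simpa using ha
    obtain ⟨z, hz, hz'⟩ := Finset.exists_ne_zero_of_sum_ne_zero ha'
    rw [Finset.mem_image]
    refine ⟨π z, ?_, ?_⟩
    · rw [hS, Finset.mem_filter]
      exact ⟨Finset.mem_univ _, hz'⟩
    · rw [Equiv.symm_apply_apply]
      simpa using hz
  exact (Finset.card_le_card h2).trans Finset.card_image_le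

end step1

/-- the lowest digit -/
theorem nz_low (p m e : ℕ) (hp : 0 < p) : nz p m e ≤ nz p m (e - e % p) + 1 := by
  unfold nz
  have hsub : ((Finset.range m).filter fun i => dg p e i ≠ 0) ⊆
      insert 0 ((Finset.range m).filter fun i => dg p (e - e % p) i ≠ 0) := by
    intro i hi
    rw [Finset.mem_filter] at hi
    rw [Finset.mem_insert, Finset.mem_filter]
    rcases Nat.eq_zero_or_pos i with h0 | h0
    · exact Or.inl h0
    · refine Or.inr ⟨hi.1, ?_⟩
      have h1 : dg p (e - e % p) i = dg p e i := by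
        obtain ⟨l, rfl⟩ : ∃ l, i = l + 1 := ⟨i - 1, by omega⟩
        unfold dg
        have h2 : e - e % p = p * (e / p) := by
          have := Nat.div_add_mod e p
          omega
        rw [h2, pow_succ', ← Nat.div_div_eq_div_mul, ← Nat.div_div_eq_div_mul,
          Nat.mul_div_cancel_left _ hp]
      rw [h1]
      exact hi.2
  exact (Finset.card_le_card hsub).trans (Finset.card_insert_le _ _)

section step2

variable {K E : Type} [Field K] [Fintype K] [Field E]

theorem succ_ne (i : Fin 3) : i ≠ i + 1 := by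
  revert i
  decide

theorem upd_conv (D : Submodule E (Pt K → E)) (i j i' j' : Bool × Fin 3)
    (d d' : DecidableEq (Bool × Fin 3))
    (h : ∀ φ ∈ D, ∀ t : K, (fun z : Pt K => φ (@Function.update _ _ d'
      (@Function.update _ _ d' z j' (z j' - t * z i')) i (z i + t * z j))) ∈ D) :
    ∀ φ ∈ D, ∀ t : K, (fun z : Pt K => φ (@Function.update _ _ d
      (@Function.update _ _ d z j' (z j' - t * z i')) i (z i + t * z j))) ∈ D := by
  have hd : d = d' := Subsingleton.elim _ _
  subst hd
  exact h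

theorem top_digits (p : ℕ) [Fact p.Prime] [CharP K p] (τ : K →+* E) (m : ℕ)
    (D : Submodule E (Pt K → E)) (hD : SL3Inv D) (q : ℕ) (δ : ℝ)
    (hG : Good D q δ) (hq : q ≤ Fintype.card K) (f : MvPolynomial (Bool × Fin 3) E)
    (hf : ∀ i, f.degreeOf i < Fintype.card K) (hfD : evf τ f ∈ D) (μ : Bool × Fin 3 →₀ ℕ)
    (hμ0 : f.coeff μ ≠ 0) (hμ : ∀ ν, f.coeff ν ≠ 0 → ν.degree ≤ μ.degree)
    (w : Bool × Fin 3) : μ w < Fintype.card K ∧ nz p m (μ w) ≤ q - 1 := by
  have hp : p.Prime := Fact.out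
  have hlt : μ w < Fintype.card K :=
    lt_of_le_of_lt (MvPolynomial.monomial_le_degreeOf w (MvPolynomial.mem_support_iff.2 hμ0))
      (hf w)
  refine ⟨hlt, ?_⟩
  obtain ⟨b, i⟩ := w
  obtain ⟨g, hgD, hgdeg, hgc, hgle⟩ := prod_mem τ D hD.trans f hf hfD μ hμ (b, i)
  obtain ⟨j, hij⟩ : ∃ j : Fin 3, i ≠ j := ⟨i + 1, succ_ne i⟩
  have hb : b ≠ !b := by cases b <;> simp
  have h1 := root p τ D hD.trans (b, i) (b, j) (!b, i) (!b, j) (by simp [hij]) (by simp)
    (by simp) (by simp) (by simp) (by simp [hij])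
    (upd_conv D (b, i) (b, j) (!b, i) (!b, j) _ _ (fun φ hφ t => hD.root φ hφ b i j hij t))
    (fun s hs => hD.torus b i j hij s hs)
    (μ (b, i)) hlt g hgD hgle (by rw [hgc]; exact hμ0)
  have h2 := digits p τ m D hD.trans q δ hG hq (b, j) _
    (lt_of_le_of_lt (Nat.sub_le _ _) hlt) h1
  have h3 := nz_low p m (μ (b, i)) hp.pos
  omega

end step2

end G2FinAux

open G2FinAux in
theorem sl3_bound {K E : Type} [Field K] [Fintype K] [Field E] (p : ℕ) [Fact p.Prime] [CharP K p]
    (τ : K →+* E) (m : ℕ) (hm : 0 < m) (hK : Fintype.card K = p ^ m)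
    (D : Submodule E ((Bool × Fin 3 → K) → E)) (hD : SL3Inv D) (q : ℕ) (δ : ℝ)
    (hG : Good D q δ) (hq : q ≤ Fintype.card K) :
    Module.finrank E D ≤ ((m * p) ^ (q - 1)) ^ 6 := by
  have hp : p.Prime := Fact.out
  let S₁ : Finset ℕ := (Finset.range (Fintype.card K)).filter fun e => nz p m e ≤ q - 1
  have hS₁ : S₁.card ≤ (m * p) ^ (q - 1) := by
    refine card_nz_le hp.pos hm S₁ ?_
    intro l hl
    rw [Finset.mem_filter, Finset.mem_range, hK] at hl
    exact hl
  let evL : MvPolynomial (Bool × Fin 3) E →ₗ[E] ((Bool × Fin 3 → K) → E) :=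
    { toFun := fun f => evf τ f
      map_add' := fun f g => by
        funext z
        simp [evf]
      map_smul' := fun c f => by
        funext z
        simp [evf] }
  let W : Submodule E (MvPolynomial (Bool × Fin 3) E) :=
    { carrier := {f | (∀ i, f.degreeOf i < Fintype.card K) ∧ evf τ f ∈ D}
      add_mem' := by
        rintro f g ⟨h1, h2⟩ ⟨h3, h4⟩
        refine ⟨fun i => lt_of_le_of_lt (MvPolynomial.degreeOf_add_le i f g)
          (max_lt (h1 i) (h3 i)), ?_⟩
        have := D.add_mem h2 h4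
        have e1 : evf τ (f + g) = evf τ f + evf τ g := evL.map_add f g
        rw [e1]
        exact this
      zero_mem' := by
        refine ⟨fun i => ?_, ?_⟩
        · rw [MvPolynomial.degreeOf_zero]
          exact Fintype.card_pos
        · have e1 : evf τ (0 : MvPolynomial (Bool × Fin 3) E) = 0 := evL.map_zero
          rw [e1]
          exact D.zero_mem
      smul_mem' := by
        rintro c f ⟨h1, h2⟩
        refine ⟨fun i => ?_, ?_⟩
        · rw [MvPolynomial.smul_eq_C_mul]
          exact lt_of_le_of_lt (MvPolynomial.degreeOf_C_mul_le f i c) (h1 i)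
        · have e1 : evf τ (c • f) = c • evf τ f := evL.map_smul c f
          rw [e1]
          exact D.smul_mem c h2 }
  have hmap : D = W.map evL := by
    ext φ
    rw [Submodule.mem_map]
    constructor
    · intro hφ
      obtain ⟨f, hf, hfφ⟩ := exists_rep τ φ
      exact ⟨f, ⟨hf, by rw [hfφ]; exact hφ⟩, hfφ⟩
    · rintro ⟨f, hf, rfl⟩
      exact hf.2
  let mon : (Bool × Fin 3 → S₁) → (Bool × Fin 3 →₀ ℕ) := fun a =>
    Finsupp.equivFunOnFinite.symm fun w => (a w : ℕ)
  let cf : W →ₗ[E] ((Bool × Fin 3 → S₁) → E) :=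
    { toFun := fun f a => (f : MvPolynomial (Bool × Fin 3) E).coeff (mon a)
      map_add' := fun f g => by
        funext a
        simp
      map_smul' := fun c f => by
        funext a
        simp }
  have hcf : Function.Injective cf := by
    rw [injective_iff_map_eq_zero]
    rintro ⟨f, hf, hfD⟩ h0
    by_contra hne
    have hf0 : f ≠ 0 := fun h => hne (by subst h; rfl)
    have hsne : f.support.Nonempty := by
      rw [Finset.nonempty_iff_ne_empty]
      intro h
      exact hf0 (MvPolynomial.support_eq_empty.1 h)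
    obtain ⟨μ, hμ, hmax⟩ := Finset.exists_max_image f.support (fun ν => ν.degree) hsne
    have hμ0 : f.coeff μ ≠ 0 := MvPolynomial.mem_support_iff.1 hμ
    have key := top_digits p τ m D hD q δ hG hq f hf hfD μ hμ0
      (fun ν hν => hmax ν (MvPolynomial.mem_support_iff.2 hν))
    have hmem : ∀ w, μ w ∈ S₁ := fun w =>
      Finset.mem_filter.2 ⟨Finset.mem_range.2 (key w).1, (key w).2⟩
    have h1 : mon (fun w => ⟨μ w, hmem w⟩) = μ := by
      ext w
      rfl
    have h2 := congrFun h0 (fun w => ⟨μ w, hmem w⟩)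
    have h3 : f.coeff (mon (fun w => ⟨μ w, hmem w⟩)) = 0 := h2
    rw [h1] at h3
    exact hμ0 h3
  have hWfin : Module.Finite E W := Module.Finite.of_injective cf hcf
  have h1 : Module.finrank E W ≤ Module.finrank E ((Bool × Fin 3 → S₁) → E) :=
    LinearMap.finrank_le_finrank_of_injective hcf
  have h2 : Module.finrank E D ≤ Module.finrank E W := by
    rw [hmap]
    exact Submodule.finrank_map_le evL W
  have h3 : Module.finrank E ((Bool × Fin 3 → S₁) → E) = S₁.card ^ 6 := by
    rw [Module.finrank_fintype_fun_eq_card, Fintype.card_fun, Fintype.card_coe]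
    rfl
  calc Module.finrank E D ≤ S₁.card ^ 6 := h2.trans (h1.trans h3.le)
    _ ≤ _ := Nat.pow_le_pow_left hS₁ 6

end LTL
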