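import Pool.Agent.Lib.LTL.HermPeel

/-!
# Module LTL.HermMain: small combinations of blocks of the unital (MP_61e83e_lc)

`v P F` is the order of `F P`. PROOFS.
`peel_all`: by induction on `∑ P, k P`. If it is `0` take `G = F`. Otherwise some `k P ≥ 1`; `v P F ≥ Q + 1`
so the coefficients of `F P` of index `≤ Q` vanish; `peel` gives `F = tg P * G₁`, `G₁ ∈ FN (N - (Q + 1))`,
`Q + 1 ≤ N`. As `PowerSeries L` is a domain, `v P' F = v P' (tg P) + v P' G₁` (`PowerSeries.order_mul`), so
`v P G₁ = v P F - (Q + 1)`, `v P' G₁ = v P' F` for `P' ≠ P`. Apply the induction hypothesis to `G₁` and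
`k - single P 1`.
`herm_main`: let `m = (Q + 1) / l`, `m l = Q + 1`, `m ≥ 1`. With the integers `A' a = (A a).val`,
`B' α γ = (B α γ).val` let `F = ∏ a, (vt a) ^ (m A' a) * ∏ α γ, (ln α γ) ^ (m B' α γ)`. `B' = 0` on tangents. Let
`U P = A' P.x + ∑ α, B' α (P.y - α P.x)` (the lines through `P`: `γ = P.y - α P.x`); then `v P F = m U P`
(`vt_at`, `ln_at`, `order_mul`), in particular `F P ≠ 0`, and `(U P : ZMod l) = u P`. `F ∈ FN N` with
`N = ∑ a, m A' a Q + ∑ α γ, m B' α γ (Q + 1)` (`vt_mul`, `ln_mul`, `fn_one`), and `N = m ∑ P, U P` because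
`|vbl a| = Q` and `|lbl α γ| = Q + 1` for non-tangents (`vbl_card`, `lbl_card`). Let `k P = U P / l`:
`m U P = (Q + 1) k P + m (U P % l)`, and `U P % l = (u P).val`. `peel_all`: `G ∈ FN N'`,
`v P G = m (u P).val`, `N' = N - (Q + 1) ∑ k P = m ∑ P, (u P).val`. At `z₀`: `n = m (u z₀).val` satisfies
`m ≤ n ≤ m (l - 1) ≤ Q` and the coefficient of `T ^ n` in `G z₀` is not `0` (it is the order). By `low`
`n Q ≤ N' ≤ m (l - 1) |supp u|`. So `m Q ≤ m (l - 1) |supp u|`.
-/

set_option autoImplicit false
open Classical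

namespace LTL

variable {L : Type} [Field L] [StarRing L] [Fintype L] {Q : ℕ}

theorem peel_all (hQ : HermQ L Q) {η : PowerSeries L} (hη : EtaOk η Q) (k : HP L → ℕ) (N : ℕ)
    (F : HP L → PowerSeries L) (hF : F ∈ FN L η Q N) (h0 : ∀ P, F P ≠ 0)
    (hk : ∀ P, (((Q + 1) * k P : ℕ) : ℕ∞) ≤ (F P).order) :
    ∃ (N' : ℕ) (G : HP L → PowerSeries L), G ∈ FN L η Q N' ∧ N' + (Q + 1) * ∑ P, k P = N ∧
      ∀ P, G P ≠ 0 ∧ (G P).order + (((Q + 1) * k P : ℕ) : ℕ∞) = (F P).order := by
  have key : ∀ (n : ℕ) (k : HP L → ℕ) (N : ℕ) (F : HP L → PowerSeries L), F ∈ FN L η Q N →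
      (∀ P, F P ≠ 0) → (∀ P, (((Q + 1) * k P : ℕ) : ℕ∞) ≤ (F P).order) → ∑ P, k P = n →
      ∃ (N' : ℕ) (G : HP L → PowerSeries L), G ∈ FN L η Q N' ∧ N' + (Q + 1) * n = N ∧
        ∀ P, G P ≠ 0 ∧ (G P).order + (((Q + 1) * k P : ℕ) : ℕ∞) = (F P).order := by
    intro n
    induction n with
    | zero =>
      intro k N F hF h0 hk hn
      have hk0 : ∀ P, k P = 0 := fun P => (Finset.sum_eq_zero_iff.1 hn) P (Finset.mem_univ P)
      refine ⟨N, F, hF, by simp, fun P => ⟨h0 P, by simp [hk0 P]⟩⟩
    | succ n ih =>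
      intro k N F hF h0 hk hn
      have hex : ∃ P, k P ≠ 0 := by
        by_contra hcon
        push Not at hcon
        simp [hcon] at hn
      obtain ⟨P, hP⟩ := hex
      have hc : ∀ m ≤ Q, PowerSeries.coeff m (F P) = 0 := by
        intro m hm
        apply PowerSeries.coeff_of_lt_order
        refine lt_of_lt_of_le ?_ (hk P)
        have h1 : 1 ≤ k P := Nat.one_le_iff_ne_zero.2 hP
        have h2 : m < (Q + 1) * k P := by nlinarith
        exact_mod_cast h2
      have hF0 : F ≠ 0 := fun h => h0 P (by rw [h]; rfl)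
      obtain ⟨hQN, G, hG, hFG⟩ := peel hQ hη hF P hc hF0
      have h1 : ∀ P', (F P').order =
          (if P' = P then ((Q + 1 : ℕ) : ℕ∞) else 0) + (G P').order := by
        intro P'
        rw [hFG, Pi.mul_apply, PowerSeries.order_mul, tg_at hQ hη]
      have hG0 : ∀ P', G P' ≠ 0 := fun P' h => h0 P' (by rw [hFG, Pi.mul_apply, h, mul_zero])
      set k' : HP L → ℕ := fun P' => if P' = P then k P' - 1 else k P' with hk'
      have hks : ∀ P', k P' = k' P' + if P' = P then 1 else 0 := by
        intro P'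
        simp only [hk']
        by_cases h : P' = P
        · subst h
          simp only [if_true]
          omega
        · simp [h]
      have hsum : ∑ P', k' P' = n := by
        have h2 : ∑ P', k P' = ∑ P', k' P' + 1 := by
          rw [Finset.sum_congr rfl fun P' _ => hks P', Finset.sum_add_distrib]
          simp
        omega
      have hk2 : ∀ P', (((Q + 1) * k' P' : ℕ) : ℕ∞) ≤ (G P').order := by
        intro P'
        have h3 := hk P'
        rw [h1 P', hks P'] at h3
        by_cases h : P' = P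
        · rw [if_pos h, if_pos h] at h3
          have h4 : (((Q + 1) * (k' P' + 1) : ℕ) : ℕ∞) =
              ((Q + 1 : ℕ) : ℕ∞) + (((Q + 1) * k' P' : ℕ) : ℕ∞) := by
            rw [← Nat.cast_add]
            congr 1
            ring
          rw [h4] at h3
          exact (ENat.add_le_add_iff_left (ENat.natCast_ne_top _)).1 h3
        · rw [if_neg h, if_neg h, zero_add, add_zero] at h3
          exact h3
      obtain ⟨N', G', hG', hN', hfin⟩ := ih k' (N - (Q + 1)) G hG hG0 hk2 hsum
      refine ⟨N', G', hG', ?_, fun P' => ⟨(hfin P').1, ?_⟩⟩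
      · have h5 : (Q + 1) * (n + 1) = (Q + 1) * n + (Q + 1) := by ring
        omega
      · rw [h1 P', ← (hfin P').2, hks P']
        by_cases h : P' = P
        · rw [if_pos h, if_pos h]
          have h4 : (((Q + 1) * (k' P' + 1) : ℕ) : ℕ∞) =
              ((Q + 1 : ℕ) : ℕ∞) + (((Q + 1) * k' P' : ℕ) : ℕ∞) := by
            rw [← Nat.cast_add]
            congr 1
            ring
          rw [h4, ← add_assoc, ← add_assoc, add_comm (G' P').order]
        · rw [if_neg h, if_neg h, zero_add, add_zero]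
  exact key _ k N F hF h0 hk rfl

namespace HermMainAux

private lemma vt_pow (hQ : HermQ L Q) {η : PowerSeries L} (hη : EtaOk η Q) (a : L) {M : ℕ}
    {G : HP L → PowerSeries L} (hG : G ∈ FN L η Q M) (j : ℕ) :
    vt a ^ j * G ∈ FN L η Q (M + j * Q) := by
  induction j with
  | zero => simpa using hG
  | succ j ih =>
    have h := vt_mul hQ hη a ih
    have h1 : vt a ^ (j + 1) * G = vt a * (vt a ^ j * G) := by ring
    have h2 : M + (j + 1) * Q = M + j * Q + Q := by ring
    rw [h1, h2]
    exact h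

private lemma ln_pow (hQ : HermQ L Q) {η : PowerSeries L} (hη : EtaOk η Q) (α γ : L) {M : ℕ}
    {G : HP L → PowerSeries L} (hG : G ∈ FN L η Q M) (j : ℕ) :
    ln η α γ ^ j * G ∈ FN L η Q (M + j * (Q + 1)) := by
  induction j with
  | zero => simpa using hG
  | succ j ih =>
    have h := ln_mul hQ hη α γ ih
    have h1 : ln η α γ ^ (j + 1) * G = ln η α γ * (ln η α γ ^ j * G) := by ring
    have h2 : M + (j + 1) * (Q + 1) = M + j * (Q + 1) + (Q + 1) := by ring
    rw [h1, h2]
    exact h

omit [Fintype L] in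
private lemma prod_mem {η : PowerSeries L} {ι : Type} (s : Finset ι)
    (f : ι → HP L → PowerSeries L) (e : ι → ℕ)
    (h : ∀ i, ∀ (M : ℕ) (G : HP L → PowerSeries L), G ∈ FN L η Q M → f i * G ∈ FN L η Q (M + e i))
    {M : ℕ} {G : HP L → PowerSeries L} (hG : G ∈ FN L η Q M) :
    (∏ i ∈ s, f i) * G ∈ FN L η Q (M + ∑ i ∈ s, e i) := by
  induction s using Finset.induction_on with
  | empty => simpa using hG
  | insert a s ha ih =>
    rw [Finset.prod_insert ha, Finset.sum_insert ha, mul_assoc]
    have h1 := h a _ _ ih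
    have h2 : M + (e a + ∑ i ∈ s, e i) = M + ∑ i ∈ s, e i + e a := by ring
    rw [h2]
    exact h1

end HermMainAux

open HermMainAux in
theorem herm_main (hQ : HermQ L Q) (l : ℕ) [Fact l.Prime] (hl : l ∣ Q + 1) (A : L → ZMod l)
    (B : L → L → ZMod l) (hB : ∀ α γ, γ + star γ + α * star α = 0 → B α γ = 0)
    (u : HP L → ZMod l) (hu : ∀ z, u z = A z.x + ∑ α, B α (z.y - α * z.x)) (z₀ : HP L)
    (hz : u z₀ ≠ 0) : Q ≤ (l - 1) * (Finset.univ.filter fun z => u z ≠ 0).card := by
  obtain ⟨η, hη⟩ := hQ.eta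
  have hl2 : 2 ≤ l := (Fact.out : l.Prime).two_le
  obtain ⟨m, hm⟩ := hl
  have hm1 : 1 ≤ m := by
    rcases Nat.eq_zero_or_pos m with h | h
    · subst h
      omega
    · exact h
  set U : HP L → ℕ := fun P => (A P.x).val + ∑ α, (B α (P.y - α * P.x)).val with hU
  have hUu : ∀ P, ((U P : ℕ) : ZMod l) = u P := by
    intro P
    rw [hu]
    simp only [hU]
    push_cast
    simp only [ZMod.natCast_zmod_val]
  have huv : ∀ P, (u P).val = U P % l := by
    intro P
    rw [← hUu, ZMod.val_natCast]
  -- the product of lines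
  set F1 : HP L → PowerSeries L := ∏ q : L × L, ln η q.1 q.2 ^ (m * (B q.1 q.2).val) with hF1
  set F0 : HP L → PowerSeries L := ∏ a : L, vt a ^ (m * (A a).val) with hF0
  have hmem : F0 * (F1 * 1) ∈ FN L η Q (0 + ∑ q : L × L, (m * (B q.1 q.2).val) * (Q + 1) +
      ∑ a : L, (m * (A a).val) * Q) := by
    refine prod_mem _ _ _ (fun a M G hG => vt_pow hQ hη a hG _) ?_
    exact prod_mem _ _ _ (fun q M G hG => ln_pow hQ hη q.1 q.2 hG _) (fn_one η 0)
  rw [mul_one, zero_add] at hmem
  have hord : ∀ P, ((F0 * F1) P).order = ((m * U P : ℕ) : ℕ∞) := by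
    intro P
    have h1 : (F0 P).order = ((m * (A P.x).val : ℕ) : ℕ∞) := by
      simp only [hF0, Finset.prod_apply, Pi.pow_apply]
      rw [PowerSeries.order_prod]
      have h2 : ∀ a : L, (vt a P ^ (m * (A a).val)).order =
          if P.x = a then ((m * (A a).val : ℕ) : ℕ∞) else 0 := by
        intro a
        rw [PowerSeries.order_pow, vt_at]
        by_cases h : P.x = a
        · rw [if_pos ((mem_vbl a P).2 h), if_pos h]
          simp
        · rw [if_neg (fun h' => h ((mem_vbl a P).1 h')), if_neg h]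
          simp
      rw [Finset.sum_congr rfl fun a _ => h2 a]
      simp
    have h3 : (F1 P).order = ((m * ∑ α, (B α (P.y - α * P.x)).val : ℕ) : ℕ∞) := by
      simp only [hF1, Finset.prod_apply, Pi.pow_apply]
      rw [PowerSeries.order_prod]
      have h2 : ∀ q : L × L, (ln η q.1 q.2 P ^ (m * (B q.1 q.2).val)).order =
          if q.2 = P.y - q.1 * P.x then ((m * (B q.1 q.2).val : ℕ) : ℕ∞) else 0 := by
        intro q
        rw [PowerSeries.order_pow]
        by_cases ht : q.2 + star q.2 + q.1 * star q.1 = 0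
        · rw [hB _ _ ht]
          simp
        · rw [ln_at hQ hη _ _ ht]
          by_cases h : q.2 = P.y - q.1 * P.x
          · have h5 : P ∈ lbl q.1 q.2 := (mem_lbl _ _ P).2 (by rw [h]; ring)
            rw [if_pos h5, if_pos h]
            simp
          · have h5 : P ∉ lbl q.1 q.2 := fun h' => h (by rw [(mem_lbl _ _ P).1 h']; ring)
            rw [if_neg h5, if_neg h]
            simp
      rw [Finset.sum_congr rfl fun q _ => h2 q, Fintype.sum_prod_type]
      simp only [Finset.sum_ite_eq', Finset.mem_univ, if_true]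
      rw [Finset.mul_sum]
      push_cast
      rfl
    rw [Pi.mul_apply, PowerSeries.order_mul, h1, h3, ← Nat.cast_add]
    congr 1
    simp only [hU]
    ring
  have hne : ∀ P, (F0 * F1) P ≠ 0 := by
    intro P h
    have h1 := hord P
    rw [h, PowerSeries.order_zero] at h1
    exact ENat.natCast_ne_top _ h1.symm
  have hk : ∀ P, (((Q + 1) * (U P / l) : ℕ) : ℕ∞) ≤ ((F0 * F1) P).order := by
    intro P
    rw [hord]
    have h1 : (Q + 1) * (U P / l) ≤ m * U P := by
      rw [hm]
      calc l * m * (U P / l) = m * (l * (U P / l)) := by ring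
        _ ≤ m * U P := Nat.mul_le_mul_left _ (Nat.mul_div_le _ _)
    exact_mod_cast h1
  obtain ⟨N', G, hG, hN', hfin⟩ := peel_all hQ hη (fun P => U P / l) _ (F0 * F1) hmem hne hk
  have hGord : ∀ P, (G P).order = ((m * (U P % l) : ℕ) : ℕ∞) := by
    intro P
    have h1 := (hfin P).2
    rw [hord] at h1
    have h2 : (((m * U P : ℕ)) : ℕ∞) = ((m * (U P % l) : ℕ) : ℕ∞) +
        (((Q + 1) * (U P / l) : ℕ) : ℕ∞) := by
      rw [← Nat.cast_add]
      congr 1
      rw [hm]
      calc m * U P = m * (U P % l + l * (U P / l)) := by rw [Nat.mod_add_div]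
        _ = _ := by ring
    rw [h2] at h1
    have h3 : (G P).order ≠ ⊤ := fun h => (hfin P).1 (PowerSeries.order_eq_top.1 h)
    obtain ⟨r, hr⟩ := ENat.ne_top_iff_exists.1 h3
    rw [← hr] at h1 ⊢
    have h4 : r + (Q + 1) * (U P / l) = m * (U P % l) + (Q + 1) * (U P / l) := by
      exact_mod_cast h1
    have h5 : r = m * (U P % l) := by omega
    rw [h5]
  -- the degree
  have hsumA : ∑ P : HP L, (A P.x).val = ∑ a : L, (A a).val * Q := by
    have h1 : ∀ P : HP L, (A P.x).val = ∑ a : L, if P ∈ vbl a then (A a).val else 0 := by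
      intro P
      simp only [mem_vbl]
      simp
    rw [Finset.sum_congr rfl fun P _ => h1 P, Finset.sum_comm]
    refine Finset.sum_congr rfl fun a _ => ?_
    rw [Finset.sum_ite_mem, Finset.univ_inter, Finset.sum_const, hQ.vbl_card, smul_eq_mul,
      mul_comm]
  have hsumB : ∑ P : HP L, ∑ α, (B α (P.y - α * P.x)).val =
      ∑ q : L × L, (B q.1 q.2).val * (Q + 1) := by
    rw [Finset.sum_comm, Fintype.sum_prod_type]
    refine Finset.sum_congr rfl fun α _ => ?_
    have h1 : ∀ P : HP L, (B α (P.y - α * P.x)).val =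
        ∑ γ : L, if P ∈ lbl α γ then (B α γ).val else 0 := by
      intro P
      have h2 : ∀ γ : L, (if P ∈ lbl α γ then (B α γ).val else 0) =
          if P.y - α * P.x = γ then (B α γ).val else 0 := by
        intro γ
        have h3 : P ∈ lbl α γ ↔ P.y - α * P.x = γ := by
          rw [mem_lbl]
          constructor
          · intro h
            rw [h]
            ring
          · intro h
            rw [← h]
            ring
        simp only [h3]
      rw [Finset.sum_congr rfl fun γ _ => h2 γ]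
      simp
    rw [Finset.sum_congr rfl fun P _ => h1 P, Finset.sum_comm]
    refine Finset.sum_congr rfl fun γ _ => ?_
    rw [Finset.sum_ite_mem, Finset.univ_inter, Finset.sum_const, smul_eq_mul]
    by_cases ht : γ + star γ + α * star α = 0
    · simp [hB _ _ ht]
    · rw [hQ.lbl_card _ _ ht, mul_comm]
  have hN : ∑ q : L × L, (m * (B q.1 q.2).val) * (Q + 1) + ∑ a : L, (m * (A a).val) * Q =
      m * ∑ P, U P := by
    simp only [hU]
    rw [Finset.sum_add_distrib, hsumA, hsumB, mul_add, Finset.mul_sum, Finset.mul_sum, add_comm]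
    congr 1
    · exact Finset.sum_congr rfl fun a _ => by ring
    · exact Finset.sum_congr rfl fun a _ => by ring
  have hN2 : N' = m * ∑ P, U P % l := by
    rw [hN] at hN'
    have h1 : m * ∑ P, U P = m * ∑ P, U P % l + (Q + 1) * ∑ P, U P / l := by
      rw [hm]
      have h2 : ∑ P : HP L, U P = ∑ P, U P % l + l * ∑ P, U P / l := by
        rw [Finset.mul_sum, ← Finset.sum_add_distrib]
        exact Finset.sum_congr rfl fun P _ => (Nat.mod_add_div _ _).symm
      rw [h2]
      ring
    omega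
  have hbound : ∑ P, U P % l ≤ (l - 1) * (Finset.univ.filter fun z => u z ≠ 0).card := by
    rw [← Finset.sum_filter_add_sum_filter_not Finset.univ (fun z => u z ≠ 0)]
    have h1 : ∑ P ∈ Finset.univ.filter (fun z => ¬ u z ≠ 0), U P % l = 0 := by
      refine Finset.sum_eq_zero fun P hP => ?_
      rw [← huv]
      have h2 : u P = 0 := by simpa using hP
      rw [h2, ZMod.val_zero]
    rw [h1, add_zero]
    calc ∑ P ∈ Finset.univ.filter (fun z => u z ≠ 0), U P % l
        ≤ ∑ P ∈ Finset.univ.filter (fun z => u z ≠ 0), (l - 1) := by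
          refine Finset.sum_le_sum fun P _ => ?_
          have := Nat.mod_lt (U P) (show 0 < l by omega)
          omega
      _ = (l - 1) * (Finset.univ.filter fun z => u z ≠ 0).card := by
          rw [Finset.sum_const, smul_eq_mul, mul_comm]
  have hr1 : 1 ≤ U z₀ % l := by
    rw [← huv]
    rcases Nat.eq_zero_or_pos (u z₀).val with h | h
    · exact absurd ((ZMod.val_eq_zero _).1 h) hz
    · exact h
  have hr2 : U z₀ % l ≤ l - 1 := by
    have := Nat.mod_lt (U z₀) (show 0 < l by omega)
    omega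
  have hn : m * (U z₀ % l) ≤ Q := by
    have h1 : m * (U z₀ % l) ≤ m * (l - 1) := Nat.mul_le_mul_left _ hr2
    have h2 : m * (l - 1) + m = l * m := by
      obtain ⟨l', rfl⟩ : ∃ l', l = l' + 1 := ⟨l - 1, by omega⟩
      simp only [Nat.add_sub_cancel]
      ring
    omega
  have hcoeff : PowerSeries.coeff (m * (U z₀ % l)) (G z₀) ≠ 0 :=
    (PowerSeries.order_eq_nat.1 (hGord z₀)).1
  have hlow := low hQ hη hG z₀ _ hn hcoeff
  have h3 : m * Q ≤ m * ((l - 1) * (Finset.univ.filter fun z => u z ≠ 0).card) := by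
    calc m * Q ≤ m * (U z₀ % l) * Q := by
          rw [mul_assoc]
          exact Nat.mul_le_mul_left _ (Nat.le_mul_of_pos_left _ hr1)
      _ ≤ N' := hlow
      _ = m * ∑ P, U P % l := hN2
      _ ≤ _ := Nat.mul_le_mul_left _ hbound
  exact Nat.le_of_mul_le_mul_left h3 hm1

end LTL
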