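import Pool.Agent.Lib.LTL.HermRing

/-!
# Module LTL.HermPeel: dividing by tangents (MP_61e83e_lc)

PROOFS. `peel_one`: every `F ∈ FN N` is `F = ∑ i ∈ range (Q + 1), cc (k i) * xx ^ i + yy * G` with
`k i = 0` if `i Q > N`, and `G ∈ FN (N - (Q + 1))` if `Q + 1 ≤ N`, `G = 0` otherwise (span induction: a
generator `xx ^ i yy ^ j` with `j ≥ 1` is `yy * (xx ^ i yy ^ (j - 1))`). At `P = 1`: `xx 1 = T`,
`yy 1 = η`, so for `n ≤ Q` the coefficient of `T ^ n` in `F 1` is `k n` (`η G 1` has no terms below
`T ^ (Q + 1)`). (`low_one`: so it vanishes if `n Q > N`.) If all these coefficients vanish then `F = yy * G`.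
`peel`: apply `peel_one` to `trn P F` (its value at `1` is `F P`): `trn P F = yy * G`, so
`F = trn P⁻¹ (yy * G) = trn P⁻¹ yy * trn P⁻¹ G`, and
`trn P⁻¹ yy = cc (star P.y) - cc (star P.x) * xx + yy = tg P` (`P⁻¹ = (- P.x, star P.y)`).
`low`: `low_one` for `trn P F`.
`tg_at`: `tg P` at `P'` is `C (P'.y + star P.y - star P.x P'.x) + C (star P'.x - star P.x) T + η`; for
`P' = P` it is `η` (`P.h`), of order `Q + 1`; otherwise the constant term is not `0` (`eq_of_tan`): order `0`.
`ln_at`: `ln α γ` at `P` is `C (P.y - α P.x - γ) + C (star P.x - α) T + η`: order `0` if `P` is not on the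
line, otherwise order `1` because `star P.x ≠ α` (`tan_of_mem`; `Q + 1 ≥ 2`).
`vt_at`: `C (P.x - a) + T`. Memberships: `mulx`, `muly`, `mulc`, `fn_mono`.
-/

set_option autoImplicit false
open Classical

namespace LTL

variable {L : Type} [Field L] [StarRing L] [Fintype L] {Q : ℕ}

/-- the tangent at `P` -/
noncomputable def tg (η : PowerSeries L) (P : HP L) : HP L → PowerSeries L :=
  yy L η - cc (star P.x) * xx L + cc (star P.y)

/-- the line `y = α x + γ` -/
noncomputable def ln (η : PowerSeries L) (α γ : L) : HP L → PowerSeries L :=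
  yy L η - cc α * xx L - cc γ

/-- the line `x = a` -/
noncomputable def vt (a : L) : HP L → PowerSeries L := xx L - cc a

set_option linter.unusedSectionVars false

namespace HermPeelAux

theorem cc_one : (cc (1 : L) : HP L → PowerSeries L) = 1 := by
  funext P
  show PowerSeries.C (1 : L) = 1
  exact map_one _

theorem cc_zero : (cc (0 : L) : HP L → PowerSeries L) = 0 := by
  funext P
  show PowerSeries.C (0 : L) = 0
  exact map_zero _

theorem cc_add (a b : L) : (cc (a + b) : HP L → PowerSeries L) = cc a + cc b := by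
  funext P
  show PowerSeries.C (a + b) = PowerSeries.C a + PowerSeries.C b
  exact map_add _ _ _

theorem cc_mul (a b : L) : (cc (a * b) : HP L → PowerSeries L) = cc a * cc b := by
  funext P
  show PowerSeries.C (a * b) = PowerSeries.C a * PowerSeries.C b
  exact map_mul _ _ _

theorem smul_cc (c : L) (F : HP L → PowerSeries L) : c • F = cc c * F := by
  funext P
  show c • F P = PowerSeries.C c * F P
  exact PowerSeries.smul_eq_C_mul _ _

theorem xx_one : xx L 1 = PowerSeries.X := by
  show PowerSeries.C (1 : HP L).x + PowerSeries.X = _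
  rw [one_x, map_zero, zero_add]

theorem yy_one (η : PowerSeries L) : yy L η 1 = η := by
  show PowerSeries.C (1 : HP L).y + PowerSeries.C (star (1 : HP L).x) * PowerSeries.X + η = _
  rw [one_x, one_y, star_zero, map_zero, zero_mul, zero_add, zero_add]

/-- the decomposition of a function into its low part and a multiple of `yy` -/
theorem decomp (η : PowerSeries L) {N : ℕ} {F : HP L → PowerSeries L} (hF : F ∈ FN L η Q N) :
    ∃ (k : ℕ → L) (G : HP L → PowerSeries L), (∀ i, N < i * Q → k i = 0) ∧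
      (Q + 1 ≤ N → G ∈ FN L η Q (N - (Q + 1))) ∧ (N < Q + 1 → G = 0) ∧
      F = ∑ i ∈ Finset.range (Q + 1), cc (k i) * xx L ^ i + yy L η * G := by
  unfold FN at hF
  induction hF using Submodule.span_induction with
  | mem F hF =>
    obtain ⟨i, j, hi, hij, rfl⟩ := hF
    cases j with
    | zero =>
      refine ⟨fun n => if n = i then 1 else 0, 0, fun n hn => ?_, fun _ => Submodule.zero_mem _,
        fun _ => rfl, ?_⟩
      · apply if_neg
        rintro rfl
        omega
      · rw [mul_zero, add_zero, pow_zero, mul_one, Finset.sum_eq_single i]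
        · show _ = cc (if i = i then (1 : L) else 0) * xx L ^ i
          rw [if_pos rfl, cc_one, one_mul]
        · intro n _ hn
          show cc (if n = i then (1 : L) else 0) * xx L ^ n = 0
          rw [if_neg hn, cc_zero, zero_mul]
        · intro h
          exact absurd (Finset.mem_range.2 (by omega)) h
    | succ j =>
      have h1 : i * Q + j * (Q + 1) + (Q + 1) ≤ N := by
        have h2 : (j + 1) * (Q + 1) = j * (Q + 1) + (Q + 1) := by ring
        rw [h2] at hij
        omega
      refine ⟨fun _ => 0, xx L ^ i * yy L η ^ j, fun _ _ => rfl, fun _ => ?_, fun h => ?_, ?_⟩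
      · exact Submodule.subset_span ⟨i, j, hi, by omega, rfl⟩
      · omega
      · rw [Finset.sum_eq_zero fun n _ => by rw [cc_zero, zero_mul], zero_add, pow_succ]
        ring
  | zero =>
    refine ⟨fun _ => 0, 0, fun _ _ => rfl, fun _ => Submodule.zero_mem _, fun _ => rfl, ?_⟩
    rw [Finset.sum_eq_zero fun n _ => by rw [cc_zero, zero_mul], mul_zero, add_zero]
  | add F F' _ _ h h' =>
    obtain ⟨k, G, h1, h2, h3, h4⟩ := h
    obtain ⟨k', G', h1', h2', h3', h4'⟩ := h'
    refine ⟨fun n => k n + k' n, G + G', fun n hn => ?_, fun hN => ?_, fun hN => ?_, ?_⟩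
    · show k n + k' n = 0
      rw [h1 n hn, h1' n hn, add_zero]
    · exact Submodule.add_mem _ (h2 hN) (h2' hN)
    · rw [h3 hN, h3' hN, add_zero]
    · rw [h4, h4']
      have h5 : ∑ i ∈ Finset.range (Q + 1), cc (k i + k' i) * xx L ^ i =
          ∑ i ∈ Finset.range (Q + 1), cc (k i) * xx L ^ i +
            ∑ i ∈ Finset.range (Q + 1), cc (k' i) * xx L ^ i := by
        rw [← Finset.sum_add_distrib]
        exact Finset.sum_congr rfl fun n _ => by rw [cc_add, add_mul]
      rw [h5]
      ring
  | smul c F _ h =>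
    obtain ⟨k, G, h1, h2, h3, h4⟩ := h
    refine ⟨fun n => c * k n, c • G, fun n hn => ?_, fun hN => ?_, fun hN => ?_, ?_⟩
    · show c * k n = 0
      rw [h1 n hn, mul_zero]
    · exact Submodule.smul_mem _ _ (h2 hN)
    · rw [h3 hN, smul_zero]
    · rw [h4, smul_cc, smul_cc, mul_add, Finset.mul_sum]
      congr 1
      · exact Finset.sum_congr rfl fun n _ => by rw [cc_mul, mul_assoc]
      · ring

theorem coeff_low {η : PowerSeries L} (hη : EtaOk η Q) (G : PowerSeries L) (n : ℕ) (hn : n ≤ Q) :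
    PowerSeries.coeff n (η * G) = 0 := by
  rw [PowerSeries.coeff_mul]
  refine Finset.sum_eq_zero fun p hp => ?_
  have h1 := Finset.HasAntidiagonal.mem_antidiagonal.1 hp
  rw [hη.low p.1 (by omega), zero_mul]

theorem coeff_one {η : PowerSeries L} (hη : EtaOk η Q) (k : ℕ → L) (G : HP L → PowerSeries L)
    (n : ℕ) (hn : n ≤ Q) :
    PowerSeries.coeff n ((∑ i ∈ Finset.range (Q + 1), cc (k i) * xx L ^ i + yy L η * G) 1) =
      k n := by
  have h1 : (∑ i ∈ Finset.range (Q + 1), cc (k i) * xx L ^ i + yy L η * G) 1 =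
      ∑ i ∈ Finset.range (Q + 1), PowerSeries.C (k i) * PowerSeries.X ^ i + η * G 1 := by
    rw [Pi.add_apply, Pi.mul_apply, Finset.sum_apply, yy_one]
    congr 1
    refine Finset.sum_congr rfl fun i _ => ?_
    rw [Pi.mul_apply, Pi.pow_apply, xx_one]
    rfl
  rw [h1, map_add, coeff_low hη _ n hn, add_zero, map_sum, Finset.sum_eq_single n]
  · rw [PowerSeries.coeff_C_mul, PowerSeries.coeff_X_pow, if_pos rfl, mul_one]
  · intro i _ hi
    rw [PowerSeries.coeff_C_mul, PowerSeries.coeff_X_pow, if_neg (Ne.symm hi), mul_zero]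
  · intro h
    exact absurd (Finset.mem_range.2 (by omega)) h

theorem low_one {η : PowerSeries L} (hη : EtaOk η Q) {N : ℕ} {F : HP L → PowerSeries L}
    (hF : F ∈ FN L η Q N) (n : ℕ) (hn : n ≤ Q) (h : PowerSeries.coeff n (F 1) ≠ 0) :
    n * Q ≤ N := by
  obtain ⟨k, G, h1, _, _, rfl⟩ := decomp η hF
  rw [coeff_one hη k G n hn] at h
  by_contra hN
  exact h (h1 n (by omega))

theorem peel_one {η : PowerSeries L} (hη : EtaOk η Q) {N : ℕ} {F : HP L → PowerSeries L}
    (hF : F ∈ FN L η Q N) (h : ∀ n ≤ Q, PowerSeries.coeff n (F 1) = 0) (h0 : F ≠ 0) :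
    Q + 1 ≤ N ∧ ∃ G ∈ FN L η Q (N - (Q + 1)), F = yy L η * G := by
  obtain ⟨k, G, _, h2, h3, rfl⟩ := decomp η hF
  have h4 : ∀ n ≤ Q, k n = 0 := fun n hn => by
    rw [← coeff_one hη k G n hn]
    exact h n hn
  have h5 : ∑ i ∈ Finset.range (Q + 1), cc (k i) * xx L ^ i = 0 :=
    Finset.sum_eq_zero fun n hn => by
      have h6 := Finset.mem_range.1 hn
      rw [h4 n (by omega), cc_zero, zero_mul]
  rw [h5, zero_add] at h0
  have h6 : Q + 1 ≤ N := by
    by_contra hN
    rw [h3 (by omega), mul_zero] at h0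
    exact h0 rfl
  exact ⟨h6, G, h2 h6, by rw [h5, zero_add]⟩

theorem trn_inv (P : HP L) (F : HP L → PowerSeries L) : trn P⁻¹ (trn P F) = F := by
  funext R
  show F (P * (P⁻¹ * R)) = F R
  rw [mul_inv_cancel_left]

theorem trn_one (P : HP L) (F : HP L → PowerSeries L) : trn P F 1 = F P := by
  show F (P * 1) = F P
  rw [mul_one]

theorem trn_inv_yy (η : PowerSeries L) (P : HP L) : trn P⁻¹ (yy L η) = tg η P := by
  rw [trn_y, inv_x, inv_y, star_neg]
  unfold tg
  have h1 : (cc (-star P.x) : HP L → PowerSeries L) = -cc (star P.x) := by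
    funext R
    show PowerSeries.C (-star P.x) = -PowerSeries.C (star P.x)
    exact map_neg _ _
  rw [h1]
  ring

theorem order_one {φ : PowerSeries L} (h0 : PowerSeries.coeff 0 φ = 0)
    (h1 : PowerSeries.coeff 1 φ ≠ 0) : φ.order = 1 := by
  have h2 : φ.order = ((1 : ℕ) : ℕ∞) := by
    rw [PowerSeries.order_eq_nat]
    refine ⟨h1, fun i hi => ?_⟩
    have h3 : i = 0 := by omega
    rw [h3]
    exact h0
  rw [h2]
  rfl

theorem order_zero {φ : PowerSeries L} (h0 : PowerSeries.coeff 0 φ ≠ 0) : φ.order = 0 := by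
  have h2 : φ.order = ((0 : ℕ) : ℕ∞) := by
    rw [PowerSeries.order_eq_nat]
    exact ⟨h0, fun i hi => absurd hi (by omega)⟩
  rw [h2]
  rfl

theorem ln_apply (η : PowerSeries L) (α γ : L) (P : HP L) :
    ln η α γ P = PowerSeries.C P.y + PowerSeries.C (star P.x) * PowerSeries.X + η -
      PowerSeries.C α * (PowerSeries.C P.x + PowerSeries.X) - PowerSeries.C γ := rfl

theorem tg_apply (η : PowerSeries L) (P P' : HP L) :
    tg η P P' = PowerSeries.C P'.y + PowerSeries.C (star P'.x) * PowerSeries.X + η -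
      PowerSeries.C (star P.x) * (PowerSeries.C P'.x + PowerSeries.X) +
        PowerSeries.C (star P.y) := rfl

theorem vt_apply (a : L) (P : HP L) :
    vt a P = PowerSeries.C P.x + PowerSeries.X - PowerSeries.C a := rfl

end HermPeelAux

open HermPeelAux

theorem tg_at (hQ : HermQ L Q) {η : PowerSeries L} (hη : EtaOk η Q) (P P' : HP L) :
    (tg η P P').order = if P' = P then ((Q + 1 : ℕ) : ℕ∞) else 0 := by
  have hη0 : PowerSeries.coeff 0 η = 0 := hη.low 0 (by omega)
  by_cases h : P' = P
  · rw [if_pos h, h]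
    have h1 : tg η P P = η := by
      rw [tg_apply]
      have h2 : PowerSeries.C P.y + PowerSeries.C (star P.y) =
          PowerSeries.C (star P.x) * PowerSeries.C P.x := by
        rw [← map_add, ← map_mul, P.h, mul_comm]
      linear_combination h2
    rw [h1, PowerSeries.order_eq_nat]
    refine ⟨?_, fun i hi => hη.low i hi⟩
    rw [hη.top]
    exact one_ne_zero
  · rw [if_neg h]
    apply order_zero
    intro h1
    apply h
    apply eq_of_tan P P'
    rw [tg_apply] at h1
    simp only [map_add, map_sub, PowerSeries.coeff_zero_eq_constantCoeff, map_mul,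
      PowerSeries.constantCoeff_C, PowerSeries.constantCoeff_X, mul_zero, add_zero] at h1
    rw [PowerSeries.coeff_zero_eq_constantCoeff] at hη0
    rw [hη0] at h1
    linear_combination h1

theorem ln_at (hQ : HermQ L Q) {η : PowerSeries L} (hη : EtaOk η Q) (α γ : L)
    (h : γ + star γ + α * star α ≠ 0) (P : HP L) :
    (ln η α γ P).order = if P ∈ lbl α γ then 1 else 0 := by
  have hQ2 := hQ.two_le
  have hη0 : PowerSeries.coeff 0 η = 0 := hη.low 0 (by omega)
  have hη1 : PowerSeries.coeff 1 η = 0 := hη.low 1 (by omega)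
  have h0 : PowerSeries.coeff 0 (ln η α γ P) = P.y - α * P.x - γ := by
    rw [PowerSeries.coeff_zero_eq_constantCoeff] at hη0
    rw [ln_apply]
    simp only [map_add, map_sub, PowerSeries.coeff_zero_eq_constantCoeff, map_mul,
      PowerSeries.constantCoeff_C, PowerSeries.constantCoeff_X, mul_zero, add_zero]
    rw [hη0, add_zero]
  by_cases hP : P ∈ lbl α γ
  · rw [if_pos hP]
    rw [mem_lbl] at hP
    apply order_one
    · rw [h0, hP]
      ring
    · have h1 : PowerSeries.coeff 1 (ln η α γ P) = star P.x - α := by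
        rw [ln_apply]
        simp only [map_add, map_sub, PowerSeries.coeff_C_mul, PowerSeries.coeff_C,
          PowerSeries.coeff_X, hη1, one_ne_zero, if_false, if_true, mul_one]
        ring
      rw [h1]
      intro h2
      exact h (tan_of_mem α γ P hP (sub_eq_zero.1 h2).symm)
  · rw [if_neg hP]
    rw [mem_lbl] at hP
    apply order_zero
    rw [h0]
    intro h1
    apply hP
    linear_combination h1

theorem vt_at (a : L) (P : HP L) : (vt a P).order = if P ∈ vbl a then 1 else 0 := by
  have h0 : PowerSeries.coeff 0 (vt a P) = P.x - a := by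
    rw [vt_apply]
    simp
  by_cases hP : P ∈ vbl a
  · rw [if_pos hP]
    rw [mem_vbl] at hP
    apply order_one
    · rw [h0, hP, sub_self]
    · rw [vt_apply]
      simp only [map_add, map_sub, PowerSeries.coeff_C, PowerSeries.coeff_X, one_ne_zero,
        if_false, if_true, zero_add, sub_zero]
      exact one_ne_zero
  · rw [if_neg hP]
    rw [mem_vbl] at hP
    apply order_zero
    rw [h0]
    intro h1
    exact hP (sub_eq_zero.1 h1)

theorem ln_mul (hQ : HermQ L Q) {η : PowerSeries L} (hη : EtaOk η Q) (α γ : L) {N : ℕ}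
    {F : HP L → PowerSeries L} (hF : F ∈ FN L η Q N) :
    ln η α γ * F ∈ FN L η Q (N + (Q + 1)) := by
  have h1 : ln η α γ * F = yy L η * F - cc α * (xx L * F) - cc γ * F := by
    unfold ln
    ring
  rw [h1]
  refine Submodule.sub_mem _ (Submodule.sub_mem _ (muly hQ hη hF) ?_) ?_
  · exact mulc η (fn_mono η (by omega) (mulx hQ hη hF)) α
  · exact mulc η (fn_mono η (by omega) hF) γ

theorem vt_mul (hQ : HermQ L Q) {η : PowerSeries L} (hη : EtaOk η Q) (a : L) {N : ℕ}
    {F : HP L → PowerSeries L} (hF : F ∈ FN L η Q N) : vt a * F ∈ FN L η Q (N + Q) := by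
  have h1 : vt a * F = xx L * F - cc a * F := by
    unfold vt
    ring
  rw [h1]
  exact Submodule.sub_mem _ (mulx hQ hη hF) (mulc η (fn_mono η (by omega) hF) a)

theorem peel (hQ : HermQ L Q) {η : PowerSeries L} (hη : EtaOk η Q) {N : ℕ}
    {F : HP L → PowerSeries L} (hF : F ∈ FN L η Q N) (P : HP L)
    (h : ∀ n ≤ Q, PowerSeries.coeff n (F P) = 0) (h0 : F ≠ 0) :
    Q + 1 ≤ N ∧ ∃ G ∈ FN L η Q (N - (Q + 1)), F = tg η P * G := by
  have h1 : trn P F ≠ 0 := by
    intro h1
    apply h0
    rw [← trn_inv P F, h1]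
    rfl
  obtain ⟨h2, G, hG, h3⟩ := peel_one hη (trn_mem hQ hη hF P) (fun n hn => by
    rw [trn_one]
    exact h n hn) h1
  refine ⟨h2, trn P⁻¹ G, trn_mem hQ hη hG P⁻¹, ?_⟩
  rw [← trn_inv P F, h3, trn_mul, trn_inv_yy]

theorem low (hQ : HermQ L Q) {η : PowerSeries L} (hη : EtaOk η Q) {N : ℕ}
    {F : HP L → PowerSeries L} (hF : F ∈ FN L η Q N) (P : HP L) (n : ℕ) (hn : n ≤ Q)
    (h : PowerSeries.coeff n (F P) ≠ 0) : n * Q ≤ N := by
  refine low_one hη (trn_mem hQ hη hF P) n hn ?_
  rw [trn_one]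
  exact h

end LTL
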