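import Pool.Agent.Lib.LTL.UniBase
import Pool.Agent.Lib.LTL.Eta

/-!
# Module LTL.HermRing: the coordinate ring inside power series (MP_61e83e_lc)

The ring is `HP L → PowerSeries L` (the expansions of a function at all affine points), with the
elements `xx = (P.x + T)_P`, `yy = (P.y + star P.x T + η)_P`.
PROOFS. `rel`: in characteristic `p`, `Q = p ^ f`, `star a = a ^ Q`:
`xx ^ (Q + 1) = (star a + T ^ Q) (a + T)` and `yy ^ Q + yy = b ^ Q + a T ^ Q + η ^ Q + b + star a T + η` with
`(star a) ^ Q = a` (`add_pow_char_pow`, `map_pow`; `b + star b = a star a`, `η ^ Q + η = T ^ (Q + 1)`).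
`FN N` = span of the `xx ^ i * yy ^ j`, `i ≤ Q`, `i Q + j (Q + 1) ≤ N`. `mulx`: by linearity for
`xx ^ i yy ^ j`; for `i < Q` clear; for `i = Q` it is `yy ^ (Q + j) + yy ^ (j + 1)` by `rel`, with
`(Q + j) (Q + 1) = Q Q + j (Q + 1) + Q ≤ N + Q`. `muly`: clear.
`trn g F P = F (g * P)` is a ring homomorphism; `trn_x`: `(g * P).x = g.x + P.x`; `trn_y`:
`(g * P).y + star (g * P).x T + η = g.y + star g.x (P.x + T) + (P.y + star P.x T + η)`. `trn_mem`: by linearity
for `xx ^ i yy ^ j`, whose image is `(g.x + xx) ^ i (g.y + star g.x xx + yy) ^ j`; multiplication by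
`c + xx` maps `FN N` to `FN (N + Q)`, by `c + c' xx + yy` to `FN (N + Q + 1)`; start with `1 ∈ FN 0`.
-/

set_option autoImplicit false
open Classical

namespace LTL

variable {L : Type} [Field L] [StarRing L]

/-- the function `x` -/
noncomputable def xx (L : Type) [Field L] [StarRing L] : HP L → PowerSeries L :=
  fun P => PowerSeries.C P.x + PowerSeries.X

/-- the function `y` -/
noncomputable def yy (L : Type) [Field L] [StarRing L] (η : PowerSeries L) :
    HP L → PowerSeries L :=
  fun P => PowerSeries.C P.y + PowerSeries.C (star P.x) * PowerSeries.X + η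

/-- constants -/
noncomputable def cc (c : L) : HP L → PowerSeries L := fun _ => PowerSeries.C c

/-- functions of pole order at most `N` -/
noncomputable def FN (L : Type) [Field L] [StarRing L] (η : PowerSeries L) (Q N : ℕ) :
    Submodule L (HP L → PowerSeries L) :=
  Submodule.span L {F | ∃ i j : ℕ, i ≤ Q ∧ i * Q + j * (Q + 1) ≤ N ∧
    F = xx L ^ i * yy L η ^ j}

/-- translation -/
def trn (g : HP L) (F : HP L → PowerSeries L) : HP L → PowerSeries L := fun P => F (g * P)

/-- the equation of `η` -/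
structure EtaOk (η : PowerSeries L) (Q : ℕ) : Prop where
  eq : η ^ Q + η = PowerSeries.X ^ (Q + 1)
  low : ∀ n < Q + 1, PowerSeries.coeff n η = 0
  top : PowerSeries.coeff (Q + 1) η = 1

variable [Fintype L] {Q : ℕ}

theorem HermQ.eta (hQ : HermQ L Q) : ∃ η : PowerSeries L, EtaOk η Q := by
  obtain ⟨p, hp⟩ := CharP.exists L
  have hpp : Fact p.Prime := ⟨CharP.char_is_prime L p⟩
  obtain ⟨f, hf, rfl⟩ := hQ.prime_pow p
  obtain ⟨η, h1, h2, h3⟩ := exists_eta L p f hf
  exact ⟨η, h1, h2, h3⟩

theorem fn_mono (η : PowerSeries L) {N M : ℕ} (h : N ≤ M) : FN L η Q N ≤ FN L η Q M := by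
  refine Submodule.span_mono ?_
  rintro F ⟨i, j, h1, h2, h3⟩
  exact ⟨i, j, h1, h2.trans h, h3⟩

theorem fn_one (η : PowerSeries L) (N : ℕ) : (1 : HP L → PowerSeries L) ∈ FN L η Q N := by
  refine Submodule.subset_span ⟨0, 0, Nat.zero_le _, ?_, ?_⟩
  · simp
  · rw [pow_zero, pow_zero, mul_one]

namespace HermRingAux

theorem mem_gen (η : PowerSeries L) {N i j : ℕ} (hi : i ≤ Q) (h : i * Q + j * (Q + 1) ≤ N) :
    xx L ^ i * yy L η ^ j ∈ FN L η Q N :=
  Submodule.subset_span ⟨i, j, hi, h, rfl⟩

theorem add_pow_Q (hQ : HermQ L Q) (a b : PowerSeries L) : (a + b) ^ Q = a ^ Q + b ^ Q := by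
  obtain ⟨p, hp⟩ := CharP.exists L
  have hpp : Fact p.Prime := ⟨CharP.char_is_prime L p⟩
  obtain ⟨f, hf, rfl⟩ := hQ.prime_pow p
  have : CharP (PowerSeries L) p :=
    charP_of_injective_ringHom (f := PowerSeries.C (R := L)) PowerSeries.C_injective p
  exact add_pow_char_pow a b p f

end HermRingAux

open HermRingAux

theorem herm_rel (hQ : HermQ L Q) {η : PowerSeries L} (hη : EtaOk η Q) :
    xx L ^ (Q + 1) = yy L η ^ Q + yy L η := by
  funext P
  have h1 : (xx L ^ (Q + 1)) P = (PowerSeries.C P.x + PowerSeries.X) ^ (Q + 1) := rfl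
  have h2 : (yy L η ^ Q + yy L η) P
      = (PowerSeries.C P.y + PowerSeries.C (star P.x) * PowerSeries.X + η) ^ Q
        + (PowerSeries.C P.y + PowerSeries.C (star P.x) * PowerSeries.X + η) := rfl
  have h3 : (star P.x) ^ Q = P.x := by rw [← hQ.star_eq, star_star]
  have h4 : PowerSeries.C (P.y ^ Q) = PowerSeries.C (P.x * P.x ^ Q) - PowerSeries.C P.y := by
    rw [← map_sub]
    congr 1
    have h5 := P.h
    rw [hQ.star_eq, hQ.star_eq] at h5
    linear_combination h5
  have h6 := hη.eq
  rw [h1, h2, pow_succ, add_pow_Q hQ, add_pow_Q hQ, add_pow_Q hQ, mul_pow, ← map_pow, ← map_pow,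
    ← map_pow, h3, h4, hQ.star_eq]
  rw [map_mul]
  linear_combination -h6

theorem mulx (hQ : HermQ L Q) {η : PowerSeries L} (hη : EtaOk η Q) {N : ℕ}
    {F : HP L → PowerSeries L} (hF : F ∈ FN L η Q N) : xx L * F ∈ FN L η Q (N + Q) := by
  unfold FN at hF
  induction hF using Submodule.span_induction with
  | mem F hF =>
    obtain ⟨i, j, hi, hij, rfl⟩ := hF
    have h1 : xx L * (xx L ^ i * yy L η ^ j) = xx L ^ (i + 1) * yy L η ^ j := by ring
    rw [h1]
    rcases Nat.lt_or_ge i Q with h2 | h2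
    · exact mem_gen η h2 (by nlinarith)
    · obtain rfl : i = Q := le_antisymm hi h2
      have h3 : xx L ^ (i + 1) * yy L η ^ j
          = xx L ^ 0 * yy L η ^ (i + j) + xx L ^ 0 * yy L η ^ (j + 1) := by
        rw [herm_rel hQ hη]
        ring
      have h4 := hQ.two_le
      rw [h3]
      refine Submodule.add_mem _ (mem_gen η (Nat.zero_le _) ?_) (mem_gen η (Nat.zero_le _) ?_)
      · nlinarith
      · nlinarith
  | zero => rw [mul_zero]; exact Submodule.zero_mem _
  | add F G _ _ hF hG => rw [mul_add]; exact Submodule.add_mem _ hF hG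
  | smul c F _ hF => rw [mul_smul_comm]; exact Submodule.smul_mem _ _ hF

theorem muly (hQ : HermQ L Q) {η : PowerSeries L} (hη : EtaOk η Q) {N : ℕ}
    {F : HP L → PowerSeries L} (hF : F ∈ FN L η Q N) :
    yy L η * F ∈ FN L η Q (N + (Q + 1)) := by
  unfold FN at hF
  induction hF using Submodule.span_induction with
  | mem F hF =>
    obtain ⟨i, j, hi, hij, rfl⟩ := hF
    have h1 : yy L η * (xx L ^ i * yy L η ^ j) = xx L ^ i * yy L η ^ (j + 1) := by ring
    rw [h1]
    exact mem_gen η hi (by nlinarith)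
  | zero => rw [mul_zero]; exact Submodule.zero_mem _
  | add F G _ _ hF hG => rw [mul_add]; exact Submodule.add_mem _ hF hG
  | smul c F _ hF => rw [mul_smul_comm]; exact Submodule.smul_mem _ _ hF

theorem mulc (η : PowerSeries L) {N : ℕ} {F : HP L → PowerSeries L} (hF : F ∈ FN L η Q N)
    (c : L) : cc c * F ∈ FN L η Q N := by
  have h1 : cc c * F = c • F := by
    funext P
    have h2 : (cc c * F) P = PowerSeries.C c * F P := rfl
    rw [h2, Pi.smul_apply, PowerSeries.smul_eq_C_mul]
  rw [h1]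
  exact Submodule.smul_mem _ _ hF

theorem trn_x (g : HP L) : trn g (xx L) = cc g.x + xx L := by
  funext P
  have h1 : trn g (xx L) P = PowerSeries.C (g.x + P.x) + PowerSeries.X := rfl
  have h2 : (cc g.x + xx L) P = PowerSeries.C g.x + (PowerSeries.C P.x + PowerSeries.X) := rfl
  rw [h1, h2, map_add]
  ring

theorem trn_y (g : HP L) (η : PowerSeries L) :
    trn g (yy L η) = cc g.y + cc (star g.x) * xx L + yy L η := by
  funext P
  have h1 : trn g (yy L η) P = PowerSeries.C (g.y + P.y + star g.x * P.x)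
      + PowerSeries.C (star (g.x + P.x)) * PowerSeries.X + η := rfl
  have h2 : (cc g.y + cc (star g.x) * xx L + yy L η) P = PowerSeries.C g.y
      + PowerSeries.C (star g.x) * (PowerSeries.C P.x + PowerSeries.X)
      + (PowerSeries.C P.y + PowerSeries.C (star P.x) * PowerSeries.X + η) := rfl
  rw [h1, h2, star_add, map_add, map_add, map_add, map_mul]
  ring

theorem trn_mul (g : HP L) (F G : HP L → PowerSeries L) : trn g (F * G) = trn g F * trn g G := rfl

namespace HermRingAux

theorem trn_pow (g : HP L) (F : HP L → PowerSeries L) (n : ℕ) : trn g (F ^ n) = trn g F ^ n := rfl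

theorem powx (hQ : HermQ L Q) {η : PowerSeries L} (hη : EtaOk η Q) {N : ℕ}
    {F : HP L → PowerSeries L} (hF : F ∈ FN L η Q N) (c : L) (i : ℕ) :
    (cc c + xx L) ^ i * F ∈ FN L η Q (N + i * Q) := by
  induction i with
  | zero => simpa using hF
  | succ i ih =>
    have h1 : (cc c + xx L) ^ (i + 1) * F
        = cc c * ((cc c + xx L) ^ i * F) + xx L * ((cc c + xx L) ^ i * F) := by ring
    have h2 : N + (i + 1) * Q = N + i * Q + Q := by ring
    rw [h1, h2]
    exact Submodule.add_mem _ (fn_mono η (Nat.le_add_right _ _) (mulc η ih c)) (mulx hQ hη ih)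

theorem powy (hQ : HermQ L Q) {η : PowerSeries L} (hη : EtaOk η Q) {N : ℕ}
    {F : HP L → PowerSeries L} (hF : F ∈ FN L η Q N) (c d : L) (j : ℕ) :
    (cc c + cc d * xx L + yy L η) ^ j * F ∈ FN L η Q (N + j * (Q + 1)) := by
  induction j with
  | zero => simpa using hF
  | succ j ih =>
    have h1 : (cc c + cc d * xx L + yy L η) ^ (j + 1) * F
        = cc c * ((cc c + cc d * xx L + yy L η) ^ j * F)
          + cc d * (xx L * ((cc c + cc d * xx L + yy L η) ^ j * F))
          + yy L η * ((cc c + cc d * xx L + yy L η) ^ j * F) := by ring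
    have h2 : N + (j + 1) * (Q + 1) = N + j * (Q + 1) + (Q + 1) := by ring
    rw [h1, h2]
    refine Submodule.add_mem _ (Submodule.add_mem _ ?_ ?_) (muly hQ hη ih)
    · exact fn_mono η (Nat.le_add_right _ _) (mulc η ih c)
    · exact fn_mono η (by omega) (mulc η (mulx hQ hη ih) d)

end HermRingAux

theorem trn_mem (hQ : HermQ L Q) {η : PowerSeries L} (hη : EtaOk η Q) {N : ℕ}
    {F : HP L → PowerSeries L} (hF : F ∈ FN L η Q N) (g : HP L) : trn g F ∈ FN L η Q N := by
  unfold FN at hF
  induction hF using Submodule.span_induction with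
  | mem F hF =>
    obtain ⟨i, j, hi, hij, rfl⟩ := hF
    rw [trn_mul, trn_pow, trn_pow, trn_x, trn_y]
    have h1 := powx hQ hη (powy hQ hη (fn_one (Q := Q) η 0) g.y (star g.x) j) g.x i
    rw [mul_one] at h1
    exact fn_mono η (by omega) h1
  | zero => exact Submodule.zero_mem _
  | add F G _ _ hF hG => exact Submodule.add_mem _ hF hG
  | smul c F _ hF => exact Submodule.smul_mem _ _ hF

end LTL
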