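import Pool.Agent.Lib.LTL.FamA
import Pool.Agent.Lib.LTL.FamB
import Pool.Agent.Lib.LTL.FamC
import Pool.Agent.Lib.P61e83e.Tester

/-!
# Doubly transitive locally testable codes: the last families of doubly transitive groups

A doubly transitive code of relative distance at least `3 ε` which is a `(q, ε, s, 1)`-LTC and whose
automorphism group contains one of the groups in `LTL.LastCovered` (affine groups of type `G₂` in
equal characteristic; Suzuki, Ree and unitary groups in cross characteristic) has dimension at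
most `c (log n + 1) ^ (6 q)`.
-/

set_option autoImplicit false
open Classical

namespace LTL

open P61e83e Pltc

/-- the bound for the families in `LTL.LastCovered` -/
theorem last_bound (F : Type) [Field F] [Fintype F] (q : ℕ) (ε s : ℝ) (hε : 0 < ε) (hs : 0 < s) :
    ∃ c : ℝ, ∀ (n : ℕ) (C : Submodule F (Fin n → F)),
      (∀ i j i' j' : Fin n, i ≠ j → i' ≠ j' → ∃ π : Equiv.Perm (Fin n),
          (∀ w ∈ C, (fun k => w (π k)) ∈ C) ∧ π i = i' ∧ π j = j') →
      LastCovered C →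
      (∀ c ∈ C, c ≠ 0 →
          3 * ε * (n : ℝ) ≤ ((Finset.univ.filter (fun i => c i ≠ 0)).card : ℝ)) →
      (∃ (m : ℕ) (Q : Fin m → List F → Fin n) (w : Fin m → ℝ),
        (∀ k, 0 ≤ w k) ∧ (∑ k, w k) = 1 ∧
        ∀ r : Fin n → F,
          (∀ c ∈ C, ε * (n : ℝ) ≤ ((Finset.univ.filter (fun i => r i ≠ c i)).card : ℝ)) →
          s ≤ ∑ k, (if (∃ L : ℕ → Fin n,
                (∀ t, t < q → L t = Q k ((List.range t).map (fun i => r (L i)))) ∧
                ¬ ∃ c ∈ C, ∀ t, t < q → c (L t) = r (L t))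
              then w k else 0)) →
      (Module.finrank F C : ℝ) ≤ c * (Real.log n + 1) ^ (6 * q) := by
  obtain ⟨c₁, h₁, hc₁⟩ := famA F q
  obtain ⟨N₂, hN₂⟩ := famSuz F q ε hε
  obtain ⟨N₃, hN₃⟩ := famRee F q ε hε
  obtain ⟨N₄, hN₄⟩ := famUni F q ε hε
  have hε' : 0 < 1 / ε := by positivity
  refine ⟨c₁ + 1 / ε + N₂ + N₃ + N₄, fun n C hG hcov hdist htest => ?_⟩
  have hN₂' : (0 : ℝ) ≤ N₂ := Nat.cast_nonneg _
  have hN₃' : (0 : ℝ) ≤ N₃ := Nat.cast_nonneg _
  have hN₄' : (0 : ℝ) ≤ N₄ := Nat.cast_nonneg _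
  have hlog : 0 ≤ Real.log n := Real.log_natCast_nonneg n
  have hpow : (1 : ℝ) ≤ (Real.log n + 1) ^ (6 * q) := one_le_pow₀ (by linarith)
  have hsmall : ∀ x : ℝ, 0 ≤ x → x ≤ c₁ + 1 / ε + N₂ + N₃ + N₄ → (Module.finrank F C : ℝ) ≤ x →
      (Module.finrank F C : ℝ) ≤ (c₁ + 1 / ε + N₂ + N₃ + N₄) * (Real.log n + 1) ^ (6 * q) := by
    intro x hx0 hx h
    calc (Module.finrank F C : ℝ) ≤ x := h
      _ ≤ c₁ + 1 / ε + N₂ + N₃ + N₄ := hx
      _ = (c₁ + 1 / ε + N₂ + N₃ + N₄) * 1 := (mul_one _).symm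
      _ ≤ _ := mul_le_mul_of_nonneg_left hpow (by linarith)
  have hdimn : (Module.finrank F C : ℝ) ≤ n := by
    have := Submodule.finrank_le C
    rw [Module.finrank_fin_fun] at this
    exact_mod_cast this
  by_cases hC0 : C = ⊥
  · refine hsmall 0 le_rfl (by linarith) ?_
    rw [hC0, finrank_bot]
    simp
  by_cases hεn : ε * n < 1
  · refine hsmall (1 / ε) (by linarith) (by linarith) (hdimn.trans ?_)
    have : (n : ℝ) < 1 / ε := by rw [lt_div_iff₀ hε]; linarith
    linarith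
  push Not at hεn
  obtain ⟨u, hu0, huq, hu⟩ := exists_dual C q ε s hs hC0 hεn hdist htest
  have hG' : DoublyTrans C := hG
  have hδ : ∀ f ∈ C, f ≠ 0 → 3 * ε * n ≤ (wt f : ℝ) := hdist
  rcases hcov with h | h | h | h
  · exact (hc₁ n C u hu0 huq hu hG' h).trans
      (mul_le_mul_of_nonneg_right (by linarith) (by positivity))
  · exact hsmall N₂ hN₂' (by linarith) (by exact_mod_cast hN₂ n C u hu0 huq hu hG' hδ h)
  · exact hsmall N₃ hN₃' (by linarith) (by exact_mod_cast hN₃ n C u hu0 huq hu hG' hδ h)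
  · exact hsmall N₄ hN₄' (by linarith) (by exact_mod_cast hN₄ n C u hu0 huq hu hG' hδ h)

end LTL
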