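import Pool.Agent.Lib.LTL.MvH

/-!
# Module LTL.MvClose: invariant spaces of functions and Hasse derivatives (MP_61e83e_lc)

`Q = |K|`. PROOFS. `vander`: if `∑ k < n, τ t ^ k • R k ∈ D` for all `t ∈ K` and `n ≤ Q` then every `R k ∈ D`: if
some `R k ∉ D` take a linear form `ψ` which vanishes on `D` and not at `R k`
(`Submodule.exists_le_ker_of_notMem`); the polynomial `∑ k < n, ψ (R k) X ^ k` has degree `< n ≤ Q` and
the `Q` zeros `τ t`: it is `0` (`Polynomial.eq_zero_of_natDegree_lt_card_of_eval_eq_zero'`), so
`ψ (R k) = 0`.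
`hd_mem`: `z ↦ evf τ f (update z i (z i + t))` is in `D` (translation by `Pi.single i t`), it equals
`∑ k < Q, τ t ^ k • evf τ (hd i k f)` by `taylor`; use `vander`.
`prod_mem`: iterate `hd_mem` over the variables `w ≠ i` (induction on a finset `s ⊆ univ \ {i}`): the
polynomial `g` is `f` with `hd w (μ w)` applied for all `w ∈ s`. Track: `evf τ g ∈ D`, `degreeOf` bounded by
the one of `f`; all monomials of `g` have degree `≤ |μ| - ∑ w ∈ s, μ w` (`hd_degree`); the coefficient of
`μ` with the entries at `s` set to `0` is the coefficient of `μ` in `f` (`coeff_hd`, the binomial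
coefficients are `choose (μ w) (μ w) = 1`). For `s = univ \ {i}` the remaining exponent is
`single i (μ i)` and the degree bound `μ i`.
-/

set_option autoImplicit false
open Classical

namespace LTL

variable {ι K E : Type} [Fintype ι] [Field K] [Fintype K] [Field E]

theorem vander (τ : K →+* E) {V : Type} [AddCommGroup V] [Module E V] (D : Submodule E V) (n : ℕ)
    (hn : n ≤ Fintype.card K) (R : ℕ → V)
    (h : ∀ t : K, ∑ k ∈ Finset.range n, τ t ^ k • R k ∈ D) (k : ℕ) (hk : k < n) : R k ∈ D := by
  by_contra hkD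
  obtain ⟨ψ, hψ, hD⟩ := Submodule.exists_le_ker_of_notMem hkD
  let p : Polynomial E := ∑ j : Fin n, Polynomial.C (ψ (R j)) * Polynomial.X ^ (j : ℕ)
  have hdeg : p.degree < n := Polynomial.degree_sum_fin_lt _
  have hp0 : p = 0 := by
    by_contra hp
    apply hp
    refine Polynomial.eq_zero_of_natDegree_lt_card_of_eval_eq_zero p (f := fun t : K => τ t)
      τ.injective (fun t => ?_) ?_
    · have h1 : ψ (∑ k ∈ Finset.range n, τ t ^ k • R k) = 0 := hD (h t)
      rw [map_sum, Finset.sum_range] at h1
      rw [← h1, Polynomial.eval_finset_sum]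
      refine Finset.sum_congr rfl fun j _ => ?_
      rw [Polynomial.eval_mul, Polynomial.eval_C, Polynomial.eval_pow, Polynomial.eval_X,
        map_smul, smul_eq_mul, mul_comm]
    · exact lt_of_lt_of_le ((Polynomial.natDegree_lt_iff_degree_lt hp).mpr hdeg) hn
  have h2 : p.coeff k = ψ (R k) := by
    rw [Polynomial.finset_sum_coeff, Finset.sum_eq_single (⟨k, hk⟩ : Fin n)]
    · rw [Polynomial.coeff_C_mul_X_pow, if_pos rfl]
    · intro j _ hj
      rw [Polynomial.coeff_C_mul_X_pow, if_neg]
      intro h
      exact hj (Fin.ext h.symm)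
    · intro h
      exact absurd (Finset.mem_univ _) h
  apply hψ
  rw [← h2, hp0, Polynomial.coeff_zero]

theorem hd_mem (τ : K →+* E) (D : Submodule E ((ι → K) → E))
    (htr : ∀ φ ∈ D, ∀ b : ι → K, (fun z => φ (z + b)) ∈ D) (f : MvPolynomial ι E)
    (hf : ∀ i, f.degreeOf i < Fintype.card K) (hD : evf τ f ∈ D) (i : ι) (k : ℕ) :
    evf τ (hd i k f) ∈ D := by
  by_cases hk : k < Fintype.card K
  · refine vander τ D (Fintype.card K) le_rfl (fun k => evf τ (hd i k f)) (fun t => ?_) k hk
    have h1 := htr _ hD (Pi.single i t)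
    have h2 : (fun z => evf τ f (z + Pi.single i t)) =
        ∑ k ∈ Finset.range (Fintype.card K), τ t ^ k • evf τ (hd i k f) := by
      funext z
      rw [Finset.sum_apply]
      have h3 : z + Pi.single i t = Function.update z i (z i + t) := by
        symm
        rw [Function.update_eq_iff]
        constructor
        · rw [Pi.add_apply, Pi.single_eq_same]
        · intro j hj
          rw [Pi.add_apply, Pi.single_eq_of_ne hj, add_zero]
      rw [h3, taylor τ f i t (Fintype.card K) (hf i) z]
      rfl
    rw [← h2]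
    exact h1
  · have h0 : hd i k f = 0 := by
      ext μ
      rw [coeff_hd, MvPolynomial.coeff_zero]
      have : f.coeff (μ + Finsupp.single i k) = 0 := by
        by_contra hne
        have h1 := MvPolynomial.monomial_le_degreeOf i (MvPolynomial.mem_support_iff.mpr hne)
        rw [Finsupp.add_apply, Finsupp.single_eq_same] at h1
        have := hf i
        omega
      rw [this, mul_zero]
    rw [h0]
    have h1 : evf τ (0 : MvPolynomial ι E) = (0 : (ι → K) → E) := by
      funext z
      exact map_zero _
    rw [h1]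
    exact D.zero_mem

theorem prod_mem (τ : K →+* E) (D : Submodule E ((ι → K) → E))
    (htr : ∀ φ ∈ D, ∀ b : ι → K, (fun z => φ (z + b)) ∈ D) (f : MvPolynomial ι E)
    (hf : ∀ i, f.degreeOf i < Fintype.card K) (hD : evf τ f ∈ D) (μ : ι →₀ ℕ)
    (hμ : ∀ ν, f.coeff ν ≠ 0 → ν.degree ≤ μ.degree) (i : ι) :
    ∃ g : MvPolynomial ι E, evf τ g ∈ D ∧ (∀ j, g.degreeOf j < Fintype.card K) ∧
      g.coeff (Finsupp.single i (μ i)) = f.coeff μ ∧
      ∀ ν, g.coeff ν ≠ 0 → ν.degree ≤ μ i := by
  have key : ∀ s : Finset ι, ∃ g : MvPolynomial ι E, evf τ g ∈ D ∧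
      (∀ j, g.degreeOf j < Fintype.card K) ∧
      g.coeff (Finsupp.filter (fun w => w ∉ s) μ) = f.coeff μ ∧
      ∀ ν, g.coeff ν ≠ 0 → ν.degree + ∑ w ∈ s, μ w ≤ μ.degree := by
    intro s
    induction s using Finset.induction_on with
    | empty =>
      refine ⟨f, hD, hf, ?_, ?_⟩
      · congr 1
        ext w
        rw [Finsupp.filter_apply, if_pos (Finset.notMem_empty w)]
      · intro ν hν
        rw [Finset.sum_empty, add_zero]
        exact hμ ν hν
    | insert w s hw ih =>
      obtain ⟨g, h1, h2, h3, h4⟩ := ih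
      refine ⟨hd w (μ w) g, hd_mem τ D htr g h2 h1 w (μ w),
        fun j => lt_of_le_of_lt (degreeOf_hd w j (μ w) g) (h2 j), ?_, ?_⟩
      · rw [coeff_hd, Finsupp.filter_apply, if_neg (by simp), zero_add, Nat.choose_self,
          Nat.cast_one, one_mul, ← h3]
        congr 1
        ext v
        rw [Finsupp.add_apply, Finsupp.filter_apply, Finsupp.filter_apply]
        by_cases hv : v = w
        · subst hv
          rw [if_neg (by simp), if_pos hw, Finsupp.single_eq_same, zero_add]
        · rw [Finsupp.single_eq_of_ne hv, add_zero]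
          by_cases hvs : v ∈ s
          · rw [if_neg (by simp [hvs]), if_neg (by simp [hvs])]
          · rw [if_pos (by simp [hvs, hv]), if_pos hvs]
      · intro ν hν
        have hS : ∑ v ∈ s, μ v ≤ μ.degree := by
          rw [Finsupp.degree_eq_sum]
          exact Finset.sum_le_sum_of_subset (Finset.subset_univ s)
        have h5 := hd_degree w (μ w) (μ.degree - ∑ v ∈ s, μ v) g
          (fun ν hν => by have := h4 ν hν; omega) ν hν
        have hS' : ∑ v ∈ insert w s, μ v ≤ μ.degree := by
          rw [Finsupp.degree_eq_sum]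
          exact Finset.sum_le_sum_of_subset (Finset.subset_univ _)
        rw [Finset.sum_insert hw] at hS' ⊢
        omega
  obtain ⟨g, h1, h2, h3, h4⟩ := key (Finset.univ.erase i)
  refine ⟨g, h1, h2, ?_, ?_⟩
  · rw [← h3]
    congr 1
    ext v
    rw [Finsupp.filter_apply]
    by_cases hv : v = i
    · subst hv
      rw [Finsupp.single_eq_same, if_pos (by simp)]
    · rw [Finsupp.single_eq_of_ne hv, if_neg (by simp [hv])]
  · intro ν hν
    have h5 := h4 ν hν
    rw [Finsupp.degree_eq_sum μ, ← Finset.add_sum_erase Finset.univ μ (Finset.mem_univ i)] at h5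
    omega

end LTL
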