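import Mathlib

/-!
# Module LTL.MvH: Hasse derivatives in one variable of a polynomial in several variables
(MP_61e83e_lc)

`hd i k` is the `k`-th Hasse derivative with respect to the variable `i`:
`monomial ν a ↦ monomial (ν - k e_i) (choose (ν i) k * a)` (`0` if `ν i < k`, because then
`choose (ν i) k = 0`); `hd_monomial`: `Module.Basis.constr_basis` and linearity. `evf τ f` is the function `z ↦ f (τ (z i))_i` on `ι → K`.

PROOFS. `coeff_hd`: on monomials: the coefficient of `μ` in `monomial (ν - k e_i) (..)`: for `k ≤ ν i`,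
`ν - k e_i = μ` iff `ν = μ + k e_i`; `choose (μ i + k) k`.
`degreeOf_hd`, `totalDegree`-bounds, `support`: from `coeff_hd`.
`hd_mul_X`: `hd i k (X j * f) = X j * hd i k f` for `j ≠ i`: on coefficients or on monomials
(`ν + e_j` has the same `i`-component).
`hd_hd`: `hd i k (hd i l f) = choose (k + l) k • hd i (k + l) f`: on coefficients
`choose (μ i + k) k * choose (μ i + k + l) l = choose (k + l) k * choose (μ i + k + l) (k + l)`.
`taylor`: `f` with `z i` replaced by `z i + s`: for a monomial,
`(x_i + s) ^ (ν i) = ∑ k, choose (ν i) k * s ^ k * x_i ^ (ν i - k)` (binomial theorem; the other factors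
do not change); `k` runs over `range n`, `ν i < n` for all `ν` in the support (`degreeOf i f < n`);
extend linearly over the support of `f` (`MvPolynomial.as_sum`, `eval_monomial`).
`exists_rep`: Lagrange interpolation in each variable: `∑ z, φ z • ∏ i, L_(z i) (X i)` where
`L_a = ∏ b ≠ a, (X - τ b) / (τ a - τ b)` has degree `|K| - 1` (`Lagrange.basis`), or multiply by
`MvPolynomial.indicator`-like products. `evf_inj`: Mathlib
`MvPolynomial.eq_zero_of_eval_zero_at_prod_finset` with the finsets `τ(K)`.
-/

set_option autoImplicit false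
open Classical

namespace LTL

variable {ι K E : Type} [Field K] [Fintype K] [Field E]

/-- Hasse derivative in the variable `i` -/
noncomputable def hd (i : ι) (k : ℕ) : MvPolynomial ι E →ₗ[E] MvPolynomial ι E :=
  (MvPolynomial.basisMonomials ι E).constr E fun ν =>
    MvPolynomial.monomial (ν - Finsupp.single i k) (((ν i).choose k : ℕ) : E)

/-- the function of a polynomial -/
noncomputable def evf (τ : K →+* E) (f : MvPolynomial ι E) (z : ι → K) : E :=
  MvPolynomial.eval (fun i => τ (z i)) f

theorem hd_monomial (i : ι) (k : ℕ) (ν : ι →₀ ℕ) (a : E) :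
    hd i k (MvPolynomial.monomial ν a) =
      MvPolynomial.monomial (ν - Finsupp.single i k) ((((ν i).choose k : ℕ) : E) * a) := by
  have h1 : (MvPolynomial.monomial ν a : MvPolynomial ι E) =
      a • MvPolynomial.basisMonomials ι E ν := by
    rw [MvPolynomial.coe_basisMonomials]
    change _ = a • MvPolynomial.monomial ν (1 : E)
    rw [MvPolynomial.smul_monomial, smul_eq_mul, mul_one]
  rw [h1, map_smul, hd, Module.Basis.constr_basis, MvPolynomial.smul_monomial, smul_eq_mul,
    mul_comm]

theorem coeff_hd (i : ι) (k : ℕ) (f : MvPolynomial ι E) (μ : ι →₀ ℕ) :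
    (hd i k f).coeff μ = (((μ i + k).choose k : ℕ) : E) * f.coeff (μ + Finsupp.single i k) := by
  induction f using MvPolynomial.induction_on' with
  | monomial ν a =>
    rw [hd_monomial, MvPolynomial.coeff_monomial, MvPolynomial.coeff_monomial]
    by_cases h : ν = μ + Finsupp.single i k
    · subst h
      have e1 : μ + Finsupp.single i k - Finsupp.single i k = μ := add_tsub_cancel_right _ _
      have e2 : (μ + Finsupp.single i k) i = μ i + k := by simp
      rw [e1, if_pos rfl, if_pos rfl, e2]
    · rw [if_neg h, mul_zero]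
      by_cases h2 : ν - Finsupp.single i k = μ
      · rw [if_pos h2]
        by_cases hk : k ≤ ν i
        · exfalso
          apply h
          rw [← h2]
          ext j
          by_cases hj : j = i
          · subst hj
            simp
            omega
          · simp [Finsupp.single_apply, Ne.symm hj]
        · rw [Nat.choose_eq_zero_of_lt (by omega)]
          simp
      · rw [if_neg h2]
  | add p q hp hq =>
    rw [map_add, MvPolynomial.coeff_add, hp, hq, MvPolynomial.coeff_add, mul_add]

theorem degreeOf_hd (i j : ι) (k : ℕ) (f : MvPolynomial ι E) :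
    (hd i k f).degreeOf j ≤ f.degreeOf j := by
  rw [MvPolynomial.degreeOf_le_iff]
  intro μ hμ
  rw [MvPolynomial.mem_support_iff, coeff_hd] at hμ
  have h1 : f.coeff (μ + Finsupp.single i k) ≠ 0 := right_ne_zero_of_mul hμ
  have h2 := MvPolynomial.degreeOf_le_iff.1 (le_refl (f.degreeOf j)) (μ + Finsupp.single i k)
    (MvPolynomial.mem_support_iff.2 h1)
  rw [Finsupp.add_apply] at h2
  omega

theorem hd_mul_X (i j : ι) (hij : j ≠ i) (k : ℕ) (f : MvPolynomial ι E) :
    hd i k (MvPolynomial.X j * f) = MvPolynomial.X j * hd i k f := by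
  induction f using MvPolynomial.induction_on' with
  | monomial ν a =>
    have hX : (MvPolynomial.X j : MvPolynomial ι E) =
      MvPolynomial.monomial (Finsupp.single j 1) 1 := rfl
    rw [hX, MvPolynomial.monomial_mul, hd_monomial, hd_monomial, MvPolynomial.monomial_mul]
    have e1 : ((Finsupp.single j 1 + ν : ι →₀ ℕ)) i = ν i := by
      rw [Finsupp.add_apply, Finsupp.single_apply, if_neg hij, zero_add]
    have e2 : Finsupp.single j 1 + ν - Finsupp.single i k =
        Finsupp.single j 1 + (ν - Finsupp.single i k) := by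
      ext l
      by_cases hl : l = i
      · subst hl
        simp [Finsupp.single_apply, hij]
      · simp [Finsupp.single_apply, Ne.symm hl]
    rw [e1, e2, one_mul, one_mul]
  | add p q hp hq =>
    rw [mul_add, map_add, hp, hq, map_add, mul_add]

theorem hd_hd (i : ι) (k l : ℕ) (f : MvPolynomial ι E) :
    hd i k (hd i l f) = (((k + l).choose k : ℕ) : E) • hd i (k + l) f := by
  ext μ
  rw [coeff_hd, coeff_hd, MvPolynomial.coeff_smul, coeff_hd]
  have e1 : (μ + Finsupp.single i k) i = μ i + k := by simp
  have e2 : μ + Finsupp.single i k + Finsupp.single i l = μ + Finsupp.single i (k + l) := by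
    rw [add_assoc, ← Finsupp.single_add]
  have e3 : (μ i + k).choose k * (μ i + k + l).choose l =
      (k + l).choose k * (μ i + (k + l)).choose (k + l) := by
    have h1 := Nat.choose_mul (n := μ i + (k + l)) (k := k + l) (s := l) (by omega)
    have h2 : μ i + (k + l) - l = μ i + k := by omega
    have h3 : k + l - l = k := by omega
    rw [h2, h3] at h1
    have h4 : (k + l).choose k = (k + l).choose l := Nat.choose_symm_add
    rw [h4, mul_comm, add_assoc, ← h1, mul_comm]
  rw [e1, e2, ← mul_assoc, ← Nat.cast_mul, e3, smul_eq_mul, Nat.cast_mul, mul_assoc]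

theorem hd_comm (i j : ι) (k l : ℕ) (f : MvPolynomial ι E) :
    hd i k (hd j l f) = hd j l (hd i k f) := by
  by_cases hij : i = j
  · subst hij
    rw [hd_hd, hd_hd, add_comm l k]
    have h4 : (k + l).choose k = (k + l).choose l := Nat.choose_symm_add
    rw [h4]
  · ext μ
    rw [coeff_hd, coeff_hd, coeff_hd, coeff_hd]
    have e1 : (μ + Finsupp.single i k) j = μ j := by
      rw [Finsupp.add_apply, Finsupp.single_apply, if_neg hij, add_zero]
    have e2 : (μ + Finsupp.single j l) i = μ i := by
      rw [Finsupp.add_apply, Finsupp.single_apply, if_neg (Ne.symm hij), add_zero]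
    rw [e1, e2, add_right_comm μ (Finsupp.single i k)]
    ring

/-- monomials of `hd i k f` have degree at most `n - k` if those of `f` have degree at most `n` -/
theorem hd_degree (i : ι) (k n : ℕ) (f : MvPolynomial ι E)
    (hf : ∀ ν, f.coeff ν ≠ 0 → ν.degree ≤ n) (ν : ι →₀ ℕ) (hν : (hd i k f).coeff ν ≠ 0) :
    ν.degree + k ≤ n := by
  rw [coeff_hd] at hν
  have h1 : f.coeff (ν + Finsupp.single i k) ≠ 0 := right_ne_zero_of_mul hν
  have h2 := hf _ h1
  rwa [map_add, Finsupp.degree_single] at h2

namespace MvHAux

theorem evf_mono (τ : K →+* E) (i : ι) (μ : ι →₀ ℕ) (a : E) (w : ι → K) :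
    evf τ (MvPolynomial.monomial μ a) w =
      a * (τ (w i) ^ (μ i) * (μ.erase i).prod fun j e => τ (w j) ^ e) := by
  rw [evf, MvPolynomial.eval_monomial,
    ← Finsupp.mul_prod_erase' μ i (fun j e => τ (w j) ^ e) (fun _ => pow_zero _)]

theorem key (τ : K →+* E) (i : ι) (s : K) (n : ℕ) (ν : ι →₀ ℕ) (a : E) (hn : ν i < n)
    (z : ι → K) :
    evf τ (MvPolynomial.monomial ν a) (Function.update z i (z i + s)) =
      ∑ k ∈ Finset.range n, τ s ^ k * evf τ (hd i k (MvPolynomial.monomial ν a)) z := by
  have e1 : ((ν.erase i).prod fun j e => τ (Function.update z i (z i + s) j) ^ e) =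
      (ν.erase i).prod fun j e => τ (z j) ^ e := by
    refine Finsupp.prod_congr (fun j hj => ?_)
    have hji : j ≠ i := by
      rintro rfl
      rw [Finsupp.support_erase] at hj
      exact Finset.notMem_erase _ _ hj
    rw [Function.update_of_ne hji]
  have e2 : ∀ k, (ν - Finsupp.single i k).erase i = ν.erase i := by
    intro k
    ext j
    by_cases hj : j = i
    · subst hj
      rw [Finsupp.erase_same, Finsupp.erase_same]
    · rw [Finsupp.erase_ne hj, Finsupp.erase_ne hj, Finsupp.tsub_apply, Finsupp.single_apply,
        if_neg (Ne.symm hj), tsub_zero]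
  have e3 : ∀ k, (ν - Finsupp.single i k) i = ν i - k := by
    intro k
    rw [Finsupp.tsub_apply, Finsupp.single_eq_same]
  rw [evf_mono τ i, e1, Function.update_self, map_add, add_comm (τ (z i)), add_pow]
  have e4 : ∑ k ∈ Finset.range n, τ s ^ k * evf τ (hd i k (MvPolynomial.monomial ν a)) z =
      ∑ k ∈ Finset.range (ν i + 1),
        τ s ^ k * evf τ (hd i k (MvPolynomial.monomial ν a)) z := by
    symm
    apply Finset.sum_subset
    · intro k hk
      rw [Finset.mem_range] at hk ⊢
      omega
    · intro k _ hk
      rw [Finset.mem_range] at hk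
      rw [hd_monomial, Nat.choose_eq_zero_of_lt (by omega)]
      simp [evf]
  rw [e4, Finset.sum_mul, Finset.mul_sum]
  refine Finset.sum_congr rfl (fun k _ => ?_)
  rw [hd_monomial, evf_mono τ i, e2, e3]
  ring

theorem eval_map' (τ : K →+* E) (w : ι → K) (p : MvPolynomial ι K) :
    MvPolynomial.eval (fun i => τ (w i)) (MvPolynomial.map τ p) =
      τ (MvPolynomial.eval w p) := by
  rw [MvPolynomial.eval_map]
  have h := MvPolynomial.eval₂_comp_left τ (RingHom.id K) w p
  rw [RingHom.comp_id] at h
  exact h.symm

end MvHAux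

/-- Taylor's formula in the variable `i` -/
theorem taylor (τ : K →+* E) (f : MvPolynomial ι E) (i : ι) (s : K) (n : ℕ)
    (hn : f.degreeOf i < n) (z : ι → K) :
    evf τ f (Function.update z i (z i + s)) =
      ∑ k ∈ Finset.range n, τ s ^ k * evf τ (hd i k f) z := by
  have hn0 : 0 < n := by omega
  calc evf τ f (Function.update z i (z i + s)) = ∑ v ∈ f.support,
        evf τ (MvPolynomial.monomial v (f.coeff v)) (Function.update z i (z i + s)) := by
        conv_lhs => rw [f.as_sum]
        rw [evf, map_sum]
        rfl
    _ = ∑ v ∈ f.support, ∑ k ∈ Finset.range n,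
        τ s ^ k * evf τ (hd i k (MvPolynomial.monomial v (f.coeff v))) z := by
        refine Finset.sum_congr rfl (fun v hv => ?_)
        exact MvHAux.key τ i s n v (f.coeff v) ((MvPolynomial.degreeOf_lt_iff hn0).1 hn v hv) z
    _ = ∑ k ∈ Finset.range n, τ s ^ k * evf τ (hd i k f) z := by
        rw [Finset.sum_comm]
        refine Finset.sum_congr rfl (fun k _ => ?_)
        rw [← Finset.mul_sum]
        congr 1
        conv_rhs => rw [f.as_sum, map_sum]
        rw [evf, map_sum]
        rfl

theorem exists_rep [Fintype ι] (τ : K →+* E) (φ : (ι → K) → E) :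
    ∃ f : MvPolynomial ι E, (∀ i, f.degreeOf i < Fintype.card K) ∧ evf τ f = φ := by
  refine ⟨∑ z, φ z • MvPolynomial.map τ (MvPolynomial.indicator z), ?_, ?_⟩
  · have h1 : (∑ z, φ z • MvPolynomial.map τ (MvPolynomial.indicator z)) ∈
        MvPolynomial.restrictDegree ι E (Fintype.card K - 1) := by
      refine Submodule.sum_mem _ (fun z _ => Submodule.smul_mem _ _ ?_)
      rw [MvPolynomial.mem_restrictDegree]
      intro s hs i
      have h2 := MvPolynomial.indicator_mem_restrictDegree z
      rw [MvPolynomial.mem_restrictDegree] at h2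
      exact h2 s (MvPolynomial.support_map_subset τ _ hs) i
    rw [MvPolynomial.mem_restrictDegree] at h1
    intro i
    have hK : 0 < Fintype.card K := Fintype.card_pos
    rw [MvPolynomial.degreeOf_lt_iff hK]
    intro m hm
    have := h1 m hm i
    omega
  · funext w
    rw [evf, map_sum, Finset.sum_eq_single w]
    · rw [MvPolynomial.smul_eval, MvHAux.eval_map', MvPolynomial.eval_indicator_apply_eq_one,
        map_one, mul_one]
    · intro z _ hz
      rw [MvPolynomial.smul_eval, MvHAux.eval_map',
        MvPolynomial.eval_indicator_apply_eq_zero w z (Ne.symm hz), map_zero, mul_zero]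
    · intro h
      exact absurd (Finset.mem_univ w) h

theorem evf_inj [Fintype ι] (τ : K →+* E) (f : MvPolynomial ι E)
    (hf : ∀ i, f.degreeOf i < Fintype.card K) (h : evf τ f = 0) : f = 0 := by
  apply MvPolynomial.eq_zero_of_eval_zero_at_prod_finset f (fun _ => Finset.univ.image τ)
  · intro i
    rw [Finset.card_image_of_injective _ τ.injective, Finset.card_univ]
    exact hf i
  · intro x hx
    have h1 : ∀ i, ∃ w : K, τ w = x i := by
      intro i
      obtain ⟨w, _, hw⟩ := Finset.mem_image.1 (hx i)
      exact ⟨w, hw⟩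
    choose w hw using h1
    have h2 : x = fun i => τ (w i) := funext (fun i => (hw i).symm)
    rw [h2]
    exact congrFun h w

end LTL
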