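import Pool.Agent.Lib.LTL.CEig

/-!
# Module LTL.ReeEq: the functional equation for the Ree groups (MP_61e83e_lc)

Notation `x^σ = σ x`, `Λ t = ω ^ (tr t).val` (additive character of `K`, `tr_add`), `char K = 3`.
`c : Option (K × K × K) → E` satisfies `c (some (x, y, z + t)) = Λ t * c (some (x, y, z))`; so
`c (some (x, y, z)) = Λ z * c (some (x, y, 0))`.
`gh c tr ω x m = ∑ y, Λ (- m y) * c (some (x, y, 0))` is the Fourier transform in `y`.

PROOF of `ree_eq`. For `x, y ∈ K` and `κ ≠ 0` the word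
`z ↦ c ((z.map (reeTor σ κ)).map (reeMul σ (x, y, 0)))` is in `D`; its value at `some (a, b, c')` is
`c (some (x + κ a, y + κ κ^σ b + x κ^σ a^σ, κ² κ^σ c' + x κ κ^σ b - y κ a - x κ κ^σ a a^σ))`
`= Λ (κ² κ^σ c' + x κ κ^σ b - y κ a - x κ κ^σ a a^σ) g (x + κ a, y + κ κ^σ b + x κ^σ a^σ)` with
`g (x, y) = c (some (x, y, 0))`. Orthogonality to `u` (`u none = 0`), multiplied by `Λ (- m y)` and
summed over `y`; in the term of `(a, b, c')` substitute `y ↦ y - κ κ^σ b - x κ^σ a^σ`: it becomes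
`u(a,b,c') Λ (ex) ∑ y, Λ (-(m + κ a) y) g (x + κ a, y)` with
`ex = κ² κ^σ c' + x κ κ^σ b - x κ κ^σ a a^σ + (m + κ a) (κ κ^σ b + x κ^σ a^σ)
    = κ² κ^σ (c' + a b) + κ κ^σ b (x + m) + κ^σ a^σ m x`.
Now put `x = s - X`, `m = 2 s - X`: `x + m = 3 s - 2 X = X` and `m x = 2 s² - 3 s X + X² = X² - s²` in
characteristic 3, `x + κ a = s - (X - κ a)`, `m + κ a = 2 s - (X - κ a)`. This is the statement, with
`G X = gh (s - X) (2 s - X)`.

PROOF of `gh_inv`: if `gh x m = 0` for all `m` then `c (some (x, y, 0)) = 0` for all `y`: `Λ (- m ·)`,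
`m ∈ K`, sum to `0` at nonzero arguments: `∑ m, Λ (m t) = 0` for `t ≠ 0` (`m ↦ Λ (m t)` is a nontrivial
character, `tr ≠ 0`; `AddChar.sum_eq_zero_of_ne_one` or translate the sum) and is `|K| ≠ 0` for `t = 0`:
`∑ m, Λ (m y) gh x m = |K| c (some (x, y, 0))` (`gh_sum`).
-/

set_option autoImplicit false
open Classical

namespace LTL

open P61e83e Pltc

/-- Fourier transform in the second coordinate -/
noncomputable def gh {E K : Type} [Field E] [Field K] [Fintype K] (ω : E) (tr : K →+ ZMod 3)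
    (c : Option (K × K × K) → E) (x m : K) : E :=
  ∑ y, ω ^ (tr (-(m * y))).val * c (some (x, y, 0))

namespace ReeEqAux

theorem sum_lam {E K : Type} [Field E] [Field K] [Fintype K] {ω : E} (hω : IsPrimitiveRoot ω 3)
    (tr : K →+ ZMod 3) (htr : tr ≠ 0) (t : K) (ht : t ≠ 0) :
    ∑ m : K, ω ^ (tr (m * t)).val = 0 := by
  obtain ⟨k, hk⟩ : ∃ k, tr k ≠ 0 := by
    by_contra hcon
    push Not at hcon
    exact htr (AddMonoidHom.ext hcon)
  have h1 : ω ^ (tr k).val ≠ 1 := fun h => hk ((tr_eq_one 3 hω (tr k)).mp h)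
  have h2 : ∑ m : K, ω ^ (tr (m * t)).val = ω ^ (tr k).val * ∑ m : K, ω ^ (tr (m * t)).val := by
    rw [Finset.mul_sum, ← Equiv.sum_comp (Equiv.addRight (k / t))]
    refine Finset.sum_congr rfl fun m _ => ?_
    have e : (Equiv.addRight (k / t)) m * t = k + m * t := by
      rw [Equiv.coe_addRight, add_mul, div_mul_cancel₀ _ ht, add_comm]
    rw [e, tr_add 3 hω tr]
  have h3 : (ω ^ (tr k).val - 1) * ∑ m : K, ω ^ (tr (m * t)).val = 0 := by
    rw [sub_mul, one_mul, ← h2, sub_self]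
  exact (mul_eq_zero.mp h3).resolve_left (sub_ne_zero.mpr h1)

theorem sum_h {E K : Type} [Field E] [Field K] [Fintype K] [CharP K 3] (σ : K ≃+* K) {ω : E}
    (hω : IsPrimitiveRoot ω 3) (tr : K →+ ZMod 3) (c : Option (K × K × K) → E)
    (hlam : ∀ x y z t, c (some (x, y, z + t)) = ω ^ (tr t).val * c (some (x, y, z)))
    (s X κ : K) (h : K × K × K) :
    ∑ y, ω ^ (tr (-((2 * s - X) * y))).val *
      c (some (reeMul σ (s - X, y, 0) (reeTor σ κ h))) =
    ω ^ (tr (κ * κ * σ κ * (h.2.2 + h.1 * h.2.1) + κ * σ κ * h.2.1 * X +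
        σ κ * σ h.1 * (X ^ 2 - s ^ 2))).val *
      gh ω tr c (s - (X - κ * h.1)) (2 * s - (X - κ * h.1)) := by
  obtain ⟨a, b, c'⟩ := h
  have h3 : (3 : K) = 0 := by exact_mod_cast CharP.cast_eq_zero K 3
  unfold gh
  symm
  rw [Finset.mul_sum,
    ← Equiv.sum_comp (Equiv.addRight (κ * σ κ * b + (s - X) * (σ κ * σ a)))]
  refine Finset.sum_congr rfl fun y _ => ?_
  symm
  set y' : K := (Equiv.addRight (κ * σ κ * b + (s - X) * (σ κ * σ a))) y with hy'
  have hy : y' = y + (κ * σ κ * b + (s - X) * (σ κ * σ a)) := by rw [hy', Equiv.coe_addRight]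
  have e1 : reeMul σ (s - X, y, 0) (reeTor σ κ (a, b, c')) =
      (s - (X - κ * a), y', 0 + (κ * κ * σ κ * c' + (s - X) * (κ * σ κ * b) - y * (κ * a) -
        (s - X) * (κ * a * (σ κ * σ a)))) := by
    unfold reeMul reeTor
    simp only [map_mul]
    rw [hy]
    refine Prod.ext ?_ (Prod.ext ?_ ?_)
    · show s - X + κ * a = s - (X - κ * a)
      ring
    · show y + κ * σ κ * b + (s - X) * (σ κ * σ a) = y + (κ * σ κ * b + (s - X) * (σ κ * σ a))
      ring
    · show 0 + κ * κ * σ κ * c' + (s - X) * (κ * σ κ * b) - y * (κ * a) -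
        (s - X) * (κ * a * (σ κ * σ a)) = _
      ring
  have hA : ∀ (α β : K) (C : E), ω ^ (tr α).val * (ω ^ (tr β).val * C) =
      ω ^ (tr (α + β)).val * C := fun α β C => by rw [tr_add 3 hω tr, mul_assoc]
  rw [e1, hlam, hA, hA]
  congr 4
  rw [hy]
  show -((2 * s - X) * y) + (κ * κ * σ κ * c' + (s - X) * (κ * σ κ * b) - y * (κ * a) -
      (s - X) * (κ * a * (σ κ * σ a))) =
    κ * κ * σ κ * (c' + a * b) + κ * σ κ * b * X + σ κ * σ a * (X ^ 2 - s ^ 2) +
      -((2 * s - (X - κ * a)) * (y + (κ * σ κ * b + (s - X) * (σ κ * σ a))))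
  linear_combination (κ * σ κ * b * (s - X) + σ κ * σ a * (s * (s - X))) * h3

end ReeEqAux

theorem gh_sum {E K : Type} [Field E] [Field K] [Fintype K] {ω : E} (hω : IsPrimitiveRoot ω 3)
    (tr : K →+ ZMod 3) (htr : tr ≠ 0) (c : Option (K × K × K) → E) (x y : K) :
    ∑ m, ω ^ (tr (m * y)).val * gh ω tr c x m = Fintype.card K * c (some (x, y, 0)) := by
  have h1 : ∀ m, ω ^ (tr (m * y)).val * gh ω tr c x m =
      ∑ y', c (some (x, y', 0)) * ω ^ (tr (m * (y - y'))).val := by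
    intro m
    unfold gh
    rw [Finset.mul_sum]
    refine Finset.sum_congr rfl fun y' _ => ?_
    have e : m * (y - y') = m * y + -(m * y') := by ring
    rw [e, tr_add 3 hω tr]
    ring
  rw [Finset.sum_congr rfl fun m _ => h1 m, Finset.sum_comm]
  rw [Finset.sum_congr rfl fun y' _ => (Finset.mul_sum _ _ _).symm, Finset.sum_eq_single y]
  · rw [sub_self]
    simp only [mul_zero, map_zero, ZMod.val_zero, pow_zero, Finset.sum_const, nsmul_eq_mul, mul_one,
      Finset.card_univ]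
    rw [mul_comm]
  · intro y' _ hy'
    rw [ReeEqAux.sum_lam hω tr htr (y - y') (sub_ne_zero.mpr (Ne.symm hy')), mul_zero]
  · intro h
    exact absurd (Finset.mem_univ _) h

theorem ree_eq {E K : Type} [Field E] [Field K] [Fintype K] [CharP K 3] (σ : K ≃+* K) {ω : E}
    (hω : IsPrimitiveRoot ω 3) (tr : K →+ ZMod 3) (D : Submodule E (Option (K × K × K) → E))
    (hmul : ∀ g, ∀ f ∈ D, (fun z : Option (K × K × K) => f (z.map (reeMul σ g))) ∈ D)
    (htor : ∀ κ, κ ≠ 0 → ∀ f ∈ D, (fun z : Option (K × K × K) => f (z.map (reeTor σ κ))) ∈ D)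
    (c : Option (K × K × K) → E) (hc : c ∈ D)
    (hlam : ∀ x y z t, c (some (x, y, z + t)) = ω ^ (tr t).val * c (some (x, y, z)))
    (u : Option (K × K × K) → E) (hu : Dual D u) (hu0 : u none = 0) (s X κ : K) (hκ : κ ≠ 0) :
    ∑ h : K × K × K, u (some h) *
      ω ^ (tr (κ * κ * σ κ * (h.2.2 + h.1 * h.2.1) + κ * σ κ * h.2.1 * X +
        σ κ * σ h.1 * (X ^ 2 - s ^ 2))).val *
      gh ω tr c (s - (X - κ * h.1)) (2 * s - (X - κ * h.1)) = 0 := by
  have key : ∀ y, ∑ h : K × K × K, u (some h) *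
      c (some (reeMul σ (s - X, y, 0) (reeTor σ κ h))) = 0 := by
    intro y
    have h1 := hu _ (htor κ hκ _ (hmul (s - X, y, 0) c hc))
    rw [Fintype.sum_option, hu0, zero_mul, zero_add] at h1
    exact h1
  have h2 : ∀ h : K × K × K, u (some h) *
      ω ^ (tr (κ * κ * σ κ * (h.2.2 + h.1 * h.2.1) + κ * σ κ * h.2.1 * X +
        σ κ * σ h.1 * (X ^ 2 - s ^ 2))).val *
      gh ω tr c (s - (X - κ * h.1)) (2 * s - (X - κ * h.1)) =
      ∑ y, ω ^ (tr (-((2 * s - X) * y))).val *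
        (u (some h) * c (some (reeMul σ (s - X, y, 0) (reeTor σ κ h)))) := by
    intro h
    rw [mul_assoc, ← ReeEqAux.sum_h σ hω tr c hlam s X κ h, Finset.mul_sum]
    refine Finset.sum_congr rfl fun y _ => ?_
    ring
  rw [Finset.sum_congr rfl fun h _ => h2 h, Finset.sum_comm]
  refine Finset.sum_eq_zero fun y _ => ?_
  rw [← Finset.mul_sum, key y, mul_zero]

end LTL
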