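import Pool.Agent.Lib.LTL.ReeEq

/-!
# Module LTL.ReeSupp: the degenerate case for the Ree groups (MP_61e83e_lc)

Notation as in `LTL.ReeEq`: `Λ t = ω ^ (tr t).val`, `char K = 3`, `c (some (x, y, z)) = Λ z * c (some (x, y, 0))`.
PROOF. Suppose `gh (s - X) (2 s - X) = 0` for all `s` and all `X ≠ 0`. Then `gh x m = 0` unless
`m = 2 x` (put `s = m - x`, `X = s - x = m - 2 x`). By `gh_sum`
`|K| c (some (x, y, 0)) = Λ (2 x y) gh x (2 x) = Λ (- x y) gh x (2 x)`, so
`c (some (x, y, z)) = Λ (z - x y) k x` with `k x = |K|⁻¹ gh x (2 x)`. As `c ≠ 0`, `c none = 0`, some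
`k x₁ ≠ 0`. For `b ∈ K` the word `z ↦ c (z.map (reeMul σ (0, b, 0)))` is in `D`; its value at
`some (x, y, z)` is `c (some (x, b + y, z - b x)) = Λ (z - b x - x (b + y)) k x = Λ (z - x y + b x) k x`
(`- 2 = 1`) and it is `0` at `none`. So `W = ∑ b, Λ (- b x₁) • (this word)` is in `D`, with the value
`Λ (z - x y) k x ∑ b, Λ (b (x - x₁))` at `some (x, y, z)`: it is `|K| Λ (z - x₁ y) k x₁ ≠ 0` for
`x = x₁` and `0` for `x ≠ x₁`. So `W ≠ 0` and `wt W ≤ |K| ^ 2` (injection of the support into `K × K`).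
-/

set_option autoImplicit false
open Classical

namespace LTL

open P61e83e Pltc

namespace ReeSuppAux

theorem lam_zero {E K : Type} [Field E] [Field K] (ω : E) (tr : K →+ ZMod 3) :
    ω ^ (tr 0).val = 1 := by
  rw [map_zero, ZMod.val_zero, pow_zero]

/-- the sum of a nontrivial additive character is zero -/
theorem lam_sum {E K : Type} [Field E] [Field K] [Fintype K] {ω : E} (hω : IsPrimitiveRoot ω 3)
    (tr : K →+ ZMod 3) (htr : tr ≠ 0) (t : K) (ht : t ≠ 0) :
    ∑ b, ω ^ (tr (b * t)).val = 0 := by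
  obtain ⟨a, ha⟩ : ∃ a, tr a ≠ 0 := by
    by_contra hcon
    exact htr (AddMonoidHom.ext fun a => by
      by_contra h
      exact hcon ⟨a, h⟩)
  have h1 : ω ^ (tr a).val ≠ 1 := fun h => ha ((tr_eq_one 3 hω (tr a)).1 h)
  have h2 : ∑ b, ω ^ (tr (b * t)).val = ω ^ (tr a).val * ∑ b, ω ^ (tr (b * t)).val := by
    rw [Finset.mul_sum]
    refine (Fintype.sum_equiv (Equiv.addRight (a / t)) _ _ fun b => ?_).symm
    rw [Equiv.coe_addRight, add_mul, div_mul_cancel₀ a ht, tr_add 3 hω tr, mul_comm]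
  have h3 : (1 - ω ^ (tr a).val) * ∑ b, ω ^ (tr (b * t)).val = 0 := by
    rw [sub_mul, one_mul, ← h2, sub_self]
  exact (mul_eq_zero.1 h3).resolve_left (sub_ne_zero.2 (Ne.symm h1))

/-- the form of the word `c` -/
theorem form {E K : Type} [Field E] [Field K] [Fintype K] [CharP K 3] {ω : E}
    (hω : IsPrimitiveRoot ω 3) (tr : K →+ ZMod 3) (htr : tr ≠ 0) (hK : (Fintype.card K : E) ≠ 0)
    (c : Option (K × K × K) → E)
    (hlam : ∀ x y z t, c (some (x, y, z + t)) = ω ^ (tr t).val * c (some (x, y, z)))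
    (h : ∀ s X : K, X ≠ 0 → gh ω tr c (s - X) (2 * s - X) = 0) (x y z : K) :
    c (some (x, y, z)) =
      ω ^ (tr (z - x * y)).val * ((Fintype.card K : E)⁻¹ * gh ω tr c x (2 * x)) := by
  have h3 : (3 : K) = 0 := by
    have := CharP.cast_eq_zero K 3
    exact_mod_cast this
  have h1 : ∀ m, m ≠ 2 * x → gh ω tr c x m = 0 := fun m hm => by
    have := h (m - x) (m - 2 * x) (sub_ne_zero.2 hm)
    have e1 : m - x - (m - 2 * x) = x := by ring
    have e2 : 2 * (m - x) - (m - 2 * x) = m := by ring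
    rwa [e1, e2] at this
  have h2 := gh_sum hω tr htr c x y
  rw [Finset.sum_eq_single (2 * x) (fun m _ hm => by rw [h1 m hm, mul_zero])
    (fun hm => absurd (Finset.mem_univ _) hm)] at h2
  have h4 : 2 * x * y = -(x * y) := by linear_combination (x * y) * h3
  rw [h4] at h2
  have h5 : c (some (x, y, 0)) =
      (Fintype.card K : E)⁻¹ * (ω ^ (tr (-(x * y))).val * gh ω tr c x (2 * x)) := by
    rw [h2, ← mul_assoc, inv_mul_cancel₀ hK, one_mul]
  have h6 := hlam x y 0 z
  rw [zero_add] at h6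
  rw [h6, h5, sub_eq_add_neg, tr_add 3 hω tr]
  ring

end ReeSuppAux

open ReeSuppAux in
theorem ree_supp {E K : Type} [Field E] [Field K] [Fintype K] [CharP K 3] (σ : K ≃+* K) {ω : E}
    (hω : IsPrimitiveRoot ω 3) (tr : K →+ ZMod 3) (htr : tr ≠ 0) (hK : (Fintype.card K : E) ≠ 0)
    (D : Submodule E (Option (K × K × K) → E))
    (hmul : ∀ g, ∀ f ∈ D, (fun z : Option (K × K × K) => f (z.map (reeMul σ g))) ∈ D)
    (c : Option (K × K × K) → E) (hc : c ∈ D) (hc0 : c ≠ 0) (hcn : c none = 0)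
    (hlam : ∀ x y z t, c (some (x, y, z + t)) = ω ^ (tr t).val * c (some (x, y, z)))
    (h : ∀ s X : K, X ≠ 0 → gh ω tr c (s - X) (2 * s - X) = 0) :
    ∃ W ∈ D, W ≠ 0 ∧ wt W ≤ Fintype.card K ^ 2 := by
  have h3 : (3 : K) = 0 := by
    have := CharP.cast_eq_zero K 3
    exact_mod_cast this
  obtain ⟨k, hk⟩ : ∃ k : K → E, ∀ x y z, c (some (x, y, z)) = ω ^ (tr (z - x * y)).val * k x :=
    ⟨_, form hω tr htr hK c hlam h⟩
  obtain ⟨x₁, hx₁⟩ : ∃ x₁, k x₁ ≠ 0 := by
    by_contra hcon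
    refine hc0 (funext fun z => ?_)
    rcases z with _ | ⟨x, y, z⟩
    · exact hcn
    · have : k x = 0 := by
        by_contra hne
        exact hcon ⟨x, hne⟩
      rw [hk, this, mul_zero, Pi.zero_apply]
  have hval : ∀ x y z, ∑ b, ω ^ (tr (-(b * x₁))).val *
      c ((some (x, y, z)).map (reeMul σ (0, b, 0))) =
      ω ^ (tr (z - x * y)).val * k x * ∑ b, ω ^ (tr (b * (x - x₁))).val := fun x y z => by
    rw [Finset.mul_sum]
    refine Finset.sum_congr rfl fun b _ => ?_
    have e1 : (some (x, y, z)).map (reeMul σ (0, b, 0)) = some (x, b + y, z - b * x) := by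
      simp only [Option.map_some, reeMul, zero_add, zero_mul, add_zero, sub_zero]
    have e2 : z - b * x - x * (b + y) = (z - x * y) + b * x := by
      linear_combination (-(b * x)) * h3
    have e3 : b * (x - x₁) = -(b * x₁) + b * x := by ring
    rw [e1, hk, e2, e3, tr_add 3 hω tr, tr_add 3 hω tr]
    ring
  have h0 : ∀ x y z, x ≠ x₁ → ∑ b, ω ^ (tr (-(b * x₁))).val *
      c ((some (x, y, z)).map (reeMul σ (0, b, 0))) = 0 := fun x y z hx => by
    rw [hval, lam_sum hω tr htr _ (sub_ne_zero.2 hx), mul_zero]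
  have h1 : ∑ b, ω ^ (tr (-(b * x₁))).val *
      c ((some (x₁, 0, 0)).map (reeMul σ (0, b, 0))) ≠ 0 := by
    rw [hval, sub_self, mul_zero, sub_zero, lam_zero, one_mul]
    have : ∑ b : K, ω ^ (tr (b * 0)).val = (Fintype.card K : E) := by
      simp only [mul_zero, lam_zero, Finset.sum_const, Finset.card_univ, nsmul_eq_mul, mul_one]
    rw [this]
    exact mul_ne_zero hx₁ hK
  refine ⟨fun z => ∑ b, ω ^ (tr (-(b * x₁))).val * c (z.map (reeMul σ (0, b, 0))), ?_, ?_, ?_⟩
  · have e : (fun z : Option (K × K × K) =>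
        ∑ b, ω ^ (tr (-(b * x₁))).val * c (z.map (reeMul σ (0, b, 0)))) =
        ∑ b, ω ^ (tr (-(b * x₁))).val • fun z : Option (K × K × K) =>
          c (z.map (reeMul σ (0, b, 0))) := by
      funext z
      rw [Finset.sum_apply]
      rfl
    rw [e]
    exact D.sum_mem fun b _ => D.smul_mem _ (hmul _ c hc)
  · intro hW
    exact h1 (congrFun hW (some (x₁, 0, 0)))
  · have hsub : (Finset.univ.filter fun z : Option (K × K × K) =>
        (∑ b, ω ^ (tr (-(b * x₁))).val * c (z.map (reeMul σ (0, b, 0)))) ≠ 0) ⊆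
        (Finset.univ : Finset (K × K)).image fun w => some (x₁, w.1, w.2) := fun z hz => by
      rw [Finset.mem_filter] at hz
      rw [Finset.mem_image]
      rcases z with _ | ⟨x, y, z⟩
      · exact absurd (Finset.sum_eq_zero fun b _ => by rw [Option.map_none, hcn, mul_zero]) hz.2
      · by_cases hx : x = x₁
        · exact ⟨(y, z), Finset.mem_univ _, by rw [hx]⟩
        · exact absurd (h0 x y z hx) hz.2
    calc wt _ ≤ ((Finset.univ : Finset (K × K)).image fun w => some (x₁, w.1, w.2)).card :=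
          Finset.card_le_card (by convert hsub)
      _ ≤ (Finset.univ : Finset (K × K)).card := Finset.card_image_le
      _ = Fintype.card K ^ 2 := by rw [Finset.card_univ, Fintype.card_prod, sq]

end LTL
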