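import Pool.Agent.Lib.LTL.Equi

/-!
# Module LTL.ReeSys0: the auxiliary system for the Ree groups, on generators (MP_61e83e_lc)

PROOF. `TI m = {(h, i, j) : h : Fin m, i j : Fin (m + 1), i < j}`. Variables: `w i` (`i : Fin (m + 1)`) and
`κ t` (`t ∈ TI m`): `ι = Fin (m + 1) ⊕ TI m`. Equations (index type `I`, a sum type) and values; `l : J`,
`r s t ∈ TI m`:
(1) `tr (cs l * σ (κ r) * κ s * κ t) = 0`: `c3 (κ r) (κ s) (κ t) = cs l`;
(2) `tr (cs l * σ (κ s) * κ t) = 0`: `c2 (κ s) (κ t) = cs l`;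
(3) `tr (cs l * σ (w i) * κ s * κ t) = 0`: `c3 (w i) (κ s) (κ t) = cs l`;
(4) `tr (cs l * w i * σ (κ s) * κ t) = 0`: `c3 (κ s) (w i) (κ t) = cs l`;
(5) `tr (w i) = 1`; (6) `tr (κ t) = 0`;
(7) for `t = (h, i, j)`: `tr (tar σ (a h) (b h) (γ h) X₀ (w i) (w j) (κ t)) = 1`:
`c3 (w i) (w i) (κ t) = 2 γ h + a h b h`, `c3 (w j) (w j) (κ t)` = minus that,
`c2 (w i) (κ t) = X₀ (b h + 2 a h σ (a h))`, `c2 (w j) (κ t)` = minus that,
`c3 (κ t) (w i) (w i) = γ h`, `c3 (κ t) (w j) (w j) = - γ h`, `c2 (κ t) (w i) = X₀ b h`,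
`c2 (κ t) (w j) = - X₀ b h`.
Hypothesis `H` of `LTL.equi` for a combination with coefficients `n`; let `t = (h, i, j)`. The symmetrised
coefficient of the combination at `(w i; w i, κ t)` (the value `c3 (w i) (w i) (κ t) + c3 (w i) (κ t) (w i)`)
is `n₇(t) (2 γ h + a h b h)`; at `(κ t; w i, w i)` it is `2 n₇(t) γ h`; `c2 (w i) (κ t)` is
`n₇(t) X₀ (b h + 2 a h σ (a h))` and `c2 (κ t) (w i)` is `n₇(t) X₀ b h`: the equations (1)-(6) have no
coefficients at these places ((1), (3), (4) have at most one variable `w`; (2) has none) and the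
other `t'` have another `κ t'`. If `n₇(t) ≠ 0` in `K` then `γ h = 0`, `b h = 0` (`X₀ ≠ 0`), `a h σ (a h) = 0`,
so `a h = b h = γ h = 0`: excluded. So `n₇(t) = 0` in `ZMod 3`. The coefficient `c1 (w i)` is `n₅(i)`, so
it is `0`. The other values are `0`. So `∑ n v = 0`. `|I|` is bounded in terms of `q` and `N`
(`|TI m| ≤ q (q + 1) ^ 2`): this gives `Q₀` (monotone in `|I|`).
Hint: build the forms from the elementary forms with one coefficient (`Pi.single` / `if`), prove one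
lemma for the value of each elementary form.
-/

set_option autoImplicit false
open Classical

namespace LTL

/-- the difference of two phases -/
def tar {K : Type} [Field K] (σ : K ≃+* K) (a b γ X₀ wi wj k : K) : K :=
  k * ((wi * σ wi - wj * σ wj) * (2 * γ + a * b) + σ (wi - wj) * X₀ * (b + 2 * (a * σ a))) +
    σ k * ((wi ^ 2 - wj ^ 2) * γ + (wi - wj) * b * X₀)

/-- the index set of the auxiliary variables -/
abbrev TI (m : ℕ) : Type := {t : Fin m × Fin (m + 1) × Fin (m + 1) // t.2.1 < t.2.2}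

namespace ReeSys0Aux

variable {K ι : Type} [Field K]

/-- the form with one cubic coefficient -/
noncomputable def m3 (x y z : ι) (c : K) : CForm K ι :=
  ⟨fun i j k => if i = x ∧ j = y ∧ k = z then c else 0, fun _ _ => 0, fun _ => 0⟩

/-- the form with one quadratic coefficient -/
noncomputable def m2 (x y : ι) (c : K) : CForm K ι :=
  ⟨fun _ _ _ => 0, fun i j => if i = x ∧ j = y then c else 0, fun _ => 0⟩

/-- the form with one linear coefficient -/
noncomputable def m1 (x : ι) (c : K) : CForm K ι :=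
  ⟨fun _ _ _ => 0, fun _ _ => 0, fun i => if i = x then c else 0⟩

/-- the sum of two forms -/
noncomputable def ad (P Q : CForm K ι) : CForm K ι :=
  ⟨fun i j k => P.c3 i j k + Q.c3 i j k, fun i j => P.c2 i j + Q.c2 i j, fun i => P.c1 i + Q.c1 i⟩

theorem val_m3 [Fintype ι] (σ : K ≃+* K) (x y z : ι) (c : K) (u : ι → K) :
    (m3 x y z c).val σ u = c * σ (u x) * u y * u z := by
  unfold CForm.val m3
  simp only [zero_mul, Finset.sum_const_zero, add_zero]
  rw [Finset.sum_eq_single x, Finset.sum_eq_single y, Finset.sum_eq_single z]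
  · simp
  · intro k _ hk
    simp [hk]
  · intro h
    exact absurd (Finset.mem_univ _) h
  · intro j _ hj
    simp [hj]
  · intro h
    exact absurd (Finset.mem_univ _) h
  · intro i _ hi
    simp [hi]
  · intro h
    exact absurd (Finset.mem_univ _) h

theorem val_m2 [Fintype ι] (σ : K ≃+* K) (x y : ι) (c : K) (u : ι → K) :
    (m2 x y c).val σ u = c * σ (u x) * u y := by
  unfold CForm.val m2
  simp only [zero_mul, Finset.sum_const_zero, add_zero, zero_add]
  rw [Finset.sum_eq_single x, Finset.sum_eq_single y]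
  · simp
  · intro k _ hk
    simp [hk]
  · intro h
    exact absurd (Finset.mem_univ _) h
  · intro j _ hj
    simp [hj]
  · intro h
    exact absurd (Finset.mem_univ _) h

theorem val_m1 [Fintype ι] (σ : K ≃+* K) (x : ι) (c : K) (u : ι → K) :
    (m1 x c).val σ u = c * u x := by
  unfold CForm.val m1
  simp only [zero_mul, Finset.sum_const_zero, zero_add]
  rw [Finset.sum_eq_single x]
  · simp
  · intro k _ hk
    simp [hk]
  · intro h
    exact absurd (Finset.mem_univ _) h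

theorem val_ad [Fintype ι] (σ : K ≃+* K) (P Q : CForm K ι) (u : ι → K) :
    (ad P Q).val σ u = P.val σ u + Q.val σ u := by
  unfold CForm.val ad
  simp only [add_mul, Finset.sum_add_distrib]
  ring

/-- the index set of the equations -/
abbrev IX (J : Type) (m : ℕ) : Type :=
  (J × TI m × TI m × TI m) ⊕ (J × TI m × TI m) ⊕ (J × Fin (m + 1) × TI m × TI m) ⊕
    (J × Fin (m + 1) × TI m × TI m) ⊕ Fin (m + 1) ⊕ TI m ⊕ TI m

/-- the form of the equation (7) -/
noncomputable def P7 (σ : K ≃+* K) {m : ℕ} (a b γ : Fin m → K) (X₀ : K) (t : TI m) :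
    CForm K (Fin (m + 1) ⊕ TI m) :=
  ad (m3 (.inl t.1.2.1) (.inl t.1.2.1) (.inr t) (2 * γ t.1.1 + a t.1.1 * b t.1.1))
    (ad (m3 (.inl t.1.2.2) (.inl t.1.2.2) (.inr t) (-(2 * γ t.1.1 + a t.1.1 * b t.1.1)))
      (ad (m2 (.inl t.1.2.1) (.inr t) (X₀ * (b t.1.1 + 2 * (a t.1.1 * σ (a t.1.1)))))
        (ad (m2 (.inl t.1.2.2) (.inr t) (-(X₀ * (b t.1.1 + 2 * (a t.1.1 * σ (a t.1.1))))))
          (ad (m3 (.inr t) (.inl t.1.2.1) (.inl t.1.2.1) (γ t.1.1))
            (ad (m3 (.inr t) (.inl t.1.2.2) (.inl t.1.2.2) (-(γ t.1.1)))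
              (ad (m2 (.inr t) (.inl t.1.2.1) (X₀ * b t.1.1))
                (m2 (.inr t) (.inl t.1.2.2) (-(X₀ * b t.1.1)))))))))

/-- the forms of the equations -/
noncomputable def PF (σ : K ≃+* K) {J : Type} (cs : J → K) {m : ℕ} (a b γ : Fin m → K) (X₀ : K) :
    IX J m → CForm K (Fin (m + 1) ⊕ TI m)
  | .inl (l, r, s, t) => m3 (.inr r) (.inr s) (.inr t) (cs l)
  | .inr (.inl (l, s, t)) => m2 (.inr s) (.inr t) (cs l)
  | .inr (.inr (.inl (l, i, s, t))) => m3 (.inl i) (.inr s) (.inr t) (cs l)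
  | .inr (.inr (.inr (.inl (l, i, s, t)))) => m3 (.inr s) (.inl i) (.inr t) (cs l)
  | .inr (.inr (.inr (.inr (.inl i)))) => m1 (.inl i) 1
  | .inr (.inr (.inr (.inr (.inr (.inl t))))) => m1 (.inr t) 1
  | .inr (.inr (.inr (.inr (.inr (.inr t))))) => P7 σ a b γ X₀ t

/-- the values of the equations -/
def VF {J : Type} {m : ℕ} : IX J m → ZMod 3
  | .inl _ => 0
  | .inr (.inl _) => 0
  | .inr (.inr (.inl _)) => 0
  | .inr (.inr (.inr (.inl _))) => 0
  | .inr (.inr (.inr (.inr (.inl _)))) => 1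
  | .inr (.inr (.inr (.inr (.inr (.inl _))))) => 0
  | .inr (.inr (.inr (.inr (.inr (.inr _))))) => 1

/-- the index of the equation (7) -/
abbrev i7 {J : Type} {m : ℕ} (t : TI m) : IX J m := .inr (.inr (.inr (.inr (.inr (.inr t)))))

/-- the index of the equation (5) -/
abbrev i5 {J : Type} {m : ℕ} (i : Fin (m + 1)) : IX J m := .inr (.inr (.inr (.inr (.inl i))))

section coeffs

variable (σ : K ≃+* K) {J : Type} (cs : J → K) {m : ℕ} (a b γ : Fin m → K) (X₀ : K)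

theorem off_A (t : TI m) (e : IX J m) (he : e ≠ i7 t) :
    (PF σ cs a b γ X₀ e).c3 (.inl t.1.2.1) (.inl t.1.2.1) (.inr t) +
      (PF σ cs a b γ X₀ e).c3 (.inl t.1.2.1) (.inr t) (.inl t.1.2.1) = 0 := by
  rcases e with e | e | e | e | e | e | e
  all_goals first
    | (simp [PF, m3, m2, m1]; done)
    | (have hne : t ≠ e := fun h => he (by rw [h])
       simp [PF, P7, ad, m3, m2, hne])

theorem on_A (t : TI m) :
    (PF σ cs a b γ X₀ (i7 t)).c3 (.inl t.1.2.1) (.inl t.1.2.1) (.inr t) +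
      (PF σ cs a b γ X₀ (i7 t)).c3 (.inl t.1.2.1) (.inr t) (.inl t.1.2.1) =
      2 * γ t.1.1 + a t.1.1 * b t.1.1 := by
  have hne : t.1.2.1 ≠ t.1.2.2 := ne_of_lt t.2
  simp [PF, P7, ad, m3, m2, hne]

theorem off_B (t : TI m) (e : IX J m) (he : e ≠ i7 t) :
    (PF σ cs a b γ X₀ e).c3 (.inr t) (.inl t.1.2.1) (.inl t.1.2.1) +
      (PF σ cs a b γ X₀ e).c3 (.inr t) (.inl t.1.2.1) (.inl t.1.2.1) = 0 := by
  rcases e with e | e | e | e | e | e | e
  all_goals first
    | (simp [PF, m3, m2, m1]; done)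
    | (have hne : t ≠ e := fun h => he (by rw [h])
       simp [PF, P7, ad, m3, m2, hne])

theorem on_B (t : TI m) :
    (PF σ cs a b γ X₀ (i7 t)).c3 (.inr t) (.inl t.1.2.1) (.inl t.1.2.1) +
      (PF σ cs a b γ X₀ (i7 t)).c3 (.inr t) (.inl t.1.2.1) (.inl t.1.2.1) = γ t.1.1 + γ t.1.1 := by
  have hne : t.1.2.1 ≠ t.1.2.2 := ne_of_lt t.2
  simp [PF, P7, ad, m3, m2, hne]

theorem off_C (t : TI m) (e : IX J m) (he : e ≠ i7 t) :
    (PF σ cs a b γ X₀ e).c2 (.inl t.1.2.1) (.inr t) = 0 := by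
  rcases e with e | e | e | e | e | e | e
  all_goals first
    | (simp [PF, m3, m2, m1]; done)
    | (have hne : t ≠ e := fun h => he (by rw [h])
       simp [PF, P7, ad, m3, m2, hne])

theorem on_C (t : TI m) :
    (PF σ cs a b γ X₀ (i7 t)).c2 (.inl t.1.2.1) (.inr t) =
      X₀ * (b t.1.1 + 2 * (a t.1.1 * σ (a t.1.1))) := by
  have hne : t.1.2.1 ≠ t.1.2.2 := ne_of_lt t.2
  simp [PF, P7, ad, m3, m2, hne]

theorem off_D (t : TI m) (e : IX J m) (he : e ≠ i7 t) :
    (PF σ cs a b γ X₀ e).c2 (.inr t) (.inl t.1.2.1) = 0 := by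
  rcases e with e | e | e | e | e | e | e
  all_goals first
    | (simp [PF, m3, m2, m1]; done)
    | (have hne : t ≠ e := fun h => he (by rw [h])
       simp [PF, P7, ad, m3, m2, hne])

theorem on_D (t : TI m) :
    (PF σ cs a b γ X₀ (i7 t)).c2 (.inr t) (.inl t.1.2.1) = X₀ * b t.1.1 := by
  have hne : t.1.2.1 ≠ t.1.2.2 := ne_of_lt t.2
  simp [PF, P7, ad, m3, m2, hne]

theorem off_E (i : Fin (m + 1)) (e : IX J m) (he : e ≠ i5 i) :
    (PF σ cs a b γ X₀ e).c1 (.inl i) = 0 := by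
  rcases e with e | e | e | e | e | e | e
  all_goals first
    | (simp [PF, P7, ad, m3, m2, m1]; done)
    | (have hne : i ≠ e := fun h => he (by rw [h])
       simp [PF, m1, hne])

theorem on_E (i : Fin (m + 1)) :
    (PF σ cs a b γ X₀ (i5 i : IX J m)).c1 (.inl i) = 1 := by
  simp [PF, m1]

theorem hyp [CharP K 3] [Fintype J] (hab : ∀ h, ¬ (a h = 0 ∧ b h = 0 ∧ γ h = 0)) (hX : X₀ ≠ 0)
    (n : IX J m → ℕ)
    (H3 : ∀ i j k, ∑ e, (n e : K) *
      ((PF σ cs a b γ X₀ e).c3 i j k + (PF σ cs a b γ X₀ e).c3 i k j) = 0)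
    (H2 : ∀ i j, ∑ e, (n e : K) * (PF σ cs a b γ X₀ e).c2 i j = 0)
    (H1 : ∀ i, ∑ e, (n e : K) * (PF σ cs a b γ X₀ e).c1 i = 0) :
    ∑ e, (n e : ZMod 3) * VF e = 0 := by
  have h20 : (2 : K) ≠ 0 := by
    intro h
    have h3 : ((2 : ℕ) : K) = 0 := by exact_mod_cast h
    rw [CharP.cast_eq_zero_iff K 3] at h3
    omega
  have hz : ∀ k : ℕ, (k : K) = 0 → (k : ZMod 3) = 0 := by
    intro k hk
    rw [CharP.cast_eq_zero_iff K 3] at hk
    exact (ZMod.natCast_eq_zero_iff k 3).mpr hk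
  have h7 : ∀ t : TI m, (n (i7 t) : K) = 0 := by
    intro t
    by_contra hn
    have hA := H3 (.inl t.1.2.1) (.inl t.1.2.1) (.inr t)
    rw [Finset.sum_eq_single (i7 t) (fun e _ he => by
      rw [off_A σ cs a b γ X₀ t e he, mul_zero]) (fun h => absurd (Finset.mem_univ _) h), on_A] at hA
    have hB := H3 (.inr t) (.inl t.1.2.1) (.inl t.1.2.1)
    rw [Finset.sum_eq_single (i7 t) (fun e _ he => by
      rw [off_B σ cs a b γ X₀ t e he, mul_zero]) (fun h => absurd (Finset.mem_univ _) h), on_B] at hB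
    have hC := H2 (.inl t.1.2.1) (.inr t)
    rw [Finset.sum_eq_single (i7 t) (fun e _ he => by
      rw [off_C σ cs a b γ X₀ t e he, mul_zero]) (fun h => absurd (Finset.mem_univ _) h), on_C] at hC
    have hD := H2 (.inr t) (.inl t.1.2.1)
    rw [Finset.sum_eq_single (i7 t) (fun e _ he => by
      rw [off_D σ cs a b γ X₀ t e he, mul_zero]) (fun h => absurd (Finset.mem_univ _) h), on_D] at hD
    have hγ : γ t.1.1 = 0 := by
      have h1 := (mul_eq_zero.mp hB).resolve_left hn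
      rw [← two_mul] at h1
      exact (mul_eq_zero.mp h1).resolve_left h20
    have hb : b t.1.1 = 0 := by
      have h1 := (mul_eq_zero.mp hD).resolve_left hn
      exact (mul_eq_zero.mp h1).resolve_left hX
    have ha : a t.1.1 = 0 := by
      have h1 := (mul_eq_zero.mp hC).resolve_left hn
      have h2 := (mul_eq_zero.mp h1).resolve_left hX
      rw [hb, zero_add] at h2
      have h3 := (mul_eq_zero.mp h2).resolve_left h20
      rcases mul_eq_zero.mp h3 with h4 | h4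
      · exact h4
      · exact (map_eq_zero_iff σ σ.injective).mp h4
    exact hab t.1.1 ⟨ha, hb, hγ⟩
  have h5 : ∀ i : Fin (m + 1), (n (i5 i) : K) = 0 := by
    intro i
    have hE := H1 (.inl i)
    rw [Finset.sum_eq_single (i5 i) (fun e _ he => by
      rw [off_E σ cs a b γ X₀ i e he, mul_zero]) (fun h => absurd (Finset.mem_univ _) h), on_E,
      mul_one] at hE
    exact hE
  apply Finset.sum_eq_zero
  intro e _
  rcases e with e | e | e | e | e | e | e
  · show _ * (0 : ZMod 3) = 0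
    rw [mul_zero]
  · show _ * (0 : ZMod 3) = 0
    rw [mul_zero]
  · show _ * (0 : ZMod 3) = 0
    rw [mul_zero]
  · show _ * (0 : ZMod 3) = 0
    rw [mul_zero]
  · rw [hz _ (h5 e), zero_mul]
  · show _ * (0 : ZMod 3) = 0
    rw [mul_zero]
  · rw [hz _ (h7 e), zero_mul]

theorem val_P7 (t : TI m) (u : Fin (m + 1) ⊕ TI m → K) :
    (P7 σ a b γ X₀ t).val σ u =
      tar σ (a t.1.1) (b t.1.1) (γ t.1.1) X₀ (u (.inl t.1.2.1)) (u (.inl t.1.2.2)) (u (.inr t)) := by
  unfold P7 tar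
  simp only [val_ad, val_m3, val_m2, map_sub]
  ring

end coeffs

theorem card_TI (m : ℕ) : Fintype.card (TI m) ≤ m * ((m + 1) * (m + 1)) := by
  refine (Fintype.card_subtype_le _).trans ?_
  simp

/-- the bound for the number of equations -/
def bd (q N : ℕ) : ℕ :=
  N * (q * ((q + 1) * (q + 1)) * (q * ((q + 1) * (q + 1)) * (q * ((q + 1) * (q + 1))))) +
  (N * (q * ((q + 1) * (q + 1)) * (q * ((q + 1) * (q + 1)))) +
  (N * ((q + 1) * (q * ((q + 1) * (q + 1)) * (q * ((q + 1) * (q + 1))))) +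
  (N * ((q + 1) * (q * ((q + 1) * (q + 1)) * (q * ((q + 1) * (q + 1))))) +
  ((q + 1) + (q * ((q + 1) * (q + 1)) + q * ((q + 1) * (q + 1)))))))

theorem card_IX (q N : ℕ) (J : Type) [Fintype J] (hJ : Fintype.card J ≤ N) (m : ℕ) (hm : m ≤ q) :
    Fintype.card (IX J m) ≤ bd q N := by
  have hT : Fintype.card (TI m) ≤ q * ((q + 1) * (q + 1)) :=
    (card_TI m).trans (by gcongr)
  simp only [Fintype.card_sum, Fintype.card_prod, Fintype.card_fin]
  unfold bd
  gcongr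

end ReeSys0Aux

theorem ree_sys0 (q N : ℕ) : ∃ Q₀ : ℕ, ∀ (K : Type) [Field K] [Fintype K] [CharP K 3]
    (σ : K ≃+* K), (∀ x, σ (σ x) = x ^ 3) → Q₀ ≤ Fintype.card K →
    ∀ (tr : K →+ ZMod 3), tr ≠ 0 → ∀ (J : Type) [Fintype J], Fintype.card J ≤ N →
    ∀ (cs : J → K) (m : ℕ), m ≤ q → ∀ a b γ : Fin m → K,
    (∀ h, ¬ (a h = 0 ∧ b h = 0 ∧ γ h = 0)) → ∀ X₀ : K, X₀ ≠ 0 →
    ∃ (w : Fin (m + 1) → K) (κ : TI m → K), (∀ t, tr (κ t) = 0) ∧ (∀ i, tr (w i) = 1) ∧
      (∀ l r s t, tr (cs l * σ (κ r) * κ s * κ t) = 0) ∧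
      (∀ l s t, tr (cs l * σ (κ s) * κ t) = 0) ∧
      (∀ l i s t, tr (cs l * σ (w i) * κ s * κ t) = 0) ∧
      (∀ l i s t, tr (cs l * w i * σ (κ s) * κ t) = 0) ∧
      ∀ t : TI m, tr (tar σ (a t.1.1) (b t.1.1) (γ t.1.1) X₀ (w t.1.2.1) (w t.1.2.2) (κ t)) = 1 := by
  refine ⟨2 * 3 ^ (2 + 4 * ReeSys0Aux.bd q N) + 1, ?_⟩
  intro K _ _ _ σ hσ hQ tr htr J _ hJ cs m hm a b γ hab X₀ hX
  have : Fact (Nat.Prime 3) := ⟨Nat.prime_three⟩
  have hcard := ReeSys0Aux.card_IX q N J hJ m hm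
  have hpow : 3 ^ (2 + 4 * Fintype.card (ReeSys0Aux.IX J m)) ≤
      3 ^ (2 + 4 * ReeSys0Aux.bd q N) := by
    apply Nat.pow_le_pow_right (by norm_num)
    omega
  obtain ⟨z, hz⟩ := equi 3 σ hσ tr htr (ReeSys0Aux.PF σ cs a b γ X₀)
    (ReeSys0Aux.VF (J := J) (m := m)) (fun h => by omega) (by omega)
    (ReeSys0Aux.hyp σ cs a b γ X₀ hab hX)
  refine ⟨fun i => z (.inl i), fun t => z (.inr t), ?_, ?_, ?_, ?_, ?_, ?_, ?_⟩
  · intro t
    have h := hz (.inr (.inr (.inr (.inr (.inr (.inl t))))))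
    rw [show ReeSys0Aux.PF σ cs a b γ X₀ (.inr (.inr (.inr (.inr (.inr (.inl t)))))) =
      ReeSys0Aux.m1 (.inr t) 1 from rfl, ReeSys0Aux.val_m1, one_mul] at h
    exact h
  · intro i
    have h := hz (.inr (.inr (.inr (.inr (.inl i)))))
    rw [show ReeSys0Aux.PF σ cs a b γ X₀ (.inr (.inr (.inr (.inr (.inl i))))) =
      ReeSys0Aux.m1 (.inl i) 1 from rfl, ReeSys0Aux.val_m1, one_mul] at h
    exact h
  · intro l r s t
    have h := hz (.inl (l, r, s, t))
    rw [show ReeSys0Aux.PF σ cs a b γ X₀ (.inl (l, r, s, t)) =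
      ReeSys0Aux.m3 (.inr r) (.inr s) (.inr t) (cs l) from rfl, ReeSys0Aux.val_m3] at h
    exact h
  · intro l s t
    have h := hz (.inr (.inl (l, s, t)))
    rw [show ReeSys0Aux.PF σ cs a b γ X₀ (.inr (.inl (l, s, t))) =
      ReeSys0Aux.m2 (.inr s) (.inr t) (cs l) from rfl, ReeSys0Aux.val_m2] at h
    exact h
  · intro l i s t
    have h := hz (.inr (.inr (.inl (l, i, s, t))))
    rw [show ReeSys0Aux.PF σ cs a b γ X₀ (.inr (.inr (.inl (l, i, s, t)))) =
      ReeSys0Aux.m3 (.inl i) (.inr s) (.inr t) (cs l) from rfl, ReeSys0Aux.val_m3] at h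
    exact h
  · intro l i s t
    have h := hz (.inr (.inr (.inr (.inl (l, i, s, t)))))
    rw [show ReeSys0Aux.PF σ cs a b γ X₀ (.inr (.inr (.inr (.inl (l, i, s, t))))) =
      ReeSys0Aux.m3 (.inr s) (.inl i) (.inr t) (cs l) from rfl, ReeSys0Aux.val_m3] at h
    have e : cs l * z (.inl i) * σ (z (.inr s)) * z (.inr t) =
        cs l * σ (z (.inr s)) * z (.inl i) * z (.inr t) := by ring
    show tr (cs l * z (.inl i) * σ (z (.inr s)) * z (.inr t)) = 0
    rw [e]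
    exact h
  · intro t
    have h := hz (ReeSys0Aux.i7 t)
    rw [show ReeSys0Aux.PF σ cs a b γ X₀ (ReeSys0Aux.i7 t) =
      ReeSys0Aux.P7 σ a b γ X₀ t from rfl, ReeSys0Aux.val_P7] at h
    exact h

end LTL
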