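import Pool.Agent.Lib.LTL.MvClose

/-!
# Module LTL.Root: root elements and one torus element (MP_61e83e_lc)

`Q = |K|`; `i, j, i', j'` are four different variables; `D` is invariant under
`S_t : z i ↦ z i + t z j, z j' ↦ z j' - t z i'` and under some map `T_s` with `(T_s z) j = s z j`,
`(T_s z) i' = z i'`, for every `s ≠ 0`.

PROOF. Let `e < Q`, `g` a polynomial with `evf τ g ∈ D`, all monomials of degree at most `e`, and
`g₀ = coeff (e e_i) g ≠ 0`; so every `degreeOf w g ≤ e < Q`.
STEP 1. By `taylor` twice (first in the variable `j'` with `s = - t z i'`, then in `i` with `s = t z j`;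
the variables `i, j'` are different from `j, i'`):
`evf τ g (S_t z) = ∑ a b, τ t ^ (a + b) * τ (z j) ^ a * (- τ (z i')) ^ b * evf τ (hd i a (hd j' b g)) z`, and
the terms with `a + b > e` vanish (`hd_degree`: `hd i a (hd j' b g) = 0`). So it is
`∑ k < e + 1, τ t ^ k * R k z` with `R k = evf τ (r k)`,
`r k = ∑ b ≤ k, X j ^ (k - b) * (- X i') ^ b * hd i (k - b) (hd j' b g)`. By `vander` (`e + 1 ≤ Q`)
`R k ∈ D` for `k ≤ e`. All monomials of `r k` have degree `≤ e`, so `degreeOf w (r k) < Q`.
STEP 2. Let `k ≤ e`. By `hd_mem`, `evf τ (hd i (e - k) (r k)) ∈ D`. `hd i (e - k)` commutes with the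
multiplication by `X j` and `X i'` (`hd_mul_X`), and
`hd i (e - k) (hd i (k - b) (hd j' b g)) = choose (e - b) (e - k) • hd i (e - b) (hd j' b g)`, all of whose
monomials have degree `0` (`hd_degree`: `≤ e - b - (e - b)`): it is the constant
`choose (e - b) (e - k) * γ b`, `γ b = coeff ((e - b) e_i + b e_j') g` (`coeff_hd` at `0`). So the function
`R z = ∑ b ≤ k, choose (e - b) (e - k) * γ b * τ (z j) ^ (k - b) * (- τ (z i')) ^ b` is in `D`.
STEP 3. `∑ s ≠ 0, τ s ^ (Q - 1 - k) • R ∘ T_s ∈ D` (`k ≤ Q - 1`), and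
`R (T_s z) = ∑ b, (..) τ s ^ (k - b) τ (z j) ^ (k - b) (- τ (z i')) ^ b`. The sum over `s ∈ Kˣ` of
`τ s ^ (Q - 1 - b)` is `- 1` if `(Q - 1) ∣ b` and `0` otherwise (`FiniteField.sum_pow_units`). If
`k < Q - 1` only `b = 0` remains: `- choose e (e - k) g₀ τ (z j) ^ k` is in `D`. Let `k = e - e % p`. Then
`k < Q - 1`: `k ≤ Q - p` because `e ≤ Q - 1`, `p ∣ Q`, `p ∣ k`, so `k ≤ Q - p < Q - 1`. And
`choose e (e - k) = choose e (e % p)` is not divisible by `p`: by Lucas
(`Choose.choose_modEq_choose_mod_mul_choose_div_nat`) it is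
`choose (e % p) (e % p) * choose (e / p) 0 = 1 mod p`. So `z ↦ τ (z j) ^ k` is in `D`.
-/

set_option autoImplicit false
open Classical

namespace LTL

namespace RootAux

open Finset MvPolynomial

theorem sum_tri {M : Type} [AddCommMonoid M] (F : ℕ → ℕ → M) (e : ℕ)
    (h : ∀ a b, e < a + b → F a b = 0) :
    ∑ a ∈ range (e + 1), ∑ b ∈ range (e + 1), F a b =
      ∑ k ∈ range (e + 1), ∑ b ∈ range (k + 1), F (k - b) b := by
  calc ∑ a ∈ range (e + 1), ∑ b ∈ range (e + 1), F a b
      = ∑ b ∈ range (e + 1), ∑ a ∈ range (e + 1), F a b := Finset.sum_comm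
    _ = ∑ b ∈ range (e + 1), ∑ k ∈ Ico b (e + 1), F (k - b) b := by
        refine sum_congr rfl fun b hb => ?_
        rw [sum_Ico_eq_sum_range]
        have h1 : ∑ a ∈ range (e + 1 - b), F (b + a - b) b = ∑ a ∈ range (e + 1 - b), F a b :=
          sum_congr rfl fun a _ => by rw [Nat.add_sub_cancel_left]
        rw [h1]
        symm
        refine sum_subset (range_mono (Nat.sub_le _ _)) fun a _ ha => h a b ?_
        rw [mem_range] at ha hb
        omega
    _ = ∑ k ∈ range (e + 1), ∑ b ∈ range (k + 1), F (k - b) b := by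
        refine sum_comm' fun b k => ?_
        simp only [mem_range, mem_Ico]
        omega

variable {ι K E : Type} [Field K] [Fintype K] [Field E]

theorem tot_of {f : MvPolynomial ι E} {n : ℕ} (h : ∀ ν, f.coeff ν ≠ 0 → ν.degree ≤ n) :
    f.totalDegree ≤ n := by
  refine Finset.sup_le fun s hs => ?_
  exact h s (MvPolynomial.mem_support_iff.1 hs)

theorem deg_of {f : MvPolynomial ι E} {n : ℕ} (h : f.totalDegree ≤ n) (ν : ι →₀ ℕ)
    (hν : f.coeff ν ≠ 0) : ν.degree ≤ n :=
  le_trans (MvPolynomial.le_totalDegree (MvPolynomial.mem_support_iff.2 hν)) h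

theorem degOf_of {f : MvPolynomial ι E} {n : ℕ} (h : f.totalDegree ≤ n) (w : ι) :
    f.degreeOf w ≤ n := by
  rw [MvPolynomial.degreeOf_le_iff]
  intro m hm
  exact le_trans (Finsupp.le_degree w m) (deg_of h m (MvPolynomial.mem_support_iff.1 hm))

theorem tot_hd {f : MvPolynomial ι E} {n : ℕ} (h : f.totalDegree ≤ n) (i : ι) (k : ℕ) :
    (hd i k f).totalDegree ≤ n - k :=
  tot_of fun ν hν => by
    have := hd_degree i k n f (deg_of h) ν hν
    omega

theorem hd_zero_of {f : MvPolynomial ι E} {n : ℕ} (h : f.totalDegree ≤ n) (i : ι) (k : ℕ)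
    (hk : n < k) : hd i k f = 0 := by
  by_contra h0
  obtain ⟨ν, hν⟩ := MvPolynomial.ne_zero_iff.1 h0
  have := hd_degree i k n f (deg_of h) ν hν
  omega

theorem hd_mul_X_pow (i j : ι) (hij : j ≠ i) (m n : ℕ) (f : MvPolynomial ι E) :
    hd i m (X j ^ n * f) = X j ^ n * hd i m f := by
  induction n with
  | zero => simp
  | succ n ih => rw [pow_succ', mul_assoc, hd_mul_X i j hij, ih, mul_assoc]

theorem hd_mul_negX_pow (i j : ι) (hij : j ≠ i) (m n : ℕ) (f : MvPolynomial ι E) :
    hd i m ((-X j) ^ n * f) = (-X j) ^ n * hd i m f := by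
  induction n with
  | zero => simp
  | succ n ih =>
    rw [pow_succ', mul_assoc, neg_mul, map_neg, hd_mul_X i j hij, ih, mul_assoc, neg_mul]

/-- the polynomial `r k` -/
noncomputable def rp (i j i' j' : ι) (g : MvPolynomial ι E) (k : ℕ) : MvPolynomial ι E :=
  ∑ b ∈ range (k + 1), X j ^ (k - b) * ((-X i') ^ b * hd i (k - b) (hd j' b g))

theorem tot_rp (i j i' j' : ι) {g : MvPolynomial ι E} {e k : ℕ} (hk : k ≤ e)
    (h : g.totalDegree ≤ e) : (rp i j i' j' g k).totalDegree ≤ e := by
  refine totalDegree_finsetSum_le fun b hb => ?_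
  have hb' : b ≤ k := by
    have := mem_range.1 hb
    omega
  have h1 : (hd i (k - b) (hd j' b g)).totalDegree ≤ e - b - (k - b) := tot_hd (tot_hd h j' b) i _
  have h2 : ((-X i' : MvPolynomial ι E) ^ b).totalDegree ≤ b := by
    refine (totalDegree_pow _ _).trans ?_
    rw [totalDegree_neg, totalDegree_X, mul_one]
  have h3 : (X j ^ (k - b) : MvPolynomial ι E).totalDegree ≤ k - b := by
    rw [totalDegree_X_pow]
  refine (totalDegree_mul _ _).trans ?_
  have h4 := totalDegree_mul ((-X i' : MvPolynomial ι E) ^ b) (hd i (k - b) (hd j' b g))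
  omega

theorem hd_rp (i j i' j' : ι) (hij : j ≠ i) (hii : i' ≠ i) {g : MvPolynomial ι E} {e k : ℕ}
    (hk : k ≤ e) (h : g.totalDegree ≤ e) :
    hd i (e - k) (rp i j i' j' g k) = ∑ b ∈ range (k + 1), X j ^ (k - b) * ((-X i') ^ b *
      C ((((e - b).choose (e - k) : ℕ) : E) * (hd i (e - b) (hd j' b g)).coeff 0)) := by
  rw [rp, map_sum]
  refine sum_congr rfl fun b hb => ?_
  have hb' : b ≤ k := by
    have := mem_range.1 hb
    omega
  rw [hd_mul_X_pow i j hij, hd_mul_negX_pow i i' hii, hd_hd]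
  have h1 : e - k + (k - b) = e - b := by omega
  rw [h1]
  have h2 : (hd i (e - b) (hd j' b g)).totalDegree = 0 := by
    have := tot_hd (tot_hd h j' b) i (e - b)
    omega
  have h3 := totalDegree_eq_zero_iff_eq_C.1 h2
  rw [C_mul, ← h3, smul_eq_C_mul]

theorem evf_sum (τ : K →+* E) {α : Type} (s : Finset α) (f : α → MvPolynomial ι E) (z : ι → K) :
    evf τ (∑ a ∈ s, f a) z = ∑ a ∈ s, evf τ (f a) z := by
  simp [evf]

theorem evf_rp (τ : K →+* E) (i j i' j' : ι) (g : MvPolynomial ι E) (k : ℕ) (z : ι → K) :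
    evf τ (rp i j i' j' g k) z = ∑ b ∈ range (k + 1), τ (z j) ^ (k - b) * ((-τ (z i')) ^ b *
      evf τ (hd i (k - b) (hd j' b g)) z) := by
  rw [rp, evf_sum]
  refine sum_congr rfl fun b _ => ?_
  simp [evf]

/-- Step 1: the expansion -/
theorem expand (τ : K →+* E) (i j i' j' : ι) (hij' : i ≠ j')
    {g : MvPolynomial ι E} {e : ℕ} (h : g.totalDegree ≤ e) (t : K) (z : ι → K) :
    evf τ g (Function.update (Function.update z j' (z j' - t * z i')) i (z i + t * z j)) =
      ∑ k ∈ range (e + 1), τ t ^ k * evf τ (rp i j i' j' g k) z := by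
  have h1 : Function.update z j' (z j' - t * z i') i = z i := Function.update_of_ne hij' _ _
  have h2 : g.degreeOf i < e + 1 := Nat.lt_succ_of_le (degOf_of h i)
  have h3 : ∀ a, (hd i a g).degreeOf j' < e + 1 := fun a => by
    have := degOf_of (tot_hd h i a) j'
    omega
  have h4 : z j' - t * z i' = z j' + -(t * z i') := sub_eq_add_neg _ _
  have key : evf τ g (Function.update (Function.update z j' (z j' - t * z i')) i (z i + t * z j)) =
      ∑ a ∈ range (e + 1), ∑ b ∈ range (e + 1), τ t ^ (a + b) * (τ (z j) ^ a *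
        ((-τ (z i')) ^ b * evf τ (hd i a (hd j' b g)) z)) := by
    have h5 := taylor τ g i (t * z j) (e + 1) h2 (Function.update z j' (z j' - t * z i'))
    rw [h1] at h5
    have h6 : ∀ a, evf τ (hd i a g) (Function.update z j' (z j' - t * z i')) =
        ∑ b ∈ range (e + 1), τ (-(t * z i')) ^ b * evf τ (hd j' b (hd i a g)) z := fun a => by
      rw [h4]
      exact taylor τ (hd i a g) j' (-(t * z i')) (e + 1) (h3 a) z
    rw [h5]
    refine sum_congr rfl fun a _ => ?_
    rw [h6, mul_sum]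
    refine sum_congr rfl fun b _ => ?_
    rw [hd_comm j' i b a, map_neg, map_mul, map_mul, mul_pow, ← mul_neg, mul_pow, pow_add]
    ring
  rw [key, sum_tri]
  · refine sum_congr rfl fun k _ => ?_
    rw [evf_rp, mul_sum]
    refine sum_congr rfl fun b hb => ?_
    have : k - b + b = k := by
      have := mem_range.1 hb
      omega
    rw [this]
  · intro a b hab
    have h5 : hd i a (hd j' b g) = 0 := by
      by_cases hb : e < b
      · rw [hd_zero_of h j' b hb, map_zero]
      · exact hd_zero_of (tot_hd h j' b) i a (by omega)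
    rw [h5]
    simp [evf]

/-- the sum over the units -/
theorem sum_units (τ : K →+* E) (b k : ℕ) (hb : b ≤ k) (hk : k < Fintype.card K - 1) :
    ∑ s : Kˣ, τ (s : K) ^ (Fintype.card K - 1 - b) = if b = 0 then -1 else 0 := by
  have h1 := FiniteField.sum_pow_units K (Fintype.card K - 1 - b)
  have h2 : ∑ s : Kˣ, τ (s : K) ^ (Fintype.card K - 1 - b) =
      τ (∑ s : Kˣ, (s : K) ^ (Fintype.card K - 1 - b)) := by
    rw [map_sum]
    simp
  rw [h2]
  have h3 : (Fintype.card K - 1 ∣ Fintype.card K - 1 - b) ↔ b = 0 := by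
    constructor
    · intro h
      by_contra hb0
      have := Nat.le_of_dvd (by omega) h
      omega
    · rintro rfl
      simp
  rw [h1]
  by_cases hb0 : b = 0
  · rw [if_pos (h3.2 hb0), if_pos hb0]
    simp
  · rw [if_neg (fun h => hb0 (h3.1 h)), if_neg hb0]
    simp

end RootAux

variable {ι K E : Type} [Fintype ι] [Field K] [Fintype K] [Field E]

theorem root (p : ℕ) [Fact p.Prime] [CharP K p] (τ : K →+* E) (D : Submodule E ((ι → K) → E))
    (htr : ∀ φ ∈ D, ∀ b : ι → K, (fun z => φ (z + b)) ∈ D) (i j i' j' : ι) (hij : i ≠ j)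
    (hii : i ≠ i') (hij' : i ≠ j') (hji' : j ≠ i') (hjj : j ≠ j') (hi'j' : i' ≠ j')
    (hS : ∀ φ ∈ D, ∀ t : K, (fun z : ι → K => φ (Function.update
      (Function.update z j' (z j' - t * z i')) i (z i + t * z j))) ∈ D)
    (hT : ∀ s : K, s ≠ 0 → ∃ T : (ι → K) → (ι → K), (∀ z, T z j = s * z j) ∧
      (∀ z, T z i' = z i') ∧ ∀ φ ∈ D, (fun z => φ (T z)) ∈ D)
    (e : ℕ) (he : e < Fintype.card K) (g : MvPolynomial ι E) (hg : evf τ g ∈ D)
    (hdeg : ∀ ν, g.coeff ν ≠ 0 → ν.degree ≤ e) (h0 : g.coeff (Finsupp.single i e) ≠ 0) :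
    (fun z : ι → K => τ (z j) ^ (e - e % p)) ∈ D := by
  have hp : p.Prime := Fact.out
  have htot : g.totalDegree ≤ e := RootAux.tot_of hdeg
  set Q := Fintype.card K with hQ
  -- Step 1
  have hR : ∀ k ≤ e, evf τ (RootAux.rp i j i' j' g k) ∈ D := by
    intro k hk
    refine vander τ D (e + 1) (by omega) (fun k => evf τ (RootAux.rp i j i' j' g k)) ?_ k (by omega)
    intro t
    have h1 := hS _ hg t
    have h2 : (fun z : ι → K => evf τ g (Function.update
        (Function.update z j' (z j' - t * z i')) i (z i + t * z j))) =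
        ∑ k ∈ Finset.range (e + 1), τ t ^ k • evf τ (RootAux.rp i j i' j' g k) := by
      funext z
      rw [RootAux.expand τ i j i' j' hij' htot t z]
      simp [Finset.sum_apply]
    rwa [h2] at h1
  -- Step 2
  set k := e - e % p with hkdef
  have hke : k ≤ e := Nat.sub_le _ _
  set c : ℕ → E := fun b => (((e - b).choose (e - k) : ℕ) : E) * (hd i (e - b) (hd j' b g)).coeff 0
    with hc
  have hRk : (fun z : ι → K => ∑ b ∈ Finset.range (k + 1),
      τ (z j) ^ (k - b) * ((-τ (z i')) ^ b * c b)) ∈ D := by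
    have h1 := hd_mem τ D htr (RootAux.rp i j i' j' g k)
      (fun w => lt_of_le_of_lt (RootAux.degOf_of (RootAux.tot_rp i j i' j' hke htot) w) he)
      (hR k hke) i (e - k)
    rw [RootAux.hd_rp i j i' j' hij.symm hii.symm hke htot] at h1
    convert h1 using 1
    funext z
    rw [RootAux.evf_sum]
    refine Finset.sum_congr rfl fun b _ => ?_
    simp [evf, hc]
  -- the binomial coefficient
  have hek : e - k = e % p := by
    have := Nat.mod_le e p
    omega
  have hEp : CharP E p := charP_of_injective_ringHom τ.injective p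
  have hc0 : c 0 ≠ 0 := by
    have h1 : (hd i (e - 0) (hd j' 0 g)).coeff 0 = g.coeff (Finsupp.single i e) := by
      rw [coeff_hd, coeff_hd]
      simp
    have h2 : ((e.choose (e - k) : ℕ) : E) ≠ 0 := by
      rw [hek, Ne, CharP.cast_eq_zero_iff E p]
      have h3 := Choose.choose_modEq_choose_mod_mul_choose_div_nat (n := e) (k := e % p) (p := p)
      rw [Nat.mod_mod, Nat.div_eq_of_lt (Nat.mod_lt e hp.pos), Nat.choose_self,
        Nat.choose_zero_right, mul_one] at h3
      intro h4
      have h5 : 0 ≡ 1 [MOD p] := ((Nat.modEq_zero_iff_dvd.2 h4).symm).trans h3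
      have h6 := (Nat.modEq_iff_dvd' (Nat.zero_le 1)).1 h5
      have := Nat.le_of_dvd (by norm_num) h6
      have := hp.two_le
      omega
    simp only [hc, Nat.sub_zero] at h1 ⊢
    rw [h1]
    exact mul_ne_zero h2 h0
  -- `k < Q - 1`
  have hpQ : p ∣ Q := by
    have h1 : ((Fintype.card K : ℕ) : K) = 0 := FiniteField.cast_card_eq_zero K
    exact (CharP.cast_eq_zero_iff K p _).1 h1
  have hkp : p ∣ k := by
    rw [hkdef]
    exact Nat.dvd_sub_mod e
  have hkQ : k < Q - 1 := by
    obtain ⟨a, ha⟩ := hpQ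
    obtain ⟨b, hb⟩ := hkp
    have h1 : b < a := by
      have : p * b < p * a := by omega
      exact Nat.lt_of_mul_lt_mul_left this
    have h2 : p * (b + 1) ≤ p * a := Nat.mul_le_mul_left _ h1
    have h3 := hp.two_le
    rw [mul_add] at h2
    omega
  -- Step 3
  choose T hT1 hT2 hT3 using fun s : Kˣ => hT (s : K) s.ne_zero
  have hsum : (∑ s : Kˣ, τ (s : K) ^ (Q - 1 - k) • (fun z : ι → K =>
      ∑ b ∈ Finset.range (k + 1), τ (T s z j) ^ (k - b) * ((-τ (T s z i')) ^ b * c b))) ∈ D :=
    Submodule.sum_mem _ fun s _ => Submodule.smul_mem _ _ (hT3 s _ hRk)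
  have heq : (∑ s : Kˣ, τ (s : K) ^ (Q - 1 - k) • (fun z : ι → K =>
      ∑ b ∈ Finset.range (k + 1), τ (T s z j) ^ (k - b) * ((-τ (T s z i')) ^ b * c b))) =
      (-(c 0)) • (fun z : ι → K => τ (z j) ^ k) := by
    funext z
    rw [Finset.sum_apply]
    simp only [Pi.smul_apply, smul_eq_mul, hT1, hT2]
    calc ∑ s : Kˣ, τ (s : K) ^ (Q - 1 - k) * ∑ b ∈ Finset.range (k + 1),
          τ ((s : K) * z j) ^ (k - b) * ((-τ (z i')) ^ b * c b)
        = ∑ b ∈ Finset.range (k + 1), (∑ s : Kˣ, τ (s : K) ^ (Q - 1 - b)) *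
          (τ (z j) ^ (k - b) * ((-τ (z i')) ^ b * c b)) := by
          simp only [Finset.mul_sum]
          rw [Finset.sum_comm]
          refine Finset.sum_congr rfl fun b hb => ?_
          rw [Finset.sum_mul]
          refine Finset.sum_congr rfl fun s _ => ?_
          have hb' : b ≤ k := by
            have := Finset.mem_range.1 hb
            omega
          have h1 : Q - 1 - b = (Q - 1 - k) + (k - b) := by omega
          rw [h1, pow_add, map_mul, mul_pow]
          ring
      _ = ∑ b ∈ Finset.range (k + 1), (if b = 0 then (-1 : E) else 0) *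
          (τ (z j) ^ (k - b) * ((-τ (z i')) ^ b * c b)) := by
          refine Finset.sum_congr rfl fun b hb => ?_
          rw [RootAux.sum_units τ b k (by
            have := Finset.mem_range.1 hb
            omega) hkQ]
      _ = -(c 0) * τ (z j) ^ k := by
          rw [Finset.sum_eq_single 0]
          · simp
            ring
          · intro b _ hb
            simp [hb]
          · intro h
            exact absurd (Finset.mem_range.2 (Nat.succ_pos k)) h
  rw [heq] at hsum
  exact (Submodule.smul_mem_iff D (neg_ne_zero.2 hc0)).1 hsum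

end LTL
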