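import Pool.Agent.Lib.LTL.Equi

/-!
# Module LTL.SuzSys: the auxiliary system for the Suzuki groups (MP_61e83e_lc)

PROOF. Let `T = {(h, i, j) : h : Fin m, i j : Fin (m + 1), i < j}`. Variables: `w i` (`i : Fin (m + 1)`) and
`κ t` (`t ∈ T`): `ι = Fin (m + 1) ⊕ T`. Equations (index type `I`, a sum type), with their values:
(1) `tr (cs l * σ (κ s) * κ t) = 0` for `l : J`, `s t ∈ T`: only `c2 (κ s) (κ t) = cs l`;
(2) `tr (w i) = 1`: `c1 (w i) = 1`; (3) `tr (κ t) = 0`: `c1 (κ t) = 1`;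
(4) for `t = (h, i, j)`: `tr ((b h + σ (a h) * a h) * σ (w i - w j) * κ t + b h * (w i - w j) * σ (κ t)) = 1`:
`c2 (w i) (κ t) = b h + σ (a h) * a h`, `c2 (w j) (κ t)` = minus that, `c2 (κ t) (w i) = b h`,
`c2 (κ t) (w j) = - b h`.
Hypothesis `H` of `LTL.equi` for a combination with coefficients `n`: the coefficient `c2 (w i) (κ t)` of the
combination is `n₄(t) (b h + σ (a h) a h)` and `c2 (κ t) (w i)` is `n₄(t) b h` (for `t = (h, i, j)`; the
equations (1) have no such coefficients and other `t' ≠ t` have another `κ t'`). Both vanish; `b h` and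
`b h + σ (a h) a h` are not both `0`, since `(a h, b h) ≠ (0, 0)`; so `n₄(t) = 0` in `K`, hence in `ZMod 2`. The
coefficient `c1 (w i) = n₂(i)` vanishes. The values of (1) and (3) are `0`. So `∑ n v = 0`.
All `c3 = 0`. `|I| = |J| |T| ^ 2 + (m + 1) + |T| + |T|` with `|T| ≤ q (q + 1) ^ 2`, `|J| ≤ N`: this gives `Q₀`.
With the solution let `𝓚` be the additive subgroup generated by the `κ t` (`AddSubgroup.closure`); the
conditions extend to `𝓚` by additivity (`AddSubgroup.closure_induction`, twice). For `i ≠ j` and `h`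
use `t = (h, min i j, max i j)`, `k = κ t` (`- 1 = 1` in characteristic 2, the expression is odd in
`(i, j)`).
-/

set_option autoImplicit false
open Classical

namespace LTL

namespace SuzSysAux

variable {K J : Type} [Field K] {m : ℕ}

/-- the index type of the variables `κ t` -/
abbrev TT (m : ℕ) : Type := {t : Fin m × Fin (m + 1) × Fin (m + 1) // t.2.1 ≠ t.2.2}

/-- the index type of the variables -/
abbrev IV (m : ℕ) : Type := Fin (m + 1) ⊕ TT m

/-- the index type of the equations -/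
abbrev IE (J : Type) (m : ℕ) : Type :=
  (J × TT m × TT m) ⊕ (Fin (m + 1) ⊕ (TT m ⊕ TT m))

/-- the form `c * σ (z x) * z y` -/
noncomputable def mono {ι : Type} (c : K) (x y : ι) : ι → ι → K :=
  fun x' y' => if x' = x then (if y' = y then c else 0) else 0

/-- the form `z x` -/
noncomputable def lin {ι : Type} (x : ι) : ι → K := fun x' => if x' = x then 1 else 0

theorem mono_sum {ι : Type} [Fintype ι] (σ : K ≃+* K) (c : K) (x y : ι) (z : ι → K) :
    ∑ i, ∑ j, mono c x y i j * σ (z i) * z j = c * σ (z x) * z y := by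
  rw [Finset.sum_eq_single x, Finset.sum_eq_single y]
  · simp [mono]
  · intro b _ hb
    simp [mono, hb]
  · intro hb
    exact absurd (Finset.mem_univ _) hb
  · intro b _ hb
    simp [mono, hb]
  · intro hb
    exact absurd (Finset.mem_univ _) hb

theorem lin_sum {ι : Type} [Fintype ι] (x : ι) (z : ι → K) :
    ∑ i, lin x i * z i = z x := by
  rw [Finset.sum_eq_single x]
  · simp [lin]
  · intro b _ hb
    simp [lin, hb]
  · intro hb
    exact absurd (Finset.mem_univ _) hb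

/-- the equations -/
noncomputable def PP (σ : K ≃+* K) (cs : J → K) (a b : Fin m → K) : IE J m → CForm K (IV m)
  | Sum.inl (l, s, t) => ⟨fun _ _ _ => 0, mono (cs l) (Sum.inr s) (Sum.inr t), fun _ => 0⟩
  | Sum.inr (Sum.inl i) => ⟨fun _ _ _ => 0, fun _ _ => 0, lin (Sum.inl i)⟩
  | Sum.inr (Sum.inr (Sum.inl t)) => ⟨fun _ _ _ => 0, fun _ _ => 0, lin (Sum.inr t)⟩
  | Sum.inr (Sum.inr (Sum.inr t)) => ⟨fun _ _ _ => 0, fun x y =>
      mono (b t.1.1 + σ (a t.1.1) * a t.1.1) (Sum.inl t.1.2.1) (Sum.inr t) x y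
      - mono (b t.1.1 + σ (a t.1.1) * a t.1.1) (Sum.inl t.1.2.2) (Sum.inr t) x y
      + mono (b t.1.1) (Sum.inr t) (Sum.inl t.1.2.1) x y
      - mono (b t.1.1) (Sum.inr t) (Sum.inl t.1.2.2) x y, fun _ => 0⟩

/-- the values -/
def VV : IE J m → ZMod 2
  | Sum.inl _ => 0
  | Sum.inr (Sum.inl _) => 1
  | Sum.inr (Sum.inr (Sum.inl _)) => 0
  | Sum.inr (Sum.inr (Sum.inr _)) => 1

theorem val1 (σ : K ≃+* K) (cs : J → K) (a b : Fin m → K) (l : J) (s t : TT m) (z : IV m → K) :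
    (PP σ cs a b (Sum.inl (l, s, t))).val σ z = cs l * σ (z (Sum.inr s)) * z (Sum.inr t) := by
  show (∑ i, ∑ j, ∑ k, (0 : K) * σ (z i) * z j * z k)
    + (∑ i, ∑ j, mono (cs l) (Sum.inr s) (Sum.inr t) i j * σ (z i) * z j)
    + ∑ i, (0 : K) * z i = _
  rw [mono_sum]
  simp

theorem val2 (σ : K ≃+* K) (cs : J → K) (a b : Fin m → K) (i : Fin (m + 1)) (z : IV m → K) :
    (PP σ cs a b (Sum.inr (Sum.inl i))).val σ z = z (Sum.inl i) := by
  show (∑ i, ∑ j, ∑ k, (0 : K) * σ (z i) * z j * z k)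
    + (∑ i, ∑ j, (0 : K) * σ (z i) * z j) + ∑ x, lin (Sum.inl i) x * z x = _
  rw [lin_sum]
  simp

theorem val3 (σ : K ≃+* K) (cs : J → K) (a b : Fin m → K) (t : TT m) (z : IV m → K) :
    (PP σ cs a b (Sum.inr (Sum.inr (Sum.inl t)))).val σ z = z (Sum.inr t) := by
  show (∑ i, ∑ j, ∑ k, (0 : K) * σ (z i) * z j * z k)
    + (∑ i, ∑ j, (0 : K) * σ (z i) * z j) + ∑ x, lin (Sum.inr t) x * z x = _
  rw [lin_sum]
  simp

theorem val4 (σ : K ≃+* K) (cs : J → K) (a b : Fin m → K) (t : TT m) (z : IV m → K) :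
    (PP σ cs a b (Sum.inr (Sum.inr (Sum.inr t)))).val σ z =
      (b t.1.1 + σ (a t.1.1) * a t.1.1) * σ (z (Sum.inl t.1.2.1) - z (Sum.inl t.1.2.2))
        * z (Sum.inr t) + b t.1.1 * (z (Sum.inl t.1.2.1) - z (Sum.inl t.1.2.2))
        * σ (z (Sum.inr t)) := by
  show (∑ i, ∑ j, ∑ k, (0 : K) * σ (z i) * z j * z k)
    + (∑ i, ∑ j, (mono (b t.1.1 + σ (a t.1.1) * a t.1.1) (Sum.inl t.1.2.1) (Sum.inr t) i j
      - mono (b t.1.1 + σ (a t.1.1) * a t.1.1) (Sum.inl t.1.2.2) (Sum.inr t) i j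
      + mono (b t.1.1) (Sum.inr t) (Sum.inl t.1.2.1) i j
      - mono (b t.1.1) (Sum.inr t) (Sum.inl t.1.2.2) i j) * σ (z i) * z j)
    + ∑ x, (0 : K) * z x = _
  have h1 : (∑ i, ∑ j, (mono (b t.1.1 + σ (a t.1.1) * a t.1.1) (Sum.inl t.1.2.1) (Sum.inr t) i j
      - mono (b t.1.1 + σ (a t.1.1) * a t.1.1) (Sum.inl t.1.2.2) (Sum.inr t) i j
      + mono (b t.1.1) (Sum.inr t) (Sum.inl t.1.2.1) i j
      - mono (b t.1.1) (Sum.inr t) (Sum.inl t.1.2.2) i j) * σ (z i) * z j)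
      = (b t.1.1 + σ (a t.1.1) * a t.1.1) * σ (z (Sum.inl t.1.2.1)) * z (Sum.inr t)
        - (b t.1.1 + σ (a t.1.1) * a t.1.1) * σ (z (Sum.inl t.1.2.2)) * z (Sum.inr t)
        + b t.1.1 * σ (z (Sum.inr t)) * z (Sum.inl t.1.2.1)
        - b t.1.1 * σ (z (Sum.inr t)) * z (Sum.inl t.1.2.2) := by
    rw [← mono_sum σ _ (Sum.inl t.1.2.1 : IV m) (Sum.inr t) z,
      ← mono_sum σ _ (Sum.inl t.1.2.2 : IV m) (Sum.inr t) z,
      ← mono_sum σ _ (Sum.inr t : IV m) (Sum.inl t.1.2.1) z,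
      ← mono_sum σ _ (Sum.inr t : IV m) (Sum.inl t.1.2.2) z]
    simp only [← Finset.sum_add_distrib, ← Finset.sum_sub_distrib]
    refine Finset.sum_congr rfl fun i _ => Finset.sum_congr rfl fun j _ => ?_
    ring
  rw [h1, map_sub]
  simp only [zero_mul, Finset.sum_const_zero]
  ring

theorem HH [Fintype J] [CharP K 2] (σ : K ≃+* K) (cs : J → K) (a b : Fin m → K)
    (hab : ∀ h, ¬ (a h = 0 ∧ b h = 0)) (n : IE J m → ℕ)
    (h2 : ∀ i j, ∑ e, (n e : K) * (PP σ cs a b e).c2 i j = 0)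
    (h1 : ∀ i, ∑ e, (n e : K) * (PP σ cs a b e).c1 i = 0) :
    ∑ e, (n e : ZMod 2) * VV e = 0 := by
  have hz : ∀ k : ℕ, (k : K) = 0 → (k : ZMod 2) = 0 := by
    intro k hk
    exact (CharP.cast_eq_zero_iff (ZMod 2) 2 k).2 ((CharP.cast_eq_zero_iff K 2 k).1 hk)
  have e2 : ∀ i, ((n (Sum.inr (Sum.inl i)) : ℕ) : ZMod 2) = 0 := by
    intro i
    apply hz
    have h := h1 (Sum.inl i)
    rw [Finset.sum_eq_single (Sum.inr (Sum.inl i))] at h
    · simpa [PP, lin] using h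
    · rintro (⟨l, s, t⟩ | i' | t | t) _ hne
      · exact mul_zero _
      · have hi : ¬ (Sum.inl i : IV m) = Sum.inl i' := by
          intro hh
          exact hne (by rw [Sum.inl.inj hh])
        show _ * lin (Sum.inl i') (Sum.inl i) = 0
        rw [lin, if_neg hi, mul_zero]
      · show _ * lin (Sum.inr t) (Sum.inl i) = 0
        rw [lin, if_neg (by simp), mul_zero]
      · exact mul_zero _
    · intro hb
      exact absurd (Finset.mem_univ _) hb
  have e4 : ∀ t, ((n (Sum.inr (Sum.inr (Sum.inr t))) : ℕ) : ZMod 2) = 0 := by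
    intro t
    apply hz
    have ha := h2 (Sum.inl t.1.2.1) (Sum.inr t)
    have hb := h2 (Sum.inr t) (Sum.inl t.1.2.1)
    rw [Finset.sum_eq_single (Sum.inr (Sum.inr (Sum.inr t)))] at ha hb
    · have hne : ¬ (Sum.inl t.1.2.1 : IV m) = Sum.inl t.1.2.2 := by
        intro hh
        exact t.2 (Sum.inl.inj hh)
      have ha' : (n (Sum.inr (Sum.inr (Sum.inr t))) : K)
          * (b t.1.1 + σ (a t.1.1) * a t.1.1) = 0 := by
        rw [← ha]
        simp [PP, mono, t.2]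
      have hb' : (n (Sum.inr (Sum.inr (Sum.inr t))) : K) * b t.1.1 = 0 := by
        rw [← hb]
        simp [PP, mono, t.2]
      by_contra hn
      have hb0 : b t.1.1 = 0 := (mul_eq_zero.1 hb').resolve_left hn
      have ha0 := (mul_eq_zero.1 ha').resolve_left hn
      rw [hb0, zero_add] at ha0
      refine hab t.1.1 ⟨?_, hb0⟩
      rcases mul_eq_zero.1 ha0 with h | h
      · exact (map_eq_zero_iff σ σ.injective).1 h
      · exact h
    · rintro (⟨l, s, t'⟩ | i' | t' | t') _ hne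
      · show _ * mono (cs l) (Sum.inr s) (Sum.inr t') (Sum.inr t) (Sum.inl t.1.2.1) = 0
        simp [mono]
      · exact mul_zero _
      · exact mul_zero _
      · have ht : ¬ t = t' := fun hh => hne (by rw [hh])
        simp [PP, mono, ht]
    · intro hb
      exact absurd (Finset.mem_univ _) hb
    · rintro (⟨l, s, t'⟩ | i' | t' | t') _ hne
      · show _ * mono (cs l) (Sum.inr s) (Sum.inr t') (Sum.inl t.1.2.1) (Sum.inr t) = 0
        simp [mono]
      · exact mul_zero _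
      · exact mul_zero _
      · have ht : ¬ t = t' := fun hh => hne (by rw [hh])
        simp [PP, mono, ht]
    · intro hb
      exact absurd (Finset.mem_univ _) hb
  refine Finset.sum_eq_zero fun e _ => ?_
  rcases e with x | i | t | t
  · exact mul_zero _
  · rw [e2 i, zero_mul]
  · exact mul_zero _
  · rw [e4 t, zero_mul]

theorem card_bd [Fintype J] {q N : ℕ} (hJ : Fintype.card J ≤ N) (hm : m ≤ q) :
    Fintype.card (IE J m) ≤ N * (q * ((q + 1) * (q + 1)) * (q * ((q + 1) * (q + 1))))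
      + ((q + 1) + (q * ((q + 1) * (q + 1)) + q * ((q + 1) * (q + 1)))) := by
  have hT : Fintype.card (TT m) ≤ q * ((q + 1) * (q + 1)) := by
    refine (Fintype.card_subtype_le _).trans ?_
    rw [Fintype.card_prod, Fintype.card_prod, Fintype.card_fin, Fintype.card_fin]
    exact Nat.mul_le_mul hm (Nat.mul_le_mul (by omega) (by omega))
  rw [Fintype.card_sum, Fintype.card_prod, Fintype.card_prod, Fintype.card_sum,
    Fintype.card_sum, Fintype.card_fin]
  exact Nat.add_le_add (Nat.mul_le_mul hJ (Nat.mul_le_mul hT hT))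
    (Nat.add_le_add (by omega) (Nat.add_le_add hT hT))

end SuzSysAux

theorem suz_sys (q N : ℕ) : ∃ Q₀ : ℕ, ∀ (K : Type) [Field K] [Fintype K] [CharP K 2]
    (σ : K ≃+* K), (∀ x, σ (σ x) = x ^ 2) → Q₀ ≤ Fintype.card K →
    ∀ (tr : K →+ ZMod 2), tr ≠ 0 → ∀ (J : Type) [Fintype J], Fintype.card J ≤ N →
    ∀ (cs : J → K) (m : ℕ), m ≤ q → ∀ a b : Fin m → K, (∀ h, ¬ (a h = 0 ∧ b h = 0)) →
    ∃ (w : Fin (m + 1) → K) (𝓚 : AddSubgroup K), (∀ k ∈ 𝓚, tr k = 0) ∧ (∀ i, tr (w i) = 1) ∧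
      (∀ l, ∀ k ∈ 𝓚, ∀ k' ∈ 𝓚, tr (cs l * σ k * k') = 0) ∧
      ∀ h i j, i ≠ j → ∃ k ∈ 𝓚,
        tr ((b h + σ (a h) * a h) * σ (w i - w j) * k + b h * (w i - w j) * σ k) ≠ 0 := by
  refine ⟨2 * 2 ^ (2 + 4 * (N * (q * ((q + 1) * (q + 1)) * (q * ((q + 1) * (q + 1))))
      + ((q + 1) + (q * ((q + 1) * (q + 1)) + q * ((q + 1) * (q + 1)))))) + 1, ?_⟩
  intro K _ _ _ σ hσ hQ tr htr J _ hJ cs m hm a b hab
  have hp : Fact (Nat.Prime 2) := ⟨Nat.prime_two⟩
  have hQ' : 2 * 2 ^ (2 + 4 * Fintype.card (SuzSysAux.IE J m)) < Fintype.card K := by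
    refine lt_of_lt_of_le ?_ hQ
    refine Nat.lt_succ_of_le (Nat.mul_le_mul_left 2 (Nat.pow_le_pow_right (by norm_num) ?_))
    exact Nat.add_le_add_left (Nat.mul_le_mul_left 4 (SuzSysAux.card_bd hJ hm)) 2
  obtain ⟨z, hz⟩ := equi (ι := SuzSysAux.IV m) (I := SuzSysAux.IE J m) 2 σ hσ tr htr
    (SuzSysAux.PP σ cs a b) SuzSysAux.VV (by
      rintro - (⟨l, s, t⟩ | i' | t | t) _ _ _ <;> rfl) hQ'
    (fun n _ h2 h1 => SuzSysAux.HH σ cs a b hab n h2 h1)
  have z1 : ∀ l s t, tr (cs l * σ (z (Sum.inr s)) * z (Sum.inr t)) = 0 := by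
    intro l s t
    rw [← SuzSysAux.val1 σ cs a b l s t z]
    exact hz _
  have z2 : ∀ i, tr (z (Sum.inl i)) = 1 := by
    intro i
    rw [← SuzSysAux.val2 σ cs a b i z]
    exact hz _
  have z3 : ∀ t, tr (z (Sum.inr t)) = 0 := by
    intro t
    rw [← SuzSysAux.val3 σ cs a b t z]
    exact hz _
  refine ⟨fun i => z (Sum.inl i), AddSubgroup.closure (Set.range fun t => z (Sum.inr t)),
    ?_, z2, ?_, ?_⟩
  · intro k hk
    have h : AddSubgroup.closure (Set.range fun t => z (Sum.inr t)) ≤ tr.ker := by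
      rw [AddSubgroup.closure_le]
      rintro _ ⟨t, rfl⟩
      exact z3 t
    exact h hk
  · intro l k hk k' hk'
    have hA : ∀ s, tr (cs l * σ (z (Sum.inr s)) * k') = 0 := by
      intro s
      have h : AddSubgroup.closure (Set.range fun t => z (Sum.inr t)) ≤
          (tr.comp (AddMonoidHom.mulLeft (cs l * σ (z (Sum.inr s))))).ker := by
        rw [AddSubgroup.closure_le]
        rintro _ ⟨t, rfl⟩
        exact z1 l s t
      exact h hk'
    have h : AddSubgroup.closure (Set.range fun t => z (Sum.inr t)) ≤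
        (tr.comp ((AddMonoidHom.mulRight k').comp ((AddMonoidHom.mulLeft (cs l)).comp
          (σ : K ≃+* K).toAddEquiv.toAddMonoidHom))).ker := by
      rw [AddSubgroup.closure_le]
      rintro _ ⟨t, rfl⟩
      exact hA t
    exact h hk
  · intro h i j hij
    refine ⟨z (Sum.inr ⟨(h, i, j), hij⟩), AddSubgroup.subset_closure ⟨_, rfl⟩, ?_⟩
    have h4 := SuzSysAux.val4 σ cs a b ⟨(h, i, j), hij⟩ z
    have h5 := hz (Sum.inr (Sum.inr (Sum.inr ⟨(h, i, j), hij⟩)))
    rw [h4] at h5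
    intro h6
    have h7 : (0 : ZMod 2) = 1 := h6.symm.trans h5
    exact zero_ne_one h7

end LTL
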