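import Pool.Agent.Lib.LTL.CEig
import Pool.Agent.Lib.LTL.LocFour
import Pool.Agent.Lib.LTL.SuzSys

/-!
# Module LTL.SuzCode: Suzuki groups in cross characteristic (MP_61e83e_lc)

Notation `x^σ = σ x`; `ω = -1 ∈ E` (or any primitive square root of unity, `exists_root`), `p = 2`.
PROOF. `Q₀` = maximum of `q + 1` and the constant of `suz_sys q (q + q ^ 2)`. Suppose `f x ≠ f y` for
some `f ∈ D`. The centre acts by `act b (x, y) = suzMul σ (0, b) (x, y) = (x, y + b)` (up to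
`0 * σ x = 0`), so `exists_eig` (`v₀ = (0, 0)`, `b₀ = 1`) gives `tr ≠ 0` and `c ∈ D`, `c ≠ 0`,
`c none = 0`, `c (some (x, y + b)) = ω ^ (tr b).val * c (some (x, y))`. Put `Λ₀ t = ω ^ (tr t).val`
(additive character, `tr_add`) and `g x = c (some (x, 0))`, so `c (some (x, y)) = Λ₀ y * g x`; `g ≠ 0`:
`g X₀ ≠ 0`. By `Good.move` there is a dual word `u` of weight at most `q` with `u none = 0` and
`u (some (0, 0)) ≠ 0`. For `X, κ ∈ K`, `κ ≠ 0` the word
`z ↦ c ((z.map (suzTor σ κ)).map (suzMul σ (X, 0)))` is in `D` (apply the two invariances), and its value at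
`some (α, β)` is `c (some (X + κ α, κ κ^σ β + X κ^σ α^σ)) = Λ₀ (κ κ^σ β + κ^σ α^σ X) * g (X + κ α)`.
So `∑_(α, β) u (α, β) Λ₀ (κ κ^σ β + κ^σ α^σ X) g (X + κ α) = 0`. Enumerate the support of `u` minus
`(0, 0)` by `Fin m`, `m ≤ q` (`m = ` its cardinality, `Finset.equivFin`): `(a h, b h) ≠ (0, 0)`; put
`u₀ = u (some (0, 0))`, `u h = u (some (a h, b h))`. As `x + κ a = x - κ a` (characteristic 2) this is the
hypothesis `heq` of `local_fourier` with `G = g`,
`Λ h κ X = Λ₀ (κ * σ κ * b h + σ κ * σ (a h) * X)`.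
Take `J = Fin m ⊕ (Fin m × Fin m)`, `cs (inl h) = b h`, `cs (inr (h, g)) = σ (a h) * a g`, and `w, 𝓚` from
`suz_sys`. `𝓔` = the additive subgroup generated by the `k * a h`, `k ∈ 𝓚` (for instance
`AddSubgroup.closure`). `w i ∉ 𝓚` because `tr (w i) = 1`, `tr = 0` on `𝓚`. For `e ∈ 𝓔`, `k ∈ 𝓚`:
`tr (σ (a h) * σ k * e) = 0` (closure induction from `cs (inr (h, g))`). Put
`χ h i k = Λ₀ (k * σ (w i) * (b h + σ (a h) * a h) + σ k * (w i * b h + σ (a h) * X₀))`,
`A h i e = Λ₀ (w i * σ (w i) * b h + σ (w i) * σ (a h) * (X₀ + e))`. `hfac`: with `κ = w + k`,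
`X = X₀ + e + k a`:
`κ κ^σ b + κ^σ a^σ X = [w w^σ b + w^σ a^σ (X₀ + e)] + [k w^σ (b + a^σ a) + k^σ (w b + a^σ X₀)]
  + [k k^σ b + k^σ a^σ e + k k^σ a^σ a]` and the last bracket has `tr = 0` (conditions for
`cs (inl h)`; the line above; `cs (inr (h, h))`). `χ` is multiplicative in `k` since its exponent is
additive in `k`. `hdiff`: `χ h i k = χ h j k` would give (`tr_eq_one`, `tr_add`)
`tr ((b h + σ (a h) a h) σ (w i - w j) k + b h (w i - w j) σ k) = 0`; `suz_sys` gives `k ∈ 𝓚` for which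
it is not `0`. So `local_fourier` gives the contradiction (`(Fintype.card K : E) ≠ 0` by
`card_ne_zero`).
-/

set_option autoImplicit false
open Classical

namespace LTL

open P61e83e Pltc

namespace SuzCodeAux

section
variable {E K : Type} [Field E] [Field K]

theorem L_add {ω : E} (hω : IsPrimitiveRoot ω 2) (tr : K →+ ZMod 2) (a b : K) :
    ω ^ (tr (a + b)).val = ω ^ (tr a).val * ω ^ (tr b).val :=
  tr_add 2 hω tr a b

theorem L_ne {ω : E} (hω : IsPrimitiveRoot ω 2) (n : ℕ) : ω ^ n ≠ 0 :=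
  pow_ne_zero _ (hω.ne_zero (by norm_num))

theorem L_zero {ω : E} (tr : K →+ ZMod 2) : ω ^ (tr 0).val = 1 := by
  rw [map_zero, ZMod.val_zero, pow_zero]

theorem L_one {ω : E} (hω : IsPrimitiveRoot ω 2) (tr : K →+ ZMod 2) {t : K} (ht : tr t = 0) :
    ω ^ (tr t).val = 1 := (tr_eq_one 2 hω _).2 ht

theorem act_apply (σ : K ≃+* K) (b x y : K) : suzMul σ (0, b) (x, y) = (x, b + y) := by
  unfold suzMul
  simp

theorem move_apply (σ : K ≃+* K) (X κ α β : K) :
    suzMul σ (X, 0) (suzTor σ κ (α, β))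
      = (X + κ * α, κ * σ κ * β + σ κ * σ α * X) := by
  unfold suzMul suzTor
  simp only [map_mul, Prod.mk.injEq, zero_add, true_and]
  ring

/-- the equation of a dual word -/
theorem dual_eq [CharP K 2] [Fintype K] (σ : K ≃+* K) {ω : E} (tr : K →+ ZMod 2)
    {D : Submodule E (Option (K × K) → E)} {c : Option (K × K) → E} (hc : c ∈ D)
    (hcy : ∀ x y, c (some (x, y)) = ω ^ (tr y).val * c (some (x, 0)))
    (hmul : ∀ g, ∀ f ∈ D, (fun z : Option (K × K) => f (z.map (suzMul σ g))) ∈ D)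
    (htor : ∀ κ, κ ≠ 0 → ∀ f ∈ D, (fun z : Option (K × K) => f (z.map (suzTor σ κ))) ∈ D)
    {u : Option (K × K) → E} (hu0 : u none = 0) (hu : Dual D u) {κ : K} (hκ : κ ≠ 0) (X : K) :
    ∑ v : K × K, u (some v) * (ω ^ (tr (κ * σ κ * v.2 + σ κ * σ v.1 * X)).val
      * c (some (X - κ * v.1, 0))) = 0 := by
  have h1 := hu _ (htor κ hκ _ (hmul (X, 0) c hc))
  rw [Fintype.sum_option, hu0, zero_mul, zero_add] at h1
  rw [← h1]
  refine Finset.sum_congr rfl fun v _ => ?_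
  obtain ⟨α, β⟩ := v
  have h2 : X - κ * α = X + κ * α := CharTwo.sub_eq_add _ _
  simp only [Option.map_some, move_apply]
  rw [hcy (X + κ * α), h2]

/-- the contradiction -/
theorem main [IsAlgClosed E] [CharP K 2] [Fintype K] (hKE : (Fintype.card K : E) ≠ 0)
    (σ : K ≃+* K) {ω : E} (hω : IsPrimitiveRoot ω 2) (tr : K →+ ZMod 2) (m : ℕ)
    (a b : Fin m → K) (u : Fin m → E) (u₀ : E) (hu₀ : u₀ ≠ 0) (g : K → E)
    (heq : ∀ κ, κ ≠ 0 → ∀ X, u₀ * g X + ∑ h, u h * ω ^ (tr (κ * σ κ * b h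
      + σ κ * σ (a h) * X)).val * g (X - κ * a h) = 0)
    (w : Fin (m + 1) → K) (𝓚 : AddSubgroup K) (hk : ∀ k ∈ 𝓚, tr k = 0)
    (hw : ∀ i, tr (w i) = 1) (cs : Fin m ⊕ (Fin m × Fin m) → K)
    (hcs1 : ∀ h, cs (Sum.inl h) = b h) (hcs2 : ∀ h g, cs (Sum.inr (h, g)) = σ (a h) * a g)
    (hcs : ∀ l, ∀ k ∈ 𝓚, ∀ k' ∈ 𝓚, tr (cs l * σ k * k') = 0)
    (hd : ∀ h i j, i ≠ j → ∃ k ∈ 𝓚,
        tr ((b h + σ (a h) * a h) * σ (w i - w j) * k + b h * (w i - w j) * σ k) ≠ 0)
    (X₀ : K) (hX₀ : g X₀ ≠ 0) : False := by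
  -- the group `𝓔`
  let 𝓔 : AddSubgroup K := AddSubgroup.closure {x | ∃ k ∈ 𝓚, ∃ h, x = k * a h}
  have hE : ∀ k ∈ 𝓚, ∀ h, k * a h ∈ 𝓔 := fun k hk h =>
    AddSubgroup.subset_closure ⟨k, hk, h, rfl⟩
  have hEtr : ∀ h, ∀ k ∈ 𝓚, ∀ e ∈ 𝓔, tr (σ (a h) * σ k * e) = 0 := by
    intro h k hkK e he
    induction he using AddSubgroup.closure_induction with
    | mem x hx =>
      obtain ⟨k', hk', g', rfl⟩ := hx
      have h1 := hcs (Sum.inr (h, g')) k hkK k' hk'
      rw [hcs2] at h1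
      rw [← h1]
      congr 1
      ring
    | zero => rw [mul_zero, map_zero]
    | add x y _ _ hx hy => rw [mul_add, map_add, hx, hy, add_zero]
    | neg x _ hx => rw [mul_neg, map_neg, hx, neg_zero]
  refine local_fourier hKE m a u u₀ hu₀ g
    (fun h κ X => ω ^ (tr (κ * σ κ * b h + σ κ * σ (a h) * X)).val) heq 𝓚 𝓔 hE w ?_ X₀ hX₀
    (fun h i e => ω ^ (tr (w i * σ (w i) * b h + σ (w i) * σ (a h) * (X₀ + e))).val)
    (fun h i k => ω ^ (tr (k * σ (w i) * (b h + σ (a h) * a h)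
      + σ k * (w i * b h + σ (a h) * X₀))).val) ?_ ?_ ?_ ?_
  · intro i hi
    have h1 := hw i
    rw [hk _ hi] at h1
    exact absurd h1 (by decide)
  · intro h i k _ k' _
    rw [← L_add hω, map_add σ]
    congr 3
    ring
  · intro h i k
    exact L_ne hω _
  · intro h i k hkK e he
    rw [← L_add hω]
    have h1 : tr (k * σ k * b h) = 0 := by
      have h2 := hcs (Sum.inl h) k hkK k hkK
      rw [hcs1] at h2
      rw [← h2]
      congr 1
      ring
    have h3 : tr (k * σ k * (σ (a h) * a h)) = 0 := by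
      have h2 := hcs (Sum.inr (h, h)) k hkK k hkK
      rw [hcs2] at h2
      rw [← h2]
      congr 1
      ring
    have h4 := hEtr h k hkK e he
    have h5 : (w i + k) * σ (w i + k) * b h + σ (w i + k) * σ (a h) * (X₀ + e + k * a h)
        = (w i * σ (w i) * b h + σ (w i) * σ (a h) * (X₀ + e)
            + (k * σ (w i) * (b h + σ (a h) * a h) + σ k * (w i * b h + σ (a h) * X₀)))
          + (k * σ k * b h + k * σ k * (σ (a h) * a h) + σ (a h) * σ k * e) := by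
      rw [map_add]
      ring
    rw [h5, map_add tr _ (k * σ k * b h + k * σ k * (σ (a h) * a h) + σ (a h) * σ k * e),
      map_add tr (k * σ k * b h + k * σ k * (σ (a h) * a h)), map_add tr (k * σ k * b h), h1, h3, h4,
      add_zero, add_zero, add_zero]
  · intro h i j hij
    obtain ⟨k, hkK, h1⟩ := hd h i j hij
    refine ⟨k, hkK, fun h2 => h1 ?_⟩
    beta_reduce at h2
    have h3 : k * σ (w i) * (b h + σ (a h) * a h) + σ k * (w i * b h + σ (a h) * X₀)
        = (k * σ (w j) * (b h + σ (a h) * a h) + σ k * (w j * b h + σ (a h) * X₀))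
          + ((b h + σ (a h) * a h) * σ (w i - w j) * k + b h * (w i - w j) * σ k) := by
      rw [map_sub]
      ring
    rw [h3, L_add hω] at h2
    have h4 := mul_right_eq_self₀.1 h2
    exact (tr_eq_one 2 hω _).1 (h4.resolve_right (L_ne hω _))

end

end SuzCodeAux

open SuzCodeAux

theorem suz_const (E : Type) [Field E] [IsAlgClosed E] (h2 : (2 : E) ≠ 0) (q : ℕ) (δ : ℝ) :
    ∃ Q₀ : ℕ, ∀ (K : Type) [Field K] [Fintype K] [CharP K 2] (σ : K ≃+* K),
      (∀ x, σ (σ x) = x ^ 2) → Q₀ ≤ Fintype.card K →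
      ∀ D : Submodule E (Option (K × K) → E), Good D q δ →
      (∀ g, ∀ f ∈ D, (fun z : Option (K × K) => f (z.map (suzMul σ g))) ∈ D) →
      (∀ κ, κ ≠ 0 → ∀ f ∈ D, (fun z : Option (K × K) => f (z.map (suzTor σ κ))) ∈ D) →
      ∀ f ∈ D, ∀ x y, f x = f y := by
  obtain ⟨Q₁, hQ₁⟩ := suz_sys q (q + q ^ 2)
  refine ⟨max (q + 1) Q₁, fun K _ _ _ σ hσ hQ D hD hmul htor f hf x y => ?_⟩
  by_contra hxy
  have hQq : q + 1 ≤ Fintype.card K := (le_max_left _ _).trans hQ
  have hQ1 : Q₁ ≤ Fintype.card K := (le_max_right _ _).trans hQ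
  have h2E : ((2 : ℕ) : E) ≠ 0 := by exact_mod_cast h2
  have hK2 : ∀ x : K, 2 • x = 0 := fun x => CharTwo.two_nsmul x
  have hKE : (Fintype.card K : E) ≠ 0 := by
    have h1 := card_ne_zero 2 h2E hK2
    rwa [Nat.card_eq_fintype_card] at h1
  obtain ⟨ω, hω⟩ := exists_root E 2 h2E
  -- the word `c`
  obtain ⟨tr, htr, c, hcD, hc0, hcn, hcact⟩ := exists_eig 2 h2E hK2 hω D hD
    (fun b v => suzMul σ (0, b) v)
    (fun v => by obtain ⟨x, y⟩ := v; rw [act_apply, zero_add])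
    (fun b b' v => by obtain ⟨x, y⟩ := v; rw [act_apply, act_apply, act_apply, add_assoc])
    (fun b f hf => hmul (0, b) f hf) (0, 0) 1
    (by rw [act_apply]; simp) hf hxy
  have hcy : ∀ x y, c (some (x, y)) = ω ^ (tr y).val * c (some (x, 0)) := by
    intro x y
    have h1 := hcact y (x, 0)
    beta_reduce at h1
    rw [act_apply, add_zero] at h1
    exact h1
  obtain ⟨X₀, hX₀⟩ : ∃ X₀, c (some (X₀, 0)) ≠ 0 := by
    by_contra hno
    push Not at hno
    apply hc0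
    funext z
    rcases z with - | ⟨x, y⟩
    · exact hcn
    · rw [hcy, hno, mul_zero]
      rfl
  -- the dual word
  have hcard : q < Fintype.card (Option (K × K)) := by
    rw [Fintype.card_option, Fintype.card_prod]
    nlinarith
  obtain ⟨u, hun, hu0, hwt, hu⟩ := hD.move hcard none (some (0, 0)) (by simp)
  obtain ⟨S, hS⟩ : ∃ S : Finset (K × K), ∀ v, v ∈ S ↔ v ≠ (0, 0) ∧ u (some v) ≠ 0 :=
    ⟨Finset.univ.filter fun v => v ≠ (0, 0) ∧ u (some v) ≠ 0, fun v => by simp⟩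
  have hSq : S.card ≤ q := by
    refine le_trans ?_ hwt
    unfold wt
    refine Finset.card_le_card_of_injOn (fun v => some v) ?_ ?_
    · intro v hv
      simpa using ((hS v).1 hv).2
    · intro v _ v' _ h
      exact Option.some_injective _ h
  let ev : Fin S.card ≃ S := S.equivFin.symm
  have hne : ∀ h, ¬ ((ev h).1.1 = 0 ∧ (ev h).1.2 = 0) := by
    intro h h1
    exact ((hS _).1 (ev h).2).1 (Prod.ext h1.1 h1.2)
  have hcardJ : Fintype.card (Fin S.card ⊕ (Fin S.card × Fin S.card)) ≤ q + q ^ 2 := by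
    rw [Fintype.card_sum, Fintype.card_prod, Fintype.card_fin]
    nlinarith
  obtain ⟨w, 𝓚, hk, hw, hcs, hd⟩ := hQ₁ K σ hσ hQ1 tr htr (Fin S.card ⊕ (Fin S.card × Fin S.card))
    hcardJ (Sum.elim (fun h => (ev h).1.2) (fun p => σ (ev p.1).1.1 * (ev p.2).1.1)) S.card hSq
    (fun h => (ev h).1.1) (fun h => (ev h).1.2) hne
  refine main hKE σ hω tr S.card (fun h => (ev h).1.1) (fun h => (ev h).1.2)
    (fun h => u (some (ev h).1)) (u (some (0, 0))) hu0 (fun X => c (some (X, 0))) ?_ w 𝓚 hk hw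
    (Sum.elim (fun h => (ev h).1.2) (fun p => σ (ev p.1).1.1 * (ev p.2).1.1)) (fun h => rfl)
    (fun h g => rfl) hcs hd X₀ hX₀
  intro κ hκ X
  have h1 := dual_eq σ tr hcD hcy hmul htor hun hu hκ X
  rw [← h1, ← Finset.add_sum_erase _ _ (Finset.mem_univ ((0, 0) : K × K))]
  congr 1
  · rw [map_zero, mul_zero, mul_zero, zero_mul, add_zero, L_zero, one_mul, mul_zero, sub_zero]
  · have h3 : ∑ v ∈ Finset.univ.erase ((0, 0) : K × K),
        u (some v) * (ω ^ (tr (κ * σ κ * v.2 + σ κ * σ v.1 * X)).val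
          * c (some (X - κ * v.1, 0)))
        = ∑ v ∈ S, u (some v) * (ω ^ (tr (κ * σ κ * v.2 + σ κ * σ v.1 * X)).val
          * c (some (X - κ * v.1, 0))) := by
      symm
      refine Finset.sum_subset ?_ ?_
      · intro v hv
        exact Finset.mem_erase.2 ⟨((hS v).1 hv).1, Finset.mem_univ _⟩
      · intro v hv hv'
        have h4 : u (some v) = 0 := by
          by_contra h5
          exact hv' ((hS v).2 ⟨(Finset.mem_erase.1 hv).1, h5⟩)
        rw [h4, zero_mul]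
    rw [h3, ← Finset.sum_coe_sort S, ← Equiv.sum_comp ev]
    refine Finset.sum_congr rfl fun h _ => ?_
    rw [mul_assoc]

end LTL
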