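import Pool.Agent.Lib.LTL.UniBase

/-!
# Module LTL.UniSpan: the right translations span the endomorphisms of `Vmu` (MP_61e83e_lc)

`A₀ = {g : star g.x = g.x}` is a subgroup containing the centre `Z = {zc b}`; its elements commute.
`mu : HP L → E` is multiplicative on `A₀` (only the values on `A₀` matter), `Vmu mu` = the functions
`f : HP L → E` with `f (g * z) = mu g * f z` for `g ∈ A₀`. Right translation `rt g f z = f (z * g)` maps
`Vmu` to itself. `lam b = mu (zc b)` is assumed nontrivial.

PROOFS. `vmu_central`: `z * zc b = zc b * z`. `vmu_finrank`: the map `f ↦ (f (rep x))_x`, where `x` runs over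
`L / L₀` (`Q` classes; `rep x` a point with first coordinate in the class) is injective on `Vmu`: every
`z` is `g * rep` with `g ∈ A₀` (choose the representative `r` with `z.x - r.x ∈ L₀`; `g = z * r⁻¹`). Formal
alternative: choose `T ⊆ L` of size `Q` meeting every coset of `L₀`.
`span_rt`: put `D s = rt (pt β s)` on `Vmu`. If `Vmu = 0` there is nothing to prove. LINEAR INDEPENDENCE of
the `D s`, `s ∈ L`: suppose `∑ s, x s • D s = 0`. For `g = pt β a`: `rt g ∘ rt h ∘ rt g⁻¹ = rt (g * h * g⁻¹)`
and `g * h * g⁻¹ = zc (star a * s - star s * a) * h` for `h = pt β s`; so conjugation by `rt g` multiplies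
`D s` by `lam (star a * s - star s * a)`, and
`∑ s, x s * lam (star a * s - star s * a) • D s = 0` for all `a`. Multiply by
`lam (-(star a * s₀ - star s₀ * a))` and sum over `a ∈ L`: the coefficient of `D s` becomes
`∑ a, lam (star a * d - star d * a)`, `d = s - s₀`; for `d = 0` it is `Q²`, for `d ≠ 0` it is `0`: the map
`a ↦ star a * d - star d * a = - (star v - v)`-like with `v = star d * a` is additive and onto `TZ`
(`tz_surj`), `lam` is a nontrivial character of `TZ`. So `Q² x s₀ D s₀ = 0`; `D s₀` is invertible (inverse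
`rt (pt β s₀)⁻¹`), `Vmu ≠ 0`, `Q ≠ 0` in `E`: `x s₀ = 0`.
SPANNING: `Q²` linearly independent elements of `End Vmu`, whose dimension is `(finrank Vmu) ² ≤ Q²`
(`Module.finrank_linearMap`); so they span (`LinearIndependent.span_eq_top_of_card_eq_finrank'`-like;
card `≥ finrank`).
-/

set_option autoImplicit false
open Classical

namespace LTL

variable {L E : Type} [Field L] [StarRing L] {Q : ℕ} [Field E]

/-- the functions on the affine points which transform by `mu` under the abelian group `A₀` -/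
def Vmu (mu : HP L → E) : Submodule E (HP L → E) where
  carrier := {f | ∀ g z : HP L, star g.x = g.x → f (g * z) = mu g * f z}
  add_mem' := by
    intro f f' h h' g z hg
    simp only [Pi.add_apply, h g z hg, h' g z hg]
    ring
  zero_mem' := by
    intro g z _
    simp
  smul_mem' := by
    intro c f h g z hg
    simp only [Pi.smul_apply, h g z hg, smul_eq_mul]
    ring

/-- right translation -/
def rt (E : Type) [Field E] (g : HP L) : (HP L → E) →ₗ[E] (HP L → E) where
  toFun f z := f (z * g)
  map_add' _ _ := rfl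
  map_smul' _ _ := rfl

theorem rt_apply (g : HP L) (f : HP L → E) (z : HP L) : rt E g f z = f (z * g) := rfl

theorem rt_mul (g h : HP L) (f : HP L → E) : rt E g (rt E h f) = rt E (g * h) f := by
  funext z
  simp only [rt_apply, mul_assoc]

/-- right translation on `Vmu` -/
def rtV (mu : HP L → E) (g : HP L) : Module.End E (Vmu mu) where
  toFun f := ⟨rt E g f, fun a z ha => by
    simp only [rt_apply, mul_assoc]
    exact f.2 a (z * g) ha⟩
  map_add' _ _ := rfl
  map_smul' _ _ := rfl

theorem rtV_apply (mu : HP L → E) (g : HP L) (f : Vmu mu) (z : HP L) :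
    (rtV mu g f : HP L → E) z = (f : HP L → E) (z * g) := rfl

/-- `mu` is a character of `A₀`, nontrivial on the centre -/
structure MuOk (mu : HP L → E) : Prop where
  mul : ∀ g h : HP L, star g.x = g.x → star h.x = h.x → mu (g * h) = mu g * mu h
  one : mu 1 = 1
  nt : ∃ (b : L) (hb : b + star b = 0), mu (zc b hb) ≠ 1

namespace UniSpanAux

theorem surjAbs {L' E' V : Type} [Fintype L'] [Field E'] [AddCommGroup V] [Module E' V]
    [FiniteDimensional E' V] {q : ℕ} (hL : Fintype.card L' = q ^ 2)
    (hW : Module.finrank E' V ≤ q) (f : (L' → E') →ₗ[E'] (V →ₗ[E'] V))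
    (hf : Function.Injective f) : Function.Surjective f := by
  have h1 : Module.finrank E' (L' → E') ≤ Module.finrank E' (V →ₗ[E'] V) :=
    LinearMap.finrank_le_finrank_of_injective hf
  have h2 : Module.finrank E' (V →ₗ[E'] V) = Module.finrank E' V * Module.finrank E' V :=
    Module.finrank_linearMap E' E' V V
  have h4 : Module.finrank E' (V →ₗ[E'] V) ≤ Module.finrank E' (L' → E') := by
    rw [h2, Module.finrank_pi, hL, pow_two]
    exact Nat.mul_le_mul hW hW
  exact (LinearMap.injective_iff_surjective_of_finrank_eq_finrank (le_antisymm h1 h4)).mp hf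

theorem zc_comm (b : L) (hb : b + star b = 0) (z : HP L) : z * zc b hb = zc b hb * z := by
  ext
  · simp [zc]
  · simp only [mul_y, zc, star_zero, zero_mul, mul_zero, add_zero]
    ring

theorem zc_fix (b : L) (hb : b + star b = 0) : star (zc b hb).x = (zc b hb).x := by
  simp [zc]

theorem rtV_mul (mu : HP L → E) (g h : HP L) : rtV mu g * rtV mu h = rtV mu (g * h) := by
  apply LinearMap.ext
  intro f
  apply Subtype.ext
  funext z
  show (f : HP L → E) (z * g * h) = (f : HP L → E) (z * (g * h))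
  rw [mul_assoc]

theorem rtV_one (mu : HP L → E) : rtV mu 1 = 1 := by
  apply LinearMap.ext
  intro f
  apply Subtype.ext
  funext z
  show (f : HP L → E) (z * 1) = (f : HP L → E) z
  rw [mul_one]

theorem central {mu : HP L → E} {f : HP L → E} (hf : f ∈ Vmu mu) (b : L)
    (hb : b + star b = 0) (z : HP L) : f (z * zc b hb) = mu (zc b hb) * f z := by
  rw [zc_comm]
  exact hf _ _ (zc_fix b hb)

theorem rtV_zc (mu : HP L → E) (b : L) (hb : b + star b = 0) :
    rtV mu (zc b hb) = mu (zc b hb) • (1 : Module.End E (Vmu mu)) := by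
  apply LinearMap.ext
  intro f
  apply Subtype.ext
  funext z
  show (f : HP L → E) (z * zc b hb) = mu (zc b hb) * (f : HP L → E) z
  exact central f.2 b hb z

/-- the commutator form -/
def cf (a s : L) : L := star a * s - star s * a

theorem cf_tz (a s : L) : cf a s + star (cf a s) = 0 := by
  simp only [cf, star_sub, star_mul', star_star]
  ring

theorem cf_add (a a' s : L) : cf (a + a') s = cf a s + cf a' s := by
  simp only [cf, star_add]
  ring

theorem cf_sub (a s s' : L) : cf a (s - s') = cf a s + -cf a s' := by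
  simp only [cf, star_sub]
  ring

theorem cf_neg_tz (a s : L) : -cf a s + star (-cf a s) = 0 := by
  rw [star_neg]
  linear_combination -cf_tz a s

/-- the character of the centre as a function on `L` -/
noncomputable def lamt (mu : HP L → E) (b : L) : E :=
  if hb : b + star b = 0 then mu (zc b hb) else 0

theorem lamt_eq (mu : HP L → E) (b : L) (hb : b + star b = 0) : lamt mu b = mu (zc b hb) :=
  dif_pos hb

theorem lamt_add {mu : HP L → E} (hmu : MuOk mu) (b b' : L) (hb : b + star b = 0)
    (hb' : b' + star b' = 0) : lamt mu (b + b') = lamt mu b * lamt mu b' := by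
  have h : (b + b') + star (b + b') = 0 := by
    rw [star_add]
    linear_combination hb + hb'
  rw [lamt_eq mu _ h, lamt_eq mu _ hb, lamt_eq mu _ hb',
    ← hmu.mul _ _ (zc_fix b hb) (zc_fix b' hb')]
  congr 1
  ext
  · simp [zc]
  · simp only [mul_y, zc, star_zero, zero_mul, add_zero]

theorem lamt_zero {mu : HP L → E} (hmu : MuOk mu) : lamt mu 0 = 1 := by
  have h : (0 : L) + star 0 = 0 := by simp
  rw [lamt_eq mu _ h, ← hmu.one]
  congr 1

theorem conj (mu : HP L → E) (β : L) (hβ : β + star β = 1) (a s : L) :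
    rtV mu (pt β hβ a) * rtV mu (pt β hβ s) * rtV mu (pt β hβ a)⁻¹ =
      lamt mu (cf a s) • rtV mu (pt β hβ s) := by
  rw [rtV_mul, rtV_mul]
  have h : pt β hβ a * pt β hβ s * (pt β hβ a)⁻¹ = zc (cf a s) (cf_tz a s) * pt β hβ s := by
    have h1 := (pt β hβ a).h
    ext
    · simp [zc, pt]
    · simp only [mul_y, mul_x, inv_y, inv_x, zc, star_zero, zero_mul, cf, star_add]
      have h2 : (pt β hβ a).y + star (pt β hβ a).y = a * star a := h1
      have h3 : (pt β hβ a).x = a := rfl
      have h4 : (pt β hβ s).x = s := rfl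
      rw [h3, h4]
      linear_combination h2
  rw [h, ← rtV_mul, rtV_zc, lamt_eq mu _ (cf_tz a s), smul_mul_assoc, one_mul]

theorem rtV_ne {mu : HP L → E} (hV : Vmu mu ≠ ⊥) (g : HP L) : rtV mu g ≠ 0 := by
  intro h0
  have h1 : rtV mu g⁻¹ * rtV mu g = 1 := by
    rw [rtV_mul, inv_mul_cancel, rtV_one]
  rw [h0, mul_zero] at h1
  apply hV
  rw [Submodule.eq_bot_iff]
  intro f hf
  have h2 : (1 : Module.End E (Vmu mu)) ⟨f, hf⟩ = (0 : Module.End E (Vmu mu)) ⟨f, hf⟩ := by
    rw [← h1]
  have h3 : (⟨f, hf⟩ : Vmu mu) = 0 := h2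
  exact congrArg Subtype.val h3

section
variable [Fintype L]

theorem sum_lamt (hQ : HermQ L Q) {mu : HP L → E} (hmu : MuOk mu) (d : L) (hd : d ≠ 0) :
    ∑ a, lamt mu (cf a d) = 0 := by
  obtain ⟨b, hb, hne⟩ := hmu.nt
  obtain ⟨v, hv⟩ := hQ.tz_surj b hb
  have hd' : star d ≠ 0 := star_ne_zero.2 hd
  have ha : cf (v / star d) d = b := by
    rw [← hv]
    simp only [cf, star_div₀, star_star]
    field_simp
  have h1 : ∑ a, lamt mu (cf (a + v / star d) d) = ∑ a, lamt mu (cf a d) :=
    Fintype.sum_equiv (Equiv.addRight (v / star d)) _ _ (fun a => rfl)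
  have h2 : ∀ a, lamt mu (cf (a + v / star d) d) = lamt mu (cf a d) * mu (zc b hb) := by
    intro a
    rw [cf_add, lamt_add hmu _ _ (cf_tz _ _) (cf_tz _ _), ha, lamt_eq mu b hb]
  rw [Finset.sum_congr rfl (fun a _ => h2 a), ← Finset.sum_mul] at h1
  have h3 : (∑ a, lamt mu (cf a d)) * (mu (zc b hb) - 1) = 0 := by
    rw [mul_sub, mul_one, h1, sub_self]
  rcases mul_eq_zero.mp h3 with h4 | h4
  · exact h4
  · exact absurd (sub_eq_zero.mp h4) hne

theorem indep (hQ : HermQ L Q) (hQE : (Q : E) ≠ 0) {mu : HP L → E} (hmu : MuOk mu) (β : L)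
    (hβ : β + star β = 1) (hV : Vmu mu ≠ ⊥) (x : L → E)
    (hx : ∑ s, x s • rtV mu (pt β hβ s) = 0) (s₀ : L) : x s₀ = 0 := by
  have h1 : ∀ a, ∑ s, (x s * lamt mu (cf a s)) • rtV mu (pt β hβ s) = 0 := by
    intro a
    have h2 : rtV mu (pt β hβ a) * (∑ s, x s • rtV mu (pt β hβ s)) * rtV mu (pt β hβ a)⁻¹ = 0 := by
      rw [hx, mul_zero, zero_mul]
    rw [Finset.mul_sum, Finset.sum_mul] at h2
    rw [← h2]
    apply Finset.sum_congr rfl
    intro s _
    rw [mul_smul_comm, smul_mul_assoc, conj, smul_smul]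
  have h3 : ∑ a, lamt mu (-cf a s₀) • ∑ s, (x s * lamt mu (cf a s)) • rtV mu (pt β hβ s) = 0 := by
    apply Finset.sum_eq_zero
    intro a _
    rw [h1 a, smul_zero]
  have h4 : ∀ s, ∑ a, lamt mu (-cf a s₀) * (x s * lamt mu (cf a s)) =
      x s * ∑ a, lamt mu (cf a (s - s₀)) := by
    intro s
    rw [Finset.mul_sum]
    apply Finset.sum_congr rfl
    intro a _
    rw [cf_sub, lamt_add hmu _ _ (cf_tz _ _) (cf_neg_tz _ _)]
    ring
  have h5 : ∑ s, (x s * ∑ a, lamt mu (cf a (s - s₀))) • rtV mu (pt β hβ s) = 0 := by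
    rw [← h3]
    simp only [Finset.smul_sum, smul_smul]
    rw [Finset.sum_comm]
    apply Finset.sum_congr rfl
    intro s _
    rw [← Finset.sum_smul, h4]
  rw [Finset.sum_eq_single s₀] at h5
  · have h6 : ∑ a, lamt mu (cf a (s₀ - s₀)) = (Q : E) ^ 2 := by
      have h7 : ∀ a : L, lamt mu (cf a (s₀ - s₀)) = 1 := by
        intro a
        rw [sub_self]
        have : cf a (0 : L) = 0 := by simp [cf]
        rw [this, lamt_zero hmu]
      rw [Finset.sum_congr rfl (fun a _ => h7 a), Finset.sum_const, Finset.card_univ, hQ.card,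
        nsmul_eq_mul, mul_one, Nat.cast_pow]
    rw [h6] at h5
    rcases smul_eq_zero.mp h5 with h8 | h8
    · rcases mul_eq_zero.mp h8 with h9 | h9
      · exact h9
      · exact absurd (pow_eq_zero_iff (two_ne_zero)|>.mp h9) hQE
    · exact absurd h8 (rtV_ne hV _)
  · intro s _ hs
    rw [sum_lamt hQ hmu (s - s₀) (sub_ne_zero.mpr hs), mul_zero, zero_smul]
  · intro h
    exact absurd (Finset.mem_univ s₀) h

/-- the combination of the translations -/
noncomputable def Psi (mu : HP L → E) (β : L) (hβ : β + star β = 1) :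
    (L → E) →ₗ[E] (Vmu mu →ₗ[E] Vmu mu) where
  toFun x := ∑ s, x s • rtV mu (pt β hβ s)
  map_add' x y := by
    have h1 : ∀ s ∈ (Finset.univ : Finset L), (x + y) s • rtV mu (pt β hβ s) =
        x s • rtV mu (pt β hβ s) + y s • rtV mu (pt β hβ s) := fun s _ => add_smul _ _ _
    exact (Finset.sum_congr rfl h1).trans Finset.sum_add_distrib
  map_smul' c x := by
    have h1 : ∀ s ∈ (Finset.univ : Finset L), (c • x) s • rtV mu (pt β hβ s) =
        c • (x s • rtV mu (pt β hβ s)) := fun s _ => mul_smul _ _ _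
    exact (Finset.sum_congr rfl h1).trans (Finset.smul_sum).symm

theorem Psi_apply (mu : HP L → E) (β : L) (hβ : β + star β = 1) (x : L → E) :
    Psi mu β hβ x = ∑ s, x s • rtV mu (pt β hβ s) := rfl

theorem Psi_inj (hQ : HermQ L Q) (hQE : (Q : E) ≠ 0) {mu : HP L → E} (hmu : MuOk mu) (β : L)
    (hβ : β + star β = 1) (hV : Vmu mu ≠ ⊥) : Function.Injective (Psi mu β hβ) := by
  intro x y hxy
  have h1 : Psi mu β hβ (x - y) = 0 := by
    apply LinearMap.ext
    intro v
    have h2 : Psi mu β hβ (x - y) + Psi mu β hβ y = Psi mu β hβ x := by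
      rw [← map_add, sub_add_cancel]
    have h3 := congrArg (fun F : Vmu mu →ₗ[E] Vmu mu => F v) h2
    have h4 : Psi mu β hβ (x - y) v + Psi mu β hβ y v = Psi mu β hβ x v := h3
    rw [hxy] at h4
    exact add_eq_right.mp h4
  funext s
  exact sub_eq_zero.mp (indep hQ hQE hmu β hβ hV (x - y) h1 s)

theorem surj_of (hQ : HermQ L Q) (W : Submodule E (HP L → E)) (hW : Module.finrank E W ≤ Q)
    (f : (L → E) →ₗ[E] (W →ₗ[E] W)) (hf : Function.Injective f) : Function.Surjective f :=
  surjAbs hQ.card hW f hf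

/-- the fixed elements -/
def L0 (L : Type) [Field L] [StarRing L] : AddSubgroup L where
  carrier := {r | star r = r}
  add_mem' := by
    intro a b ha hb
    have ha' : star a = a := ha
    have hb' : star b = b := hb
    show star (a + b) = a + b
    rw [star_add, ha', hb']
  zero_mem' := star_zero L
  neg_mem' := by
    intro a ha
    have ha' : star a = a := ha
    show star (-a) = -a
    rw [star_neg, ha']

theorem card_quot (hQ : HermQ L Q) : Nat.card (L ⧸ L0 L) = Q := by
  have h1 := AddSubgroup.card_eq_card_quotient_mul_card_addSubgroup (L0 L)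
  have h2 : Nat.card (L0 L) = Q := by
    rw [← hQ.card_fix, ← Fintype.card_subtype, ← Nat.card_eq_fintype_card]
    rfl
  have h3 : Nat.card L = Q ^ 2 := by
    rw [Nat.card_eq_fintype_card, hQ.card]
  have h4 := hQ.two_le
  rw [h2, h3, pow_two] at h1
  exact (Nat.eq_of_mul_eq_mul_right (by omega) h1).symm

theorem finrank_le (hQ : HermQ L Q) (mu : HP L → E) : Module.finrank E (Vmu mu) ≤ Q := by
  obtain ⟨β, hβ⟩ := hQ.exists_beta
  have hfin : Fintype (L ⧸ L0 L) := Fintype.ofFinite _
  let φ : Vmu mu →ₗ[E] ((L ⧸ L0 L) → E) :=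
    { toFun := fun f q => (f : HP L → E) (pt β hβ (Quotient.out q))
      map_add' := fun _ _ => rfl
      map_smul' := fun _ _ => rfl }
  have hφ : Function.Injective φ := by
    rw [injective_iff_map_eq_zero]
    intro f hf
    apply Subtype.ext
    funext z
    show (f : HP L → E) z = 0
    have h1 : (f : HP L → E) (pt β hβ (Quotient.out (QuotientAddGroup.mk z.x : L ⧸ L0 L))) = 0 :=
      congrFun hf (QuotientAddGroup.mk z.x)
    have h2 : -(Quotient.out (QuotientAddGroup.mk z.x : L ⧸ L0 L)) + z.x ∈ L0 L := by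
      rw [← QuotientAddGroup.eq]
      exact QuotientAddGroup.out_eq' _
    have h3 : star (z * (pt β hβ (Quotient.out (QuotientAddGroup.mk z.x : L ⧸ L0 L)))⁻¹).x =
        (z * (pt β hβ (Quotient.out (QuotientAddGroup.mk z.x : L ⧸ L0 L)))⁻¹).x := by
      have h4 : (z * (pt β hβ (Quotient.out (QuotientAddGroup.mk z.x : L ⧸ L0 L)))⁻¹).x =
          -(Quotient.out (QuotientAddGroup.mk z.x : L ⧸ L0 L)) + z.x := by
        rw [mul_x, inv_x, add_comm]
        rfl
      rw [h4]
      exact h2
    have h5 := f.2 _ (pt β hβ (Quotient.out (QuotientAddGroup.mk z.x : L ⧸ L0 L))) h3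
    rw [inv_mul_cancel_right, h1, mul_zero] at h5
    exact h5
  have h := LinearMap.finrank_le_finrank_of_injective hφ
  rw [Module.finrank_pi, ← Nat.card_eq_fintype_card, card_quot hQ] at h
  exact h

end

end UniSpanAux

theorem vmu_central {mu : HP L → E} {f : HP L → E} (hf : f ∈ Vmu mu) (b : L)
    (hb : b + star b = 0) (z : HP L) : f (z * zc b hb) = mu (zc b hb) * f z :=
  UniSpanAux.central hf b hb z

variable [Fintype L]

theorem vmu_finrank (hQ : HermQ L Q) (mu : HP L → E) : Module.finrank E (Vmu mu) ≤ Q :=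
  UniSpanAux.finrank_le hQ mu

theorem span_rt (hQ : HermQ L Q) (hQE : (Q : E) ≠ 0) {mu : HP L → E} (hmu : MuOk mu) (β : L)
    (hβ : β + star β = 1) (F : Module.End E (Vmu mu)) :
    ∃ x : L → E, F = ∑ s, x s • rtV mu (pt β hβ s) := by
  by_cases hV : Vmu mu = ⊥
  · refine ⟨fun _ => 0, ?_⟩
    apply LinearMap.ext
    intro f
    have : Subsingleton (Vmu mu) := by
      rw [hV]
      infer_instance
    exact Subsingleton.elim _ _
  · have hinj := UniSpanAux.Psi_inj hQ hQE hmu β hβ hV
    obtain ⟨x, hx⟩ := UniSpanAux.surj_of hQ (Vmu mu) (vmu_finrank hQ mu) _ hinj F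
    exact ⟨x, hx.symm⟩

/-- uniqueness of the coefficients -/
theorem rt_indep (hQ : HermQ L Q) (hQE : (Q : E) ≠ 0) {mu : HP L → E} (hmu : MuOk mu) (β : L)
    (hβ : β + star β = 1) (hV : Vmu mu ≠ ⊥) (x : L → E)
    (hx : ∑ s, x s • rtV mu (pt β hβ s) = 0) (s : L) : x s = 0 :=
  UniSpanAux.indep hQ hQE hmu β hβ hV x hx s

end LTL
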