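import Pool.Agent.Lib.LTL.UniBase
import Pool.Agent.Lib.LTL.UniSpan
import Pool.Agent.Lib.LTL.Char

/-!
# Module LTL.UniA0: characters of the abelian group `A₀` (MP_61e83e_lc)

`A0 L` is the set of the `g : HP L` with `star g.x = g.x`, as an additively written commutative group
(`A0 L` is a structure with `Zero, Add, Neg` given by the operations of `HP L`). Its order is `Q²`.
PROOFS. Commutativity: `star g.x * z.x = g.x * z.x`. Order: `L₀` has `Q` elements, each fibre `Q`
(`vbl_card`). `nu χ g = χ ⟨g, _⟩` for `g ∈ A₀`, `0` otherwise.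
`a0_decomp`: `∑ χ, χ (-h)`-orthogonality (`sum_char`, `card_char`): with
`f_χ z = ∑ h : A0 L, χ (-h) * f (h * z)` one has `∑ χ, f_χ z = Q² f z`: the coefficient of `f (h * z)` is
`∑ χ, χ (-h)`, `0` for `h ≠ 0` and `Q²` for `h = 0`.
`a0_trans`: reindex `h ↦ h + h'`: `f_χ (h' * z) = χ h' * f_χ z`.
`a0_twist`: let `χ, χ'` agree on the centre. `θ s := χ g / χ' g` for any `g ∈ A₀` with `g.x = s` is a
character of the additive group `L₀` (well defined: two such `g` differ by a central element). Let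
`lam b = χ (zc b)` (`b ∈ TZ`), nontrivial. For `d ∈ TZ` let `θ_d s = lam (d s)` (`d s ∈ TZ` for `s ∈ L₀`). The map
`d ↦ θ_d` is injective (for `e ≠ 0` in `TZ`, `{e s : s ∈ L₀} = TZ` and `lam ≠ 1`), `|TZ| = Q = |L₀|`; by
`char_all` every character of `L₀` is some `θ_d`. So `θ = θ_d`; choose `a` with `star a - a = d`
(`tz_surj`): this is the statement.
-/

set_option autoImplicit false
open Classical

namespace LTL

variable (L : Type) [Field L] [StarRing L]

/-- the abelian group `A₀` -/
@[ext] structure A0 where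
  /-- the point -/
  g : HP L
  h : star g.x = g.x

variable {L}

instance : Add (A0 L) := ⟨fun a b => ⟨a.g * b.g, by simp [a.h, b.h]⟩⟩

instance : Zero (A0 L) := ⟨⟨1, by simp⟩⟩

instance : Neg (A0 L) := ⟨fun a => ⟨(a.g)⁻¹, by simp [a.h]⟩⟩

noncomputable instance : AddCommGroup (A0 L) :=
  { AddGroup.ofLeftAxioms (G := A0 L) (fun a b c => A0.ext (mul_assoc a.g b.g c.g))
      (fun a => A0.ext (one_mul a.g)) (fun a => A0.ext (inv_mul_cancel a.g)) with
    add_comm := fun a b => A0.ext (HP.ext (add_comm a.g.x b.g.x) (by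
      have h1 := a.h
      have h2 := b.h
      change a.g.y + b.g.y + star a.g.x * b.g.x = b.g.y + a.g.y + star b.g.x * a.g.x
      rw [h1, h2]
      ring)) }

theorem a0_add (a b : A0 L) : (a + b).g = a.g * b.g := rfl

theorem a0_zero : (0 : A0 L).g = 1 := rfl

theorem a0_neg (a : A0 L) : (-a).g = (a.g)⁻¹ := rfl

/-- the central elements as elements of `A₀` -/
def zA (b : L) (hb : b + star b = 0) : A0 L := ⟨zc b hb, by simp [zc]⟩

variable {E : Type} [Field E] [Fintype L] {Q : ℕ}

noncomputable instance : Fintype (A0 L) :=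
  Fintype.ofInjective (fun a : A0 L => a.g) fun _ _ h => A0.ext h

theorem card_A0 (hQ : HermQ L Q) : Nat.card (A0 L) = Q ^ 2 := by
  have h1 : Nat.card (A0 L) = (Finset.univ.filter fun g : HP L => star g.x = g.x).card := by
    rw [Nat.card_eq_fintype_card, ← Finset.card_univ]
    refine Finset.card_bij (fun a _ => a.g) ?_ ?_ ?_
    · intro a _
      exact Finset.mem_filter.2 ⟨Finset.mem_univ _, a.h⟩
    · intro a _ b _ hab
      exact A0.ext hab
    · intro g hg
      exact ⟨⟨g, (Finset.mem_filter.1 hg).2⟩, Finset.mem_univ _, rfl⟩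
  rw [h1, Finset.card_eq_sum_card_fiberwise (f := fun g : HP L => g.x)
    (t := Finset.univ.filter fun r : L => star r = r) (by
      intro g hg
      have hg' := (Finset.mem_filter.1 hg).2
      exact Finset.mem_filter.2 ⟨Finset.mem_univ _, hg'⟩)]
  have h2 : ∀ b ∈ (Finset.univ.filter fun r : L => star r = r),
      ((Finset.univ.filter fun g : HP L => star g.x = g.x).filter fun g => g.x = b).card = Q := by
    intro b hb
    have hb' := (Finset.mem_filter.1 hb).2
    rw [← hQ.vbl_card b]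
    refine Finset.card_bij (fun g _ => g) ?_ (fun _ _ _ _ h => h) ?_
    · intro g hg
      exact (mem_vbl b g).2 (Finset.mem_filter.1 hg).2
    · intro g hg
      have hgb := (mem_vbl b g).1 hg
      refine ⟨g, ?_, rfl⟩
      rw [Finset.mem_filter, Finset.mem_filter]
      exact ⟨⟨Finset.mem_univ _, by rw [hgb]; exact hb'⟩, hgb⟩
  rw [Finset.sum_congr rfl h2, Finset.sum_const, hQ.card_fix, smul_eq_mul, sq]

/-- a character of `A₀` as a function on all points -/
noncomputable def nu (χ : AddChar (A0 L) E) (g : HP L) : E :=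
  if h : star g.x = g.x then χ ⟨g, h⟩ else 0

/-- the component of `f` for the character `χ` of `A₀` -/
noncomputable def cmp (χ : AddChar (A0 L) E) (f : Option (HP L) → E) (z : Option (HP L)) : E :=
  ∑ h : A0 L, χ (-h) * f (z.map fun z => h.g * z)

theorem sum_cmp [IsAlgClosed E] (hQ : HermQ L Q) (hQE : (Q : E) ≠ 0) (f : Option (HP L) → E)
    (z : Option (HP L)) : ∑ χ : AddChar (A0 L) E, cmp χ f z = (Q : E) ^ 2 * f z := by
  have hA : (Nat.card (A0 L) : E) ≠ 0 := by
    rw [card_A0 hQ, Nat.cast_pow]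
    exact pow_ne_zero 2 hQE
  simp only [cmp]
  rw [Finset.sum_comm]
  rw [Finset.sum_eq_single_of_mem (0 : A0 L) (Finset.mem_univ _)]
  · rw [← Finset.sum_mul]
    have h1 : ∑ χ : AddChar (A0 L) E, χ (-0) = (Q : E) ^ 2 := by
      simp only [neg_zero, AddChar.map_zero_eq_one]
      rw [Finset.sum_const, Finset.card_univ, card_char hA, card_A0 hQ, nsmul_eq_mul, mul_one,
        Nat.cast_pow]
    rw [h1]
    congr 2
    cases z with
    | none => rfl
    | some z =>
      rw [Option.map_some, a0_zero, one_mul]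
  · intro h _ hh
    rw [← Finset.sum_mul, sum_char hA (-h) (neg_ne_zero.2 hh), zero_mul]

theorem cmp_mem (χ : AddChar (A0 L) E) (f : Option (HP L) → E) :
    (fun z => cmp χ f (some z)) ∈ Vmu (nu χ) := by
  intro g z hg
  show cmp χ f (some (g * z)) = nu χ g * cmp χ f (some z)
  rw [nu, dif_pos hg]
  simp only [cmp, Option.map_some]
  rw [Finset.mul_sum]
  refine Fintype.sum_equiv (Equiv.addRight (⟨g, hg⟩ : A0 L)) _ _ ?_
  intro h
  have h1 : ((Equiv.addRight (⟨g, hg⟩ : A0 L)) h) = h + ⟨g, hg⟩ := rfl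
  rw [h1, a0_add, mul_assoc h.g, ← mul_assoc (χ ⟨g, hg⟩), ← AddChar.map_add_eq_mul]
  congr 2
  congr 1
  abel

theorem cmp_none (χ : AddChar (A0 L) E) (hχ : χ ≠ 1) (f : Option (HP L) → E) :
    cmp χ f none = 0 := by
  simp only [cmp, Option.map_none]
  rw [← Finset.sum_mul]
  have h1 : ∑ h : A0 L, χ (-h) = ∑ h : A0 L, χ h :=
    Fintype.sum_equiv (Equiv.neg (A0 L)) _ _ fun h => rfl
  rw [h1, AddChar.sum_eq_zero_of_ne_one hχ, zero_mul]

theorem nu_ok (χ : AddChar (A0 L) E) (h : ∃ (b : L) (hb : b + star b = 0), χ (zA b hb) ≠ 1) :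
    MuOk (nu χ) where
  mul := by
    intro g h hg hh
    have hgh : star (g * h).x = (g * h).x := by
      rw [mul_x, star_add, hg, hh]
    rw [nu, nu, nu, dif_pos hg, dif_pos hh, dif_pos hgh, ← AddChar.map_add_eq_mul]
    rfl
  one := by
    have h1 : star (1 : HP L).x = (1 : HP L).x := by simp
    rw [nu, dif_pos h1]
    exact AddChar.map_zero_eq_one χ
  nt := by
    obtain ⟨b, hb, hne⟩ := h
    refine ⟨b, hb, ?_⟩
    have h1 : star (zc b hb).x = (zc b hb).x := (zA b hb).h
    rw [nu, dif_pos h1]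
    exact hne

namespace UniA0Aux

/-- the fixed elements -/
def L0 (L : Type) [Field L] [StarRing L] : AddSubgroup L where
  carrier := {s | star s = s}
  zero_mem' := by
    show star (0 : L) = 0
    exact star_zero L
  add_mem' := by
    intro a b ha hb
    have ha' : star a = a := ha
    have hb' : star b = b := hb
    show star (a + b) = a + b
    rw [star_add, ha', hb']
  neg_mem' := by
    intro a ha
    have ha' : star a = a := ha
    show star (-a) = -a
    rw [star_neg, ha']

theorem mem_L0 (s : L) : s ∈ L0 L ↔ star s = s := Iff.rfl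

theorem card_L0 (hQ : HermQ L Q) : Nat.card (L0 L) = Q := by
  rw [← hQ.card_fix, Nat.card_eq_fintype_card]
  exact Fintype.card_subtype _

theorem card_TZ (hQ : HermQ L Q) : Nat.card {b : L // b + star b = 0} = Q := by
  rw [← hQ.card_tz, Nat.card_eq_fintype_card]
  exact Fintype.card_subtype _

omit [Fintype L] in
theorem tz_mul {d s : L} (hd : d + star d = 0) (hs : star s = s) :
    d * s + star (d * s) = 0 := by
  rw [star_mul', hs, ← add_mul, hd, zero_mul]

omit [Fintype L] in
theorem zA_add (b c : L) (hb : b + star b = 0) (hc : c + star c = 0)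
    (hbc : (b + c) + star (b + c) = 0) : zA (b + c) hbc = zA b hb + zA c hc := by
  apply A0.ext
  rw [a0_add]
  apply HP.ext
  · show (0 : L) = 0 + 0
    rw [add_zero]
  · show b + c = b + c + star (0 : L) * 0
    rw [mul_zero, add_zero]

omit [Fintype L] in
theorem zA_zero (h : (0 : L) + star (0 : L) = 0) : zA (0 : L) h = 0 := by
  apply A0.ext
  rw [a0_zero]
  rfl

/-- the quotient of two characters -/
noncomputable def ratio (χ χ' : AddChar (A0 L) E) (g : A0 L) : E := χ g * χ' (-g)

omit [Fintype L] in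
theorem ratio_add (χ χ' : AddChar (A0 L) E) (g h : A0 L) :
    ratio χ χ' (g + h) = ratio χ χ' g * ratio χ χ' h := by
  rw [ratio, ratio, ratio, AddChar.map_add_eq_mul, neg_add, AddChar.map_add_eq_mul]
  ring

omit [Fintype L] in
theorem ratio_mul (χ χ' : AddChar (A0 L) E) (g : A0 L) : ratio χ χ' g * χ' g = χ g := by
  rw [ratio, mul_assoc, ← AddChar.map_add_eq_mul, neg_add_cancel, AddChar.map_zero_eq_one, mul_one]

omit [Fintype L] in
theorem ratio_zA (χ χ' : AddChar (A0 L) E)
    (hz : ∀ (b : L) (hb : b + star b = 0), χ (zA b hb) = χ' (zA b hb)) (b : L)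
    (hb : b + star b = 0) : ratio χ χ' (zA b hb) = 1 := by
  rw [ratio, hz, ← AddChar.map_add_eq_mul, add_neg_cancel, AddChar.map_zero_eq_one]

omit [Fintype L] in
theorem ratio_congr (χ χ' : AddChar (A0 L) E)
    (hz : ∀ (b : L) (hb : b + star b = 0), χ (zA b hb) = χ' (zA b hb)) (g h : A0 L)
    (hgh : g.g.x = h.g.x) : ratio χ χ' g = ratio χ χ' h := by
  have hx : (g + -h).g.x = 0 := by
    rw [a0_add, a0_neg, mul_x, inv_x, hgh, add_neg_cancel]
  have hy : (g + -h).g.y + star (g + -h).g.y = 0 := by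
    rw [(g + -h).g.h, hx, zero_mul]
  have h1 : g + -h = zA (g + -h).g.y hy := by
    apply A0.ext
    apply HP.ext
    · exact hx
    · rfl
  have h2 : g = (g + -h) + h := by abel
  rw [h2, ratio_add, h1, ratio_zA χ χ' hz, one_mul]

theorem exists_lift (hQ : HermQ L Q) (s : L) (hs : star s = s) : ∃ g : A0 L, g.g.x = s := by
  have h1 : star (s * star s) = s * star s := by
    rw [hs, star_mul', hs]
  have h2 := hQ.fib_card (s * star s) h1
  have h3 : 0 < (Finset.univ.filter fun y : L => y + star y = s * star s).card := by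
    rw [h2]
    exact lt_of_lt_of_le Nat.zero_lt_two hQ.two_le
  obtain ⟨y, hy⟩ := Finset.card_pos.1 h3
  have hy' := (Finset.mem_filter.1 hy).2
  exact ⟨⟨⟨s, y, hy'⟩, hs⟩, rfl⟩

/-- the quotient as a character of `L₀` -/
noncomputable def theta (hQ : HermQ L Q) (χ χ' : AddChar (A0 L) E)
    (hz : ∀ (b : L) (hb : b + star b = 0), χ (zA b hb) = χ' (zA b hb)) : AddChar (L0 L) E where
  toFun s := ratio χ χ' (exists_lift hQ s s.2).choose
  map_zero_eq_one' := by
    have h0 : (0 : L) + star (0 : L) = 0 := by simp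
    have h1 := (exists_lift hQ ((0 : L0 L) : L) (0 : L0 L).2).choose_spec
    rw [ratio_congr χ χ' hz _ (zA (0 : L) h0) h1, ratio_zA χ χ' hz]
  map_add_eq_mul' := by
    intro s t
    have h1 := (exists_lift hQ ((s + t : L0 L) : L) (s + t : L0 L).2).choose_spec
    have h2 := (exists_lift hQ (s : L) s.2).choose_spec
    have h3 := (exists_lift hQ (t : L) t.2).choose_spec
    rw [← ratio_add]
    apply ratio_congr χ χ' hz
    rw [h1, a0_add, mul_x, h2, h3]
    rfl

theorem theta_eq (hQ : HermQ L Q) (χ χ' : AddChar (A0 L) E)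
    (hz : ∀ (b : L) (hb : b + star b = 0), χ (zA b hb) = χ' (zA b hb)) (g : A0 L) :
    theta hQ χ χ' hz ⟨g.g.x, g.h⟩ = ratio χ χ' g := by
  apply ratio_congr χ χ' hz
  exact (exists_lift hQ ((⟨g.g.x, g.h⟩ : L0 L) : L) (⟨g.g.x, g.h⟩ : L0 L).2).choose_spec

/-- the characters `s ↦ χ (0, d s)` of `L₀` -/
noncomputable def thd (χ : AddChar (A0 L) E) (d : {b : L // b + star b = 0}) :
    AddChar (L0 L) E where
  toFun s := χ (zA (d * s) (tz_mul d.2 s.2))
  map_zero_eq_one' := by
    have h1 : zA ((d : L) * ((0 : L0 L) : L)) (tz_mul d.2 (0 : L0 L).2) = 0 := by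
      apply A0.ext
      rw [a0_zero]
      apply HP.ext
      · rfl
      · show (d : L) * ((0 : L0 L) : L) = 0
        rw [AddSubgroup.coe_zero, mul_zero]
    rw [h1, AddChar.map_zero_eq_one]
  map_add_eq_mul' := by
    intro s t
    rw [← AddChar.map_add_eq_mul]
    congr 1
    apply A0.ext
    rw [a0_add]
    apply HP.ext
    · show (0 : L) = 0 + 0
      rw [add_zero]
    · show (d : L) * ((s + t : L0 L) : L) = d * s + d * t + star (0 : L) * 0
      rw [AddSubgroup.coe_add, mul_zero, add_zero, mul_add]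

omit [Fintype L] in
theorem thd_apply (χ : AddChar (A0 L) E) (d : {b : L // b + star b = 0}) (s : L0 L) :
    thd χ d s = χ (zA (d * s) (tz_mul d.2 s.2)) := rfl

omit [Fintype L] in
theorem thd_inj (χ : AddChar (A0 L) E)
    (hnt : ∃ (b : L) (hb : b + star b = 0), χ (zA b hb) ≠ 1) : Function.Injective (thd χ) := by
  intro d d' hdd
  by_contra hne
  obtain ⟨b, hb, hb1⟩ := hnt
  apply hb1
  have he : (d : L) - d' ≠ 0 := fun h => hne (Subtype.ext (sub_eq_zero.1 h))
  have hd1 : star (d : L) = -d := (eq_neg_of_add_eq_zero_right d.2)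
  have hd2 : star (d' : L) = -d' := (eq_neg_of_add_eq_zero_right d'.2)
  have hb2 : star b = -b := (eq_neg_of_add_eq_zero_right hb)
  have hs : star (b / ((d : L) - d')) = b / ((d : L) - d') := by
    rw [star_div₀, star_sub, hd1, hd2, hb2]
    rw [show -(d : L) - -(d' : L) = -((d : L) - d') by ring, neg_div_neg_eq]
  let s : L0 L := ⟨b / ((d : L) - d'), hs⟩
  have h1 : thd χ d s = thd χ d' s := by rw [hdd]
  rw [thd_apply, thd_apply] at h1
  have h2 : zA ((d : L) * s) (tz_mul d.2 s.2) = zA b hb + zA ((d' : L) * s) (tz_mul d'.2 s.2) := by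
    apply A0.ext
    rw [a0_add]
    apply HP.ext
    · show (0 : L) = 0 + 0
      rw [add_zero]
    · show (d : L) * (b / ((d : L) - d')) =
        b + (d' : L) * (b / ((d : L) - d')) + star (0 : L) * 0
      field_simp
      ring
  rw [h2, AddChar.map_add_eq_mul] at h1
  have h3 : χ (zA ((d' : L) * s) (tz_mul d'.2 s.2)) ≠ 0 := by
    intro h0
    have h4 := AddChar.map_add_eq_mul χ (zA ((d' : L) * s) (tz_mul d'.2 s.2))
      (-(zA ((d' : L) * s) (tz_mul d'.2 s.2)))
    rw [add_neg_cancel, AddChar.map_zero_eq_one, h0, zero_mul] at h4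
    exact one_ne_zero h4
  exact mul_right_cancel₀ h3 (by rw [h1, one_mul])

end UniA0Aux

open UniA0Aux in
theorem a0_twist (hQ : HermQ L Q) (χ χ' : AddChar (A0 L) E)
    (hz : ∀ (b : L) (hb : b + star b = 0), χ (zA b hb) = χ' (zA b hb))
    (hnt : ∃ (b : L) (hb : b + star b = 0), χ (zA b hb) ≠ 1) :
    ∃ a : L, ∀ (g : A0 L) (hg : (star a - a) * g.g.x + star ((star a - a) * g.g.x) = 0),
      χ g = χ (zA ((star a - a) * g.g.x) hg) * χ' g := by
  obtain ⟨d, hd⟩ := char_all (thd χ) (thd_inj χ hnt)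
    (by rw [card_L0 hQ, card_TZ hQ]) (theta hQ χ χ' hz)
  obtain ⟨a, ha⟩ := hQ.tz_surj d d.2
  refine ⟨a, fun g hg => ?_⟩
  have h1 := theta_eq hQ χ χ' hz g
  rw [← hd, thd_apply] at h1
  have h2 : zA ((star a - a) * g.g.x) hg =
      zA ((d : L) * ((⟨g.g.x, g.h⟩ : L0 L) : L)) (tz_mul d.2 (⟨g.g.x, g.h⟩ : L0 L).2) := by
    apply A0.ext
    apply HP.ext
    · rfl
    · show (star a - a) * g.g.x = (d : L) * g.g.x
      rw [ha]
  rw [h2, h1, ratio_mul]

end LTL
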