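import Pool.Agent.Lib.LTL.UniBase
import Pool.Agent.Lib.LTL.Red
import Pool.Agent.Lib.LTL.Char

/-!
# Module LTL.UniAvg: averages over the vertical blocks (MP_61e83e_lc)

PROOF. Let `N = Q³ + 1` be the number of points (`HermQ.card_HP`, `Fintype.card_option`).
STEP A. If `θ : AddChar L E`, `θ ≠ 1`, then the word `W = (none ↦ 0, some z ↦ θ z.x)` is not in `D`.
Suppose `W ∈ D`. For `κ ∈ L₀`, `κ ≠ 0` put `ρ = κ⁻¹`: `star ρ / ρ ^ 2 = κ`, so
`(none ↦ 0, some z ↦ θ (κ z.x))` is in `D` (`UInv.tor`). Sum over `κ ∈ L₀ \ {0}`: as `κ ↦ θ (κ x)` is a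
character of the group `L₀` (of order `Q`), the sum over all `κ ∈ L₀` is `Q` if `x ∈ H` and `0` otherwise,
`H = {x : θ (κ x) = 1 for all κ ∈ L₀}`. So `V = (none ↦ 0, some z ↦ Q [z.x ∈ H] - 1) ∈ D`. `H` is an
additive subgroup, closed under multiplication by `L₀`, `H ≠ L` (`θ ≠ 1`) and `|H| ≤ Q`: if `h ∈ H`,
`h ≠ 0`, and `|H| > Q` then `H` contains `h' ∉ L₀ h` and so `L₀ h + L₀ h' = L` (`Q²` elements). Let
`a ∉ H` and `g` a point with `g.x = a` (exists: `vbl_card`). `W' = V ∘ (g * ·) - V ∈ D` has the values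
`0` at `none` and `Q ([a + z.x ∈ H] - [z.x ∈ H])` at `some z`: nonzero at `z = 1` (`0 ∈ H`, `a ∉ H`, and
`Q ≠ 0` in `E`), and its support is contained in `{z.x ∈ H} ∪ {a + z.x ∈ H}`: at most `2 |H| Q ≤ 2 Q²`
points. This contradicts `Good.dist` and `hbig`.
STEP B. Let `c ∈ D` and `γ x = ∑ z ∈ vbl x, c (some z)`. `γ` is constant. Otherwise, by Fourier inversion
on `L` (apply `fourier` to `x ↦ γ x - |L|⁻¹ ∑ γ`, which is nonzero somewhere and has vanishing trivial
coefficient) some `θ ≠ 1` has `S = ∑ x, θ x * γ x ≠ 0`. The word `∑ g : HP L, θ g.x • c ∘ (g * ·)` is in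
`D`; at `none` it is `c none * ∑ g, θ g.x = c none * Q * ∑ x, θ x = 0`; at `some z` it is (substitute
`g ↦ g * z⁻¹`) `∑ g, θ (g.x - z.x) c (some g) = θ (- z.x) S`. So `W` of Step A for the character
`x ↦ θ (- x)` is in `D`: contradiction.
STEP C. So `γ x = γ₀` for all `x`, `∑ z, c (some z) = Q² γ₀`. The word `V = ∑ g : HP L, c ∘ (g * ·) ∈ D` has
the value `Q³ c none` at `none` and `Q² γ₀` at all `some z`. If these were different: take `π` with
`Pres D π`, `π none = some 1` (from `Good.two`: `none ≠ some 1`, `some 1 ≠ none`); `V ∘ π - V ∈ D` vanishes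
outside `{none, π⁻¹ none}` and is nonzero at `none`: weight at most `2`, contradiction to `Good.dist` and
`hbig`. So `Q² γ₀ = Q³ c none`, `γ₀ = Q c none` (`Q ≠ 0` in `E`).
-/

set_option autoImplicit false
open Classical

namespace LTL

open P61e83e Pltc

namespace UniAvgAux

variable {L E : Type} [Field L] [Fintype L] [StarRing L] {Q : ℕ} [Field E]

/-- the word with the values `g z.x`, and `0` at infinity -/
noncomputable def Wd (g : L → E) : Option (HP L) → E := fun z => z.elim 0 fun z => g z.x

omit [Fintype L] in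
theorem Wd_none (g : L → E) : Wd (L := L) g none = 0 := rfl

omit [Fintype L] in
theorem Wd_some (g : L → E) (z : HP L) : Wd g (some z) = g z.x := rfl

theorem card_filter_le (hQ : HermQ L Q) (S : Finset L) :
    (Finset.univ.filter fun z : HP L => z.x ∈ S).card ≤ S.card * Q := by
  have h1 : (Finset.univ.filter fun z : HP L => z.x ∈ S) = S.biUnion fun a => vbl a := by
    ext z
    simp only [Finset.mem_filter, Finset.mem_univ, true_and, Finset.mem_biUnion]
    constructor
    · intro h
      exact ⟨z.x, h, (mem_vbl _ _).mpr rfl⟩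
    · rintro ⟨a, ha, hz⟩
      rw [(mem_vbl _ _).mp hz]
      exact ha
  rw [h1]
  refine Finset.card_biUnion_le.trans ?_
  rw [Finset.sum_congr rfl fun a _ => hQ.vbl_card a, Finset.sum_const, smul_eq_mul]

theorem exists_point (hQ : HermQ L Q) (a : L) : ∃ g : HP L, g.x = a := by
  have h1 : 0 < (vbl a).card := by
    rw [hQ.vbl_card a]
    exact lt_of_lt_of_le two_pos hQ.two_le
  obtain ⟨g, hg⟩ := Finset.card_pos.mp h1
  exact ⟨g, (mem_vbl _ _).mp hg⟩

theorem sum_HP (f : L → HP L → E) :
    ∑ z : HP L, f z.x z = ∑ x : L, ∑ z ∈ vbl x, f x z := by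
  rw [← Finset.sum_fiberwise Finset.univ (fun z : HP L => z.x) (fun z => f z.x z)]
  refine Finset.sum_congr rfl fun x _ => ?_
  have : (Finset.univ.filter fun z : HP L => z.x = x) = vbl x := by
    ext z
    simp only [Finset.mem_filter, Finset.mem_univ, true_and]
    exact (mem_vbl _ _).symm
  rw [this]
  refine Finset.sum_congr rfl fun z hz => ?_
  rw [(mem_vbl _ _).mp hz]

theorem card_ge (hQ : HermQ L Q) (H : Finset L) (a : L) (ha : a ∉ H)
    (hadd : ∀ x ∈ H, ∀ y ∈ H, x - y ∈ H)
    (hmul : ∀ r : L, star r = r → ∀ x ∈ H, r * x ∈ H) : H.card ≤ Q := by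
  have hF := hQ.card_fix
  let F : Finset L := Finset.univ.filter fun r : L => star r = r
  have hinj : Set.InjOn (fun p : L × L => p.1 + p.2 * a) (H ×ˢ F : Finset (L × L)) := by
    rintro ⟨x, r⟩ h1 ⟨y, t⟩ h2 h
    rw [Finset.mem_coe, Finset.mem_product] at h1 h2
    have hr : star r = r := (Finset.mem_filter.mp h1.2).2
    have ht : star t = t := (Finset.mem_filter.mp h2.2).2
    simp only at h
    by_cases hrt : r = t
    · subst hrt
      have : x = y := by linear_combination h
      rw [this]
    · exfalso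
      apply ha
      have h3 : r - t ≠ 0 := sub_ne_zero.mpr hrt
      have h4 : a = (r - t)⁻¹ * (y - x) := by
        field_simp
        linear_combination h
      rw [h4]
      refine hmul _ ?_ _ (hadd _ h2.1 _ h1.1)
      rw [star_inv₀, star_sub, hr, ht]
  have h5 := Finset.card_le_univ ((H ×ˢ F).image fun p : L × L => p.1 + p.2 * a)
  rw [Finset.card_image_of_injOn hinj, Finset.card_product, hQ.card] at h5
  have h6 : F.card = Q := hF
  rw [h6, pow_two] at h5
  exact Nat.le_of_mul_le_mul_right h5 (lt_of_lt_of_le two_pos hQ.two_le)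

end UniAvgAux

open UniAvgAux

section

variable {L E : Type} [Field L] [Fintype L] [StarRing L] {Q : ℕ} [Field E]

namespace UniAvgAux

theorem small (hQ : HermQ L Q) (D : Submodule E (Option (HP L) → E)) (q : ℕ)
    (δ : ℝ) (hD : Good D q δ) (hbig : 2 * (Q : ℝ) ^ 2 < δ * ((Q : ℝ) ^ 3 + 1))
    (f : Option (HP L) → E) (hf : f ∈ D) (hw : wt f ≤ 2 * Q ^ 2) : f = 0 := by
  by_contra h0
  have h1 := hD.dist f hf h0
  rw [Fintype.card_option, hQ.card_HP] at h1
  push_cast at h1
  have h2 : (wt f : ℝ) ≤ 2 * (Q : ℝ) ^ 2 := by exact_mod_cast hw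
  linarith

theorem stepA (hQ : HermQ L Q) (hQE : (Q : E) ≠ 0) (D : Submodule E (Option (HP L) → E)) (q : ℕ)
    (δ : ℝ) (hD : Good D q δ) (hinv : UInv D) (hbig : 2 * (Q : ℝ) ^ 2 < δ * ((Q : ℝ) ^ 3 + 1))
    (θ : AddChar L E) (hθ : θ ≠ 1) : Wd (fun x => θ x) ∉ D := by
  intro hW
  let F : Finset L := Finset.univ.filter fun r : L => star r = r
  have hFmem : ∀ r : L, r ∈ F ↔ star r = r := fun r => by simp [F]
  have hF0 : (0 : L) ∈ F := (hFmem 0).mpr (star_zero L)
  have hFc : F.card = Q := hQ.card_fix
  let H : Finset L := Finset.univ.filter fun x : L => ∀ r ∈ F, θ (r * x) = 1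
  have hHmem : ∀ x : L, x ∈ H ↔ ∀ r ∈ F, θ (r * x) = 1 := fun x => by simp [H]
  have h0H : (0 : L) ∈ H := (hHmem 0).mpr fun r _ => by rw [mul_zero, AddChar.map_zero_eq_one]
  have hsub : ∀ x ∈ H, ∀ y ∈ H, x - y ∈ H := by
    intro x hx y hy
    rw [hHmem] at hx hy ⊢
    intro r hr
    rw [mul_sub, AddChar.map_sub_eq_div, hx r hr, hy r hr, div_one]
  have hmul : ∀ r : L, star r = r → ∀ x ∈ H, r * x ∈ H := by
    intro r hr x hx
    rw [hHmem] at hx ⊢
    intro t ht
    rw [← mul_assoc]
    refine hx _ ((hFmem _).mpr ?_)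
    rw [star_mul', hr, (hFmem _).mp ht]
  obtain ⟨a, ha⟩ : ∃ a, a ∉ H := by
    by_contra hcon
    push Not at hcon
    apply hθ
    ext x
    have h1 := (hHmem x).mp (hcon x) 1 ((hFmem 1).mpr (star_one L))
    rw [one_mul] at h1
    rw [h1]
    rfl
  have hHc : H.card ≤ Q := card_ge hQ H a ha hsub hmul
  -- the sum over the fixed field
  have hsum : ∀ x : L, ∑ r ∈ F, θ (r * x) = if x ∈ H then (Q : E) else 0 := by
    intro x
    by_cases hx : x ∈ H
    · rw [if_pos hx, Finset.sum_congr rfl fun r hr => (hHmem x).mp hx r hr, Finset.sum_const, hFc,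
        nsmul_eq_mul, mul_one]
    · rw [if_neg hx]
      have hx' := hx
      rw [hHmem] at hx'
      push Not at hx'
      obtain ⟨t, ht, htx⟩ := hx'
      have h1 : ∑ r ∈ F, θ (r * x) = ∑ r ∈ F, θ ((r + t) * x) := by
        refine Finset.sum_bij' (fun r _ => r - t) (fun r _ => r + t) ?_ ?_ ?_ ?_ ?_
        · intro r hr
          rw [hFmem] at hr ⊢
          rw [star_sub, hr, (hFmem t).mp ht]
        · intro r hr
          rw [hFmem] at hr ⊢
          rw [star_add, hr, (hFmem t).mp ht]
        · intro r _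
          ring
        · intro r _
          ring
        · intro r _
          rw [sub_add_cancel]
      have h2 : ∑ r ∈ F, θ ((r + t) * x) = (∑ r ∈ F, θ (r * x)) * θ (t * x) := by
        rw [Finset.sum_mul]
        refine Finset.sum_congr rfl fun r _ => ?_
        rw [add_mul, AddChar.map_add_eq_mul]
      rw [h2] at h1
      have h3 : (∑ r ∈ F, θ (r * x)) * (1 - θ (t * x)) = 0 := by
        linear_combination h1
      rcases mul_eq_zero.mp h3 with h4 | h4
      · exact h4
      · exact absurd (sub_eq_zero.mp h4).symm htx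
  -- the word V
  have hV : Wd (fun x => (if x ∈ H then (Q : E) else 0) - 1) ∈ D := by
    have h1 : Wd (fun x => (if x ∈ H then (Q : E) else 0) - 1) =
        ∑ r ∈ F.erase 0, (fun z : Option (HP L) => Wd (fun x => θ x)
          (z.map fun z => LTL.tor (star (r⁻¹) / (r⁻¹) ^ 2) z)) := by
      funext z
      rw [Finset.sum_apply]
      cases z with
      | none =>
        rw [Wd_none]
        exact (Finset.sum_eq_zero fun r _ => rfl).symm
      | some z =>
        rw [Wd_some, ← hsum z.x, ← Finset.add_sum_erase F (fun r => θ (r * z.x)) hF0, zero_mul,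
          AddChar.map_zero_eq_one, add_sub_cancel_left]
        refine Finset.sum_congr rfl fun r hr => ?_
        rw [Finset.mem_erase, hFmem] at hr
        have h2 : star (r⁻¹) / (r⁻¹) ^ 2 = r := by
          rw [star_inv₀, hr.2]
          have := hr.1
          field_simp
        rw [h2]
        rfl
    rw [h1]
    refine Submodule.sum_mem _ fun r hr => ?_
    rw [Finset.mem_erase] at hr
    exact hinv.tor _ (inv_ne_zero hr.1) _ hW
  obtain ⟨g, hg⟩ := exists_point hQ a
  have hW' := Submodule.sub_mem _ (hinv.mul g _ hV) hV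
  have hval : ∀ z : HP L, ((fun z : Option (HP L) =>
      Wd (fun x => (if x ∈ H then (Q : E) else 0) - 1) (z.map fun z => g * z)) -
      Wd (fun x => (if x ∈ H then (Q : E) else 0) - 1)) (some z) =
      (if a + z.x ∈ H then (Q : E) else 0) - (if z.x ∈ H then (Q : E) else 0) := by
    intro z
    have h1 : ((fun z : Option (HP L) =>
      Wd (fun x => (if x ∈ H then (Q : E) else 0) - 1) (z.map fun z => g * z)) -
      Wd (fun x => (if x ∈ H then (Q : E) else 0) - 1)) (some z) =
      ((if g.x + z.x ∈ H then (Q : E) else 0) - 1) - ((if z.x ∈ H then (Q : E) else 0) - 1) := rfl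
    rw [h1, hg]
    ring
  have hsm := small hQ D q δ hD hbig _ hW' ?_
  · have h1 := hval 1
    rw [hsm] at h1
    have h2 : a + (1 : HP L).x ∉ H := by
      rw [one_x, add_zero]
      exact ha
    have h3 : (1 : HP L).x ∈ H := by
      rw [one_x]
      exact h0H
    rw [if_neg h2, if_pos h3] at h1
    apply hQE
    have h4 : (0 : E) = 0 - Q := h1
    linear_combination h4
  · -- the weight
    let S : Finset L := Finset.univ.filter fun x => a + x ∈ H
    have hS : S.card ≤ Q := by
      refine le_trans ?_ hHc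
      refine Finset.card_le_card_of_injOn (fun x => a + x) ?_ ?_
      · intro x hx
        exact (Finset.mem_filter.mp hx).2
      · intro x _ y _ h
        exact add_left_cancel h
    have hsubset : (Finset.univ.filter fun z : Option (HP L) => ((fun z : Option (HP L) =>
        Wd (fun x => (if x ∈ H then (Q : E) else 0) - 1) (z.map fun z => g * z)) -
        Wd (fun x => (if x ∈ H then (Q : E) else 0) - 1)) z ≠ 0) ⊆
        ((Finset.univ.filter fun z : HP L => z.x ∈ S) ∪
          (Finset.univ.filter fun z : HP L => z.x ∈ H)).map Function.Embedding.some := by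
      intro z hz
      rw [Finset.mem_filter] at hz
      rw [Finset.mem_map]
      cases z with
      | none => exact absurd (show (0 : E) - 0 = 0 from sub_zero 0) hz.2
      | some z =>
        refine ⟨z, ?_, rfl⟩
        rw [Finset.mem_union]
        by_contra hcon
        rw [not_or] at hcon
        apply hz.2
        have h1 : z.x ∉ S := fun h => hcon.1 (Finset.mem_filter.mpr ⟨Finset.mem_univ _, h⟩)
        have h2 : z.x ∉ H := fun h => hcon.2 (Finset.mem_filter.mpr ⟨Finset.mem_univ _, h⟩)
        have h3 : a + z.x ∉ H := fun h => h1 (by simp [S, h])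
        rw [hval z, if_neg h3, if_neg h2, sub_zero]
    unfold wt
    refine (Finset.card_le_card hsubset).trans ?_
    rw [Finset.card_map]
    refine (Finset.card_union_le _ _).trans ?_
    have h1 := card_filter_le hQ S
    have h2 := card_filter_le hQ H
    have h3 : S.card * Q ≤ Q * Q := Nat.mul_le_mul_right _ hS
    have h4 : H.card * Q ≤ Q * Q := Nat.mul_le_mul_right _ hHc
    nlinarith

end UniAvgAux

end

theorem uni_avg {L E : Type} [Field L] [Fintype L] [StarRing L] {Q : ℕ} (hQ : HermQ L Q)
    [Field E] [IsAlgClosed E] (hQE : (Q : E) ≠ 0) (D : Submodule E (Option (HP L) → E)) (q : ℕ)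
    (δ : ℝ) (hD : Good D q δ) (hinv : UInv D) (hbig : 2 * (Q : ℝ) ^ 2 < δ * ((Q : ℝ) ^ 3 + 1))
    (c : Option (HP L) → E) (hc : c ∈ D) (a : L) : ∑ z ∈ vbl a, c (some z) = Q * c none := by
  have hcard : (Nat.card L : E) ≠ 0 := by
    rw [Nat.card_eq_fintype_card, hQ.card, Nat.cast_pow]
    exact pow_ne_zero 2 hQE
  set γ : L → E := fun x => ∑ z ∈ vbl x, c (some z) with hγ
  -- Step B
  have hconst : ∀ d x : L, γ x = γ (x + d) := by
    intro d b
    by_contra hne
    obtain ⟨χ, hχ⟩ := fourier hcard (fun x => γ x - γ (x + d)) b (sub_ne_zero.mpr hne)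
    have h1 : ∑ x, χ x * (γ x - γ (x + d)) = (1 - χ (-d)) * ∑ x, χ x * γ x := by
      have h2 : ∑ x, χ x * γ (x + d) = χ (-d) * ∑ x, χ x * γ x := by
        rw [← Equiv.sum_comp (Equiv.subRight d) fun x => χ x * γ (x + d), Finset.mul_sum]
        refine Finset.sum_congr rfl fun x _ => ?_
        rw [Equiv.subRight_apply, sub_add_cancel, sub_eq_add_neg, AddChar.map_add_eq_mul]
        ring
      rw [Finset.sum_congr rfl fun x _ => mul_sub (χ x) (γ x) (γ (x + d)),
        Finset.sum_sub_distrib, h2]
      ring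
    rw [h1] at hχ
    have hS : ∑ x, χ x * γ x ≠ 0 := right_ne_zero_of_mul hχ
    have hχ1 : χ ≠ 1 := by
      rintro rfl
      apply left_ne_zero_of_mul hχ
      rw [AddChar.one_apply, sub_self]
    have hT : (∑ g : HP L, χ g.x • fun z : Option (HP L) => c (z.map fun z => g * z)) ∈ D :=
      Submodule.sum_mem _ fun g _ => Submodule.smul_mem _ _ (hinv.mul g c hc)
    have hTe : (∑ g : HP L, χ g.x • fun z : Option (HP L) => c (z.map fun z => g * z)) =
        (∑ x, χ x * γ x) • Wd (fun x => χ⁻¹ x) := by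
      funext z
      rw [Finset.sum_apply]
      cases z with
      | none =>
        have h2 : ∑ g : HP L, χ g.x * c none = 0 := by
          rw [← Finset.sum_mul, sum_HP fun x _ => χ x]
          have h3 : ∑ x : L, ∑ z ∈ vbl x, χ x = (Q : E) * ∑ x : L, χ x := by
            rw [Finset.mul_sum]
            refine Finset.sum_congr rfl fun x _ => ?_
            rw [Finset.sum_const, hQ.vbl_card, nsmul_eq_mul]
          rw [h3, AddChar.sum_eq_zero_of_ne_one hχ1, mul_zero, zero_mul]
        have h4 : ((∑ x, χ x * γ x) • Wd (fun x => χ⁻¹ x)) none = 0 := by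
          rw [Pi.smul_apply, Wd_none, smul_zero]
        rw [h4]
        exact h2
      | some z =>
        have h2 : ∑ g : HP L, χ g.x * c (some (g * z)) = (∑ x, χ x * γ x) * χ⁻¹ z.x := by
          rw [← Equiv.sum_comp (Equiv.mulRight z⁻¹) fun g : HP L => χ g.x * c (some (g * z))]
          have h3 : ∀ w : HP L, χ ((Equiv.mulRight z⁻¹) w).x *
              c (some ((Equiv.mulRight z⁻¹) w * z)) = (χ w.x * c (some w)) * χ⁻¹ z.x := by
            intro w
            rw [Equiv.coe_mulRight, inv_mul_cancel_right, mul_x, inv_x, AddChar.map_add_eq_mul,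
              AddChar.inv_apply]
            ring
          rw [Finset.sum_congr rfl fun w _ => h3 w, ← Finset.sum_mul,
            sum_HP fun x w => χ x * c (some w)]
          congr 1
          refine Finset.sum_congr rfl fun x _ => ?_
          rw [hγ, Finset.mul_sum]
        exact h2
    rw [hTe] at hT
    have hT2 := Submodule.smul_mem D (∑ x, χ x * γ x)⁻¹ hT
    rw [smul_smul, inv_mul_cancel₀ hS, one_smul] at hT2
    refine stepA hQ hQE D q δ hD hinv hbig χ⁻¹ ?_ hT2
    intro h
    exact hχ1 (inv_eq_one.mp h)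
  have hall : ∀ x : L, γ x = γ a := by
    intro x
    have := hconst (a - x) x
    rw [this]
    congr 1
    ring
  -- Step C
  have hV : (∑ g : HP L, fun z : Option (HP L) => c (z.map fun z => g * z)) ∈ D :=
    Submodule.sum_mem _ fun g _ => hinv.mul g c hc
  set V : Option (HP L) → E := ∑ g : HP L, fun z : Option (HP L) => c (z.map fun z => g * z)
    with hVd
  have hVn : V none = (Q : E) ^ 3 * c none := by
    rw [hVd, Finset.sum_apply]
    have h1 : ∑ g : HP L, c none = (Q : E) ^ 3 * c none := by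
      rw [Finset.sum_const, Finset.card_univ, hQ.card_HP, nsmul_eq_mul, Nat.cast_pow]
    exact h1
  have hVs : ∀ z : HP L, V (some z) = (Q : E) ^ 2 * γ a := by
    intro z
    rw [hVd, Finset.sum_apply]
    have h1 : ∑ g : HP L, c (some (g * z)) = (Q : E) ^ 2 * γ a := by
      rw [← Equiv.sum_comp (Equiv.mulRight z⁻¹) fun g : HP L => c (some (g * z))]
      have h3 : ∀ w : HP L, c (some ((Equiv.mulRight z⁻¹) w * z)) = c (some w) := by
        intro w
        rw [Equiv.coe_mulRight, inv_mul_cancel_right]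
      rw [Finset.sum_congr rfl fun w _ => h3 w, sum_HP fun _ w => c (some w)]
      have h4 : ∀ x : L, ∑ z ∈ vbl x, c (some z) = γ a := fun x => hall x
      rw [Finset.sum_congr rfl fun x _ => h4 x, Finset.sum_const, Finset.card_univ, hQ.card,
        nsmul_eq_mul, Nat.cast_pow]
    exact h1
  have hVeq : V none = V (some 1) := by
    by_contra hne
    obtain ⟨π, hπ, h1, h2⟩ := hD.two none (some 1) (some 1) none (by simp) (by simp)
    have hmem := Submodule.sub_mem _ (hπ V hV) hV
    have hz := small hQ D q δ hD hbig _ hmem ?_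
    · have h3 := congrFun hz none
      have h4 : V (π none) - V none = 0 := h3
      rw [h1] at h4
      exact hne (sub_eq_zero.mp h4).symm
    · have hsubset : (Finset.univ.filter fun z : Option (HP L) =>
          ((fun z => V (π z)) - V) z ≠ 0) ⊆ {none, some 1} := by
        intro z hz
        rw [Finset.mem_filter] at hz
        by_contra hcon
        rw [Finset.mem_insert, Finset.mem_singleton, not_or] at hcon
        apply hz.2
        have h5 : π z ≠ none := fun h => hcon.2 (π.injective (h.trans h2.symm))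
        obtain ⟨w, hw⟩ := Option.ne_none_iff_exists'.mp h5
        obtain ⟨y, hy⟩ := Option.ne_none_iff_exists'.mp hcon.1
        have h6 : ((fun z => V (π z)) - V) z = V (π z) - V z := rfl
        rw [h6, hw, hy, hVs, hVs, sub_self]
      unfold wt
      refine (Finset.card_le_card hsubset).trans ?_
      refine Finset.card_le_two.trans ?_
      have := hQ.two_le
      nlinarith
  rw [hVn, hVs] at hVeq
  have h1 : (Q : E) ^ 2 * (γ a - Q * c none) = 0 := by
    linear_combination -hVeq
  rcases mul_eq_zero.mp h1 with h2 | h2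
  · exact absurd h2 (pow_ne_zero 2 hQE)
  · exact sub_eq_zero.mp h2

end LTL
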