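import Pool.Agent.Lib.LTL.UniDefs

/-!
# Module LTL.UniBase: norm and trace of `L / L₀`, point counts (MP_61e83e_lc)

`|L| = Q²`, `star x = x ^ Q`, `L₀ = {r : star r = r}`. PROOFS.
`prime_pow`: `|L| = p ^ k` and `Q ∣ p ^ k`, so `Q = p ^ f` (`Nat.dvd_prime_pow`), `f ≠ 0` as `|L| ≥ 2`.
`card_fix`: `star r = r` iff `r = 0` or `r ^ (Q - 1) = 1`; in the cyclic group `Lˣ` of order
`Q² - 1 = (Q - 1) (Q + 1)` there are exactly `Q - 1` elements with `r ^ (Q - 1) = 1`
(`IsCyclic.card_pow_eq_one_eq_gcd`-like lemmas).
`norm_card`: the map `x ↦ x ^ (Q + 1) = x * star x` is an endomorphism of `Lˣ` with kernel of order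
`Q + 1`, so its image has `Q - 1` elements; the image lies in `L₀ \ {0}` which has `Q - 1` elements; so
every `r ∈ L₀`, `r ≠ 0` has exactly `Q + 1` preimages.
`norm_gen`: the kernel `{t : t * star t = 1}` is a finite subgroup of `Lˣ`, so cyclic.
`card_tz`, `tz_surj`, `fib_card`, `exists_beta`: `T x = x + star x` is additive `L → L₀`; the map
`D x = star x - x` is additive with kernel `L₀` (`Q` elements), so its image has `Q² / Q = Q`
elements, and it is contained in `TZ = {b : b + star b = 0} = ker T`; `ker T` has at least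
`|L| / |L₀| = Q` elements and at most `Q` (`b ^ Q + b = 0` has at most `Q` roots), so the image of `D` is
`TZ`, `|TZ| = Q`, and `T` is onto `L₀` (`|image| = Q² / Q = Q`). Every fibre of `T` over `L₀` has `Q`
elements. `exists_beta`: `1 ∈ L₀`.
`card_HP`: for every `x` the `y` with `y + star y = x * star x ∈ L₀` are `Q` many. `vbl_card` is the same.
`lbl_card`: `(x, α x + γ)` is a point iff `(x - star α) * star (x - star α) = γ + star γ + α star α`
(expand); the right side is `≠ 0` and fixed by `star`: `Q + 1` solutions `x` by `norm_card`.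
`tan_card`: if the right side is `0` the only solution is `x = star α`.
`tz_mul`: for `d ∈ TZ`, `d ≠ 0`, every element of `TZ` is `d r` with `r ∈ L₀` (`r = b / d`).
-/

set_option autoImplicit false
open Classical

namespace LTL

variable {L : Type} [Field L] [Fintype L] [StarRing L] {Q : ℕ}

namespace UniBaseAux

theorem two_le (hQ : HermQ L Q) : 2 ≤ Q := by
  have h1 : 1 < Fintype.card L := Fintype.one_lt_card
  rw [hQ.card] at h1
  by_contra h
  have h2 : Q ≤ 1 := by omega
  have h3 : Q ^ 2 ≤ 1 ^ 2 := Nat.pow_le_pow_left h2 2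
  rw [one_pow] at h3
  omega

theorem card_units_filter (P : L → Prop) (h : ∀ x, P x → x ≠ 0) :
    (Finset.univ.filter fun x : L => P x).card =
      (Finset.univ.filter fun u : Lˣ => P (u : L)).card := by
  symm
  refine Finset.card_bij (fun u _ => (u : L)) ?_ ?_ ?_
  · intro u hu
    exact Finset.mem_filter.2 ⟨Finset.mem_univ _, (Finset.mem_filter.1 hu).2⟩
  · intro u _ v _ h
    exact Units.ext h
  · intro x hx
    have hx' : P x := (Finset.mem_filter.1 hx).2
    exact ⟨Units.mk0 x (h x hx'), Finset.mem_filter.2 ⟨Finset.mem_univ _, hx'⟩, rfl⟩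

theorem card_ker (m : ℕ) :
    (Finset.univ.filter fun u : Lˣ => u ^ m = 1).card =
      Nat.card (powMonoidHom m : Lˣ →* Lˣ).ker := by
  rw [Nat.card_eq_fintype_card, ← Fintype.card_subtype]
  exact Fintype.card_congr (Equiv.subtypeEquivRight fun x => Iff.rfl)

theorem card_units (hQ : HermQ L Q) : Nat.card Lˣ = (Q - 1) * (Q + 1) := by
  have h2 := two_le hQ
  rw [Nat.card_units, Nat.card_eq_fintype_card, hQ.card]
  obtain ⟨q, rfl⟩ : ∃ q, Q = q + 1 := ⟨Q - 1, by omega⟩
  have : (q + 1) ^ 2 = (q + 1 - 1) * (q + 1 + 1) + 1 := by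
    rw [Nat.add_sub_cancel]; ring
  omega

theorem card_kerA (hQ : HermQ L Q) : Nat.card (powMonoidHom (Q - 1) : Lˣ →* Lˣ).ker = Q - 1 := by
  rw [IsCyclic.card_powMonoidHom_ker, card_units hQ]
  exact Nat.gcd_eq_right (Dvd.intro _ rfl)

theorem card_kerB (hQ : HermQ L Q) : Nat.card (powMonoidHom (Q + 1) : Lˣ →* Lˣ).ker = Q + 1 := by
  rw [IsCyclic.card_powMonoidHom_ker, card_units hQ]
  exact Nat.gcd_eq_right (Dvd.intro_left _ rfl)

theorem range_eq (hQ : HermQ L Q) :
    (powMonoidHom (Q + 1) : Lˣ →* Lˣ).range = (powMonoidHom (Q - 1) : Lˣ →* Lˣ).ker := by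
  have h2 := two_le hQ
  apply Subgroup.eq_of_le_of_card_ge
  · rintro _ ⟨u, rfl⟩
    rw [MonoidHom.mem_ker, powMonoidHom_apply, powMonoidHom_apply, ← pow_mul, mul_comm,
      ← card_units hQ, pow_card_eq_one']
  · rw [card_kerA hQ, IsCyclic.card_powMonoidHom_range, card_units hQ,
      Nat.gcd_eq_right (Dvd.intro_left _ rfl), Nat.mul_div_cancel _ (by omega)]

theorem fix_iff (hQ : HermQ L Q) (r : L) : star r = r ↔ r = 0 ∨ r ^ (Q - 1) = 1 := by
  have h2 := two_le hQ
  rw [hQ.star_eq]
  have h3 : r ^ Q = r ^ (Q - 1) * r := by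
    rw [← pow_succ]
    congr 1
    omega
  rw [h3]
  constructor
  · intro h
    by_cases hr : r = 0
    · exact Or.inl hr
    · right
      exact mul_right_cancel₀ hr (by rw [h, one_mul])
  · rintro (h | h)
    · rw [h, mul_zero]
    · rw [h, one_mul]

theorem norm_eq (hQ : HermQ L Q) (x : L) : x * star x = x ^ (Q + 1) := by
  rw [hQ.star_eq, ← pow_succ']

theorem card_image (f : L →+ L) :
    (Finset.univ.filter fun x => f x = 0).card * (Finset.univ.image f).card =
      Fintype.card L := by
  have h := Finset.card_eq_sum_card_image f Finset.univ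
  rw [Finset.card_univ] at h
  rw [h, Finset.sum_congr rfl (g := fun _ => (Finset.univ.filter fun x => f x = 0).card)]
  · rw [Finset.sum_const, smul_eq_mul, mul_comm]
  · intro b hb
    obtain ⟨a, -, rfl⟩ := Finset.mem_image.1 hb
    exact AddMonoidHom.card_fiber_eq_of_mem_range f ⟨a, rfl⟩ ⟨0, map_zero f⟩

/-- the trace -/
def T : L →+ L where
  toFun x := x + star x
  map_zero' := by simp
  map_add' x y := by rw [star_add]; ring

/-- the difference -/
def D : L →+ L where
  toFun x := star x - x
  map_zero' := by simp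
  map_add' x y := by rw [star_add]; ring

theorem T_apply (x : L) : T x = x + star x := rfl
theorem D_apply (x : L) : D x = star x - x := rfl

end UniBaseAux

open UniBaseAux

theorem HermQ.prime_pow (hQ : HermQ L Q) (p : ℕ) [Fact p.Prime] [CharP L p] :
    ∃ f, f ≠ 0 ∧ Q = p ^ f := by
  obtain ⟨n, hp, hn⟩ := FiniteField.card L p
  have h2 := UniBaseAux.two_le hQ
  have h3 : Q ∣ p ^ (n : ℕ) := by
    rw [← hn, hQ.card]
    exact dvd_pow_self Q two_ne_zero
  obtain ⟨f, -, hf⟩ := (Nat.dvd_prime_pow hp).1 h3
  refine ⟨f, ?_, hf⟩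
  rintro rfl
  rw [pow_zero] at hf
  omega

theorem HermQ.two_le (hQ : HermQ L Q) : 2 ≤ Q := UniBaseAux.two_le hQ

theorem HermQ.card_fix (hQ : HermQ L Q) :
    (Finset.univ.filter fun r : L => star r = r).card = Q := by
  have h2 := hQ.two_le
  have h3 : (Finset.univ.filter fun r : L => star r = r) =
      insert 0 (Finset.univ.filter fun r : L => r ^ (Q - 1) = 1) := by
    ext r
    simp only [Finset.mem_filter, Finset.mem_univ, true_and, Finset.mem_insert]
    exact fix_iff hQ r
  have h0 : (0 : L) ^ (Q - 1) = 0 := zero_pow (by omega)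
  rw [h3, Finset.card_insert_of_notMem, card_units_filter (fun r : L => r ^ (Q - 1) = 1)]
  · have h4 : (Finset.univ.filter fun u : Lˣ => (u : L) ^ (Q - 1) = 1) =
        Finset.univ.filter fun u : Lˣ => u ^ (Q - 1) = 1 := by
      ext u
      simp only [Finset.mem_filter, Finset.mem_univ, true_and]
      rw [← Units.val_pow_eq_pow_val, Units.val_eq_one]
    rw [h4, card_ker, card_kerA hQ]
    omega
  · rintro x hx rfl
    rw [h0] at hx
    exact zero_ne_one hx
  · rw [Finset.mem_filter]
    rintro ⟨-, h⟩
    rw [h0] at h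
    exact zero_ne_one h

theorem UniBaseAux.norm_card (hQ : HermQ L Q) (r : L) (hr : star r = r) (h0 : r ≠ 0) :
    (Finset.univ.filter fun x : L => x * star x = r).card = Q + 1 := by
  have h2 := hQ.two_le
  rw [card_units_filter (fun x : L => x * star x = r)]
  · have h4 : (Finset.univ.filter fun u : Lˣ => (u : L) * star (u : L) = r) =
        Finset.univ.filter fun u : Lˣ => (powMonoidHom (Q + 1) : Lˣ →* Lˣ) u = Units.mk0 r h0 := by
      ext u
      simp only [Finset.mem_filter, Finset.mem_univ, true_and]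
      rw [norm_eq hQ, ← Units.val_pow_eq_pow_val, powMonoidHom_apply, Units.ext_iff, Units.val_mk0]
    have h5 : Units.mk0 r h0 ∈ Set.range (powMonoidHom (Q + 1) : Lˣ →* Lˣ) := by
      have h6 : Units.mk0 r h0 ∈ (powMonoidHom (Q + 1) : Lˣ →* Lˣ).range := by
        rw [range_eq hQ, MonoidHom.mem_ker, powMonoidHom_apply, Units.ext_iff,
          Units.val_pow_eq_pow_val, Units.val_mk0, Units.val_one]
        exact ((fix_iff hQ r).1 hr).resolve_left h0
      exact h6
    have h7 : (Finset.univ.filter fun u : Lˣ => u ^ (Q + 1) = 1).card = Q + 1 := by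
      rw [card_ker, card_kerB hQ]
    rw [h4, MonoidHom.card_fiber_eq_of_mem_range (powMonoidHom (Q + 1) : Lˣ →* Lˣ) h5
      ⟨1, map_one _⟩]
    exact h7
  · rintro x hx rfl
    rw [zero_mul] at hx
    exact h0 hx.symm

theorem UniBaseAux.card_D (hQ : HermQ L Q) :
    (Finset.univ.image (D : L →+ L)).card = Q := by
  have h2 := hQ.two_le
  have h1 := card_image (D : L →+ L)
  have h3 : (Finset.univ.filter fun x : L => D x = 0) =
      Finset.univ.filter fun r : L => star r = r := by
    ext r
    simp only [Finset.mem_filter, Finset.mem_univ, true_and, D_apply, sub_eq_zero]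
  rw [h3, hQ.card_fix, hQ.card, pow_two] at h1
  exact Nat.eq_of_mul_eq_mul_left (by omega) h1

theorem UniBaseAux.image_D_sub : (Finset.univ.image (D : L →+ L)) ⊆
    Finset.univ.filter fun b : L => b + star b = 0 := by
  intro b hb
  obtain ⟨a, -, rfl⟩ := Finset.mem_image.1 hb
  rw [Finset.mem_filter]
  refine ⟨Finset.mem_univ _, ?_⟩
  rw [D_apply, star_sub, star_star]
  ring

theorem HermQ.card_tz (hQ : HermQ L Q) :
    (Finset.univ.filter fun b : L => b + star b = 0).card = Q := by
  have h2 := hQ.two_le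
  have h1 := card_D hQ
  apply le_antisymm
  · -- a nonzero element
    obtain ⟨b, hb, hb0⟩ : ∃ b ∈ Finset.univ.image (D : L →+ L), b ≠ 0 := by
      by_contra hne
      push Not at hne
      have h3 : Finset.univ.image (D : L →+ L) ⊆ {0} := fun x hx => by
        rw [Finset.mem_singleton]
        exact hne x hx
      have h4 := Finset.card_le_card h3
      rw [Finset.card_singleton, h1] at h4
      omega
    have hb' : b + star b = 0 := (Finset.mem_filter.1 (image_D_sub hb)).2
    have hsb : star b = -b := by linear_combination hb'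
    rw [← hQ.card_fix]
    refine Finset.card_le_card_of_injOn (fun c => c / b) ?_ ?_
    · intro c hc
      have hc' : c + star c = 0 := (Finset.mem_filter.1 hc).2
      have hsc : star c = -c := by linear_combination hc'
      have h5 : star (c / b) = c / b := by
        rw [star_div₀, hsc, hsb, neg_div_neg_eq]
      exact Finset.mem_coe.2 (Finset.mem_filter.2 ⟨Finset.mem_univ _, h5⟩)
    · intro c _ c' _ hcc
      exact (div_left_inj' hb0).1 hcc
  · rw [← h1]
    exact Finset.card_le_card image_D_sub

theorem HermQ.tz_surj (hQ : HermQ L Q) (b : L) (hb : b + star b = 0) : ∃ v, star v - v = b := by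
  have h1 : Finset.univ.image (D : L →+ L) = Finset.univ.filter fun b : L => b + star b = 0 := by
    apply Finset.eq_of_subset_of_card_le image_D_sub
    rw [hQ.card_tz, card_D hQ]
  have h2 : b ∈ Finset.univ.image (D : L →+ L) := by
    rw [h1, Finset.mem_filter]
    exact ⟨Finset.mem_univ _, hb⟩
  obtain ⟨v, -, hv⟩ := Finset.mem_image.1 h2
  exact ⟨v, hv⟩

theorem HermQ.norm_card (hQ : HermQ L Q) (r : L) (hr : star r = r) (h0 : r ≠ 0) :
    (Finset.univ.filter fun x : L => x * star x = r).card = Q + 1 :=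
  UniBaseAux.norm_card hQ r hr h0

theorem HermQ.norm_surj (hQ : HermQ L Q) (r : L) (hr : star r = r) : ∃ x, x * star x = r := by
  by_cases h0 : r = 0
  · exact ⟨0, by rw [h0, zero_mul]⟩
  · have h1 := hQ.norm_card r hr h0
    have h2 : (Finset.univ.filter fun x : L => x * star x = r).Nonempty := by
      rw [← Finset.card_pos, h1]
      omega
    obtain ⟨x, hx⟩ := h2
    exact ⟨x, (Finset.mem_filter.1 hx).2⟩

theorem HermQ.norm_gen (hQ : HermQ L Q) :
    ∃ t : L, t ≠ 1 ∧ t * star t = 1 ∧ ∀ s : L, s * star s = 1 → ∃ k : ℕ, s = t ^ k := by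
  have h2 := hQ.two_le
  obtain ⟨t, ht⟩ := IsCyclic.exists_monoid_generator
    (α := (powMonoidHom (Q + 1) : Lˣ →* Lˣ).ker)
  have hmem : ∀ s : L, s * star s = 1 → ∃ k : ℕ, s = ((t : Lˣ) : L) ^ k := by
    intro s hs
    have hs0 : s ≠ 0 := by
      rintro rfl
      rw [zero_mul] at hs
      exact zero_ne_one hs
    have h3 : Units.mk0 s hs0 ∈ (powMonoidHom (Q + 1) : Lˣ →* Lˣ).ker := by
      rw [MonoidHom.mem_ker, powMonoidHom_apply, Units.ext_iff,
          Units.val_pow_eq_pow_val, Units.val_mk0, Units.val_one, ← norm_eq hQ]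
      exact hs
    obtain ⟨k, hk⟩ := ht ⟨_, h3⟩
    refine ⟨k, ?_⟩
    have h4 := congrArg (fun z : (powMonoidHom (Q + 1) : Lˣ →* Lˣ).ker => ((z : Lˣ) : L)) hk
    simpa using h4.symm
  have ht1 : ((t : Lˣ) : L) * star ((t : Lˣ) : L) = 1 := by
    have h3 := t.2
    rw [MonoidHom.mem_ker, powMonoidHom_apply, Units.ext_iff,
          Units.val_pow_eq_pow_val, Units.val_one, ← norm_eq hQ] at h3
    exact h3
  refine ⟨((t : Lˣ) : L), ?_, ht1, hmem⟩
  intro h1
  have h3 := hQ.norm_card 1 (star_one L) one_ne_zero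
  have h4 : (Finset.univ.filter fun x : L => x * star x = 1) ⊆ {1} := by
    intro s hs
    obtain ⟨k, hk⟩ := hmem s (Finset.mem_filter.1 hs).2
    rw [h1, one_pow] at hk
    rw [Finset.mem_singleton, hk]
  have h5 := Finset.card_le_card h4
  rw [h3, Finset.card_singleton] at h5
  omega

theorem UniBaseAux.image_T (hQ : HermQ L Q) : Finset.univ.image (T : L →+ L) =
    Finset.univ.filter fun r : L => star r = r := by
  have h2 := hQ.two_le
  apply Finset.eq_of_subset_of_card_le
  · intro b hb
    obtain ⟨a, -, rfl⟩ := Finset.mem_image.1 hb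
    rw [Finset.mem_filter]
    refine ⟨Finset.mem_univ _, ?_⟩
    rw [T_apply, star_add, star_star, add_comm]
  · rw [hQ.card_fix]
    have h1 := card_image (T : L →+ L)
    have h3 : (Finset.univ.filter fun x : L => T x = 0) =
        Finset.univ.filter fun r : L => r + star r = 0 := rfl
    rw [h3, hQ.card_tz, hQ.card, pow_two] at h1
    exact (Nat.eq_of_mul_eq_mul_left (by omega) h1).ge

theorem UniBaseAux.T_surj (hQ : HermQ L Q) (r : L) (hr : star r = r) :
    r ∈ Set.range (T : L →+ L) := by
  have h2 : r ∈ Finset.univ.image (T : L →+ L) := by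
    rw [image_T hQ, Finset.mem_filter]
    exact ⟨Finset.mem_univ _, hr⟩
  obtain ⟨v, -, hv⟩ := Finset.mem_image.1 h2
  exact ⟨v, hv⟩

theorem HermQ.exists_beta (hQ : HermQ L Q) : ∃ β : L, β + star β = 1 := by
  obtain ⟨v, hv⟩ := T_surj hQ 1 (star_one L)
  exact ⟨v, hv⟩

theorem HermQ.fib_card (hQ : HermQ L Q) (r : L) (hr : star r = r) :
    (Finset.univ.filter fun y : L => y + star y = r).card = Q := by
  have h1 := AddMonoidHom.card_fiber_eq_of_mem_range (T : L →+ L) (T_surj hQ r hr)
    ⟨0, map_zero _⟩
  rw [← hQ.card_tz]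
  exact h1

theorem UniBaseAux.star_norm (x : L) : star (x * star x) = x * star x := by
  rw [star_mul', star_star, mul_comm]

theorem HermQ.card_HP (hQ : HermQ L Q) : Fintype.card (HP L) = Q ^ 3 := by
  let e : HP L ≃ Σ x : L, {y : L // y + star y = x * star x} :=
    { toFun := fun z => ⟨z.x, z.y, z.h⟩
      invFun := fun z => ⟨z.1, z.2.1, z.2.2⟩
      left_inv := fun z => rfl
      right_inv := fun z => rfl }
  rw [Fintype.card_congr e, Fintype.card_sigma]
  have h1 : ∀ x : L, Fintype.card {y : L // y + star y = x * star x} = Q := by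
    intro x
    rw [Fintype.card_subtype]
    exact hQ.fib_card _ (star_norm x)
  rw [Finset.sum_congr rfl (fun x _ => h1 x), Finset.sum_const, Finset.card_univ, hQ.card,
    smul_eq_mul]
  ring

theorem mem_vbl (a : L) (z : HP L) : z ∈ vbl a ↔ z.x = a := by
  unfold vbl
  rw [Finset.mem_filter]
  exact and_iff_right (Finset.mem_univ _)

theorem mem_lbl (α γ : L) (z : HP L) : z ∈ lbl α γ ↔ z.y = α * z.x + γ := by
  unfold lbl
  rw [Finset.mem_filter]
  exact and_iff_right (Finset.mem_univ _)

theorem HermQ.vbl_card (hQ : HermQ L Q) (a : L) : (vbl a).card = Q := by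
  rw [← hQ.fib_card (a * star a) (star_norm a)]
  refine Finset.card_bij (fun z _ => z.y) ?_ ?_ ?_
  · intro z hz
    rw [mem_vbl] at hz
    rw [Finset.mem_filter]
    refine ⟨Finset.mem_univ _, ?_⟩
    rw [← hz]
    exact z.h
  · intro z hz w hw h
    rw [mem_vbl] at hz hw
    exact HP.ext (hz.trans hw.symm) h
  · intro y hy
    have h1 := (Finset.mem_filter.1 hy).2
    exact ⟨⟨a, y, h1⟩, (mem_vbl _ _).2 rfl, rfl⟩

theorem HermQ.lbl_card (hQ : HermQ L Q) (α γ : L) (h : γ + star γ + α * star α ≠ 0) :
    (lbl α γ).card = Q + 1 := by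
  rw [← hQ.norm_card (γ + star γ + α * star α) (by
    simp only [star_add, star_mul', star_star]; ring) h]
  refine Finset.card_bij (fun z _ => z.x - star α) ?_ ?_ ?_
  · intro z hz
    rw [mem_lbl] at hz
    rw [Finset.mem_filter]
    refine ⟨Finset.mem_univ _, ?_⟩
    have h1 := z.h
    rw [hz] at h1
    simp only [star_add, star_mul', star_star, star_sub] at h1 ⊢
    linear_combination -h1
  · intro z hz w hw hzw
    rw [mem_lbl] at hz hw
    have h1 : z.x = w.x := by linear_combination hzw
    refine HP.ext h1 ?_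
    rw [hz, hw, h1]
  · intro x hx
    have h1 := (Finset.mem_filter.1 hx).2
    refine ⟨⟨x + star α, α * (x + star α) + γ, ?_⟩, (mem_lbl _ _ _).2 rfl, ?_⟩
    · simp only [star_add, star_mul', star_star]
      linear_combination -h1
    · simp

/-- a line which meets the unital in a point where it has the slope of the tangent is a tangent -/
theorem tan_of_mem (α γ : L) (z : HP L) (hz : z.y = α * z.x + γ) (ha : α = star z.x) :
    γ + star γ + α * star α = 0 := by
  have h1 := z.h
  have h2 : γ = z.y - α * z.x := by linear_combination -hz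
  rw [h2, ha]
  simp only [star_sub, star_mul', star_star]
  linear_combination h1

/-- the tangent at `z` contains no other point -/
theorem eq_of_tan (z w : HP L) (h : w.y + star z.y - star z.x * w.x = 0) : w = z := by
  have h1 := z.h
  have h2 := w.h
  have h3 : star w.y + z.y - z.x * star w.x = 0 := by
    have := congrArg star h
    simpa only [star_add, star_sub, star_mul', star_star, star_zero] using this
  have h4 : (w.x - z.x) * star (w.x - z.x) = 0 := by
    rw [star_sub]
    linear_combination h + h3 - h1 - h2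
  have h5 : w.x = z.x := by
    rcases mul_eq_zero.1 h4 with h | h
    · exact sub_eq_zero.1 h
    · exact sub_eq_zero.1 (star_eq_zero.1 h)
  refine HP.ext h5 ?_
  rw [h5] at h
  linear_combination h - h1

/-- the vertical fibre over `a` is a coset of the centre -/
theorem sum_vbl {E : Type} [AddCommMonoid E] (f : HP L → E) (z : HP L) :
    ∑ w ∈ vbl z.x, f w = ∑ b : L, if hb : b + star b = 0 then f (zc b hb * z) else 0 := by
  rw [← Finset.sum_fiberwise (vbl z.x) (fun w => w.y - z.y) f]
  refine Finset.sum_congr rfl fun b _ => ?_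
  by_cases hb : b + star b = 0
  · rw [dif_pos hb]
    have h1 : (vbl z.x).filter (fun w => w.y - z.y = b) = {zc b hb * z} := by
      ext w
      rw [Finset.mem_filter, mem_vbl, Finset.mem_singleton]
      constructor
      · rintro ⟨h1, h2⟩
        refine HP.ext ?_ ?_
        · rw [h1]
          change z.x = 0 + z.x
          rw [zero_add]
        · change w.y = b + z.y + star (0 : L) * z.x
          rw [star_zero]
          linear_combination h2
      · rintro rfl
        refine ⟨?_, ?_⟩
        · change 0 + z.x = z.x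
          rw [zero_add]
        · change b + z.y + star (0 : L) * z.x - z.y = b
          rw [star_zero]
          ring
    rw [h1, Finset.sum_singleton]
  · rw [dif_neg hb]
    apply Finset.sum_eq_zero
    intro w hw
    exfalso
    rw [Finset.mem_filter, mem_vbl] at hw
    obtain ⟨h1, h2⟩ := hw
    apply hb
    have h3 := w.h
    have h4 := z.h
    rw [← h2, star_sub]
    rw [h1] at h3
    linear_combination h3 - h4

end LTL
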