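import Pool.Agent.Lib.LTL.UniAvg

/-!
# Module LTL.UniBlk: all block sums vanish (MP_61e83e_lc)

PROOF. Let `f ∈ D`, `f x ≠ f y`.
(a) `Q + 1 = 0` in `E`. For `c ∈ D` let `c' = c ∘ swo ∈ D`. By `uni_avg` for `c'` and `a = 0`:
`∑ z ∈ vbl 0, c' (some z) = Q c' none = Q c (some 1)`. `vbl 0` consists of `1 = (0, 0)` and the `(0, y)`,
`y ≠ 0`, and `swo (some 1) = none`, `swo (some (0, y)) = some (0, 1 / y)`; `y ↦ 1 / y` permutes the
`(0, y)`, `y ≠ 0` (`sw` is an involution on points with `y ≠ 0`). So the left side is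
`c none + ∑ z ∈ vbl 0, c (some z) - c (some 1) = c none + Q c none - c (some 1)`. Hence
`(Q + 1) c none = (Q + 1) c (some 1)` for all `c ∈ D`; by `Good.sep` some `c ∈ D` has
`c none ≠ c (some 1)`. So `Q + 1 = 0` in `E`.
(b) So `c none + ∑ z ∈ vbl a, c (some z) = (Q + 1) c none = 0` for all `c ∈ D`.
(c) Let `c ∈ D`, `γ + star γ + α star α ≠ 0`. `lbl α γ` is not empty (`lbl_card`), let `g` be in it, and
`c₁ = c ∘ (g * ·) ∈ D`, `α' = α - star g.x`. `g * z ∈ lbl α γ` iff `z.y = α' z.x` (the equation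
`g.y + z.y + star g.x * z.x = α (g.x + z.x) + γ`, `g.y = α g.x + γ`), so
`∑ z ∈ lbl α γ, c (some z) = ∑ z ∈ lbl α' 0, c₁ (some z)`; `α' ≠ 0` by `tan_of_mem`. Let
`c₂ = c₁ ∘ swo ∈ D`. `lbl α' 0` consists of `1` and points with `y ≠ 0` (`y = 0` gives `x = 0`, as
`x star x = y + star y`), and `z ↦ sw z` is a bijection from `lbl α' 0 \ {1}` onto `vbl (1 / α')`
(`x / y = 1 / α'` iff `y = α' x`; points of `vbl (1 / α')` have `y ≠ 0`; `sw (sw z) = z` for `y ≠ 0`). So the
sum is `c₁ (some 1) + ∑ z ∈ vbl (1 / α'), c₁ (swo (some z)) = c₂ none + ∑ z ∈ vbl (1 / α'), c₂ (some z) = 0`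
by (b) for `c₂`.
(d) `1 ∈ D`: some `c ∈ D` has `c none ≠ 0` (`f x` or `f y` is nonzero; move that point to `none` by a
permutation; the number of points is `≥ 2`). `V = ∑ g : HP L, c ∘ (g * ·) ∈ D` has the value `Q³ c none`
at `none` and at `some z` the value `∑ z, c (some z) = ∑ a : L, Q c none = Q³ c none` by `uni_avg`. Divide.
-/

set_option autoImplicit false
open Classical

namespace LTL

open P61e83e Pltc

namespace UniBlkAux

variable {L E : Type} [Field L] [StarRing L]

theorem sw_sw {z : HP L} (hz : z.y ≠ 0) : sw (sw z) = z := by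
  ext
  · simp only [sw]
    field_simp
  · simp only [sw]
    field_simp

theorem sw_y_ne {z : HP L} (hz : z.y ≠ 0) : (sw z).y ≠ 0 := one_div_ne_zero hz

theorem eq_one {z : HP L} (hx : z.x = 0) (hy : z.y = 0) : z = 1 := HP.ext hx hy

theorem y_ne_of_x {z : HP L} (hx : z.x ≠ 0) : z.y ≠ 0 := by
  intro hy
  have h := z.h
  rw [hy, star_zero, add_zero] at h
  exact mul_ne_zero hx (star_ne_zero.2 hx) h.symm

theorem x_eq_of_y {z : HP L} (hy : z.y = 0) : z.x = 0 := by
  by_contra hx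
  exact y_ne_of_x hx hy

theorem swo_none : swo (none : Option (HP L)) = some 1 := rfl

theorem swo_some {z : HP L} (hz : z.y ≠ 0) : swo (some z) = some (sw z) := by
  simp [swo, hz]

theorem swo_one : swo (some (1 : HP L)) = none := by
  simp [swo]

variable [Fintype L] [Field E]

/-- part (a), the computation of the sum -/
theorem sum_swo_vbl (c : Option (HP L) → E) :
    ∑ z ∈ vbl (0 : L), c (swo (some z)) = c none + ∑ z ∈ vbl (0 : L), c (some z) - c (some 1) := by
  have h1 : (1 : HP L) ∈ vbl (0 : L) := (mem_vbl _ _).2 rfl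
  rw [← Finset.add_sum_erase _ _ h1, ← Finset.add_sum_erase (vbl (0 : L)) (fun z => c (some z)) h1, swo_one]
  have h2 : ∑ z ∈ (vbl (0 : L)).erase 1, c (swo (some z)) = ∑ z ∈ (vbl (0 : L)).erase 1, c (some z) := by
    have hy : ∀ z ∈ (vbl (0 : L)).erase 1, z.y ≠ 0 := by
      intro z hz hy
      rw [Finset.mem_erase, mem_vbl] at hz
      exact hz.1 (eq_one hz.2 hy)
    have hmem : ∀ z ∈ (vbl (0 : L)).erase 1, sw z ∈ (vbl (0 : L)).erase 1 := by
      intro z hz
      have h3 := hy z hz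
      rw [Finset.mem_erase, mem_vbl] at hz ⊢
      refine ⟨fun h => sw_y_ne h3 ?_, ?_⟩
      · rw [h]; rfl
      · simp [sw, hz.2]
    refine Finset.sum_bij' (fun z _ => sw z) (fun z _ => sw z) hmem hmem
      (fun z hz => sw_sw (hy z hz)) (fun z hz => sw_sw (hy z hz)) fun z hz => ?_
    rw [swo_some (hy z hz)]
  rw [h2]
  ring

/-- part (c), lines through the point `1` -/
theorem sum_lbl_zero (c : Option (HP L) → E) (α : L) (hα : α ≠ 0) :
    ∑ z ∈ lbl α 0, c (some z) = c (some 1) + ∑ z ∈ vbl (1 / α), c (swo (some z)) := by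
  have h1 : (1 : HP L) ∈ lbl α 0 := (mem_lbl _ _ _).2 (by simp)
  rw [← Finset.add_sum_erase _ _ h1]
  congr 1
  have hy : ∀ z ∈ (lbl α 0).erase (1 : HP L), z.y ≠ 0 := by
    intro z hz hy
    rw [Finset.mem_erase] at hz
    exact hz.1 (eq_one (x_eq_of_y hy) hy)
  have hy' : ∀ z ∈ vbl (1 / α), z.y ≠ 0 := by
    intro z hz
    rw [mem_vbl] at hz
    exact y_ne_of_x (by rw [hz]; exact one_div_ne_zero hα)
  refine Finset.sum_bij' (fun z _ => sw z) (fun z _ => sw z) ?_ ?_
    (fun z hz => sw_sw (hy z hz)) (fun z hz => sw_sw (hy' z hz)) fun z hz => ?_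
  · intro z hz
    have h3 := hy z hz
    rw [Finset.mem_erase, mem_lbl, add_zero] at hz
    rw [mem_vbl]
    simp only [sw]
    have h4 : z.x ≠ 0 := by
      intro h
      rw [h, mul_zero] at hz
      exact h3 hz.2
    rw [hz.2]
    field_simp
  · intro z hz
    have h3 := hy' z hz
    rw [mem_vbl] at hz
    rw [Finset.mem_erase, mem_lbl]
    refine ⟨fun h => sw_y_ne h3 ?_, ?_⟩
    · rw [h]; rfl
    · simp only [sw, hz]
      field_simp
      ring
  · have h5 : (sw z).y ≠ 0 := sw_y_ne (hy z hz)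
    rw [swo_some h5, sw_sw (hy z hz)]

/-- part (c), translation of a line -/
theorem sum_lbl_mul (c : Option (HP L) → E) (α γ : L) (g : HP L) (hg : g.y = α * g.x + γ) :
    ∑ z ∈ lbl α γ, c (some z) = ∑ z ∈ lbl (α - star g.x) 0, c ((some z).map fun z => g * z) := by
  symm
  refine Finset.sum_bij' (fun z _ => g * z) (fun z _ => g⁻¹ * z) ?_ ?_ (fun z _ => by simp) (fun z _ => by simp)
    fun z _ => rfl
  · intro z hz
    rw [mem_lbl] at hz ⊢
    rw [mul_x, mul_y]
    linear_combination hz + hg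
  · intro z hz
    rw [mem_lbl] at hz ⊢
    have h1 : z = g * (g⁻¹ * z) := by simp
    have h2 : z.x = g.x + (g⁻¹ * z).x := by conv_lhs => rw [h1, mul_x]
    have h3 : z.y = g.y + (g⁻¹ * z).y + star g.x * (g⁻¹ * z).x := by conv_lhs => rw [h1, mul_y]
    linear_combination hz - h3 + α * h2 - hg

end UniBlkAux

theorem uni_blk {L E : Type} [Field L] [Fintype L] [StarRing L] {Q : ℕ} (hQ : HermQ L Q)
    [Field E] [IsAlgClosed E] (hQE : (Q : E) ≠ 0) (D : Submodule E (Option (HP L) → E)) (q : ℕ)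
    (δ : ℝ) (hD : Good D q δ) (hinv : UInv D) (hbig : 2 * (Q : ℝ) ^ 2 < δ * ((Q : ℝ) ^ 3 + 1))
    {f : Option (HP L) → E} (hf : f ∈ D) {x y : Option (HP L)} (hxy : f x ≠ f y) :
    (Q : E) + 1 = 0 ∧ D ≤ CTh L E ∧ (fun _ => (1 : E)) ∈ D := by
  have hsep : ∃ g ∈ D, g none ≠ g (some 1) := hD.sep hf hxy none (some 1) (by simp)
  -- part (a)
  have ha : (Q : E) + 1 = 0 := by
    obtain ⟨c, hc, hne⟩ := hsep
    have h1 := uni_avg hQ hQE D q δ hD hinv hbig _ (hinv.sw c hc) 0
    have h2 := uni_avg hQ hQE D q δ hD hinv hbig c hc 0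
    rw [UniBlkAux.sum_swo_vbl, h2, UniBlkAux.swo_none] at h1
    have h3 : ((Q : E) + 1) * (c none - c (some 1)) = 0 := by linear_combination h1
    exact (mul_eq_zero.1 h3).resolve_right (sub_ne_zero.2 hne)
  -- part (b)
  have hb : ∀ c ∈ D, ∀ a : L, c none + ∑ z ∈ vbl a, c (some z) = 0 := by
    intro c hc a
    rw [uni_avg hQ hQE D q δ hD hinv hbig c hc a]
    linear_combination ha * c none
  refine ⟨ha, ?_, ?_⟩
  · intro c hc
    refine ⟨hb c hc, fun α γ h => ?_⟩
    have h1 : (lbl α γ).Nonempty := by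
      rw [← Finset.card_pos, hQ.lbl_card α γ h]
      exact Nat.succ_pos _
    obtain ⟨g, hg⟩ := h1
    rw [mem_lbl] at hg
    have hα : α - star g.x ≠ 0 := fun h0 => h (tan_of_mem α γ g hg (sub_eq_zero.1 h0))
    rw [UniBlkAux.sum_lbl_mul c α γ g hg, UniBlkAux.sum_lbl_zero (fun z => c (z.map fun z => g * z)) _ hα]
    exact hb _ (hinv.sw _ (hinv.mul g c hc)) (1 / (α - star g.x))
  · obtain ⟨c, hc, hne⟩ : ∃ c ∈ D, c none ≠ 0 := by
      obtain ⟨c, hc, hne⟩ := hsep
      by_cases h0 : c none = 0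
      · refine ⟨_, hinv.sw c hc, ?_⟩
        rw [UniBlkAux.swo_none]
        rw [h0] at hne
        exact hne.symm
      · exact ⟨c, hc, h0⟩
    have hV : (∑ g : HP L, fun z : Option (HP L) => c (z.map fun z => g * z)) ∈ D :=
      D.sum_mem fun g _ => hinv.mul g c hc
    have hVe : (∑ g : HP L, fun z : Option (HP L) => c (z.map fun z => g * z)) =
        fun _ => (Q : E) ^ 3 * c none := by
      funext z
      rw [Finset.sum_apply]
      cases z with
      | none =>
        simp only [Option.map_none, Finset.sum_const, Finset.card_univ, hQ.card_HP, nsmul_eq_mul,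
          Nat.cast_pow]
      | some z =>
        simp only [Option.map_some]
        rw [Fintype.sum_equiv (Equiv.mulRight z) (fun g => c (some (g * z))) (fun w => c (some w)) fun g => rfl]
        rw [← Finset.sum_fiberwise Finset.univ (fun w : HP L => w.x) (fun w => c (some w))]
        have h2 : ∀ a : L, ∑ w ∈ Finset.univ.filter (fun w : HP L => w.x = a), c (some w) = Q * c none :=
          fun a => uni_avg hQ hQE D q δ hD hinv hbig c hc a
        rw [Finset.sum_congr rfl fun a _ => h2 a, Finset.sum_const, Finset.card_univ, hQ.card, nsmul_eq_mul]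
        push_cast
        ring
    rw [hVe] at hV
    have h4 := D.smul_mem (((Q : E) ^ 3 * c none)⁻¹) hV
    have h5 : ((Q : E) ^ 3 * c none) ≠ 0 := mul_ne_zero (pow_ne_zero 3 hQE) hne
    convert h4 using 1
    funext z
    rw [Pi.smul_apply, smul_eq_mul, inv_mul_cancel₀ h5]

end LTL
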