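import Pool.Agent.Lib.LTL.Defs

/-!
# The Hermitian unital: definitions (MP_61e83e_lc)

`L` is a finite field with an involution `star`, `|L| = Q ^ 2`, `star x = x ^ Q`. The affine points
of the unital form a group (a Sylow subgroup of `PSU₃(Q)`), the points are `Option (HP L)`.
-/

set_option autoImplicit false
open Classical

namespace LTL

/-- `|L| = Q ^ 2` and `star x = x ^ Q` -/
structure HermQ (L : Type) [Field L] [Fintype L] [StarRing L] (Q : ℕ) : Prop where
  card : Fintype.card L = Q ^ 2
  star_eq : ∀ x : L, star x = x ^ Q

/-- the affine points of the unital -/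
@[ext] structure HP (L : Type) [Field L] [StarRing L] where
  /-- first coordinate -/
  x : L
  /-- second coordinate -/
  y : L
  h : y + star y = x * star x

variable {L : Type} [Field L] [StarRing L]

instance : Mul (HP L) :=
  ⟨fun g z => ⟨g.x + z.x, g.y + z.y + star g.x * z.x, by
    have h1 := g.h
    have h2 := z.h
    simp only [star_add, star_mul', star_star]
    linear_combination h1 + h2⟩⟩

instance : One (HP L) := ⟨⟨0, 0, by simp⟩⟩

instance : Inv (HP L) :=
  ⟨fun g => ⟨-g.x, star g.y, by
    have h1 := g.h
    simp only [star_neg, star_star]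
    linear_combination h1⟩⟩

@[simp] theorem mul_x (g z : HP L) : (g * z).x = g.x + z.x := rfl
@[simp] theorem mul_y (g z : HP L) : (g * z).y = g.y + z.y + star g.x * z.x := rfl
@[simp] theorem one_x : (1 : HP L).x = 0 := rfl
@[simp] theorem one_y : (1 : HP L).y = 0 := rfl
@[simp] theorem inv_x (g : HP L) : (g⁻¹).x = -g.x := rfl
@[simp] theorem inv_y (g : HP L) : (g⁻¹).y = star g.y := rfl

instance : Group (HP L) :=
  Group.ofLeftAxioms
    (fun a b c => by
      ext
      · simp [add_assoc]
      · simp only [mul_x, mul_y, star_add]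
        ring)
    (fun a => by ext <;> simp)
    (fun a => by
      ext
      · simp
      · have h1 := a.h
        simp only [mul_y, inv_y, inv_x, star_neg, one_y]
        linear_combination h1)

noncomputable instance [Fintype L] : Fintype (HP L) :=
  Fintype.ofInjective (fun z : HP L => (z.x, z.y)) fun a b h => by
    have h1 := congrArg Prod.fst h
    have h2 := congrArg Prod.snd h
    exact HP.ext h1 h2

/-- the central element `(0, b)` -/
def zc (b : L) (hb : b + star b = 0) : HP L := ⟨0, b, by simpa using hb⟩

/-- the torus -/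
def tor (κ : L) (z : HP L) : HP L := ⟨κ * z.x, κ * star κ * z.y, by
  have h1 := z.h
  simp only [star_mul', star_star]
  linear_combination κ * star κ * h1⟩

/-- the involution `(x, y) ↦ (x / y, 1 / y)` -/
def sw (z : HP L) : HP L := ⟨z.x / z.y, 1 / z.y, by
  have h1 := z.h
  by_cases hy : z.y = 0
  · simp [hy]
  · have hs : star z.y ≠ 0 := star_ne_zero.2 hy
    rw [star_div₀, star_div₀, star_one]
    field_simp
    linear_combination h1⟩

/-- the involution on all points -/
noncomputable def swo (z : Option (HP L)) : Option (HP L) :=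
  z.elim (some 1) fun z => if z.y = 0 then none else some (sw z)

/-- the point `(ε, N(ε) β)`, `β + star β = 1` -/
def pt (β : L) (hβ : β + star β = 1) (ε : L) : HP L := ⟨ε, ε * star ε * β, by
  simp only [star_mul', star_star]
  linear_combination ε * star ε * hβ⟩

/-- the affine points of the block through `∞` and the points with first coordinate `a` -/
noncomputable def vbl {L : Type} [Field L] [Fintype L] [StarRing L] (a : L) : Finset (HP L) :=
  Finset.univ.filter fun z => z.x = a

/-- the points on the line `y = α x + γ` -/
noncomputable def lbl {L : Type} [Field L] [Fintype L] [StarRing L] (α γ : L) : Finset (HP L) :=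
  Finset.univ.filter fun z => z.y = α * z.x + γ

/-- the words with all block sums zero: blocks through `∞` and the other blocks -/
def CTh (L : Type) [Field L] [Fintype L] [StarRing L] (E : Type) [Field E] :
    Submodule E (Option (HP L) → E) where
  carrier := {c | (∀ a : L, c none + ∑ z ∈ vbl a, c (some z) = 0) ∧
    ∀ α γ : L, γ + star γ + α * star α ≠ 0 → ∑ z ∈ lbl α γ, c (some z) = 0}
  add_mem' := by
    rintro c d ⟨h1, h2⟩ ⟨h3, h4⟩
    refine ⟨fun a => ?_, fun α γ h => ?_⟩
    · simp only [Pi.add_apply, Finset.sum_add_distrib]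
      linear_combination h1 a + h3 a
    · simp only [Pi.add_apply, Finset.sum_add_distrib]
      rw [h2 α γ h, h4 α γ h, add_zero]
  zero_mem' := by
    refine ⟨fun a => ?_, fun α γ h => ?_⟩ <;> simp
  smul_mem' := by
    rintro k c ⟨h1, h2⟩
    refine ⟨fun a => ?_, fun α γ h => ?_⟩
    · simp only [Pi.smul_apply, smul_eq_mul, ← Finset.mul_sum]
      rw [← mul_add, h1 a, mul_zero]
    · simp only [Pi.smul_apply, smul_eq_mul, ← Finset.mul_sum]
      rw [h2 α γ h, mul_zero]

/-- `D` is invariant under the three kinds of generators of `PSU₃(Q)` -/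
structure UInv {E : Type} [Field E] (D : Submodule E (Option (HP L) → E)) : Prop where
  mul : ∀ g : HP L, ∀ f ∈ D, (fun z : Option (HP L) => f (z.map fun z => g * z)) ∈ D
  tor : ∀ ρ : L, ρ ≠ 0 → ∀ f ∈ D,
    (fun z : Option (HP L) => f (z.map (LTL.tor (star ρ / ρ ^ 2)))) ∈ D
  sw : ∀ f ∈ D, (fun z : Option (HP L) => f (swo z)) ∈ D

end LTL
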