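import Pool.Agent.Lib.LTL.UniBase

/-!
# Module LTL.UniDual: words orthogonal to `CTh` are combinations of blocks (MP_61e83e_lc)

PROOF. Let `I = L ⊕ {s : L × L // s.2 + star s.2 + s.1 * star s.1 ≠ 0}` and for `i : I` let `v i` be the
vector of the block: for `a : L` the word `none ↦ 1`, `some z ↦ [z.x = a]`; for `(α, γ)` the word
`none ↦ 0`, `some z ↦ [z ∈ lbl α γ]`. Let `W = span (range v)`. If `u ∉ W` there is a linear form `φ` on
`Option (HP L) → E` with `W ≤ ker φ`, `φ u ≠ 0` (`Submodule.exists_le_ker_of_notMem`). Put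
`c x = φ (Pi.single x 1)`; `φ v = ∑ x, v x * c x` for all `v`. `φ (v i) = 0` says that the block sums of
`c` vanish: `c ∈ CTh L E`. So `φ u = ∑ u x * c x = 0`: contradiction. So
`u = ∑ i, k i • v i` (`Submodule.mem_span_range_iff_exists_fun`). Put `A a = k (inl a)`,
`B α γ = k (inr ⟨(α, γ), _⟩)`, `0` for tangents. At `some z`: the sum over `(α, γ)` with
`z.y = α z.x + γ` is the sum over `α` with `γ = z.y - α z.x`.
-/

set_option autoImplicit false
open Classical

namespace LTL

namespace UniDualAux

variable {L : Type} [Field L] [Fintype L] [StarRing L]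

/-- the blocks -/
abbrev Ix (L : Type) [Field L] [StarRing L] : Type :=
  L ⊕ {s : L × L // s.2 + star s.2 + s.1 * star s.1 ≠ 0}

/-- the word of a block -/
noncomputable def blk (E : Type) [Field E] : Ix L → Option (HP L) → E
  | Sum.inl a => fun o => o.elim 1 fun z => if z ∈ vbl a then 1 else 0
  | Sum.inr s => fun o => o.elim 0 fun z => if z ∈ lbl s.1.1 s.1.2 then 1 else 0

variable {E : Type} [Field E]

theorem sum_inl (c : Option (HP L) → E) (a : L) :
    ∑ x, blk E (Sum.inl a) x * c x = c none + ∑ z ∈ vbl a, c (some z) := by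
  rw [Fintype.sum_option]
  change 1 * c none + ∑ z : HP L, (if z ∈ vbl a then (1 : E) else 0) * c (some z) = _
  rw [one_mul]
  congr 1
  rw [Finset.sum_congr rfl fun z _ => ite_mul (z ∈ vbl a) (1 : E) 0 (c (some z))]
  simp only [one_mul, zero_mul]
  rw [Finset.sum_ite_mem, Finset.univ_inter]

theorem sum_inr (c : Option (HP L) → E) (s : {s : L × L // s.2 + star s.2 + s.1 * star s.1 ≠ 0}) :
    ∑ x, blk E (Sum.inr s) x * c x = ∑ z ∈ lbl s.1.1 s.1.2, c (some z) := by
  rw [Fintype.sum_option]
  change 0 * c none + ∑ z : HP L, (if z ∈ lbl s.1.1 s.1.2 then (1 : E) else 0) * c (some z) = _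
  rw [zero_mul, zero_add]
  rw [Finset.sum_congr rfl fun z _ => ite_mul (z ∈ lbl s.1.1 s.1.2) (1 : E) 0 (c (some z))]
  simp only [one_mul, zero_mul]
  rw [Finset.sum_ite_mem, Finset.univ_inter]

end UniDualAux

open UniDualAux

theorem uni_dual {L E : Type} [Field L] [Fintype L] [StarRing L] [Field E]
    (u : Option (HP L) → E) (hu : ∀ c ∈ CTh L E, ∑ x, u x * c x = 0) :
    ∃ (A : L → E) (B : L → L → E), (∀ α γ, γ + star γ + α * star α = 0 → B α γ = 0) ∧
      ∀ z : HP L, u (some z) = A z.x + ∑ α, B α (z.y - α * z.x) := by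
  have hmem : u ∈ Submodule.span E (Set.range (blk E : Ix L → Option (HP L) → E)) := by
    by_contra hn
    obtain ⟨φ, hφ, hle⟩ := Submodule.exists_le_ker_of_notMem hn
    have hval : ∀ w : Option (HP L) → E, φ w = ∑ x, w x * φ (Pi.single x 1) := by
      intro w
      conv_lhs => rw [← Finset.univ_sum_single w]
      rw [map_sum]
      refine Finset.sum_congr rfl fun x _ => ?_
      have h1 : (Pi.single x (w x) : Option (HP L) → E) = w x • Pi.single x 1 := by
        rw [← Pi.single_smul, smul_eq_mul, mul_one]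
      rw [h1, map_smul, smul_eq_mul]
    have hc : (fun x => φ (Pi.single x 1)) ∈ CTh L E := by
      refine ⟨fun a => ?_, fun α γ h => ?_⟩
      · have h1 : φ (blk E (Sum.inl a)) = 0 :=
          LinearMap.mem_ker.1 (hle (Submodule.subset_span ⟨Sum.inl a, rfl⟩))
        rw [hval, sum_inl (fun x => φ (Pi.single x 1)) a] at h1
        exact h1
      · have h1 : φ (blk E (Sum.inr ⟨(α, γ), h⟩)) = 0 :=
          LinearMap.mem_ker.1 (hle (Submodule.subset_span ⟨Sum.inr ⟨(α, γ), h⟩, rfl⟩))
        rw [hval, sum_inr (fun x => φ (Pi.single x 1)) ⟨(α, γ), h⟩] at h1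
        exact h1
    apply hφ
    rw [hval]
    exact hu _ hc
  obtain ⟨k, hk⟩ := (Submodule.mem_span_range_iff_exists_fun E).1 hmem
  refine ⟨fun a => k (Sum.inl a),
    fun α γ => if h : γ + star γ + α * star α ≠ 0 then k (Sum.inr ⟨(α, γ), h⟩) else 0,
    fun α γ h => dif_neg (not_not.2 h), fun z => ?_⟩
  have h1 := congrFun hk (some z)
  rw [← h1, Finset.sum_apply, Fintype.sum_sum_type]
  congr 1
  · rw [Finset.sum_eq_single z.x]
    · change k (Sum.inl z.x) * (if z ∈ vbl z.x then (1 : E) else 0) = _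
      rw [if_pos ((mem_vbl _ _).2 rfl), mul_one]
    · intro a _ ha
      change k (Sum.inl a) * (if z ∈ vbl a then (1 : E) else 0) = _
      rw [if_neg (fun h => ha ((mem_vbl _ _).1 h).symm), mul_zero]
    · intro h
      exact absurd (Finset.mem_univ _) h
  · have h2 : ∀ s : {s : L × L // s.2 + star s.2 + s.1 * star s.1 ≠ 0},
        (k (Sum.inr s) • blk E (Sum.inr s)) (some z) =
          (fun s : L × L => if h : s.2 + star s.2 + s.1 * star s.1 ≠ 0 then
            k (Sum.inr ⟨s, h⟩) * (if z ∈ lbl s.1 s.2 then (1 : E) else 0) else 0) s.1 := by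
      intro s
      change k (Sum.inr s) * (if z ∈ lbl s.1.1 s.1.2 then (1 : E) else 0) = _
      simp only
      rw [dif_pos s.2]
    rw [Finset.sum_congr rfl fun s _ => h2 s]
    have h3 := Finset.sum_subtype
      (Finset.univ.filter fun s : L × L => s.2 + star s.2 + s.1 * star s.1 ≠ 0)
      (p := fun s : L × L => s.2 + star s.2 + s.1 * star s.1 ≠ 0) (F := inferInstance)
      (fun s => by simp only [Finset.mem_filter, Finset.mem_univ, true_and])
      (fun s : L × L => if h : s.2 + star s.2 + s.1 * star s.1 ≠ 0 then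
        k (Sum.inr ⟨s, h⟩) * (if z ∈ lbl s.1 s.2 then (1 : E) else 0) else 0)
    rw [← h3, Finset.sum_filter_of_ne, Fintype.sum_prod_type]
    · refine Finset.sum_congr rfl fun α _ => ?_
      rw [Finset.sum_eq_single (z.y - α * z.x)]
      · simp only
        by_cases h : z.y - α * z.x + star (z.y - α * z.x) + α * star α ≠ 0
        · rw [dif_pos h, dif_pos h, if_pos ((mem_lbl _ _ _).2 (by ring)), mul_one]
        · rw [dif_neg h, dif_neg h]
      · intro γ _ hγ
        simp only
        by_cases h : γ + star γ + α * star α ≠ 0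
        · rw [dif_pos h, if_neg, mul_zero]
          intro h4
          apply hγ
          rw [(mem_lbl _ _ _).1 h4]
          ring
        · rw [dif_neg h]
      · intro h
        exact absurd (Finset.mem_univ _) h
    · intro s _ hs h
      exact hs (dif_neg (not_not.2 h))

end LTL
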