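import Pool.Agent.Lib.LTL.UniSub
import Pool.Agent.Lib.LTL.UniDual
import Pool.Agent.Lib.LTL.HermMain

/-!
# Module LTL.UniFin: unitary groups in cross characteristic (MP_61e83e_lc)
-/

set_option autoImplicit false
open Classical

namespace LTL

open P61e83e Pltc

theorem uni_const (E : Type) [Field E] [IsAlgClosed E] (hE : ringChar E ≠ 0) (q : ℕ) (δ : ℝ)
    (hδ : 0 < δ) :
    ∃ Q₀ : ℕ, ∀ (L : Type) [Field L] [Fintype L] [StarRing L] (Q : ℕ), HermQ L Q →
      (Q : E) ≠ 0 → Q₀ ≤ Q → ∀ D : Submodule E (Option (HP L) → E), Good D q δ → UInv D →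
      ∀ f ∈ D, ∀ x y, f x = f y := by
  have hl : Fact (ringChar E).Prime := ⟨(CharP.char_is_prime_or_zero E (ringChar E)).resolve_right hE⟩
  obtain ⟨l, hldef⟩ : ∃ l, l = ringChar E := ⟨_, rfl⟩
  have hlp : Fact l.Prime := by rw [hldef]; exact hl
  have hchar : CharP E l := by rw [hldef]; exact ringChar.charP E
  have h2l := hlp.out.two_le
  refine ⟨(l - 1) * q + 1 + (⌈2 / δ⌉₊ + 1), ?_⟩
  intro L _ _ _ Q hQ hQE hQ₀ D hD hinv f hf x y
  by_contra hxy
  have hqQ : q + 1 ≤ Q := by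
    have h1 : 1 * q ≤ (l - 1) * q := Nat.mul_le_mul_right q (by omega)
    omega
  have hlQ : (l - 1) * q < Q := by omega
  have hδQ : 2 < δ * Q := by
    have h1 : (2 / δ : ℝ) ≤ ⌈2 / δ⌉₊ := Nat.le_ceil _
    have h2 : ((⌈2 / δ⌉₊ : ℕ) : ℝ) < Q := by
      have : ⌈2 / δ⌉₊ < Q := by omega
      exact_mod_cast this
    have h3 : 2 / δ < Q := lt_of_le_of_lt h1 h2
    rwa [div_lt_iff₀ hδ, mul_comm] at h3
  have hQpos : (0 : ℝ) < Q := by
    have : 0 < Q := by omega
    exact_mod_cast this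
  have hbig : 2 * (Q : ℝ) ^ 2 < δ * ((Q : ℝ) ^ 3 + 1) := by
    have h1 : 2 * (Q : ℝ) ^ 2 < δ * Q * (Q : ℝ) ^ 2 :=
      mul_lt_mul_of_pos_right hδQ (by positivity)
    nlinarith
  obtain ⟨hQ1, -, -⟩ := uni_blk hQ hQE D q δ hD hinv hbig hf hxy
  have hsub := uni_sub hQ hQE D q δ hD hinv hbig hf hxy
  have hcardX : q < Fintype.card (Option (HP L)) := by
    rw [Fintype.card_option, hQ.card_HP]
    have h1 : Q ≤ Q ^ 3 := Nat.le_self_pow (by norm_num) Q
    omega
  obtain ⟨u, -, hu1, huq, hu⟩ := hD.move hcardX none (some 1) (by simp)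
  obtain ⟨A, B, hB, hAB⟩ := uni_dual u (fun c hc => hu c (hsub hc))
  letI : Algebra (ZMod l) E := ZMod.algebra E l
  obtain ⟨φ, hφ⟩ : ∃ φ : Module.Dual (ZMod l) E, φ (u (some 1)) ≠ 0 := by
    by_contra hno
    push Not at hno
    exact hu1 ((Module.forall_dual_apply_eq_zero_iff (ZMod l) _).1 hno)
  have hdvd : l ∣ Q + 1 := by
    rw [← CharP.cast_eq_zero_iff E l]
    push_cast
    exact hQ1
  have hmain := herm_main hQ l hdvd (fun a => φ (A a)) (fun α γ => φ (B α γ))
    (fun α γ h => by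
      change φ (B α γ) = 0
      rw [hB α γ h, map_zero])
    (fun z => φ (u (some z)))
    (fun z => by
      change φ (u (some z)) = φ (A z.x) + ∑ α, φ (B α (z.y - α * z.x))
      rw [hAB z, map_add, map_sum]) 1 hφ
  have hcard : (Finset.univ.filter fun z : HP L => φ (u (some z)) ≠ 0).card ≤ wt u := by
    refine Finset.card_le_card_of_injOn (fun z => some z) ?_ ?_
    · intro z hz
      have h1 := (Finset.mem_filter.1 hz).2
      refine Finset.mem_coe.2 (Finset.mem_filter.2 ⟨Finset.mem_univ _, ?_⟩)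
      intro h0
      apply h1
      rw [h0, map_zero]
    · intro z _ z' _ h
      exact Option.some_injective _ h
  have : (l - 1) * (Finset.univ.filter fun z : HP L => φ (u (some z)) ≠ 0).card ≤ (l - 1) * q :=
    Nat.mul_le_mul_left _ (hcard.trans huq)
  omega

end LTL
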