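import Pool.Agent.Lib.LTL.UniA0
import Pool.Agent.Lib.LTL.CEig

/-!
# Module LTL.UniLam: words of `D` for every character of `A₀` (MP_61e83e_lc)
-/

set_option autoImplicit false
open Classical

namespace LTL

open P61e83e Pltc

namespace UniLamAux

variable {L : Type} [Field L] [StarRing L]

/-- the elements of trace zero -/
def TZ (L : Type) [Field L] [StarRing L] : AddSubgroup L where
  carrier := {b | b + star b = 0}
  add_mem' := by
    intro a b ha hb
    have h1 : a + star a = 0 := ha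
    have h2 : b + star b = 0 := hb
    change (a + b) + star (a + b) = 0
    rw [star_add]
    linear_combination h1 + h2
  zero_mem' := by
    change (0 : L) + star 0 = 0
    simp
  neg_mem' := by
    intro a ha
    have h1 : a + star a = 0 := ha
    change -a + star (-a) = 0
    rw [star_neg]
    linear_combination -h1

theorem zc_add (b b' : L) (hb : b + star b = 0) (hb' : b' + star b' = 0)
    (h : (b + b') + star (b + b') = 0) : zc (b + b') h = zc b hb * zc b' hb' := by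
  ext
  · simp [zc]
  · simp [zc]

theorem zc_comm (b : L) (hb : b + star b = 0) (h z : HP L) :
    h * (zc b hb * z) = zc b hb * (h * z) := by
  ext
  · simp [zc]
  · simp [zc]
    ring

theorem zA_add (b b' : L) (hb : b + star b = 0) (hb' : b' + star b' = 0)
    (h : (b + b') + star (b + b') = 0) : zA (b + b') h = zA b hb + zA b' hb' :=
  A0.ext (zc_add b b' hb hb' h)

theorem zA_zero (h : (0 : L) + star 0 = 0) : zA 0 h = 0 := by
  refine A0.ext ?_
  rfl

/-- the restriction of a character of `A₀` to the centre -/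
noncomputable def rs {E : Type} [Field E] (χ : AddChar (A0 L) E) : AddChar (TZ L) E where
  toFun b := χ (zA b.1 b.2)
  map_zero_eq_one' := by
    have h : zA ((0 : TZ L) : L) (0 : TZ L).2 = 0 := zA_zero (L := L) (by simp)
    rw [h, AddChar.map_zero_eq_one]
  map_add_eq_mul' := by
    intro a b
    rw [← AddChar.map_add_eq_mul]
    congr 1
    exact zA_add a.1 b.1 a.2 b.2 (a + b).2

theorem rs_apply {E : Type} [Field E] (χ : AddChar (A0 L) E) (b : TZ L) :
    rs χ b = χ (zA b.1 b.2) := rfl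

theorem mul_tz (r : L) (hr : star r = r) (b : L) (hb : b + star b = 0) :
    r * b + star (r * b) = 0 := by
  rw [star_mul', hr]
  linear_combination r * hb

/-- the character `b ↦ ω ^ tr (r b)` -/
def fam {E : Type} [Field E] (p : ℕ) [Fact p.Prime] {ω : E} (hω : IsPrimitiveRoot ω p)
    (tr : TZ L →+ ZMod p) (r : {r : L // star r = r}) : AddChar (TZ L) E where
  toFun b := ω ^ (tr ⟨r.1 * b.1, mul_tz r.1 r.2 b.1 b.2⟩).val
  map_zero_eq_one' := by
    have h : (⟨r.1 * ((0 : TZ L) : L), mul_tz r.1 r.2 _ (0 : TZ L).2⟩ : TZ L) = 0 :=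
      Subtype.ext (by simp)
    rw [h, map_zero, ZMod.val_zero, pow_zero]
  map_add_eq_mul' := by
    intro a b
    have h : (⟨r.1 * ((a + b : TZ L) : L), mul_tz r.1 r.2 _ (a + b).2⟩ : TZ L) =
        ⟨r.1 * a.1, mul_tz r.1 r.2 a.1 a.2⟩ + ⟨r.1 * b.1, mul_tz r.1 r.2 b.1 b.2⟩ :=
      Subtype.ext (by simp [mul_add])
    rw [h, tr_add p hω tr]

theorem fam_apply {E : Type} [Field E] (p : ℕ) [Fact p.Prime] {ω : E}
    (hω : IsPrimitiveRoot ω p) (tr : TZ L →+ ZMod p) (r : {r : L // star r = r}) (b : TZ L) :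
    fam p hω tr r b = ω ^ (tr ⟨r.1 * b.1, mul_tz r.1 r.2 b.1 b.2⟩).val := rfl

theorem fam_inj {E : Type} [Field E] (p : ℕ) [Fact p.Prime] {ω : E} (hω : IsPrimitiveRoot ω p)
    (tr : TZ L →+ ZMod p) (htr : tr ≠ 0) : Function.Injective (fam p hω tr) := by
  intro r r' h
  by_contra hne
  have hd : r.1 - r'.1 ≠ 0 := fun h0 => hne (Subtype.ext (sub_eq_zero.1 h0))
  have hds : star (r.1 - r'.1) = r.1 - r'.1 := by rw [star_sub, r.2, r'.2]
  apply htr
  refine AddMonoidHom.ext fun b' => ?_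
  have hb : b'.1 / (r.1 - r'.1) + star (b'.1 / (r.1 - r'.1)) = 0 := by
    rw [star_div₀, hds, ← add_div, b'.2, zero_div]
  have h1 := DFunLike.congr_fun h ⟨_, hb⟩
  rw [fam_apply, fam_apply] at h1
  have h2 : (⟨r.1 * (b'.1 / (r.1 - r'.1)), mul_tz r.1 r.2 _ hb⟩ : TZ L) =
      b' + ⟨r'.1 * (b'.1 / (r.1 - r'.1)), mul_tz r'.1 r'.2 _ hb⟩ := by
    refine Subtype.ext ?_
    change r.1 * (b'.1 / (r.1 - r'.1)) = b'.1 + r'.1 * (b'.1 / (r.1 - r'.1))
    field_simp
    ring
  have h3 : (⟨r.1 * ((⟨_, hb⟩ : TZ L) : L), mul_tz r.1 r.2 _ (⟨_, hb⟩ : TZ L).2⟩ : TZ L) =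
      b' + ⟨r'.1 * (b'.1 / (r.1 - r'.1)), mul_tz r'.1 r'.2 _ hb⟩ := h2
  rw [h3, tr_add p hω tr] at h1
  have h4 : ω ^ (tr ⟨r'.1 * (b'.1 / (r.1 - r'.1)), mul_tz r'.1 r'.2 _ hb⟩).val ≠ 0 :=
    pow_ne_zero _ (hω.ne_zero (Fact.out (p := p.Prime)).ne_zero)
  have h5 : ω ^ (tr b').val = 1 := mul_right_cancel₀ h4 (by rw [one_mul]; exact h1)
  exact (tr_eq_one p hω _).1 h5

end UniLamAux

open UniLamAux

theorem uni_lam {L E : Type} [Field L] [Fintype L] [StarRing L] {Q : ℕ} (hQ : HermQ L Q)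
    [Field E] [IsAlgClosed E] (hQE : (Q : E) ≠ 0) (D : Submodule E (Option (HP L) → E)) (q : ℕ)
    (δ : ℝ) (hD : Good D q δ) (hinv : UInv D)
    {f : Option (HP L) → E} (hf : f ∈ D) {x y : Option (HP L)} (hxy : f x ≠ f y)
    (χ : AddChar (A0 L) E) (hχ : ∃ (b : L) (hb : b + star b = 0), χ (zA b hb) ≠ 1) :
    ∃ d ∈ D, d none = 0 ∧ (fun z => d (some z)) ∈ Vmu (nu χ) ∧ ∃ z, d (some z) ≠ 0 := by
  obtain ⟨p, hpL⟩ := CharP.exists L
  have hpp : Fact p.Prime := ⟨CharP.char_is_prime L p⟩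
  obtain ⟨f', hf', hQp⟩ := hQ.prime_pow p
  have hpE : (p : E) ≠ 0 := by
    intro h
    apply hQE
    rw [hQp, Nat.cast_pow, h, zero_pow hf']
  obtain ⟨ω, hω⟩ := exists_root E p hpE
  have _ : Fintype (TZ L) := Fintype.ofFinite _
  have hK : ∀ b : TZ L, p • b = 0 := by
    intro b
    refine Subtype.ext ?_
    change ((p • b : TZ L) : L) = 0
    rw [AddSubgroup.coe_nsmul, nsmul_eq_mul, CharP.cast_eq_zero, zero_mul]
  have hcard : (Finset.univ.filter fun b : L => b + star b = 0).card = Q := hQ.card_tz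
  have hcard' : (Finset.univ.filter fun r : L => star r = r).card = Q := hQ.card_fix
  have h2Q := hQ.two_le
  obtain ⟨b₀, hb₀, hb₀0⟩ : ∃ b : L, b + star b = 0 ∧ b ≠ 0 := by
    by_contra hcon
    push Not at hcon
    have : (Finset.univ.filter fun b : L => b + star b = 0) ⊆ {0} := by
      intro b hb
      rw [Finset.mem_singleton]
      exact hcon b (Finset.mem_filter.1 hb).2
    have := Finset.card_le_card this
    rw [hcard, Finset.card_singleton] at this
    omega
  obtain ⟨tr, htr, c, hc, hc0, hcn, hlam⟩ := exists_eig (E := E) (K := TZ L) (V := HP L) p hpE hK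
    hω D hD (fun b z => zc b.1 b.2 * z)
    (by
      intro v
      have : zc ((0 : TZ L) : L) (0 : TZ L).2 = (1 : HP L) := by
        ext <;> rfl
      change zc ((0 : TZ L) : L) (0 : TZ L).2 * v = v
      rw [this, one_mul])
    (by
      intro b b' v
      change zc ((b + b' : TZ L) : L) (b + b').2 * v = zc b.1 b.2 * (zc b'.1 b'.2 * v)
      rw [← mul_assoc, ← zc_add b.1 b'.1 b.2 b'.2 (b + b').2]
      rfl)
    (fun b f hf => hinv.mul _ f hf) 1 ⟨b₀, hb₀⟩
    (by
      intro h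
      apply hb₀0
      have := congrArg HP.y h
      simpa [zc] using this) hf hxy
  -- Step 2
  have hNA : Nat.card (TZ L) = Q := by
    rw [← hcard, Nat.card_eq_fintype_card, ← Fintype.card_subtype]
    exact Fintype.card_congr (Equiv.refl _)
  have hNJ : Nat.card {r : L // star r = r} = Q := by
    rw [← hcard', Nat.card_eq_fintype_card, ← Fintype.card_subtype]
  obtain ⟨r, hr⟩ := char_all (fam p hω tr) (fam_inj p hω tr htr) (by rw [hNA, hNJ]) (rs χ)
  have hr0 : r.1 ≠ 0 := by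
    intro h0
    obtain ⟨b, hb, hne⟩ := hχ
    apply hne
    have h1 := DFunLike.congr_fun hr ⟨b, hb⟩
    rw [rs_apply] at h1
    rw [← h1, fam_apply]
    have h2 : (⟨r.1 * ((⟨b, hb⟩ : TZ L) : L), mul_tz r.1 r.2 _ (⟨b, hb⟩ : TZ L).2⟩ : TZ L) = 0 :=
      Subtype.ext (by simp [h0])
    rw [h2, map_zero, ZMod.val_zero, pow_zero]
  obtain ⟨ρ, hρ⟩ := hQ.norm_surj (r.1)⁻¹ (by rw [star_inv₀, r.2])
  have hρ0 : ρ ≠ 0 := by
    rintro rfl
    rw [zero_mul] at hρ
    exact inv_ne_zero hr0 hρ.symm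
  have hρs : star ρ ≠ 0 := star_ne_zero.2 hρ0
  set κ : L := star ρ / ρ ^ 2 with hκ
  have hκκ : κ * star κ = r.1 := by
    rw [hκ, star_div₀, star_star, star_pow]
    have h1 : r.1 = 1 / (ρ * star ρ) := by rw [hρ, one_div, inv_inv]
    rw [h1]
    field_simp
  have hκ0 : κ ≠ 0 := by
    intro h
    rw [h, zero_mul] at hκκ
    exact hr0 hκκ.symm
  have hstarκ : star κ ≠ 0 := star_ne_zero.2 hκ0
  obtain ⟨c₁, hc₁def⟩ : ∃ c₁ : Option (HP L) → E, c₁ = fun z => c (z.map (tor κ)) := ⟨_, rfl⟩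
  have hc₁ : c₁ ∈ D := by rw [hc₁def]; exact hinv.tor ρ hρ0 c hc
  have hc₁n : c₁ none = 0 := by rw [hc₁def]; exact hcn
  have hc₁z : ∀ (b : L) (hb : b + star b = 0) (z : HP L),
      c₁ (some (zc b hb * z)) = χ (zA b hb) * c₁ (some z) := by
    intro b hb z
    rw [hc₁def]
    change c (some (tor κ (zc b hb * z))) = χ (zA b hb) * c (some (tor κ z))
    have h1 : tor κ (zc b hb * z) = zc (r.1 * b) (mul_tz r.1 r.2 b hb) * tor κ z := by
      ext
      · simp [tor, zc]
      · simp only [tor, zc, mul_y, star_zero, zero_mul, add_zero]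
        rw [hκκ]
        ring
    have h2 := hlam ⟨r.1 * b, mul_tz r.1 r.2 b hb⟩ (tor κ z)
    rw [h1]
    refine h2.trans ?_
    congr 1
    have h3 := DFunLike.congr_fun hr ⟨b, hb⟩
    rw [rs_apply, fam_apply] at h3
    exact h3
  obtain ⟨z₁, hz₁⟩ : ∃ z₁, c₁ (some z₁) ≠ 0 := by
    have : ∃ z, c z ≠ 0 := by
      by_contra hcon
      push Not at hcon
      exact hc0 (funext hcon)
    obtain ⟨z, hz⟩ := this
    cases z with
    | none => exact absurd hcn hz
    | some z =>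
      refine ⟨tor κ⁻¹ z, ?_⟩
      rw [hc₁def]
      change c (some (tor κ (tor κ⁻¹ z))) ≠ 0
      have : tor κ (tor κ⁻¹ z) = z := by
        ext
        · change κ * (κ⁻¹ * z.x) = z.x
          rw [mul_inv_cancel_left₀ hκ0]
        · change κ * star κ * (κ⁻¹ * star κ⁻¹ * z.y) = z.y
          rw [star_inv₀]
          field_simp
      rw [this]
      exact hz
  -- Step 3
  have hsum := sum_cmp hQ hQE c₁ (some z₁)
  have hne : ∑ χ : AddChar (A0 L) E, cmp χ c₁ (some z₁) ≠ 0 := by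
    rw [hsum]
    exact mul_ne_zero (pow_ne_zero _ hQE) hz₁
  obtain ⟨χ', -, hχ'⟩ := Finset.exists_ne_zero_of_sum_ne_zero hne
  obtain ⟨c₂, hc₂def⟩ : ∃ c₂ : Option (HP L) → E, c₂ = cmp χ' c₁ := ⟨_, rfl⟩
  have hc₂ : c₂ ∈ D := by
    have : c₂ = ∑ h : A0 L, χ' (-h) • fun z : Option (HP L) => c₁ (z.map fun z => h.g * z) := by
      rw [hc₂def]
      funext z
      rw [Finset.sum_apply]
      rfl
    rw [this]
    exact D.sum_mem fun h _ => D.smul_mem _ (hinv.mul h.g c₁ hc₁)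
  have hc₂n : c₂ none = 0 := by
    rw [hc₂def]
    change ∑ h : A0 L, χ' (-h) * c₁ none = 0
    simp [hc₁n]
  have hc₂V : ∀ g z : HP L, star g.x = g.x → c₂ (some (g * z)) = nu χ' g * c₂ (some z) := by
    rw [hc₂def]
    exact cmp_mem χ' c₁
  have hc₂z : ∀ (b : L) (hb : b + star b = 0) (z : HP L),
      c₂ (some (zc b hb * z)) = χ (zA b hb) * c₂ (some z) := by
    intro b hb z
    rw [hc₂def]
    change ∑ h : A0 L, χ' (-h) * c₁ (some (h.g * (zc b hb * z))) =
      χ (zA b hb) * ∑ h : A0 L, χ' (-h) * c₁ (some (h.g * z))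
    rw [Finset.mul_sum]
    refine Finset.sum_congr rfl fun h _ => ?_
    rw [zc_comm, hc₁z]
    ring
  have hc₂1 : c₂ (some z₁) ≠ 0 := by rw [hc₂def]; exact hχ'
  have hz : ∀ (b : L) (hb : b + star b = 0), χ (zA b hb) = χ' (zA b hb) := by
    intro b hb
    have hx : star (zc b hb).x = (zc b hb).x := by simp [zc]
    have h1 := hc₂V (zc b hb) z₁ hx
    rw [hc₂z b hb z₁] at h1
    have h2 := mul_right_cancel₀ hc₂1 h1
    rw [h2, nu, dif_pos hx]
    rfl
  obtain ⟨a, ha⟩ := a0_twist hQ χ χ' hz hχ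
  obtain ⟨g, hg⟩ : ∃ g : HP L, g.x = a := by
    have h1 : (vbl a : Finset (HP L)).card = Q := hQ.vbl_card a
    have h2 : (vbl a : Finset (HP L)).Nonempty := by
      rw [← Finset.card_pos, h1]
      omega
    obtain ⟨g, hg⟩ := h2
    exact ⟨g, (mem_vbl a g).1 hg⟩
  refine ⟨fun z => c₂ (z.map fun z => g * z), hinv.mul g c₂ hc₂, hc₂n, ?_, g⁻¹ * z₁, ?_⟩
  · intro h z hh
    change c₂ (some (g * (h * z))) = nu χ h * c₂ (some (g * z))
    have hb : (star a - a) * h.x + star ((star a - a) * h.x) = 0 := by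
      rw [star_mul', star_sub, star_star, hh]
      ring
    have hx : star (zc ((star a - a) * h.x) hb * h).x = (zc ((star a - a) * h.x) hb * h).x := by
      simp [zc, hh]
    have h1 : g * (h * z) = (zc ((star a - a) * h.x) hb * h) * (g * z) := by
      ext
      · simp [zc]
        ring
      · simp only [zc, mul_y, mul_x, star_add, star_zero, zero_mul, zero_add, hh, hg]
        ring
    rw [h1, hc₂V _ _ hx]
    congr 1
    rw [nu, dif_pos hx, nu, dif_pos hh]
    have h2 : (⟨zc ((star a - a) * h.x) hb * h, hx⟩ : A0 L) =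
        zA ((star a - a) * h.x) hb + ⟨h, hh⟩ := A0.ext rfl
    rw [h2, AddChar.map_add_eq_mul, ← hz]
    exact (ha ⟨h, hh⟩ hb).symm
  · change c₂ (some (g * (g⁻¹ * z₁))) ≠ 0
    rw [mul_inv_cancel_left]
    exact hc₂1

end LTL
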