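import Pool.Agent.Lib.LTL.UniBase

/-!
# Module LTL.UniOp: the operators `f ↦ ∑ ε, f (z * pt β ε)` (MP_61e83e_lc)

`N x = x * star x`. PROOFS.
`cth_mul`: `CTh` is invariant under left multiplications: `g * ·` maps `vbl a` onto `vbl (g.x + a)`, and
`z ∈ lbl (α - star g.x) (α g.x + γ - g.y)` iff `g * z ∈ lbl α γ`; the expression
`γ + star γ + α star α` is the same for both lines (use `g.h`).
`op_fix`: by `cth_mul` (replace `c` by `c ∘ (z * ·)`) we may take `z = 1`. `∑ ε, c (some (pt β ε))`: the
term `ε = 0` is `c (some 1)`. For `r ∈ L₀`, `r ≠ 0` the points `pt β ε` with `N ε = r` are exactly the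
points of `lbl 0 (r β)` (`y = r β` implies `N x = y + star y = r`), and `r β + star (r β) = r ≠ 0`, so
their sum is `0`. Group the `ε ≠ 0` by `r = N ε` (`Finset.sum_fiberwise`).
`op_comm`: `pt β ε * g = g' * pt β (ε + g.x - g'.x)` with `g' = (t g.x, g.y)`, `t = - star β / β`
(`t star t = 1`): put `a = g.x`, `d = a - t a = a / β`; the `y`-coordinates are
`N ε β + g.y + star ε a` and `g.y + N (ε + d) β + star (t a) (ε + d)`; `N (ε + d) = N ε + ε star d + star ε d +
N d`, `β d = a`, `β star d + star (t a) = 0` (as `star (t a) = - β star a / star β`, `star d = star a / star β`),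
and `β N d + star (t a) d = N a / star β - N a / star β = 0`. Reindex the sum over `ε`.
`op_inv`: `∑ ε, ∑ ε', f (z * pt (star β) ε * pt β ε')`. The product is `(s, y)` with `s = ε + ε'`; for
`s = 0` (`Q²` pairs) it is `1`: `N ε (star β + β) - N ε = 0`. For `s ≠ 0`, `ε' = s - ε`:
`y = N s β + star β (s star ε) - β (star s ε)` (use `β + star β = 1`), so with `v = β star s ε`:
`z * pt * pt = z * (s, N s β) * zc (star v - v)`, hence `f (...) = lam (star v - v) f (z * (s, N s β))`,
and for fixed `s ≠ 0` the sum over `ε` (equivalently over `v ∈ L`) of `lam (star v - v)` is `0`: `v ↦ star v - v`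
is onto `TZ` (`tz_surj`) and additive, `lam` is a nontrivial character of `TZ`. (`f (z * zc b) = lam b f z` for
the left-and-right central element; here it is a hypothesis.) Total: `Q² f z`.
`rad_comm`: `pt β s * pt β v = (s + v, (N s + N v) β + star s v)`. For `N s = r`, `N v = r'` put `a = s + v`; if
`a = 0` let `(s', v') = (s, v)`, otherwise `(s', v') = (star s a / star a, star v a / star a)`. This is an
involution of the set of the pairs with `N s = r`, `N v = r'` with the same `a`, and
`pt β v' * pt β s' = (a, (r + r') β + star v' s')`, `star v' s' = v star a / a * star s a / star a = star s v`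
(for `a = 0`: `v = - s`, `star v s = - N s = star s v`). So both double sums agree.
-/

set_option autoImplicit false
open Classical

namespace LTL

variable {L E : Type} [Field L] [Fintype L] [StarRing L] {Q : ℕ} [Field E]

theorem cth_mul (c : Option (HP L) → E) (hc : c ∈ CTh L E) (g : HP L) :
    (fun z : Option (HP L) => c (z.map fun z => g * z)) ∈ CTh L E := by
  obtain ⟨h1, h2⟩ := hc
  refine ⟨fun a => ?_, fun α γ h => ?_⟩
  · have h3 : ∑ z ∈ vbl a, c (some (g * z)) = ∑ w ∈ vbl (g.x + a), c (some w) := by
      refine Finset.sum_nbij' (fun z => g * z) (fun w => g⁻¹ * w) ?_ ?_ ?_ ?_ ?_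
      · intro z hz
        rw [mem_vbl] at hz ⊢
        rw [mul_x, hz]
      · intro w hw
        rw [mem_vbl] at hw ⊢
        rw [mul_x, inv_x, hw]
        ring
      · intro z _
        simp
      · intro w _
        simp
      · intro z _
        rfl
    simp only [Option.map_none, Option.map_some]
    rw [h3]
    exact h1 _
  · have h3 : ∑ z ∈ lbl α γ, c (some (g * z)) =
        ∑ w ∈ lbl (α + star g.x) (γ + g.y - α * g.x - star g.x * g.x), c (some w) := by
      refine Finset.sum_nbij' (fun z => g * z) (fun w => g⁻¹ * w) ?_ ?_ ?_ ?_ ?_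
      · intro z hz
        rw [mem_lbl] at hz ⊢
        rw [mul_x, mul_y, hz]
        ring
      · intro w hw
        rw [mem_lbl] at hw ⊢
        have h4 := g.h
        rw [mul_x, mul_y, inv_x, inv_y, hw, star_neg]
        linear_combination h4
      · intro z _
        simp
      · intro w _
        simp
      · intro z _
        rfl
    simp only [Option.map_some]
    rw [h3]
    refine h2 _ _ ?_
    intro h5
    apply h
    have h4 := g.h
    simp only [star_add, star_sub, star_mul', star_star] at h5
    linear_combination h5 - h4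

namespace UniOpAux

theorem pt_zero (β : L) (hβ : β + star β = 1) : pt β hβ 0 = 1 := by
  ext
  · rfl
  · simp [pt]

theorem op_fix_one (c : Option (HP L) → E) (hc : c ∈ CTh L E) (β : L) (hβ : β + star β = 1) :
    ∑ ε, c (some (pt β hβ ε)) = c (some 1) := by
  rw [← Finset.sum_fiberwise Finset.univ (fun ε : L => ε * star ε)]
  rw [Finset.sum_eq_single (0 : L)]
  · have h1 : Finset.univ.filter (fun ε : L => ε * star ε = 0) = {0} := by
      ext ε
      simp
    rw [h1, Finset.sum_singleton, pt_zero]
  · intro r _ hr
    by_cases hs : star r = r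
    · have h1 : ∑ ε ∈ Finset.univ.filter (fun ε : L => ε * star ε = r), c (some (pt β hβ ε)) =
          ∑ z ∈ lbl 0 (r * β), c (some z) := by
        refine Finset.sum_nbij' (fun ε => pt β hβ ε) (fun z => z.x) ?_ ?_ ?_ ?_ ?_
        · intro ε hε
          rw [Finset.mem_filter] at hε
          rw [mem_lbl]
          simp only [pt]
          rw [hε.2]
          ring
        · intro z hz
          rw [mem_lbl] at hz
          rw [Finset.mem_filter]
          refine ⟨Finset.mem_univ _, ?_⟩
          have h4 := z.h
          rw [← h4, hz]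
          simp only [star_add, star_mul', star_zero, hs]
          linear_combination r * hβ
        · intro ε _
          rfl
        · intro z hz
          rw [mem_lbl] at hz
          have h4 := z.h
          ext
          · rfl
          · simp only [pt]
            rw [← h4, hz]
            simp only [star_add, star_mul', star_zero, hs]
            linear_combination r * β * hβ
        · intro ε _
          rfl
      rw [h1]
      refine hc.2 _ _ ?_
      intro h2
      apply hr
      simp only [star_mul', star_zero, hs] at h2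
      linear_combination h2 - r * hβ
    · apply Finset.sum_eq_zero
      intro ε hε
      exfalso
      rw [Finset.mem_filter] at hε
      apply hs
      rw [← hε.2, star_mul', star_star, mul_comm]
  · intro h
    exact absurd (Finset.mem_univ _) h

end UniOpAux

theorem op_fix (c : Option (HP L) → E) (hc : c ∈ CTh L E) (β : L) (hβ : β + star β = 1)
    (z : HP L) : ∑ ε, c (some (z * pt β hβ ε)) = c (some z) := by
  have h1 := UniOpAux.op_fix_one _ (cth_mul c hc z) β hβ
  simpa using h1

/-- the point `(t x, y)`, `t star t = 1` -/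
def rot (t : L) (ht : t * star t = 1) (g : HP L) : HP L := ⟨t * g.x, g.y, by
  have h1 := g.h
  simp only [star_mul']
  linear_combination h1 - g.x * star g.x * ht⟩

theorem op_comm (f : HP L → E) (β : L) (hβ : β + star β = 1) (t : L) (ht : t * star t = 1)
    (hβt : β * t = - star β) (g z : HP L) :
    ∑ ε, f (z * pt β hβ ε * g) = ∑ ε, f (z * rot t ht g * pt β hβ ε) := by
  have h4 : star β * star t = - β := by
    have := congrArg star hβt
    rw [star_mul', star_neg, star_star] at this
    exact this
  refine Fintype.sum_equiv (Equiv.addRight (g.x - t * g.x)) _ _ fun ε => ?_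
  congr 1
  rw [mul_assoc, mul_assoc]
  congr 1
  ext
  · simp only [mul_x, pt, rot, Equiv.coe_addRight]
    ring
  · simp only [mul_y, pt, rot, Equiv.coe_addRight, star_add, star_sub, star_mul']
    linear_combination (-(ε * star g.x + (g.x - t * g.x) * star g.x)) * (h4 - star t * hβ)
      - star ε * g.x * (hβ - hβt)

theorem op_inv (hQ : HermQ L Q) (f : HP L → E) (lam : L → E)
    (hlam : ∀ b b' : L, b + star b = 0 → b' + star b' = 0 → lam (b + b') = lam b * lam b')
    (hnt : ∃ b : L, b + star b = 0 ∧ lam b ≠ 1) (h0 : lam 0 = 1)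
    (hf : ∀ (b : L) (hb : b + star b = 0) (z : HP L), f (z * zc b hb) = lam b * f z)
    (β : L) (hβ : β + star β = 1) (hβ' : star β + star (star β) = 1) (z : HP L) :
    ∑ ε, ∑ ε', f (z * pt (star β) hβ' ε * pt β hβ ε') = (Q : E) ^ 2 * f z := by
  have hTv : ∀ v : L, (star v - v) + star (star v - v) = 0 := by
    intro v
    rw [star_sub, star_star]
    ring
  have hS : ∑ v : L, lam (star v - v) = 0 := by
    obtain ⟨b, hb, hne⟩ := hnt
    obtain ⟨v₀, hv₀⟩ := hQ.tz_surj b hb
    have h1 : ∑ v : L, lam (star v - v) = lam b * ∑ v : L, lam (star v - v) := by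
      rw [Finset.mul_sum]
      symm
      refine Fintype.sum_equiv (Equiv.addRight v₀) _ _ fun v => ?_
      rw [Equiv.coe_addRight, ← hlam b _ hb (hTv v), ← hv₀, star_add]
      congr 1
      ring
    have h2 : (1 - lam b) * ∑ v : L, lam (star v - v) = 0 := by
      linear_combination h1
    rcases mul_eq_zero.mp h2 with h3 | h3
    · exact absurd (by linear_combination -h3) hne
    · exact h3
  have hβ0 : β ≠ 0 := by
    rintro rfl
    simp at hβ
  have h1 : ∀ ε : L, ∑ ε', f (z * pt (star β) hβ' ε * pt β hβ ε') =
      ∑ s : L, lam (star (β * star s * ε) - β * star s * ε) * f (z * pt β hβ s) := by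
    intro ε
    symm
    refine Fintype.sum_equiv (Equiv.subRight ε) _ _ fun s => ?_
    have key : pt β hβ s * zc (star (β * star s * ε) - β * star s * ε) (hTv _) =
        pt (star β) hβ' ε * pt β hβ (s - ε) := by
      ext
      · simp only [mul_x, pt, zc]
        ring
      · simp only [mul_y, pt, zc, star_mul', star_sub, star_star]
        linear_combination (-(ε * star ε) + s * star ε) * hβ
    rw [Equiv.subRight_apply, ← hf _ (hTv _), mul_assoc, key, mul_assoc]
  simp only [h1]
  rw [Finset.sum_comm, Finset.sum_eq_single (0 : L)]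
  · simp only [star_zero, mul_zero, zero_mul, sub_zero, h0, one_mul, UniOpAux.pt_zero, mul_one,
      Finset.sum_const, Finset.card_univ, hQ.card, nsmul_eq_mul, Nat.cast_pow]
  · intro s _ hs
    rw [← Finset.sum_mul]
    have h2 : ∑ ε : L, lam (star (β * star s * ε) - β * star s * ε) =
        ∑ v : L, lam (star v - v) := by
      have h3 : β * star s ≠ 0 := mul_ne_zero hβ0 (star_ne_zero.2 hs)
      exact Fintype.sum_equiv (Equiv.mulLeft₀ (β * star s) h3) _ _ fun ε => rfl
    rw [h2, hS, zero_mul]
  · intro h
    exact absurd (Finset.mem_univ _) h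

namespace UniOpAux

/-- the involution on pairs -/
noncomputable def phi (p : L × L) : L × L :=
  if p.1 + p.2 = 0 then p else
    (star p.1 * (p.1 + p.2) / star (p.1 + p.2), star p.2 * (p.1 + p.2) / star (p.1 + p.2))

theorem phi_add (p : L × L) : (phi p).1 + (phi p).2 = p.1 + p.2 := by
  by_cases h : p.1 + p.2 = 0
  · rw [phi, if_pos h]
  · rw [phi, if_neg h]
    have h1 : star (p.1 + p.2) ≠ 0 := star_ne_zero.2 h
    rw [← add_div, ← add_mul, ← star_add]
    field_simp

theorem phi_phi (p : L × L) : phi (phi p) = p := by
  by_cases h : p.1 + p.2 = 0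
  · have h2 : phi p = p := by rw [phi, if_pos h]
    rw [h2, h2]
  · have h1 : star (p.1 + p.2) ≠ 0 := star_ne_zero.2 h
    have h3 : phi p = (star p.1 * (p.1 + p.2) / star (p.1 + p.2),
        star p.2 * (p.1 + p.2) / star (p.1 + p.2)) := by rw [phi, if_neg h]
    have h4 : ¬ (phi p).1 + (phi p).2 = 0 := by rw [phi_add]; exact h
    rw [phi, if_neg h4, phi_add]
    rw [h3]
    simp only [star_div₀, star_mul', star_star]
    ext
    · simp only
      field_simp
    · simp only
      field_simp

theorem phi_norm1 (p : L × L) : (phi p).1 * star (phi p).1 = p.1 * star p.1 := by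
  by_cases h : p.1 + p.2 = 0
  · rw [phi, if_pos h]
  · have h1 : star (p.1 + p.2) ≠ 0 := star_ne_zero.2 h
    rw [phi, if_neg h]
    simp only [star_div₀, star_mul', star_star]
    field_simp

theorem phi_norm2 (p : L × L) : (phi p).2 * star (phi p).2 = p.2 * star p.2 := by
  by_cases h : p.1 + p.2 = 0
  · rw [phi, if_pos h]
  · have h1 : star (p.1 + p.2) ≠ 0 := star_ne_zero.2 h
    rw [phi, if_neg h]
    simp only [star_div₀, star_mul', star_star]
    field_simp

theorem phi_cross (p : L × L) : star (phi p).2 * (phi p).1 = star p.1 * p.2 := by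
  by_cases h : p.1 + p.2 = 0
  · rw [phi, if_pos h]
    have h2 : p.2 = - p.1 := by linear_combination h
    rw [h2, star_neg]
    ring
  · have h1 : star (p.1 + p.2) ≠ 0 := star_ne_zero.2 h
    rw [phi, if_neg h]
    simp only [star_div₀, star_mul', star_star]
    field_simp

theorem pt_phi (β : L) (hβ : β + star β = 1) (p : L × L) :
    pt β hβ p.1 * pt β hβ p.2 = pt β hβ (phi p).2 * pt β hβ (phi p).1 := by
  ext
  · simp only [mul_x, pt]
    rw [← phi_add p]
    ring
  · simp only [mul_y, pt]
    rw [phi_norm1, phi_norm2, phi_cross]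
    ring

end UniOpAux

theorem rad_comm (f : HP L → E) (β : L) (hβ : β + star β = 1) (r r' : L) (z : HP L) :
    (∑ s ∈ Finset.univ.filter (fun s : L => s * star s = r),
      ∑ v ∈ Finset.univ.filter (fun v : L => v * star v = r'), f (z * pt β hβ s * pt β hβ v)) =
    ∑ s ∈ Finset.univ.filter (fun s : L => s * star s = r),
      ∑ v ∈ Finset.univ.filter (fun v : L => v * star v = r'),
        f (z * pt β hβ v * pt β hβ s) := by
  rw [← Finset.sum_product', ← Finset.sum_product']
  refine Finset.sum_nbij' UniOpAux.phi UniOpAux.phi ?_ ?_ ?_ ?_ ?_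
  · intro p hp
    rw [Finset.mem_product, Finset.mem_filter, Finset.mem_filter] at hp ⊢
    exact ⟨⟨Finset.mem_univ _, by rw [UniOpAux.phi_norm1]; exact hp.1.2⟩,
      ⟨Finset.mem_univ _, by rw [UniOpAux.phi_norm2]; exact hp.2.2⟩⟩
  · intro p hp
    rw [Finset.mem_product, Finset.mem_filter, Finset.mem_filter] at hp ⊢
    exact ⟨⟨Finset.mem_univ _, by rw [UniOpAux.phi_norm1]; exact hp.1.2⟩,
      ⟨Finset.mem_univ _, by rw [UniOpAux.phi_norm2]; exact hp.2.2⟩⟩
  · intro p _
    exact UniOpAux.phi_phi p
  · intro p _
    exact UniOpAux.phi_phi p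
  · intro p _
    rw [mul_assoc, UniOpAux.pt_phi, mul_assoc]

end LTL
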