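import Pool.Agent.Lib.LTL.UniSpan
import Pool.Agent.Lib.LTL.UniOp
import Pool.Agent.Lib.LTL.Eig

/-!
# Module LTL.UniRep: at most one word with given character of `A₀` (MP_61e83e_lc)
-/

set_option autoImplicit false
open Classical

namespace LTL

namespace UniRepAux

theorem two_dep {E V : Type*} [Field E] [AddCommGroup V] [Module E V] [FiniteDimensional E V]
    (w : Module.End E V)
    (h : ∀ f g : Module.End E V, f * w = w * f → g * w = w * g → f * g = g * f)
    (a b : V) (ha : w a = a) (hb : w b = b) (h0 : a ≠ 0) : ∃ c : E, b = c • a := by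
  have hle := eig_le w h
  have hk₁ : a ∈ LinearMap.ker (w - 1) := by
    rw [LinearMap.mem_ker, LinearMap.sub_apply, sub_eq_zero]
    exact ha
  have hk₂ : b ∈ LinearMap.ker (w - 1) := by
    rw [LinearMap.mem_ker, LinearMap.sub_apply, sub_eq_zero]
    exact hb
  obtain ⟨v, hv⟩ := finrank_le_one_iff.1 hle
  obtain ⟨c₁, hc₁⟩ := hv ⟨_, hk₁⟩
  obtain ⟨c₂, hc₂⟩ := hv ⟨_, hk₂⟩
  have e1 : c₁ • (v : V) = a := congrArg Subtype.val hc₁
  have e2 : c₂ • (v : V) = b := congrArg Subtype.val hc₂
  have hc0 : c₁ ≠ 0 := by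
    rintro rfl
    apply h0
    rw [← e1, zero_smul]
  refine ⟨c₂ / c₁, ?_⟩
  rw [← e1, ← e2, smul_smul, div_mul_cancel₀ _ hc0]

theorem eq_of_surj {E V : Type*} [Field E] [AddCommGroup V] [Module E V]
    (w A B : Module.End E V) (hw : Function.Surjective w) (h : A * w = B * w) : A = B := by
  refine LinearMap.ext fun f => ?_
  obtain ⟨g, rfl⟩ := hw f
  exact congrArg (fun F : Module.End E V => F g) h

variable {L E : Type} [Field L] [Fintype L] [StarRing L] {Q : ℕ} [Field E]

theorem zc_add (b b' : L) (hb : b + star b = 0) (hb' : b' + star b' = 0)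
    (h : (b + b') + star (b + b') = 0) : zc (b + b') h = zc b hb * zc b' hb' := by
  ext
  · simp [zc]
  · simp [zc]

theorem rot_pt (t : L) (ht : t * star t = 1) (β : L) (hβ : β + star β = 1) (s : L) :
    rot t ht (pt β hβ s) = pt β hβ (t * s) := by
  ext
  · rfl
  · change s * star s * β = t * s * star (t * s) * β
    rw [star_mul']
    linear_combination (-(s * star s * β)) * ht

/-- the operator `w` -/
noncomputable def ww (mu : HP L → E) (β : L) (hβ : β + star β = 1) : Module.End E (Vmu mu) :=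
  ∑ ε, rtV mu (pt β hβ ε)

theorem ww_apply (mu : HP L → E) (β : L) (hβ : β + star β = 1) (f : Vmu mu) (z : HP L) :
    (ww mu β hβ f : HP L → E) z = ∑ ε, (f : HP L → E) (z * pt β hβ ε) := by
  rw [ww, LinearMap.sum_apply, Submodule.coe_sum, Finset.sum_apply]
  rfl

theorem ww_inj (hQ : HermQ L Q) (hQE : (Q : E) ≠ 0) {mu : HP L → E} (hmu : MuOk mu) (β : L)
    (hβ : β + star β = 1) : Function.Injective (ww mu β hβ) := by
  rw [injective_iff_map_eq_zero]
  intro f hf
  have hβ' : star β + star (star β) = 1 := by rw [star_star, add_comm]; exact hβ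
  let lam : L → E := fun b => if hb : b + star b = 0 then mu (zc b hb) else 1
  have hl : ∀ (b : L) (hb : b + star b = 0), lam b = mu (zc b hb) := fun b hb => dif_pos hb
  have h1 := fun z => op_inv hQ (f : HP L → E) lam (by
      intro b b' hb hb'
      have h : (b + b') + star (b + b') = 0 := by
        rw [star_add]
        linear_combination hb + hb'
      rw [hl _ h, hl _ hb, hl _ hb', zc_add b b' hb hb' h]
      exact hmu.mul _ _ (by simp [zc]) (by simp [zc]))
    (by
      obtain ⟨b, hb, h⟩ := hmu.nt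
      exact ⟨b, hb, by rwa [hl b hb]⟩)
    (by
      have h0 : (0 : L) + star 0 = 0 := by simp
      rw [hl 0 h0, ← hmu.one]
      congr 1)
    (by
      intro b hb z
      rw [hl b hb]
      exact vmu_central f.2 b hb z)
    β hβ hβ' z
  have h2 : ∀ z, (ww mu β hβ f : HP L → E) z = 0 := by
    intro z
    rw [hf]
    rfl
  ext z
  have h3 := h1 z
  have h4 : ∑ ε, ∑ ε', (f : HP L → E) (z * pt (star β) hβ' ε * pt β hβ ε') = 0 := by
    refine Finset.sum_eq_zero fun ε _ => ?_
    rw [← ww_apply]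
    exact h2 _
  rw [h4] at h3
  have h5 : (Q : E) ^ 2 ≠ 0 := pow_ne_zero _ hQE
  exact (mul_eq_zero.1 h3.symm).resolve_left h5

theorem ww_comm (mu : HP L → E) (β : L) (hβ : β + star β = 1) (t : L) (ht : t * star t = 1)
    (hβt : β * t = - star β) (g : HP L) :
    ww mu β hβ * rtV mu g = rtV mu (rot t ht g) * ww mu β hβ := by
  refine LinearMap.ext fun f => Subtype.ext (funext fun z => ?_)
  rw [Module.End.mul_apply, Module.End.mul_apply, ww_apply, rtV_apply, ww_apply]
  simp only [rtV_apply]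
  exact op_comm (f : HP L → E) β hβ t ht hβt g z

theorem sum_apply' (mu : HP L → E) (x : L → E) (g : L → HP L) (f : Vmu mu) (z : HP L) :
    (((∑ s, x s • rtV mu (g s)) f : Vmu mu) : HP L → E) z =
      ∑ s, x s * (f : HP L → E) (z * g s) := by
  rw [LinearMap.sum_apply, Submodule.coe_sum, Finset.sum_apply]
  rfl

theorem coef_inv (hQ : HermQ L Q) (hQE : (Q : E) ≠ 0) {mu : HP L → E} (hmu : MuOk mu) (β : L)
    (hβ : β + star β = 1) (t : L) (ht : t * star t = 1)
    (hβt : β * t = - star β) (hV : Vmu mu ≠ ⊥) (x : L → E)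
    (hx : (∑ s, x s • rtV mu (pt β hβ s)) * ww mu β hβ =
      ww mu β hβ * ∑ s, x s • rtV mu (pt β hβ s)) (s : L) : x (t * s) = x s := by
  have ht0 : t ≠ 0 := by
    rintro rfl
    simp at ht
  have hfin : FiniteDimensional E (Vmu mu) := inferInstance
  have hsurj : Function.Surjective (ww mu β hβ) :=
    LinearMap.surjective_of_injective (ww_inj hQ hQE hmu β hβ)
  have h1 : ww mu β hβ * ∑ s, x s • rtV mu (pt β hβ s) =
      (∑ s, x s • rtV mu (pt β hβ (t * s))) * ww mu β hβ := by
    rw [Finset.mul_sum, Finset.sum_mul]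
    refine Finset.sum_congr rfl fun s _ => ?_
    rw [mul_smul_comm, ww_comm mu β hβ t ht hβt, rot_pt, smul_mul_assoc]
  have h4 : (∑ s, x s • rtV mu (pt β hβ s)) = ∑ s, x s • rtV mu (pt β hβ (t * s)) :=
    eq_of_surj (ww mu β hβ) _ _ hsurj (by rw [← h1, hx])
  have h5 : ∑ s, (x s - x (t⁻¹ * s)) • rtV mu (pt β hβ s) = 0 := by
    refine LinearMap.ext fun f => Subtype.ext (funext fun z => ?_)
    have h6 := congrArg (fun F : Module.End E (Vmu mu) => (F f : HP L → E) z) h4
    simp only [sum_apply'] at h6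
    rw [sum_apply']
    simp only [sub_mul, Finset.sum_sub_distrib]
    have h7 : ∑ s, x s * (f : HP L → E) (z * pt β hβ (t * s)) =
        ∑ s, x (t⁻¹ * s) * (f : HP L → E) (z * pt β hβ s) := by
      rw [← Equiv.sum_comp (Equiv.mulLeft₀ t ht0)
        (fun s => x (t⁻¹ * s) * (f : HP L → E) (z * pt β hβ s))]
      refine Finset.sum_congr rfl fun s _ => ?_
      change _ = x (t⁻¹ * (t * s)) * (f : HP L → E) (z * pt β hβ (t * s))
      rw [inv_mul_cancel_left₀ ht0]
    rw [h6, h7, sub_self]
    rfl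
  have h6 := rt_indep hQ hQE hmu β hβ hV (fun s => x s - x (t⁻¹ * s)) h5 (t * s)
  have h7 : x (t * s) - x (t⁻¹ * (t * s)) = 0 := h6
  rw [inv_mul_cancel_left₀ ht0] at h7
  exact sub_eq_zero.1 h7

theorem norm_eq (t : L) (ht : t ≠ 0) (hgen : ∀ s : L, s * star s = 1 → ∃ k : ℕ, s = t ^ k)
    (x : L → E) (hx : ∀ s, x (t * s) = x s) (s s' : L) (h : s * star s = s' * star s') :
    x s = x s' := by
  have hpow : ∀ (k : ℕ) (s : L), x (t ^ k * s) = x s := by
    intro k
    induction k with
    | zero => intro s; rw [pow_zero, one_mul]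
    | succ k ih => intro s; rw [pow_succ', mul_assoc, hx, ih]
  by_cases h0 : s' = 0
  · rw [h0, zero_mul] at h
    rcases mul_eq_zero.1 h with h1 | h1
    · rw [h1, h0]
    · rw [star_eq_zero.1 h1, h0]
  · have hs0 : star s' ≠ 0 := star_ne_zero.2 h0
    obtain ⟨k, hk⟩ := hgen (s / s') (by
      rw [star_div₀, div_mul_div_comm, h]
      exact div_self (mul_ne_zero h0 hs0))
    have h1 : s = t ^ k * s' := by
      rw [← hk]
      field_simp
    rw [h1, hpow]

theorem comm_aux (β : L) (hβ : β + star β = 1) (y y' : L → E) (f : HP L → E) (z : HP L) :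
    ∑ s, ∑ v, y (s * star s) * y' (v * star v) * f (z * pt β hβ s * pt β hβ v) =
      ∑ s, ∑ v, y (s * star s) * y' (v * star v) * f (z * pt β hβ v * pt β hβ s) := by
  have key : ∀ g : L → L → E,
      ∑ s, ∑ v, y (s * star s) * y' (v * star v) * g s v = ∑ r, ∑ r', y r * y' r' *
        ∑ s ∈ Finset.univ.filter (fun s : L => s * star s = r),
          ∑ v ∈ Finset.univ.filter (fun v : L => v * star v = r'), g s v := by
    intro g
    have h1 : ∀ s, ∑ v, y (s * star s) * y' (v * star v) * g s v =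
        ∑ r', ∑ v ∈ Finset.univ.filter (fun v : L => v * star v = r'),
          y (s * star s) * y' r' * g s v := by
      intro s
      rw [← Finset.sum_fiberwise (s := Finset.univ) (g := fun v : L => v * star v)]
      refine Finset.sum_congr rfl fun r' _ => Finset.sum_congr rfl fun v hv => ?_
      rw [(Finset.mem_filter.1 hv).2]
    simp only [h1]
    rw [← Finset.sum_fiberwise (s := Finset.univ) (g := fun v : L => v * star v)]
    refine Finset.sum_congr rfl fun r _ => ?_
    rw [Finset.sum_comm]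
    refine Finset.sum_congr rfl fun r' _ => ?_
    rw [Finset.mul_sum]
    refine Finset.sum_congr rfl fun s hs => ?_
    rw [Finset.mul_sum]
    refine Finset.sum_congr rfl fun v _ => ?_
    rw [(Finset.mem_filter.1 hs).2]
  rw [key, key]
  refine Finset.sum_congr rfl fun r _ => Finset.sum_congr rfl fun r' _ => ?_
  rw [rad_comm f β hβ r r' z]

theorem comp_apply (mu : HP L → E) (β : L) (hβ : β + star β = 1) (x x' : L → E) (f : Vmu mu)
    (z : HP L) :
    ((((∑ s, x s • rtV mu (pt β hβ s)) * ∑ s, x' s • rtV mu (pt β hβ s)) f : Vmu mu) :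
      HP L → E) z =
      ∑ s, ∑ v, x s * x' v * (f : HP L → E) (z * pt β hβ s * pt β hβ v) := by
  rw [Module.End.mul_apply, sum_apply' mu x (fun s => pt β hβ s)]
  refine Finset.sum_congr rfl fun s _ => ?_
  rw [sum_apply' mu x' (fun s => pt β hβ s), Finset.mul_sum]
  refine Finset.sum_congr rfl fun v _ => ?_
  rw [mul_assoc (x s)]

end UniRepAux

open UniRepAux

variable {L E : Type} [Field L] [Fintype L] [StarRing L] {Q : ℕ} [Field E]

theorem uni_rep (hQ : HermQ L Q) (hQE : (Q : E) ≠ 0) {mu : HP L → E} (hmu : MuOk mu)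
    (f₁ f₂ : HP L → E) (h₁ : f₁ ∈ Vmu mu) (h₂ : f₂ ∈ Vmu mu)
    (hw₁ : ∀ (β : L) (hβ : β + star β = 1) (z : HP L), ∑ ε, f₁ (z * pt β hβ ε) = f₁ z)
    (hw₂ : ∀ (β : L) (hβ : β + star β = 1) (z : HP L), ∑ ε, f₂ (z * pt β hβ ε) = f₂ z)
    (h0 : f₁ ≠ 0) : ∃ c : E, f₂ = c • f₁ := by
  obtain ⟨t, ht1, ht, hgen⟩ := hQ.norm_gen
  have ht0 : t ≠ 0 := by
    rintro rfl
    simp at ht
  have hd : 1 - t ≠ 0 := sub_ne_zero.2 (Ne.symm ht1)
  have hd' : 1 - star t ≠ 0 := by
    intro h
    apply hd
    have := congrArg star h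
    simpa using this
  obtain ⟨β, hβdef⟩ : ∃ β : L, β = 1 / (1 - t) := ⟨_, rfl⟩
  have hstar : star β = -t / (1 - t) := by
    rw [hβdef, star_div₀, star_one, star_sub, star_one, div_eq_div_iff hd' hd]
    linear_combination -ht
  have hβ : β + star β = 1 := by
    rw [hstar, hβdef]
    field_simp
    ring
  have hβt : β * t = - star β := by
    rw [hstar, hβdef]
    field_simp
  have hV : Vmu mu ≠ ⊥ := by
    intro h
    rw [h] at h₁
    exact h0 ((Submodule.mem_bot E).1 h₁)
  have hfin : FiniteDimensional E (Vmu mu) := inferInstance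
  have hcomm : ∀ F G : Module.End E (Vmu mu), F * ww mu β hβ = ww mu β hβ * F →
      G * ww mu β hβ = ww mu β hβ * G → F * G = G * F := by
    intro F G hF hG
    obtain ⟨x, rfl⟩ := span_rt hQ hQE hmu β hβ F
    obtain ⟨x', rfl⟩ := span_rt hQ hQE hmu β hβ G
    have hx := norm_eq t ht0 hgen x (coef_inv hQ hQE hmu β hβ t ht hβt hV x hF)
    have hx' := norm_eq t ht0 hgen x' (coef_inv hQ hQE hmu β hβ t ht hβt hV x' hG)
    let y : L → E := fun r => if h : ∃ s : L, s * star s = r then x h.choose else 0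
    let y' : L → E := fun r => if h : ∃ s : L, s * star s = r then x' h.choose else 0
    have hy : ∀ s, x s = y (s * star s) := by
      intro s
      have h : ∃ s' : L, s' * star s' = s * star s := ⟨s, rfl⟩
      change x s = if h : ∃ s' : L, s' * star s' = s * star s then x h.choose else 0
      rw [dif_pos h]
      exact hx _ _ h.choose_spec.symm
    have hy' : ∀ s, x' s = y' (s * star s) := by
      intro s
      have h : ∃ s' : L, s' * star s' = s * star s := ⟨s, rfl⟩
      change x' s = if h : ∃ s' : L, s' * star s' = s * star s then x' h.choose else 0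
      rw [dif_pos h]
      exact hx' _ _ h.choose_spec.symm
    refine LinearMap.ext fun f => Subtype.ext (funext fun z => ?_)
    rw [comp_apply, comp_apply]
    have e1 : ∑ s, ∑ v, x s * x' v * (f : HP L → E) (z * pt β hβ s * pt β hβ v) =
        ∑ s, ∑ v, y (s * star s) * y' (v * star v) *
          (f : HP L → E) (z * pt β hβ s * pt β hβ v) :=
      Finset.sum_congr rfl fun s _ => Finset.sum_congr rfl fun v _ => by rw [hy s, hy' v]
    rw [e1, comm_aux, Finset.sum_comm]
    refine Finset.sum_congr rfl fun s _ => Finset.sum_congr rfl fun v _ => ?_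
    rw [hy v, hy' s]
    ring
  obtain ⟨c, hc⟩ := two_dep (ww mu β hβ) hcomm ⟨f₁, h₁⟩ ⟨f₂, h₂⟩
    (Subtype.ext (funext fun z => by rw [ww_apply]; exact hw₁ β hβ z))
    (Subtype.ext (funext fun z => by rw [ww_apply]; exact hw₂ β hβ z))
    (fun h => h0 (congrArg Subtype.val h))
  exact ⟨c, congrArg Subtype.val hc⟩

end LTL
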