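import Pool.Agent.Lib.LTL.UniLam
import Pool.Agent.Lib.LTL.UniRep
import Pool.Agent.Lib.LTL.UniBlk

/-!
# Module LTL.UniSub: the code is the full block sum code (MP_61e83e_lc)
-/

set_option autoImplicit false
open Classical

namespace LTL

open P61e83e Pltc

theorem uni_sub {L E : Type} [Field L] [Fintype L] [StarRing L] {Q : ℕ} (hQ : HermQ L Q)
    [Field E] [IsAlgClosed E] (hQE : (Q : E) ≠ 0) (D : Submodule E (Option (HP L) → E)) (q : ℕ)
    (δ : ℝ) (hD : Good D q δ) (hinv : UInv D) (hbig : 2 * (Q : ℝ) ^ 2 < δ * ((Q : ℝ) ^ 3 + 1))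
    {f : Option (HP L) → E} (hf : f ∈ D) {x y : Option (HP L)} (hxy : f x ≠ f y) :
    CTh L E ≤ D := by
  obtain ⟨hQ1, hDT, h1D⟩ := uni_blk hQ hQE D q δ hD hinv hbig hf hxy
  intro c hc
  -- all components are in `D`
  have hcmp : ∀ χ : AddChar (A0 L) E, cmp χ c ∈ D := by
    intro χ
    have hT : cmp χ c ∈ CTh L E := by
      have : cmp χ c =
          ∑ h : A0 L, χ (-h) • fun z : Option (HP L) => c (z.map fun z => h.g * z) := by
        funext z
        rw [Finset.sum_apply]
        rfl
      rw [this]
      exact (CTh L E).sum_mem fun h _ => (CTh L E).smul_mem _ (cth_mul c hc h.g)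
    have hV : ∀ g z : HP L, star g.x = g.x →
        cmp χ c (some (g * z)) = nu χ g * cmp χ c (some z) := cmp_mem χ c
    by_cases hχ : ∃ (b : L) (hb : b + star b = 0), χ (zA b hb) ≠ 1
    · obtain ⟨d, hd, hdn, hdV, z₁, hz₁⟩ := uni_lam hQ hQE D q δ hD hinv hf hxy χ hχ
      have hχ1 : χ ≠ 1 := by
        rintro rfl
        obtain ⟨b, hb, h⟩ := hχ
        exact h rfl
      obtain ⟨k, hk⟩ := uni_rep hQ hQE (nu_ok χ hχ) (fun z => d (some z))
        (fun z => cmp χ c (some z)) hdV (cmp_mem χ c)
        (fun β hβ z => op_fix d (hDT hd) β hβ z) (fun β hβ z => op_fix _ hT β hβ z)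
        (fun h => hz₁ (congrFun h z₁))
      have : cmp χ c = k • d := by
        funext z
        cases z with
        | none =>
          rw [cmp_none χ hχ1, Pi.smul_apply, hdn, smul_zero]
        | some z => exact congrFun hk z
      rw [this]
      exact D.smul_mem _ hd
    · push Not at hχ
      have hQ' : (Q : E) = -1 := by linear_combination hQ1
      have hconst : ∀ z : HP L, cmp χ c (some z) = cmp χ c none := by
        intro z
        have h2 := hT.1 z.x
        have h3 : ∀ w ∈ vbl z.x, cmp χ c (some w) = cmp χ c (some z) := by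
          intro w hw
          have hwx : w.x = z.x := (mem_vbl _ _).1 hw
          have hb : (w.y - z.y) + star (w.y - z.y) = 0 := by
            rw [star_sub]
            have h4 := w.h
            have h5 := z.h
            rw [hwx] at h4
            linear_combination h4 - h5
          have hw' : w = zc (w.y - z.y) hb * z := by
            ext
            · simp [zc, hwx]
            · simp [zc]
          have hx : star (zc (w.y - z.y) hb).x = (zc (w.y - z.y) hb).x := by simp [zc]
          have h6 := hV (zc (w.y - z.y) hb) z hx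
          rw [← hw'] at h6
          rw [h6, nu, dif_pos hx]
          have h7 : χ (⟨zc (w.y - z.y) hb, hx⟩ : A0 L) = 1 := hχ (w.y - z.y) hb
          rw [h7, one_mul]
        rw [Finset.sum_congr rfl h3, Finset.sum_const, hQ.vbl_card, nsmul_eq_mul, hQ'] at h2
        linear_combination -h2
      have : cmp χ c = cmp χ c none • fun _ => (1 : E) := by
        funext z
        rw [Pi.smul_apply, smul_eq_mul, mul_one]
        cases z with
        | none => rfl
        | some z => exact hconst z
      rw [this]
      exact D.smul_mem _ h1D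
  have hsum : ((Q : E) ^ 2) • c = ∑ χ : AddChar (A0 L) E, cmp χ c := by
    funext z
    rw [Finset.sum_apply, Pi.smul_apply, smul_eq_mul]
    exact (sum_cmp hQ hQE c z).symm
  have h2 : ((Q : E) ^ 2) • c ∈ D := by
    rw [hsum]
    exact D.sum_mem fun χ _ => hcmp χ
  exact (D.smul_mem_iff (pow_ne_zero 2 hQE)).1 h2

end LTL
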