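import Mathlib

/-!
# Module LTL.Zeros: zeros of `a h^(1/σ) + b h + c h^σ` (MP_61e83e_lc)

`K` is a finite field and `σ` an automorphism with `σ (σ x) = x ^ p`, `p ≥ 2`; put `τ = σ⁻¹`.

PROOF of `zeros_le`. `Fix σ = {t : σ t = t}` has at most `p` elements: `σ t = t` implies `t ^ p = t`,
and `X ^ p - X ≠ 0` has at most `p` roots. Let `N` be the set of the zeros of
`f h = a * τ h + b * h + c * σ h` (an additive map). If `N = {0}` there is nothing to prove. Let
`w ∈ N`, `w ≠ 0`; every element of `N` is `w t`, `t ∈ K`. From `f (w t) = 0` and `t * f w = 0`: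
`a (τ w) (τ t - t) + c (σ w) (σ t - t) = 0`. Put `r = τ t - t`; then `σ r = t - σ t`. So
`a (τ w) r = c (σ w) (σ r)`.
If `c = 0` and `a ≠ 0`, or `a = 0` and `c ≠ 0`: `r = 0` (`σ` injective), `σ t = t`: at most `p`
values of `t`. If `a = c = 0` then `b ≠ 0` and `N = {0}`. If `a, c ≠ 0`: `σ r = k r` with a constant
`k ≠ 0`; two nonzero solutions `r₁, r₂` have `σ (r₁ / r₂) = r₁ / r₂`, so there are at most
`1 + (p - 1) = p` solutions `r` (the nonzero solutions are `r₁ s`, `s ∈ Fix σ`, `s ≠ 0`, and also
`0 = r₁ 0`: so all solutions are `r₁ s`, `s ∈ Fix σ`); for every `r` the solutions `t` of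
`τ t - t = r` form a coset of `Fix σ` or the empty set: at most `p`. Together at most `p ^ 2`.
`affine_le`: the difference of two solutions of `f h = d` is a zero of `f`.
-/

set_option autoImplicit false
open Classical

namespace LTL

private lemma fix_le {K : Type} [Field K] [Fintype K] (p : ℕ) (hp : 2 ≤ p) (σ : K ≃+* K)
    (hσ : ∀ x, σ (σ x) = x ^ p) :
    (Finset.univ.filter fun t : K => σ t = t).card ≤ p := by
  set P : Polynomial K := Polynomial.X ^ p - Polynomial.X with hP
  have hP0 : P ≠ 0 := FiniteField.X_pow_card_sub_X_ne_zero K (by omega)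
  have hdeg : P.natDegree = p := FiniteField.X_pow_card_sub_X_natDegree_eq K (by omega)
  calc (Finset.univ.filter fun t : K => σ t = t).card ≤ P.roots.toFinset.card := by
        apply Finset.card_le_card
        intro t ht
        rw [Finset.mem_filter] at ht
        rw [Multiset.mem_toFinset, Polynomial.mem_roots hP0, Polynomial.IsRoot.def, hP]
        have h1 := hσ t
        rw [ht.2, ht.2] at h1
        simp [← h1]
    _ ≤ Multiset.card P.roots := Multiset.toFinset_card_le _
    _ ≤ P.natDegree := Polynomial.card_roots' P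
    _ = p := hdeg

private lemma fib_le {K : Type} [Field K] [Fintype K] (p : ℕ) (hp : 2 ≤ p) (σ : K ≃+* K)
    (hσ : ∀ x, σ (σ x) = x ^ p) (r : K) :
    (Finset.univ.filter fun t : K => σ.symm t - t = r).card ≤ p := by
  rcases (Finset.univ.filter fun t : K => σ.symm t - t = r).eq_empty_or_nonempty with h | ⟨t₀, h0⟩
  · rw [h]
    simp
  · rw [Finset.mem_filter] at h0
    refine le_trans (Finset.card_le_card_of_injOn (fun t => t - t₀) ?_ ?_) (fix_le p hp σ hσ)
    · intro t ht
      simp only [Finset.coe_filter, Finset.mem_univ, true_and, Set.mem_setOf_eq] at ht ⊢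
      have h1 : σ.symm (t - t₀) = t - t₀ := by
        rw [map_sub]
        linear_combination ht - h0.2
      have h2 := congrArg σ h1
      rw [RingEquiv.apply_symm_apply] at h2
      exact h2.symm
    · intro x _ y _ hxy
      exact sub_left_injective hxy

/-- the zeros, all multiples of one of them -/
private lemma zeros_le' {K : Type} [Field K] [Fintype K] (p : ℕ) (hp : 2 ≤ p) (σ : K ≃+* K)
    (hσ : ∀ x, σ (σ x) = x ^ p) (A C : K) (h : ¬ (A = 0 ∧ C = 0)) :
    (Finset.univ.filter fun t : K => A * (σ.symm t - t) + C * (σ t - t) = 0).card ≤ p ^ 2 := by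
  -- the values `r`
  have hr : ∀ t : K, A * (σ.symm t - t) + C * (σ t - t) = 0 →
      A * (σ.symm t - t) = C * σ (σ.symm t - t) := by
    intro t ht
    rw [map_sub, RingEquiv.apply_symm_apply]
    linear_combination ht
  have hR : (Finset.univ.filter fun r : K => A * r = C * σ r).card ≤ p := by
    by_cases hC : C = 0
    · have hA : A ≠ 0 := fun h' => h ⟨h', hC⟩
      refine le_trans (Finset.card_le_card (t := {0}) ?_) (by simp; omega)
      intro r hr'
      simp only [Finset.mem_filter, Finset.mem_univ, true_and, hC, zero_mul, mul_eq_zero, hA,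
        false_or] at hr'
      simp [hr']
    · by_cases hex : ∃ r₁ : K, r₁ ≠ 0 ∧ A * r₁ = C * σ r₁
      · obtain ⟨r₁, h1, h2⟩ := hex
        refine le_trans (Finset.card_le_card_of_injOn (fun r => r / r₁) ?_ ?_) (fix_le p hp σ hσ)
        · intro r hr'
          simp only [Finset.coe_filter, Finset.mem_univ, true_and, Set.mem_setOf_eq] at hr' ⊢
          have h3 : σ r₁ ≠ 0 := by
            rw [ne_eq, EmbeddingLike.map_eq_zero_iff]
            exact h1
          rw [map_div₀, div_eq_div_iff h3 h1]
          apply mul_left_cancel₀ hC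
          linear_combination (-r₁) * hr' + r * h2
        · intro x _ y _ hxy
          exact (div_left_inj' h1).1 hxy
      · push Not at hex
        refine le_trans (Finset.card_le_card (t := {0}) ?_) (by simp; omega)
        intro r hr'
        simp only [Finset.mem_filter, Finset.mem_univ, true_and] at hr'
        by_contra hne
        exact hex r (by simpa using hne) hr'
  calc (Finset.univ.filter fun t : K => A * (σ.symm t - t) + C * (σ t - t) = 0).card
      ≤ ((Finset.univ.filter fun r : K => A * r = C * σ r).biUnion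
          fun r => Finset.univ.filter fun t : K => σ.symm t - t = r).card := by
        apply Finset.card_le_card
        intro t ht
        rw [Finset.mem_filter] at ht
        simp only [Finset.mem_biUnion, Finset.mem_filter, Finset.mem_univ, true_and]
        exact ⟨_, hr t ht.2, rfl⟩
    _ ≤ ∑ r ∈ Finset.univ.filter fun r : K => A * r = C * σ r,
          (Finset.univ.filter fun t : K => σ.symm t - t = r).card := Finset.card_biUnion_le
    _ ≤ ∑ _r ∈ Finset.univ.filter fun r : K => A * r = C * σ r, p :=
        Finset.sum_le_sum fun r _ => fib_le p hp σ hσ r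
    _ = (Finset.univ.filter fun r : K => A * r = C * σ r).card * p := by simp
    _ ≤ p * p := Nat.mul_le_mul_right _ hR
    _ = p ^ 2 := by ring

theorem zeros_le {K : Type} [Field K] [Fintype K] (p : ℕ) (hp : 2 ≤ p) (σ : K ≃+* K)
    (hσ : ∀ x, σ (σ x) = x ^ p) (a b c : K) (h : ¬ (a = 0 ∧ b = 0 ∧ c = 0)) :
    (Finset.univ.filter fun h : K => a * σ.symm h + b * h + c * σ h = 0).card ≤ p ^ 2 := by
  by_cases hex : ∃ w : K, w ≠ 0 ∧ a * σ.symm w + b * w + c * σ w = 0
  · obtain ⟨w, hw, hw0⟩ := hex
    have hs : σ w ≠ 0 := by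
      rw [ne_eq, EmbeddingLike.map_eq_zero_iff]
      exact hw
    have hs' : σ.symm w ≠ 0 := by
      rw [ne_eq, EmbeddingLike.map_eq_zero_iff]
      exact hw
    have hac : ¬ (a * σ.symm w = 0 ∧ c * σ w = 0) := by
      rintro ⟨h1, h2⟩
      have ha : a = 0 := by simpa [hs'] using h1
      have hc : c = 0 := by simpa [hs] using h2
      have hb : b = 0 := by
        rw [ha, hc] at hw0
        simpa [hw] using hw0
      exact h ⟨ha, hb, hc⟩
    refine le_trans (Finset.card_le_card_of_injOn (fun x => x / w) ?_ ?_)
      (zeros_le' p hp σ hσ (a * σ.symm w) (c * σ w) hac)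
    · intro x hx
      simp only [Finset.coe_filter, Finset.mem_univ, true_and, Set.mem_setOf_eq] at hx ⊢
      rw [map_div₀, map_div₀]
      field_simp
      linear_combination w * hx - x * hw0
    · intro x _ y _ hxy
      exact (div_left_inj' hw).1 hxy
  · push Not at hex
    refine le_trans (Finset.card_le_card (t := {0}) ?_) ?_
    · intro x hx
      rw [Finset.mem_filter] at hx
      by_contra hne
      exact hex x (by simpa using hne) hx.2
    · simp only [Finset.card_singleton]
      exact Nat.one_le_pow _ _ (by omega)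

theorem affine_le {K : Type} [Field K] [Fintype K] (p : ℕ) (hp : 2 ≤ p) (σ : K ≃+* K)
    (hσ : ∀ x, σ (σ x) = x ^ p) (a b c d : K) (h : ¬ (a = 0 ∧ b = 0 ∧ c = 0)) :
    (Finset.univ.filter fun h : K => a * σ.symm h + b * h + c * σ h = d).card ≤ p ^ 2 := by
  rcases (Finset.univ.filter fun h : K => a * σ.symm h + b * h + c * σ h = d).eq_empty_or_nonempty
    with he | ⟨x₀, h0⟩
  · rw [he]
    simp
  · rw [Finset.mem_filter] at h0
    refine le_trans (Finset.card_le_card_of_injOn (fun x => x - x₀) ?_ ?_)
      (zeros_le p hp σ hσ a b c h)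
    · intro x hx
      simp only [Finset.coe_filter, Finset.mem_univ, true_and, Set.mem_setOf_eq] at hx ⊢
      rw [map_sub, map_sub]
      linear_combination hx - h0.2
    · intro x _ y _ hxy
      exact sub_left_injective hxy

end LTL
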